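import Pool.Agent.MP_c130bd_co.RVM.Fin

set_option autoImplicit false

namespace Pool.Agent.RVM

/-! ## [RVM-LATR] the integer relations between the Radon numbers -/

theorem latr_span {n : ℕ} (H : AddSubgroup (Fin n → ℤ)) (b : Fin n → Fin n)
    (h : ∀ j, (Pi.single j (1 : ℤ) - Pi.single (b j) (1 : ℤ) : Fin n → ℤ) ∈ H) (x : Fin n → ℤ)
    (hb : ∀ k, ∑ j, (if b j = k then x j else 0) = 0) : x ∈ H := by
  have e : x = ∑ j, x j • (Pi.single j (1 : ℤ) - Pi.single (b j) (1 : ℤ) : Fin n → ℤ) := by
    funext k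
    rw [Finset.sum_apply]
    have h1 : ∀ j, (x j • (Pi.single j (1 : ℤ) - Pi.single (b j) (1 : ℤ) : Fin n → ℤ)) k =
        (if k = j then x j else 0) - (if b j = k then x j else 0) := by
      intro j
      simp only [Pi.smul_apply, Pi.sub_apply, smul_eq_mul, Pi.single_apply]
      have e2 : (if b j = k then x j else 0) = if k = b j then x j else 0 := if_congr eq_comm rfl rfl
      rw [e2]
      split_ifs <;> ring
    rw [Finset.sum_congr rfl fun j _ => h1 j, Finset.sum_sub_distrib, hb k, sub_zero]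
    simp
  rw [e]
  exact sum_mem fun j _ => H.zsmul_mem (h j) (x j)

/-- the vector `e_[m]` -/
def latrV (s m : ℕ) : Fin (s / 2) → ℤ := fun j => tR s ((j : ℕ) + 1) m

theorem latrV_single (s m : ℕ) (hm : 1 ≤ m) (hm2 : m ≤ s / 2) :
    latrV s m = Pi.single (⟨m - 1, by omega⟩ : Fin (s / 2)) (1 : ℤ) := by
  funext k
  have hk := k.2
  rw [Pi.single_apply]
  unfold latrV tR
  apply if_congr _ rfl rfl
  rw [Fin.ext_iff]
  simp only
  omega

theorem latrV_symm (s m : ℕ) (hm : m ≤ s) : latrV s (s - m) = latrV s m := by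
  funext k
  unfold latrV tR
  apply if_congr _ rfl rfl
  omega

theorem latrV_exists (s m : ℕ) (hm : 1 ≤ m) (hm2 : m + 1 ≤ s) :
    ∃ m' : ℕ, 1 ≤ m' ∧ m' ≤ s / 2 ∧ (m' = m ∨ m' + m = s) ∧ latrV s m = latrV s m' := by
  by_cases h : m ≤ s / 2
  · exact ⟨m, hm, h, Or.inl rfl, rfl⟩
  · exact ⟨s - m, by omega, by omega, Or.inr (by omega), (latrV_symm s m (by omega)).symm⟩

theorem latr_par {n : ℕ} (x : Fin n → ℤ) (h0 : ∑ j, x j = 0) (h1 : ∑ j : Fin n, (-1) ^ (j : ℕ) * x j = 0) (k : ℕ) :
    ∑ j : Fin n, (if (j : ℕ) % 2 = k % 2 then x j else 0) = 0 := by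
  have h2 : 2 * ∑ j : Fin n, (if (j : ℕ) % 2 = k % 2 then x j else 0) =
      ∑ j, x j + (-1) ^ k * ∑ j : Fin n, (-1) ^ (j : ℕ) * x j := by
    rw [Finset.mul_sum, Finset.mul_sum, ← Finset.sum_add_distrib]
    apply Finset.sum_congr rfl
    intro j _
    rcases Nat.even_or_odd (j : ℕ) with hj | hj <;> rcases Nat.even_or_odd k with hk | hk
    · rw [if_pos (by rw [Nat.even_iff.1 hj, Nat.even_iff.1 hk]), hj.neg_one_pow, hk.neg_one_pow]
      ring
    · rw [if_neg (by rw [Nat.even_iff.1 hj, Nat.odd_iff.1 hk]; norm_num), hj.neg_one_pow, hk.neg_one_pow]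
      ring
    · rw [if_neg (by rw [Nat.odd_iff.1 hj, Nat.even_iff.1 hk]; norm_num), hj.neg_one_pow, hk.neg_one_pow]
      ring
    · rw [if_pos (by rw [Nat.odd_iff.1 hj, Nat.odd_iff.1 hk]), hj.neg_one_pow, hk.neg_one_pow]
      ring
  rw [h0, h1] at h2
  linarith

/-- the two conditions -/
def latrC (d s : ℕ) (x : Fin (s / 2) → ℤ) : Prop :=
  ∑ j, x j = 0 ∧ (Odd d → Even s → ∑ j : Fin (s / 2), (-1) ^ (j : ℕ) * x j = 0)

theorem latrC_zero (d s : ℕ) : latrC d s 0 := ⟨by simp, fun _ _ => by simp⟩

theorem latrC_add {d s : ℕ} {a b : Fin (s / 2) → ℤ} (ha : latrC d s a) (hb : latrC d s b) : latrC d s (a + b) := by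
  refine ⟨?_, fun h1 h2 => ?_⟩
  · simp only [Pi.add_apply]
    rw [Finset.sum_add_distrib, ha.1, hb.1, add_zero]
  · simp only [Pi.add_apply, mul_add]
    rw [Finset.sum_add_distrib, ha.2 h1 h2, hb.2 h1 h2, add_zero]

theorem latrC_neg {d s : ℕ} {a : Fin (s / 2) → ℤ} (ha : latrC d s a) : latrC d s (-a) := by
  refine ⟨?_, fun h1 h2 => ?_⟩
  · simp only [Pi.neg_apply]
    rw [Finset.sum_neg_distrib, ha.1, neg_zero]
  · simp only [Pi.neg_apply, mul_neg]
    rw [Finset.sum_neg_distrib, ha.2 h1 h2, neg_zero]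

theorem latrV_sum (s m : ℕ) (hm : 1 ≤ m) (hm2 : m + 1 ≤ s) :
    ∑ j, latrV s m j = 1 ∧ (Even s → ∑ j : Fin (s / 2), (-1) ^ (j : ℕ) * latrV s m j = -(-1) ^ m) := by
  obtain ⟨m', h1, h2, h3, h4⟩ := latrV_exists s m hm hm2
  rw [h4, latrV_single s m' h1 h2]
  refine ⟨by simp, fun he => ?_⟩
  simp only [Pi.single_apply, mul_ite, mul_one, mul_zero, Finset.sum_ite_eq', Finset.mem_univ, if_true]
  obtain ⟨k, rfl⟩ : ∃ k, m' = k + 1 := ⟨m' - 1, by omega⟩
  rw [Nat.add_sub_cancel]
  have h5 : (-1 : ℤ) ^ (k + 1) = (-1) ^ m := by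
    rcases h3 with h3 | h3
    · rw [h3]
    · have h6 : (-1 : ℤ) ^ (k + 1 + m) = 1 := by rw [h3]; exact he.neg_one_pow
      rw [pow_add] at h6
      rcases neg_one_pow_eq_or ℤ m with h7 | h7 <;> rw [h7] at h6 ⊢ <;> linarith
  rw [← h5, pow_succ]
  ring

theorem latr_step {d s : ℕ} (hs : d + 2 ≤ s) {S S' : Finset (E d)} (h : Step d s S S') :
    latrC d s (fun j : Fin (s / 2) => (rr S' ((j : ℕ) + 1) : ℤ) - rr S ((j : ℕ) + 1)) := by
  obtain ⟨_, _, _, _, h | ⟨q, u, w, hq, hqd, huw, _, hm⟩⟩ := h
  · have e : (fun j : Fin (s / 2) => (rr S' ((j : ℕ) + 1) : ℤ) - rr S ((j : ℕ) + 1)) = 0 := by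
      funext j
      simp [h.2]
    rw [e]
    exact latrC_zero d s
  · have e : (fun j : Fin (s / 2) => (rr S' ((j : ℕ) + 1) : ℤ) - rr S ((j : ℕ) + 1)) =
        latrV s (q + w) + -latrV s (q + u) := by
      funext j
      rw [hm]
      simp only [latrV, Pi.add_apply, Pi.neg_apply]
      ring
    rw [e]
    have h1 := latrV_sum s (q + w) (by omega) (by omega)
    have h2 := latrV_sum s (q + u) (by omega) (by omega)
    refine ⟨?_, fun ho he => ?_⟩
    · simp only [Pi.add_apply, Pi.neg_apply]
      rw [Finset.sum_add_distrib, Finset.sum_neg_distrib, h1.1, h2.1]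
      norm_num
    · simp only [Pi.add_apply, Pi.neg_apply, mul_add, mul_neg]
      rw [Finset.sum_add_distrib, Finset.sum_neg_distrib, h1.2 he, h2.2 he]
      have h3 : Even ((q + w) + (q + u)) := by
        obtain ⟨a, ha⟩ := ho
        obtain ⟨b, hb⟩ := he
        exact ⟨q + (b - a - 1), by omega⟩
      have h4 : (-1 : ℤ) ^ (q + w) * (-1) ^ (q + u) = 1 := by rw [← pow_add]; exact h3.neg_one_pow
      rcases neg_one_pow_eq_or ℤ (q + w) with h7 | h7 <;> rw [h7] at h4 ⊢ <;> linarith

/-- **All the integer relations between the Radon numbers.** The group generated by the differences of the Radon vectors.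

Proof. Write `[j]` for `min j (s - j)` (`1 ≤ j ≤ s - 1`), so `tR s i j = 1` iff `i = [j]` (for `1 ≤ i ≤ s / 2`), otherwise `0`.
`→`: by `conn` (induction over the chain) `rr S' - rr S` is a sum of vectors `e_[q+w] - e_[q+u]`, `1 ≤ q ≤ d`, `u + w + d + 1 = s` (`Step`, `MoveOf`;
`1 ≤ q + w, q + u ≤ s - 1`); the sum of such a vector is `0`, and if `d` is odd and `s` is even, then `q + w ≡ q + u` and `j ≡ s - j` mod `2`, so the alternating sum is `0`.
`←`: `occ` gives `e_[q+w] - e_[q+u] ∈` closure for all `1 ≤ q ≤ d`, `u + w = s - d - 1`. Let `a < s / 2`.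
(1) `d` even: if `a ≥ d / 2`, take `q = d / 2`, `w = a - d / 2`: `q + u = s - a - 1`, so `e_a - e_(a+1) ∈` closure. If `1 ≤ a < d / 2`, take `q = a`, `w = 0`:
`e_a - e_[d+1-a]`, and `[d + 1 - a] > a`, since `d + 1 - a > a` and `s - (d + 1 - a) > a`. By downward induction on `a` all the `e_a - e_(s/2)` are in the closure.
(2) `d` odd (`d ≥ 3`): if `a ≥ (d - 1) / 2`, take `q = (d - 1) / 2`, `w = a - q` (`a ≤ s / 2`, so `w ≤ s - d - 1`, unless `a` is larger; for `a = s / 2` there is nothing to do):
`q + u = s - a - 2`, so `e_a - e_[a+2] ∈` closure (for `a + 2 ≤ s / 2` this is `e_a - e_(a+2)`; for `s` odd and `a = (s - 1) / 2` it is `e_a - e_(a-1)`). If `1 ≤ a < (d - 1) / 2`, `q = a`, `w = 0`: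
`e_a - e_[d+1-a]` with `[d + 1 - a] > a`. So every `e_a` is congruent to `e_b` with `b = s / 2` or `b = s / 2 - 1` modulo the closure; for odd `s` these two are congruent
(`a = (s - 1) / 2 = s / 2`, if it is `≥ (d - 1) / 2 + …`, which holds as `s ≥ d + 2`), for even `s` `b ≡ a` mod `2`. Hence the claim (the two conditions say that the sums over the even and over the odd indices are `0`). -/
theorem lat_R {d s : ℕ} (hd : 2 ≤ d) (hs : d + 2 ≤ s) (x : Fin (s / 2) → ℤ) :
    x ∈ AddSubgroup.closure {y : Fin (s / 2) → ℤ | ∃ S S' : Finset (E d), GP S ∧ GP S' ∧ S.card = s ∧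
      S'.card = s ∧ y = fun j : Fin (s / 2) => (rr S' ((j : ℕ) + 1) : ℤ) - rr S ((j : ℕ) + 1)} ↔
    ∑ j, x j = 0 ∧ (Odd d → Even s → ∑ j : Fin (s / 2), (-1) ^ (j : ℕ) * x j = 0) := by
  constructor
  · intro hx
    show latrC d s x
    induction hx using AddSubgroup.closure_induction with
    | mem y hy =>
      obtain ⟨S, S', hS, hS', hc, hc', rfl⟩ := hy
      have hch := conn (by omega : 1 ≤ d) hs hS hS' hc hc'
      clear hS' hc'
      induction hch with
      | refl =>
        simp only [sub_self]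
        exact latrC_zero d s
      | tail h1 h2 ih =>
        have h3 := latrC_add ih (latr_step hs h2)
        convert h3 using 1
        funext j
        simp only [Pi.add_apply]
        ring
    | zero => exact latrC_zero d s
    | add a b _ _ ha hb => exact latrC_add ha hb
    | neg a _ ha => exact latrC_neg ha
  · rintro ⟨hx0, hx1⟩
    set H := AddSubgroup.closure {y : Fin (s / 2) → ℤ | ∃ S S' : Finset (E d), GP S ∧ GP S' ∧ S.card = s ∧
      S'.card = s ∧ y = fun j : Fin (s / 2) => (rr S' ((j : ℕ) + 1) : ℤ) - rr S ((j : ℕ) + 1)} with hH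
    have key : ∀ a q : ℕ, 1 ≤ q → q ≤ d → q ≤ a → a ≤ q + (s - d - 1) →
        latrV s a - latrV s (a + d + 1 - 2 * q) ∈ H := by
      intro a q hq hqd hqa ha
      obtain ⟨S, S', hS, hS', hc, hc', _, hm⟩ := occ (by omega : 1 ≤ d) s q (s - d - 1 - (a - q)) (a - q) hq hqd
        (by omega) (by omega)
      rw [hH]
      apply AddSubgroup.subset_closure
      refine ⟨S, S', hS, hS', hc, hc', ?_⟩
      have e1 : latrV s (a + d + 1 - 2 * q) = latrV s (q + (s - d - 1 - (a - q))) := by
        rw [← latrV_symm s (q + (s - d - 1 - (a - q))) (by omega)]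
        congr 1
        omega
      have e2 : q + (a - q) = a := by omega
      rw [e1]
      funext k
      rw [hm, e2]
      simp only [latrV, Pi.sub_apply]
      ring
    have low : ∀ a : ℕ, 1 ≤ a → 2 * a ≤ d → ∃ a' : ℕ, a < a' ∧ a' ≤ s / 2 ∧ (Odd d → Even s → a' % 2 = a % 2) ∧
        latrV s a - latrV s a' ∈ H := by
      intro a ha had
      have h1 := key a a ha (by omega) le_rfl (by omega)
      obtain ⟨m', h2, h3, h4, h5⟩ := latrV_exists s (a + d + 1 - 2 * a) (by omega) (by omega)
      rw [h5] at h1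
      refine ⟨m', by omega, h3, ?_, h1⟩
      rintro ⟨a1, ha1⟩ ⟨b1, hb1⟩
      omega
    have hsingle : ∀ (a b : ℕ) (ha : 1 ≤ a) (ha2 : a ≤ s / 2) (hb : 1 ≤ b) (hb2 : b ≤ s / 2), latrV s a - latrV s b ∈ H →
        (Pi.single (⟨a - 1, by omega⟩ : Fin (s / 2)) (1 : ℤ) - Pi.single (⟨b - 1, by omega⟩ : Fin (s / 2)) (1 : ℤ) :
          Fin (s / 2) → ℤ) ∈ H := by
      intro a b ha ha2 hb hb2 h
      rwa [latrV_single s a ha ha2, latrV_single s b hb hb2] at h
    by_cases hcase : Odd d ∧ Even s
    · obtain ⟨ho, he⟩ := hcase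
      have hxp := hx1 ho he
      obtain ⟨h, hh⟩ := ho
      obtain ⟨k, hk⟩ := he
      have red : ∀ t a : ℕ, 1 ≤ a → a + t = s / 2 → ∃ b : ℕ, (b = s / 2 ∨ b = s / 2 - 1) ∧ b % 2 = a % 2 ∧
          latrV s a - latrV s b ∈ H := by
        intro t
        induction t using Nat.strong_induction_on with
        | _ t ih =>
          intro a ha hat
          by_cases ht : t ≤ 1
          · exact ⟨a, by omega, rfl, by rw [sub_self]; exact H.zero_mem⟩
          by_cases hah : a < h
          · obtain ⟨a', h1, h2, h3, h4⟩ := low a ha (by omega)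
            obtain ⟨b, h5, h6, h7⟩ := ih (s / 2 - a') (by omega) a' (by omega) (by omega)
            refine ⟨b, h5, by rw [h6, h3 ⟨h, hh⟩ ⟨k, hk⟩], ?_⟩
            have h8 := H.add_mem h4 h7
            rwa [sub_add_sub_cancel] at h8
          · have h4 := key a h (by omega) (by omega) (by omega) (by omega)
            have h9 : a + d + 1 - 2 * h = a + 2 := by omega
            rw [h9] at h4
            obtain ⟨b, h5, h6, h7⟩ := ih (t - 2) (by omega) (a + 2) (by omega) (by omega)
            refine ⟨b, h5, by omega, ?_⟩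
            have h8 := H.add_mem h4 h7
            rwa [sub_add_sub_cancel] at h8
      have hb : ∀ j : Fin (s / 2), ∃ b : Fin (s / 2), ((b : ℕ) = s / 2 - 1 ∨ (b : ℕ) = s / 2 - 2) ∧ (b : ℕ) % 2 = (j : ℕ) % 2 ∧
          (Pi.single j (1 : ℤ) - Pi.single b (1 : ℤ) : Fin (s / 2) → ℤ) ∈ H := by
        intro j
        have hj := j.2
        obtain ⟨b, h5, h6, h7⟩ := red (s / 2 - ((j : ℕ) + 1)) ((j : ℕ) + 1) (by omega) (by omega)
        have h8 := hsingle ((j : ℕ) + 1) b (by omega) (by omega) (by omega) (by omega) h7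
        exact ⟨⟨b - 1, by omega⟩, by simp only; omega, by simp only; omega, h8⟩
      choose b hb1 hb2 hb3 using hb
      refine latr_span H b hb3 x ?_
      intro k'
      have hk' := k'.2
      by_cases h1 : (k' : ℕ) = s / 2 - 1 ∨ (k' : ℕ) = s / 2 - 2
      · refine Eq.trans ?_ (latr_par x hx0 hxp (k' : ℕ))
        apply Finset.sum_congr rfl
        intro j _
        apply if_congr _ rfl rfl
        have h2 := hb1 j
        have h3 := hb2 j
        rw [Fin.ext_iff]
        omega
      · apply Finset.sum_eq_zero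
        intro j _
        rw [if_neg]
        intro h2
        have h3 := hb1 j
        rw [h2] at h3
        exact h1 h3
    · have red : ∀ t a : ℕ, 1 ≤ a → a + t = s / 2 → latrV s a - latrV s (s / 2) ∈ H := by
        intro t
        induction t using Nat.strong_induction_on with
        | _ t ih =>
          intro a ha hat
          by_cases ht : t = 0
          · have h1 : a = s / 2 := by omega
            rw [h1, sub_self]
            exact H.zero_mem
          rcases Nat.even_or_odd d with he | ho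
          · obtain ⟨h, hh⟩ := he
            by_cases hah : a < h
            · obtain ⟨a', h1, h2, _, h4⟩ := low a ha (by omega)
              have h7 := ih (s / 2 - a') (by omega) a' (by omega) (by omega)
              have h8 := H.add_mem h4 h7
              rwa [sub_add_sub_cancel] at h8
            · have h4 := key a h (by omega) (by omega) (by omega) (by omega)
              have h9 : a + d + 1 - 2 * h = a + 1 := by omega
              rw [h9] at h4
              have h7 := ih (t - 1) (by omega) (a + 1) (by omega) (by omega)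
              have h8 := H.add_mem h4 h7
              rwa [sub_add_sub_cancel] at h8
          · have hso : Odd s := by
              rcases Nat.even_or_odd s with h1 | h1
              · exact absurd ⟨ho, h1⟩ hcase
              · exact h1
            obtain ⟨h, hh⟩ := ho
            obtain ⟨k, hk⟩ := hso
            by_cases ht1 : t = 1
            · have h4 := key (s / 2) h (by omega) (by omega) (by omega) (by omega)
              have h9 : s / 2 + d + 1 - 2 * h = s - a := by omega
              rw [h9, latrV_symm s a (by omega)] at h4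
              have h8 := H.neg_mem h4
              rwa [neg_sub] at h8
            by_cases hah : a < h
            · obtain ⟨a', h1, h2, _, h4⟩ := low a ha (by omega)
              have h7 := ih (s / 2 - a') (by omega) a' (by omega) (by omega)
              have h8 := H.add_mem h4 h7
              rwa [sub_add_sub_cancel] at h8
            · have h4 := key a h (by omega) (by omega) (by omega) (by omega)
              have h9 : a + d + 1 - 2 * h = a + 2 := by omega
              rw [h9] at h4
              have h7 := ih (t - 2) (by omega) (a + 2) (by omega) (by omega)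
              have h8 := H.add_mem h4 h7
              rwa [sub_add_sub_cancel] at h8
      refine latr_span H (fun _ => ⟨s / 2 - 1, by omega⟩) ?_ x ?_
      · intro j
        have hj := j.2
        exact hsingle ((j : ℕ) + 1) (s / 2) (by omega) (by omega) (by omega) le_rfl
          (red (s / 2 - ((j : ℕ) + 1)) ((j : ℕ) + 1) (by omega) (by omega))
      · intro k
        by_cases h1 : (⟨s / 2 - 1, by omega⟩ : Fin (s / 2)) = k
        · simp only [h1, if_true]
          exact hx0
        · simp only [h1, if_false]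
          simp

end Pool.Agent.RVM
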