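import Pool.Agent.MP_c130bd_co.RVM.Link

set_option autoImplicit false

namespace Pool.Agent.RVM

variable {d : ℕ} {ι : Type*} [Fintype ι] [DecidableEq ι]

/-! ## [RVM-LINKP] -/

theorem LinkP_supp {p : ι → E d} (hp : GPc p) (hι : d + 1 ≤ Fintype.card ι) {c : ι → ℝ}
    (hc : Dep p c) (h0 : c ≠ 0) : d + 2 ≤ (Finset.univ.filter fun j => c j ≠ 0).card := by
  by_contra hlt
  push Not at hlt
  obtain ⟨I, hI, hIJ⟩ := Link_enum (d := d) hι (Finset.univ.filter fun j => c j ≠ 0) (by omega)
  have h1 : ∑ r, c (I r) • hv (p (I r)) = 0 := by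
    have h2 : ∑ r, c (I r) • hv (p (I r)) = ∑ j ∈ Finset.univ.image I, c j • hv (p j) := by
      rw [Finset.sum_image hI.injOn]
    rw [h2]
    unfold Dep at hc
    rw [← hc]
    apply Finset.sum_subset (Finset.subset_univ _)
    intro j _ hj
    by_contra hne
    have hcj : c j ≠ 0 := fun h => hne (by rw [h, zero_smul])
    obtain ⟨r, hr⟩ := hIJ j (by simp [hcj])
    exact hj (Finset.mem_image.2 ⟨r, Finset.mem_univ _, hr⟩)
  have h3 := indep_of_D (hp I hI) (fun r => c (I r)) h1
  apply h0
  funext j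
  by_contra hcj
  obtain ⟨r, hr⟩ := hIJ j (by simpa using hcj)
  have := congrFun h3 r
  simp only [hr, Pi.zero_apply] at this
  exact hcj this

/-- Radon partitions on the level of the indices -/
def LinkP_R (p : ι → E d) (A B : Finset ι) : Prop :=
  Disjoint A B ∧ ∃ c : ι → ℝ, Dep p c ∧ c ≠ 0 ∧ (∀ j ∈ A, 0 ≤ c j) ∧ (∀ j ∈ B, c j ≤ 0) ∧
        ∀ j, j ∉ A → j ∉ B → c j = 0

theorem LinkP_radon_iff {p : ι → E d} (hinj : Function.Injective p) (A B : Finset ι) :
    Radon (A.image p) (B.image p) ↔ LinkP_R p A B := by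
  unfold Radon LinkP_R
  rw [Finset.disjoint_image hinj]
  constructor
  · rintro ⟨h1, h2⟩
    exact ⟨h1, (hull_iff hinj h1).1 h2⟩
  · rintro ⟨h1, h2⟩
    exact ⟨h1, (hull_iff hinj h1).2 h2⟩

omit [DecidableEq ι] in
theorem LinkP_pre {p : ι → E d} {A : Finset (E d)} (hA : A ⊆ Finset.univ.image p) :
    (Finset.univ.filter fun j => p j ∈ A).image p = A := by
  ext x
  simp only [Finset.mem_image, Finset.mem_filter, Finset.mem_univ, true_and]
  constructor
  · rintro ⟨j, hj, rfl⟩; exact hj
  · intro hx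
    obtain ⟨j, -, rfl⟩ := Finset.mem_image.1 (hA hx)
    exact ⟨j, hx, rfl⟩

/-- Primitivity on the level of the indices -/
theorem LinkP_prim_iff {p : ι → E d} (hinj : Function.Injective p) (A B : Finset ι) :
    Prim (A.image p) (B.image p) ↔
      LinkP_R p A B ∧ ∀ A' ⊆ A, ∀ B' ⊆ B, A' ∪ B' ≠ A ∪ B → ¬ LinkP_R p A' B' := by
  unfold Prim
  rw [LinkP_radon_iff hinj]
  refine and_congr_right fun _ => ?_
  constructor
  · intro h A' hA' B' hB' hne hR
    refine h (A'.image p) (Finset.image_subset_image hA') (B'.image p)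
      (Finset.image_subset_image hB') ?_ ((LinkP_radon_iff hinj A' B').2 hR)
    rw [← Finset.image_union, ← Finset.image_union]
    exact fun h => hne (Finset.image_injective hinj h)
  · intro h A' hA' B' hB' hne hR
    have hAS : A' ⊆ Finset.univ.image p :=
      hA'.trans (Finset.image_subset_image (Finset.subset_univ _))
    have hBS : B' ⊆ Finset.univ.image p :=
      hB'.trans (Finset.image_subset_image (Finset.subset_univ _))
    have e1 := LinkP_pre hAS
    have e2 := LinkP_pre hBS
    refine h (Finset.univ.filter fun j => p j ∈ A') ?_ (Finset.univ.filter fun j => p j ∈ B') ?_ ?_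
      ((LinkP_radon_iff hinj _ _).1 (by rw [e1, e2]; exact hR))
    · intro j hj
      rw [Finset.mem_filter] at hj
      obtain ⟨k, hk, hkj⟩ := Finset.mem_image.1 (hA' hj.2)
      rwa [← hinj hkj]
    · intro j hj
      rw [Finset.mem_filter] at hj
      obtain ⟨k, hk, hkj⟩ := Finset.mem_image.1 (hB' hj.2)
      rwa [← hinj hkj]
    · intro heq
      apply hne
      rw [← Finset.image_union, ← heq, Finset.image_union, e1, e2]

/-- the dependence of a primitive partition -/
theorem LinkP_signs {p : ι → E d} {A B : Finset ι}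
    (h : LinkP_R p A B ∧ ∀ A' ⊆ A, ∀ B' ⊆ B, A' ∪ B' ≠ A ∪ B → ¬ LinkP_R p A' B')
    {c : ι → ℝ} (hc : Dep p c) (h0 : c ≠ 0) (hA : ∀ j, 0 < c j → j ∈ A)
    (hB : ∀ j, c j < 0 → j ∈ B) :
    (∀ j, 0 < c j ↔ j ∈ A) ∧ (∀ j, c j < 0 ↔ j ∈ B) ∧ ∀ j, c j ≠ 0 ↔ j ∈ A ∪ B := by
  have hd := h.1.1
  set A' := Finset.univ.filter fun j => 0 < c j with hA'
  set B' := Finset.univ.filter fun j => c j < 0 with hB'
  have sA : A' ⊆ A := fun j hj => hA j (by simpa [hA'] using hj)
  have sB : B' ⊆ B := fun j hj => hB j (by simpa [hB'] using hj)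
  have hR : LinkP_R p A' B' := by
    refine ⟨?_, c, hc, h0, ?_, ?_, ?_⟩
    · rw [Finset.disjoint_left]
      intro j hj hj'
      simp only [hA', hB', Finset.mem_filter, Finset.mem_univ, true_and] at hj hj'
      linarith
    · intro j hj
      simp only [hA', Finset.mem_filter, Finset.mem_univ, true_and] at hj
      exact hj.le
    · intro j hj
      simp only [hB', Finset.mem_filter, Finset.mem_univ, true_and] at hj
      exact hj.le
    · intro j hj hj'
      simp only [hA', hB', Finset.mem_filter, Finset.mem_univ, true_and, not_lt] at hj hj'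
      exact le_antisymm hj hj'
  have heq : A' ∪ B' = A ∪ B := by
    by_contra hne
    exact h.2 A' sA B' sB hne hR
  have h1 : ∀ j, 0 < c j ↔ j ∈ A := by
    intro j
    refine ⟨hA j, fun hj => ?_⟩
    have : j ∈ A' ∪ B' := by rw [heq]; exact Finset.mem_union_left _ hj
    rcases Finset.mem_union.1 this with h2 | h2
    · simpa [hA'] using h2
    · exact absurd (sB h2) (Finset.disjoint_left.1 hd hj)
  have h2 : ∀ j, c j < 0 ↔ j ∈ B := by
    intro j
    refine ⟨hB j, fun hj => ?_⟩
    have : j ∈ A' ∪ B' := by rw [heq]; exact Finset.mem_union_right _ hj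
    rcases Finset.mem_union.1 this with h2 | h2
    · exact absurd hj (Finset.disjoint_left.1 hd (sA h2))
    · simpa [hB'] using h2
  refine ⟨h1, h2, fun j => ?_⟩
  rw [Finset.mem_union, ← h1, ← h2]
  constructor
  · intro h; rcases lt_or_gt_of_ne h with h | h
    · exact Or.inr h
    · exact Or.inl h
  · rintro (h | h)
    · exact h.ne'
    · exact h.ne

theorem LinkP_exists {p : ι → E d} {A B : Finset ι}
    (h : LinkP_R p A B ∧ ∀ A' ⊆ A, ∀ B' ⊆ B, A' ∪ B' ≠ A ∪ B → ¬ LinkP_R p A' B') :
    ∃ c : ι → ℝ, Dep p c ∧ c ≠ 0 ∧ (∀ j, 0 < c j ↔ j ∈ A) ∧ (∀ j, c j < 0 ↔ j ∈ B) ∧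
      ∀ j, c j ≠ 0 ↔ j ∈ A ∪ B := by
  obtain ⟨hd, c, hc, h0, hA, hB, hz⟩ := h.1
  have h1 : ∀ j, 0 < c j → j ∈ A := by
    intro j hj
    by_contra hjA
    by_cases hjB : j ∈ B
    · exact absurd (hB j hjB) (not_le.2 hj)
    · exact hj.ne' (hz j hjA hjB)
  have h2 : ∀ j, c j < 0 → j ∈ B := by
    intro j hj
    by_contra hjB
    by_cases hjA : j ∈ A
    · exact absurd (hA j hjA) (not_le.2 hj)
    · exact hj.ne (hz j hjA hjB)
  exact ⟨c, hc, h0, LinkP_signs h hc h0 h1 h2⟩

theorem LinkP_card {p : ι → E d} (hp : GPc p) (hι : d + 1 ≤ Fintype.card ι) {A B : Finset ι}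
    (h : LinkP_R p A B ∧ ∀ A' ⊆ A, ∀ B' ⊆ B, A' ∪ B' ≠ A ∪ B → ¬ LinkP_R p A' B') :
    (A ∪ B).card = d + 2 := by
  obtain ⟨c, hc, h0, hA, hB, hAB⟩ := LinkP_exists h
  have hsupp := LinkP_supp hp hι hc h0
  have hS : (Finset.univ.filter fun j => c j ≠ 0) = A ∪ B := by
    ext j
    simp only [Finset.mem_filter, Finset.mem_univ, true_and]
    exact hAB j
  rw [hS] at hsupp
  set T := A ∪ B with hT
  set q : T → E d := fun t => p t with hq
  have hqG : GPc q := by
    intro I hI
    exact hp (fun r => (I r : ι)) (fun a b hab => hI (Subtype.ext hab))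
  have hqc : d + 1 ≤ Fintype.card T := by
    rw [Fintype.card_coe]; omega
  have hsum : ∀ b : ι → ℝ, (∀ j, j ∉ T → b j = 0) →
      ∑ t : T, b t • hv (q t) = ∑ j, b j • hv (p j) := by
    intro b hb
    have e1 : ∑ t : T, b t • hv (q t) = ∑ j ∈ T, b j • hv (p j) :=
      Finset.sum_coe_sort T (fun j => b j • hv (p j))
    rw [e1]
    apply Finset.sum_subset (Finset.subset_univ _)
    intro j _ hj
    rw [hb j hj, zero_smul]
  have hR : RadI q (Finset.univ.filter fun t : T => (t : ι) ∈ A) := by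
    refine ⟨fun t => c t, ?_, ?_, ?_⟩
    · unfold Dep
      rw [hsum c (fun j hj => by
        by_contra hne
        exact hj ((hAB j).1 hne))]
      exact hc
    · intro hz
      apply h0
      funext j
      by_cases hj : j ∈ T
      · exact congrFun hz ⟨j, hj⟩
      · by_contra hne
        exact hj ((hAB j).1 hne)
    · intro t
      simp only [Finset.mem_filter, Finset.mem_univ, true_and]
      refine ⟨fun ht => ((hA t).2 ht).le, fun ht => ?_⟩
      by_contra hlt
      exact ht ((hA t).1 (not_le.1 hlt))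
  obtain ⟨X, hXc, b, hb, hbX, hbs⟩ := (radI_iff hqG hqc _).1 hR
  set b' : ι → ℝ := fun j => if hj : j ∈ T then b ⟨j, hj⟩ else 0 with hb'
  have hbb : ∀ t : T, b' t = b t := fun t => by simp [hb']
  have hb0 : ∀ j, j ∉ T → b' j = 0 := fun j hj => by simp [hb', hj]
  have hdep : Dep p b' := by
    unfold Dep
    rw [← hsum b' hb0]
    unfold Dep at hb
    rw [← hb]
    exact Finset.sum_congr rfl fun t _ => by rw [hbb]
  have hXne : X.Nonempty := Finset.card_pos.1 (by omega)
  obtain ⟨t₀, ht₀⟩ := hXne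
  have hne : b' ≠ 0 := by
    intro hz
    have h1 : b t₀ ≠ 0 := (hbX t₀).2 ht₀
    apply h1
    rw [← hbb, hz]; rfl
  have h1 : ∀ j, 0 < b' j → j ∈ A := by
    intro j hj
    have hjT : j ∈ T := by
      by_contra hjT
      rw [hb0 j hjT] at hj
      exact lt_irrefl _ hj
    have h2 : 0 < b ⟨j, hjT⟩ := by rw [← hbb ⟨j, hjT⟩]; exact hj
    simpa using (hbs ⟨j, hjT⟩).1 h2
  have h2 : ∀ j, b' j < 0 → j ∈ B := by
    intro j hj
    have hjT : j ∈ T := by
      by_contra hjT
      rw [hb0 j hjT] at hj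
      exact lt_irrefl _ hj
    have h3 : b ⟨j, hjT⟩ < 0 := by rw [← hbb ⟨j, hjT⟩]; exact hj
    have h4 : j ∉ A := by simpa using (hbs ⟨j, hjT⟩).2 h3
    exact (Finset.mem_union.1 hjT).resolve_left h4
  have h3 := (LinkP_signs h hdep hne h1 h2).2.2
  rw [← hXc]
  refine (Finset.card_bij (s := X) (t := T) (fun t _ => (t : ι)) ?_ ?_ ?_).symm
  · intro t _
    exact t.2
  · intro t _ t' _ htt
    exact Subtype.ext htt
  · intro j hj
    refine ⟨⟨j, hj⟩, ?_, rfl⟩
    rw [← hbX, ← hbb]
    exact (h3 j).2 hj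

theorem LinkP_unique {p : ι → E d} (hp : GPc p) {c c' : ι → ℝ} (hc : Dep p c) (hc' : Dep p c')
    {X : Finset ι} (hX : X.card = d + 2) (h : ∀ j, c j ≠ 0 ↔ j ∈ X) (h' : ∀ j, c' j ≠ 0 ↔ j ∈ X) :
    ∃ μ : ℝ, μ ≠ 0 ∧ ∀ j, c' j = μ * c j := by
  obtain ⟨x, hx, hxX⟩ := exists_enum X hX
  have hr : ∀ j, j ∈ X → j ∈ Set.range x := by
    intro j hj
    rw [← hxX, Finset.mem_image] at hj
    obtain ⟨r, -, hr⟩ := hj
    exact ⟨r, hr⟩
  have hxm : ∀ r, x r ∈ X := fun r => by
    rw [← hxX]; exact Finset.mem_image_of_mem x (Finset.mem_univ r)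
  obtain ⟨κ, hκ⟩ := dep_unique hx 0 (lam_ne hp hx 0) hc (fun j hj => hr j ((h j).1 hj))
  obtain ⟨κ', hκ'⟩ := dep_unique hx 0 (lam_ne hp hx 0) hc' (fun j hj => hr j ((h' j).1 hj))
  have k0 : κ ≠ 0 := by
    rintro rfl
    have := hκ 0
    rw [zero_mul] at this
    exact (h (x 0)).2 (hxm 0) this
  have k0' : κ' ≠ 0 := by
    rintro rfl
    have := hκ' 0
    rw [zero_mul] at this
    exact (h' (x 0)).2 (hxm 0) this
  refine ⟨κ' / κ, div_ne_zero k0' k0, ?_⟩
  intro j
  by_cases hj : j ∈ X
  · obtain ⟨r, rfl⟩ := hr j hj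
    rw [hκ r, hκ' r]
    field_simp
  · have e1 : c j = 0 := by
      by_contra hne; exact hj ((h j).1 hne)
    have e2 : c' j = 0 := by
      by_contra hne; exact hj ((h' j).1 hne)
    rw [e1, e2, mul_zero]

/-- two primitive partitions with the same union -/
theorem LinkP_inj {p : ι → E d} (hp : GPc p) (hι : d + 1 ≤ Fintype.card ι) {A B A₁ B₁ : Finset ι}
    (h : LinkP_R p A B ∧ ∀ A' ⊆ A, ∀ B' ⊆ B, A' ∪ B' ≠ A ∪ B → ¬ LinkP_R p A' B')
    (h₁ : LinkP_R p A₁ B₁ ∧ ∀ A' ⊆ A₁, ∀ B' ⊆ B₁, A' ∪ B' ≠ A₁ ∪ B₁ → ¬ LinkP_R p A' B')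
    (hU : A ∪ B = A₁ ∪ B₁) : (A = A₁ ∧ B = B₁) ∨ (A = B₁ ∧ B = A₁) := by
  obtain ⟨c, hc, h0, hA, hB, hAB⟩ := LinkP_exists h
  obtain ⟨c', hc', h0', hA', hB', hAB'⟩ := LinkP_exists h₁
  obtain ⟨μ, hμ, hμc⟩ := LinkP_unique hp hc hc' (LinkP_card hp hι h) hAB
    (fun j => by rw [hAB' j, hU])
  rcases lt_or_gt_of_ne hμ with hm | hm
  · right
    constructor
    · ext j
      rw [← hA, ← hB', hμc]
      constructor
      · intro h; exact mul_neg_of_neg_of_pos hm h
      · intro h; exact (neg_iff_pos_of_mul_neg h).1 hm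
    · ext j
      rw [← hB, ← hA', hμc]
      constructor
      · intro h; exact mul_pos_of_neg_of_neg hm h
      · intro h; exact neg_of_mul_pos_right h hm.le
  · left
    constructor
    · ext j
      rw [← hA, ← hA', hμc]
      exact (mul_pos_iff_of_pos_left hm).symm
    · ext j
      rw [← hB, ← hB', hμc]
      constructor
      · intro h; exact mul_neg_of_pos_of_neg hm h
      · intro h; exact neg_of_mul_neg_right h hm.le

/-- The primitive Radon partitions of the set correspond to the `(d+2)`-sets of indices.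

Proof. Let `S` be the image of `p` (injective by `inj_of_gpc`).
(1) `hull_iff`.
(2) Let `{A, B}` be primitive. The support of the `c` of (1) is `A ∪ B` (otherwise the positive and negative parts of the support
contradict primitivity). By (the proof of) `radI_iff`, applied to the subfamily `A ∪ B`, resp. by the same argument (a dependence
with sign conditions and a support which is larger than `d + 2` can be shrunk) the support has exactly `d + 2` elements. So
`X = p⁻¹(A ∪ B)` has `d + 2` elements and `Ty p X A.card`.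
(3) Conversely, if `Ty p X i` with the dependence `c`, put `A = p {c > 0}`, `B = p {c < 0}`: a Radon partition with `A ∪ B = p(X)`; it is
primitive, because a Radon partition `{A', B'}` with `A' ∪ B' ⊊ A ∪ B` would give a dependence `≠ 0` whose support is contained in
a set of `d + 1` indices, contradicting `GPc` (`card ι ≥ d + 1`). If `A`, `B` belong to the same `X`, then `{A, B}` is determined by
`X` (`dep_unique`). So `{A, B} ↦ p⁻¹(A ∪ B)` is a bijection of the two sets which are counted (the type number `i` may be the size of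
`{c > 0}` or of `{c < 0}`: replace `c` by `-c`). -/
theorem pp_eq {p : ι → E d} (hp : GPc p) (hι : d + 1 ≤ Fintype.card ι) (hd : 1 ≤ d) (i : ℕ) :
    PP (Finset.univ.image p) i = Pc p i := by
  classical
  have hinj := inj_of_gpc hp hι hd
  unfold PP Pc
  rw [← Set.ncard_coe_finset]
  have hpre : ∀ A : Finset ι, (Finset.univ.filter fun j => p j ∈ A.image p) = A := by
    intro A
    ext j
    simp only [Finset.mem_filter, Finset.mem_univ, true_and, Finset.mem_image]
    constructor
    · rintro ⟨k, hk, hkj⟩; rwa [← hinj hkj]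
    · intro hj; exact ⟨j, hj, rfl⟩
  have hsup : ∀ A B : Finset (E d), ({A, B} : Finset (Finset (E d))).sup id = A ∪ B := by
    intro A B
    rw [Finset.sup_insert, Finset.sup_singleton]; rfl
  refine Set.ncard_congr (fun π _ => Finset.univ.filter fun j => p j ∈ π.sup id) ?_ ?_ ?_
  · rintro π ⟨A, B, rfl, hA, hB, hprim, hAc, hBc⟩
    have e1 := LinkP_pre hA
    have e2 := LinkP_pre hB
    set A' := Finset.univ.filter fun j => p j ∈ A with hA'
    set B' := Finset.univ.filter fun j => p j ∈ B with hB'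
    rw [← e1, ← e2, LinkP_prim_iff hinj] at hprim
    obtain ⟨c, hc, h0, hcA, hcB, hcAB⟩ := LinkP_exists hprim
    have hX : (Finset.univ.filter fun j => p j ∈ ({A, B} : Finset (Finset (E d))).sup id) =
        A' ∪ B' := by
      rw [hsup, hA', hB', ← Finset.filter_or]
      simp only [Finset.mem_union]
    simp only [hX]
    simp only [Finset.coe_filter, Set.mem_ofPred_eq, Finset.mem_powersetCard,
      Finset.subset_univ, true_and]
    refine ⟨LinkP_card hp hι hprim, c, hc, hcAB, ?_⟩
    have e3 : (Finset.univ.filter fun j => 0 < c j) = A' := by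
      ext j
      simp only [Finset.mem_filter, Finset.mem_univ, true_and]
      exact hcA j
    rw [e3, ← hAc, ← e1, Finset.card_image_of_injective _ hinj]
  · rintro π π₁ ⟨A, B, rfl, hA, hB, hprim, hAc, hBc⟩ ⟨A₁, B₁, rfl, hA₁, hB₁, hprim₁, hAc₁, hBc₁⟩ heq
    have e1 := LinkP_pre hA
    have e2 := LinkP_pre hB
    have f1 := LinkP_pre hA₁
    have f2 := LinkP_pre hB₁
    rw [← e1, ← e2, LinkP_prim_iff hinj] at hprim
    rw [← f1, ← f2, LinkP_prim_iff hinj] at hprim₁
    simp only [hsup, Finset.mem_union, Finset.filter_or] at heq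
    rcases LinkP_inj hp hι hprim hprim₁ heq with ⟨g1, g2⟩ | ⟨g1, g2⟩
    · rw [← e1, ← e2, ← f1, ← f2, g1, g2]
    · rw [← e1, ← e2, ← f1, ← f2, g1, g2, Finset.pair_comm]
  · intro X hX
    simp only [Finset.coe_filter, Set.mem_ofPred_eq, Finset.mem_powersetCard,
      Finset.subset_univ, true_and] at hX
    obtain ⟨hXc, c, hc, hcX, hci⟩ := hX
    set A := Finset.univ.filter fun j => 0 < c j with hA
    set B := Finset.univ.filter fun j => c j < 0 with hB
    have hAB : A ∪ B = X := by
      ext j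
      rw [← hcX, Finset.mem_union]
      simp only [hA, hB, Finset.mem_filter, Finset.mem_univ, true_and]
      constructor
      · rintro (h | h)
        · exact h.ne'
        · exact h.ne
      · intro h
        rcases lt_or_gt_of_ne h with h | h
        · exact Or.inr h
        · exact Or.inl h
    have hdis : Disjoint A B := by
      rw [Finset.disjoint_left]
      intro j hj hj'
      simp only [hA, hB, Finset.mem_filter, Finset.mem_univ, true_and] at hj hj'
      linarith
    have h0 : c ≠ 0 := by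
      intro hz
      have : X.Nonempty := Finset.card_pos.1 (by omega)
      obtain ⟨j, hj⟩ := this
      exact (hcX j).2 hj (by rw [hz]; rfl)
    have hR : LinkP_R p A B := by
      refine ⟨hdis, c, hc, h0, ?_, ?_, ?_⟩
      · intro j hj
        simp only [hA, Finset.mem_filter, Finset.mem_univ, true_and] at hj
        exact hj.le
      · intro j hj
        simp only [hB, Finset.mem_filter, Finset.mem_univ, true_and] at hj
        exact hj.le
      · intro j hj hj'
        simp only [hA, hB, Finset.mem_filter, Finset.mem_univ, true_and, not_lt] at hj hj'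
        exact le_antisymm hj hj'
    have hprim : LinkP_R p A B ∧ ∀ A' ⊆ A, ∀ B' ⊆ B, A' ∪ B' ≠ A ∪ B → ¬ LinkP_R p A' B' := by
      refine ⟨hR, ?_⟩
      intro A' hA' B' hB' hne hR'
      obtain ⟨-, b, hb, hb0, -, -, hbz⟩ := hR'
      have h1 := LinkP_supp hp hι hb hb0
      have h2 : (Finset.univ.filter fun j => b j ≠ 0) ⊆ A' ∪ B' := by
        intro j hj
        simp only [Finset.mem_filter, Finset.mem_univ, true_and] at hj
        by_contra hj'
        rw [Finset.mem_union, not_or] at hj'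
        exact hj (hbz j hj'.1 hj'.2)
      have h3 : A' ∪ B' ⊂ X := by
        rw [← hAB]
        exact (Finset.union_subset_union hA' hB').ssubset_of_ne hne
      have h4 := Finset.card_lt_card h3
      have h5 := Finset.card_le_card h2
      omega
    refine ⟨{A.image p, B.image p}, ⟨A.image p, B.image p, rfl, ?_, ?_, ?_, ?_, ?_⟩, ?_⟩
    · exact Finset.image_subset_image (Finset.subset_univ _)
    · exact Finset.image_subset_image (Finset.subset_univ _)
    · rw [LinkP_prim_iff hinj]; exact hprim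
    · rw [Finset.card_image_of_injective _ hinj]; exact hci
    · rw [Finset.card_image_of_injective _ hinj]
      have := Finset.card_union_of_disjoint hdis
      rw [hAB, hXc, hci] at this
      omega
    · simp only [hsup, Finset.mem_union, Finset.filter_or, hpre, hAB]

end Pool.Agent.RVM
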