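import Pool.Agent.MP_c130bd_co.RVM.Defs

set_option autoImplicit false

namespace Pool.Agent.RVM

variable {d : ℕ} {ι : Type*}

/-! ## [RVM-DEPA] the affine dependence of `d + 2` points -/

/-- Proof. Fix a column `c` and take the `(d+2) × (d+2)` matrix with the rows `(hv (p (x j)) c, hv (p (x j)))` (column `0` is a
copy of column `c + 1`). Its determinant is `0` (`Matrix.det_zero_of_column_eq`), and the expansion along column `0`
(`Matrix.det_succ_column_zero`) is `∑ j, (-1)^j hv (p (x j)) c * D p (x ∘ j.succAbove)`. -/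
theorem lam_dep (p : ι → E d) (x : Fin (d + 2) → ι) : ∑ j, Lam p x j • hv (p (x j)) = 0 := by
  funext c
  let M : Matrix (Fin (d + 2)) (Fin (d + 2)) ℝ :=
    Matrix.of fun j => Fin.cons (hv (p (x j)) c) (hv (p (x j)))
  have hdet : M.det = 0 := by
    apply Matrix.det_zero_of_column_eq (i := 0) (j := c.succ)
    · exact (Fin.succ_ne_zero c).symm
    · intro k
      simp [M]
  rw [Matrix.det_succ_column_zero] at hdet
  rw [Finset.sum_apply, Pi.zero_apply, ← hdet]
  apply Finset.sum_congr rfl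
  intro j _
  have h1 : M j 0 = hv (p (x j)) c := by simp [M]
  have h2 : (M.submatrix j.succAbove Fin.succ).det = D p (x ∘ j.succAbove) := by
    unfold D
    congr 1
  rw [h1, h2, Pi.smul_apply, smul_eq_mul, Lam]
  ring

theorem lam_ne {p : ι → E d} (hp : GPc p) {x : Fin (d + 2) → ι} (hx : Function.Injective x)
    (j : Fin (d + 2)) : Lam p x j ≠ 0 := by
  unfold Lam
  apply mul_ne_zero
  · exact pow_ne_zero _ (by norm_num)
  · exact hp _ (hx.comp Fin.succAbove_right_injective)

/-- `d + 1` points with nonzero determinant are independent. -/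
theorem indep_of_D {p : ι → E d} {I : Fin (d + 1) → ι} (h : D p I ≠ 0) (c : Fin (d + 1) → ℝ)
    (hc : ∑ r, c r • hv (p (I r)) = 0) : c = 0 := by
  apply Matrix.eq_zero_of_vecMul_eq_zero h
  funext k
  have h1 := congrFun hc k
  rw [Finset.sum_apply, Pi.zero_apply] at h1
  rw [Pi.zero_apply, ← h1]
  simp [Matrix.vecMul, dotProduct]

theorem Dep_sum_range [Fintype ι] [DecidableEq ι] {M : Type*} [AddCommMonoid M]
    {x : Fin (d + 2) → ι} (hx : Function.Injective x) (g : ι → M)
    (hs : ∀ j, g j ≠ 0 → j ∈ Set.range x) : ∑ j, g j = ∑ j, g (x j) := by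
  rw [← Finset.sum_image (s := Finset.univ) (g := x) (f := g) (fun a _ b _ h => hx h)]
  symm
  apply Finset.sum_subset (Finset.subset_univ _)
  intro j _ hj
  by_contra h0
  obtain ⟨k, hk⟩ := hs j h0
  exact hj (Finset.mem_image.2 ⟨k, Finset.mem_univ _, hk⟩)

/-- Every dependence which is supported on the range of `x` is a multiple of `Lam`.
Proof. `κ = c (x j₀) / Lam p x j₀`; then `c ∘ x - κ Lam` is a dependence (`lam_dep`) which vanishes at `j₀`, so it is a
dependence of the points `x ∘ j₀.succAbove`, whose determinant is not `0` (`indep_of_D`; `Fin.sum_univ_succAbove`). -/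
theorem dep_unique [Fintype ι] [DecidableEq ι] {p : ι → E d} {x : Fin (d + 2) → ι}
    (hx : Function.Injective x) (j₀ : Fin (d + 2)) (hj : Lam p x j₀ ≠ 0) {c : ι → ℝ} (hc : Dep p c)
    (hs : ∀ j, c j ≠ 0 → j ∈ Set.range x) : ∃ κ : ℝ, ∀ j, c (x j) = κ * Lam p x j := by
  refine ⟨c (x j₀) / Lam p x j₀, ?_⟩
  set κ := c (x j₀) / Lam p x j₀ with hκ
  have h0 : c (x j₀) - κ * Lam p x j₀ = 0 := by
    rw [hκ, div_mul_cancel₀ _ hj, sub_self]
  have hsum : ∑ j, c (x j) • hv (p (x j)) = 0 := by
    have h1 := Dep_sum_range (M := Fin (d + 1) → ℝ) hx (fun j => c j • hv (p j)) (by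
      intro j hj
      apply hs j
      intro h2
      apply hj
      show c j • hv (p j) = 0
      rw [h2, zero_smul])
    rw [← h1]
    exact hc
  have hsum2 : ∑ j, (c (x j) - κ * Lam p x j) • hv (p (x j)) = 0 := by
    have h1 : ∑ j, (c (x j) - κ * Lam p x j) • hv (p (x j)) =
        ∑ j, c (x j) • hv (p (x j)) - κ • ∑ j, Lam p x j • hv (p (x j)) := by
      rw [Finset.smul_sum, ← Finset.sum_sub_distrib]
      apply Finset.sum_congr rfl
      intro j _
      rw [sub_smul, smul_smul]
    rw [h1, hsum, lam_dep, smul_zero, sub_zero]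
  rw [Fin.sum_univ_succAbove _ j₀, h0, zero_smul, zero_add] at hsum2
  have hD : D p (x ∘ j₀.succAbove) ≠ 0 := by
    intro h2
    apply hj
    rw [Lam, h2, mul_zero]
  have h3 := indep_of_D hD (fun r => c (x (j₀.succAbove r)) - κ * Lam p x (j₀.succAbove r)) hsum2
  intro j
  by_cases hjj : j = j₀
  · rw [hjj]
    linarith
  · obtain ⟨r, rfl⟩ := Fin.exists_succAbove_eq hjj
    have := congrFun h3 r
    simp only [Pi.zero_apply] at this
    linarith

theorem Dep_card_range [Fintype ι] [DecidableEq ι] {x : Fin (d + 2) → ι} (hx : Function.Injective x)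
    (P : ι → Prop) [DecidablePred P] (hs : ∀ j, P j → j ∈ Set.range x) :
    (Finset.univ.filter P).card = (Finset.univ.filter fun j => P (x j)).card := by
  rw [← Finset.card_image_of_injective (Finset.univ.filter fun j => P (x j)) hx]
  congr 1
  ext j
  simp only [Finset.mem_filter, Finset.mem_univ, true_and, Finset.mem_image]
  constructor
  · intro h
    obtain ⟨k, hk⟩ := hs j h
    exact ⟨k, by rw [hk]; exact h, hk⟩
  · rintro ⟨k, hk, rfl⟩
    exact hk

theorem Dep_extend [Fintype ι] [DecidableEq ι] {p : ι → E d} (hp : GPc p) {x : Fin (d + 2) → ι}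
    (hx : Function.Injective x) (ε : ℝ) (hε : ε ≠ 0) :
    ∃ c : ι → ℝ, Dep p c ∧ (∀ j, c j ≠ 0 ↔ j ∈ Finset.univ.image x) ∧ ∀ k, c (x k) = ε * Lam p x k := by
  have hval : ∀ k, Function.extend x (fun k => ε * Lam p x k) (fun _ => 0) (x k) = ε * Lam p x k :=
    fun k => hx.extend_apply _ _ k
  have hsupp : ∀ j, Function.extend x (fun k => ε * Lam p x k) (fun _ => 0) j ≠ 0 ↔
      j ∈ Finset.univ.image x := by
    intro j
    constructor
    · intro h
      by_contra hj
      apply h
      rw [Function.extend_apply']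
      rintro ⟨k, hk⟩
      exact hj (Finset.mem_image.2 ⟨k, Finset.mem_univ _, hk⟩)
    · intro h
      obtain ⟨k, _, rfl⟩ := Finset.mem_image.1 h
      rw [hval k]
      exact mul_ne_zero hε (lam_ne hp hx k)
  refine ⟨Function.extend x (fun k => ε * Lam p x k) (fun _ => 0), ?_, hsupp, hval⟩
  unfold Dep
  have h1 := Dep_sum_range (M := Fin (d + 1) → ℝ) hx
    (fun j => Function.extend x (fun k => ε * Lam p x k) (fun _ => 0) j • hv (p j)) (by
      intro j hj
      have h2 : Function.extend x (fun k => ε * Lam p x k) (fun _ => (0 : ℝ)) j ≠ 0 := by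
        intro h2
        apply hj
        show _ • _ = _
        rw [h2, zero_smul]
      obtain ⟨k, _, hk⟩ := Finset.mem_image.1 ((hsupp j).1 h2)
      exact ⟨k, hk⟩)
  rw [h1]
  have h2 : ∀ k, Function.extend x (fun k => ε * Lam p x k) (fun _ => (0 : ℝ)) (x k) • hv (p (x k)) =
      ε • (Lam p x k • hv (p (x k))) := by
    intro k
    rw [hval k, mul_smul]
  simp only [h2]
  rw [← Finset.smul_sum, lam_dep, smul_zero]

/-- The type of a `(d + 2)`-set in general position is given by the signs of `Lam`.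
Proof. `→`: `dep_unique` (`κ ≠ 0`; distinguish `κ > 0`, `κ < 0`). `←`: the dependence `j ↦ ± Lam p x (x⁻¹ j)` on the range of `x`, `0`
outside (`lam_dep`, `lam_ne`). -/
theorem ty_iff [Fintype ι] [DecidableEq ι] {p : ι → E d} (hp : GPc p) {x : Fin (d + 2) → ι}
    (hx : Function.Injective x) (i : ℕ) : Ty p (Finset.univ.image x) i ↔
      (Finset.univ.filter fun j => 0 < Lam p x j).card = i ∨
        (Finset.univ.filter fun j => Lam p x j < 0).card = i := by
  constructor
  · rintro ⟨c, hc, hs, hi⟩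
    have hs' : ∀ j, c j ≠ 0 → j ∈ Set.range x := by
      intro j hj
      obtain ⟨k, _, hk⟩ := Finset.mem_image.1 ((hs j).1 hj)
      exact ⟨k, hk⟩
    obtain ⟨κ, hκ⟩ := dep_unique hx 0 (lam_ne hp hx 0) hc hs'
    rw [Dep_card_range hx (fun j => 0 < c j) (fun j hj => hs' j hj.ne')] at hi
    have hκ0 : κ ≠ 0 := by
      intro h0
      have h1 : c (x 0) ≠ 0 := (hs _).2 (Finset.mem_image.2 ⟨0, Finset.mem_univ _, rfl⟩)
      apply h1
      rw [hκ, h0, zero_mul]
    rcases lt_or_gt_of_ne hκ0 with hneg | hpos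
    · right
      rw [← hi]
      congr 1
      apply Finset.filter_congr
      intro j _
      rw [hκ j]
      constructor
      · intro h
        exact mul_pos_of_neg_of_neg hneg h
      · intro h
        by_contra hc
        rw [not_lt] at hc
        nlinarith
    · left
      rw [← hi]
      congr 1
      apply Finset.filter_congr
      intro j _
      rw [hκ j]
      constructor
      · intro h
        exact mul_pos hpos h
      · intro h
        exact (mul_pos_iff_of_pos_left hpos).1 h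
  · rintro (h | h)
    · obtain ⟨c, hc, hs, hv⟩ := Dep_extend hp hx 1 (by norm_num)
      refine ⟨c, hc, hs, ?_⟩
      rw [Dep_card_range hx (fun j => 0 < c j) (fun j hj => by
        obtain ⟨k, _, hk⟩ := Finset.mem_image.1 ((hs j).1 hj.ne')
        exact ⟨k, hk⟩), ← h]
      congr 1
      apply Finset.filter_congr
      intro j _
      rw [hv j, one_mul]
    · obtain ⟨c, hc, hs, hv⟩ := Dep_extend hp hx (-1) (by norm_num)
      refine ⟨c, hc, hs, ?_⟩
      rw [Dep_card_range hx (fun j => 0 < c j) (fun j hj => by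
        obtain ⟨k, _, hk⟩ := Finset.mem_image.1 ((hs j).1 hj.ne')
        exact ⟨k, hk⟩), ← h]
      congr 1
      apply Finset.filter_congr
      intro j _
      rw [hv j]
      constructor <;> intro h <;> linarith

/-- Every set of `d + 2` indices is the range of an injective `x`. -/
theorem exists_enum [DecidableEq ι] (X : Finset ι) (hX : X.card = d + 2) :
    ∃ x : Fin (d + 2) → ι, Function.Injective x ∧ Finset.univ.image x = X := by
  let e := X.equivFinOfCardEq hX
  refine ⟨fun k => (e.symm k : ι), ?_, ?_⟩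
  · intro a b h
    exact e.symm.injective (Subtype.ext h)
  · ext j
    simp only [Finset.mem_image, Finset.mem_univ, true_and]
    constructor
    · rintro ⟨k, rfl⟩
      exact (e.symm k).2
    · intro hj
      exact ⟨e ⟨j, hj⟩, by simp⟩

/-- the signs of `Lam` are equal if those of `D` are -/
theorem Dep_lam_same {p p' : ι → E d} {x : Fin (d + 2) → ι} (hx : Function.Injective x)
    (h : ∀ I : Fin (d + 1) → ι, Function.Injective I → (∀ r, I r ∈ Set.range x) →
      0 < D p I * D p' I) (j : Fin (d + 2)) : 0 < Lam p x j * Lam p' x j := by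
  have h1 := h (x ∘ j.succAbove) (hx.comp Fin.succAbove_right_injective) (fun r => ⟨_, rfl⟩)
  unfold Lam
  have h2 : ((-1 : ℝ) ^ (j : ℕ)) * ((-1 : ℝ) ^ (j : ℕ)) = 1 := by
    rw [← mul_pow]
    norm_num
  have h3 : (-1 : ℝ) ^ (j : ℕ) * D p (x ∘ j.succAbove) * ((-1) ^ (j : ℕ) * D p' (x ∘ j.succAbove)) =
      ((-1 : ℝ) ^ (j : ℕ)) * ((-1 : ℝ) ^ (j : ℕ)) *
        (D p (x ∘ j.succAbove) * D p' (x ∘ j.succAbove)) := by ring
  rw [h3, h2, one_mul]
  exact h1

theorem Dep_sign {a b : ℝ} (h : 0 < a * b) : (0 < a ↔ 0 < b) ∧ (a < 0 ↔ b < 0) := by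
  rcases mul_pos_iff.1 h with ⟨h1, h2⟩ | ⟨h1, h2⟩
  · exact ⟨⟨fun _ => h2, fun _ => h1⟩, ⟨fun h3 => absurd h3 (not_lt.2 h1.le),
      fun h3 => absurd h3 (not_lt.2 h2.le)⟩⟩
  · exact ⟨⟨fun h3 => absurd h3 (not_lt.2 h1.le), fun h3 => absurd h3 (not_lt.2 h2.le)⟩,
      ⟨fun _ => h2, fun _ => h1⟩⟩

/-- Proof. Enumerate `X` (`exists_enum`); the signs of `Lam` are equal; `ty_iff`. -/
theorem ty_congr [Fintype ι] [DecidableEq ι] {p p' : ι → E d} (hp : GPc p) (hp' : GPc p')
    (X : Finset ι) (hX : X.card = d + 2)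
    (h : ∀ I : Fin (d + 1) → ι, Function.Injective I → (∀ r, I r ∈ X) → 0 < D p I * D p' I) (i : ℕ) :
    Ty p X i ↔ Ty p' X i := by
  obtain ⟨x, hx, rfl⟩ := exists_enum X hX
  rw [ty_iff hp hx, ty_iff hp' hx]
  have h1 : ∀ j, 0 < Lam p x j * Lam p' x j := Dep_lam_same hx (by
    intro I hI hr
    apply h I hI
    intro r
    obtain ⟨k, hk⟩ := hr r
    exact Finset.mem_image.2 ⟨k, Finset.mem_univ _, hk⟩)
  have h2 : (Finset.univ.filter fun j => 0 < Lam p x j) = Finset.univ.filter fun j => 0 < Lam p' x j :=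
    Finset.filter_congr (fun j _ => (Dep_sign (h1 j)).1)
  have h3 : (Finset.univ.filter fun j => Lam p x j < 0) = Finset.univ.filter fun j => Lam p' x j < 0 :=
    Finset.filter_congr (fun j _ => (Dep_sign (h1 j)).2)
  rw [h2, h3]

/-- the numbers of positive and negative `Lam` -/
theorem Dep_counts {p : ι → E d} (hp : GPc p) {x : Fin (d + 2) → ι} (hx : Function.Injective x) :
    (Finset.univ.filter fun j => 0 < Lam p x j).card + (Finset.univ.filter fun j => Lam p x j < 0).card =
      d + 2 ∧ 1 ≤ (Finset.univ.filter fun j => 0 < Lam p x j).card ∧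
      1 ≤ (Finset.univ.filter fun j => Lam p x j < 0).card := by
  have hsum : ∑ j, Lam p x j = 0 := by
    have h := congrFun (lam_dep p x) 0
    rw [Finset.sum_apply] at h
    simpa [hv] using h
  refine ⟨?_, ?_, ?_⟩
  · have h1 : (Finset.univ.filter fun j => Lam p x j < 0) =
        (Finset.univ.filter fun j => ¬ 0 < Lam p x j) := by
      apply Finset.filter_congr
      intro j _
      constructor
      · intro h
        exact not_lt.2 h.le
      · intro h
        exact lt_of_le_of_ne (not_lt.1 h) (lam_ne hp hx j)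
    rw [h1, Finset.card_filter_add_card_filter_not, Finset.card_univ, Fintype.card_fin]
  · rw [Nat.one_le_iff_ne_zero, Finset.card_ne_zero]
    by_contra h
    rw [Finset.not_nonempty_iff_eq_empty, Finset.filter_eq_empty_iff] at h
    have h2 : ∑ j, Lam p x j < ∑ _j : Fin (d + 2), (0 : ℝ) := by
      apply Finset.sum_lt_sum_of_nonempty ⟨0, Finset.mem_univ _⟩
      intro j hj
      exact lt_of_le_of_ne (not_lt.1 (h hj)) (lam_ne hp hx j)
    rw [hsum, Finset.sum_const_zero] at h2
    exact lt_irrefl _ h2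
  · rw [Nat.one_le_iff_ne_zero, Finset.card_ne_zero]
    by_contra h
    rw [Finset.not_nonempty_iff_eq_empty, Finset.filter_eq_empty_iff] at h
    have h2 : ∑ _j : Fin (d + 2), (0 : ℝ) < ∑ j, Lam p x j := by
      apply Finset.sum_lt_sum_of_nonempty ⟨0, Finset.mem_univ _⟩
      intro j hj
      exact lt_of_le_of_ne (not_lt.1 (h hj)) (lam_ne hp hx j).symm
    rw [hsum, Finset.sum_const_zero] at h2
    exact lt_irrefl _ h2

/-- `1 ≤ i ≤ d + 1`. Proof. `ty_iff`; the sum of the `Lam` is `0` (coordinate `0` of `lam_dep`, `hv _ 0 = 1`) and they are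
not `0`, so there are positive and negative ones. -/
theorem ty_bounds [Fintype ι] [DecidableEq ι] {p : ι → E d} (hp : GPc p) {X : Finset ι}
    (hX : X.card = d + 2) {i : ℕ} (h : Ty p X i) : 1 ≤ i ∧ i ≤ d + 1 := by
  obtain ⟨x, hx, rfl⟩ := exists_enum X hX
  rw [ty_iff hp hx] at h
  obtain ⟨h1, h2, h3⟩ := Dep_counts hp hx
  omega

/-- Proof. `ty_iff` (the two numbers of `ty_iff` have the sum `d + 2` as no `Lam` is `0`). -/
theorem ty_cases [Fintype ι] [DecidableEq ι] {p : ι → E d} (hp : GPc p) {X : Finset ι}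
    (hX : X.card = d + 2) {i i' : ℕ} (h : Ty p X i) : Ty p X i' ↔ i' = i ∨ i + i' = d + 2 := by
  obtain ⟨x, hx, rfl⟩ := exists_enum X hX
  rw [ty_iff hp hx] at h ⊢
  obtain ⟨h1, h2, h3⟩ := Dep_counts hp hx
  omega

theorem ty_exists [Fintype ι] [DecidableEq ι] {p : ι → E d} (hp : GPc p) {X : Finset ι}
    (hX : X.card = d + 2) : ∃ i, Ty p X i := by
  obtain ⟨x, hx, rfl⟩ := exists_enum X hX
  exact ⟨_, (ty_iff hp hx _).2 (Or.inl rfl)⟩

end Pool.Agent.RVM
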