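import Pool.Agent.MP_c130bd_co.RVM.Dep

set_option autoImplicit false

namespace Pool.Agent.RVM

variable {d : ℕ} {ι : Type*} [Fintype ι] [DecidableEq ι]

/-! ## [RVM-DEPC] -/

/-- Two families with different orientations in one set `N` of `d + 1` indices only: the numbers differ by at most the
number of the `(d+2)`-sets which contain `N`. Proof. `ty_congr` for the `X` which do not contain `N`; the sets `X ⊇ N` with
`d + 2` elements are the `insert y N`, `y ∉ N`. -/
theorem pc_near {p p' : ι → E d} (hp : GPc p) (hp' : GPc p') (N : Finset ι) (hN : N.card = d + 1)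
    (h : ∀ I : Fin (d + 1) → ι, Function.Injective I → Set.range I ≠ (N : Set ι) → 0 < D p I * D p' I)
    (i : ℕ) : |(Pc p i : ℤ) - Pc p' i| ≤ (Fintype.card ι : ℤ) - (d + 1) := by
  classical
  set P : Finset (Finset ι) := Finset.univ.powersetCard (d + 2) with hP
  set S : Finset (Finset ι) := P.filter (fun X => N ⊆ X) with hS
  set A : Finset (Finset ι) := P.filter (fun X => Ty p X i) with hA
  set B : Finset (Finset ι) := P.filter (fun X => Ty p' X i) with hB
  have hPA : Pc p i = A.card := by
    unfold Pc
    rw [hA, hP]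
  have hPB : Pc p' i = B.card := by
    unfold Pc
    rw [hB, hP]
  have hScard : (S.card : ℤ) ≤ (Fintype.card ι : ℤ) - (d + 1) := by
    have h1 : S ⊆ (Nᶜ).image (fun y => insert y N) := by
      intro X hX
      rw [hS, Finset.mem_filter, hP, Finset.mem_powersetCard] at hX
      obtain ⟨⟨_, hXc⟩, hNX⟩ := hX
      have h2 : (X \ N).card = 1 := by
        rw [Finset.card_sdiff_of_subset hNX, hXc, hN]
        omega
      obtain ⟨y, hy⟩ := Finset.card_eq_one.1 h2
      have hyX : y ∈ X \ N := by
        rw [hy]
        exact Finset.mem_singleton_self y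
      rw [Finset.mem_image]
      refine ⟨y, ?_, ?_⟩
      · rw [Finset.mem_compl]
        exact (Finset.mem_sdiff.1 hyX).2
      · rw [Finset.insert_eq, ← hy]
        exact Finset.sdiff_union_of_subset hNX
    have h2 := (Finset.card_le_card h1).trans Finset.card_image_le
    rw [Finset.card_compl, hN] at h2
    have h3 : d + 1 ≤ Fintype.card ι := by
      rw [← hN]
      exact Finset.card_le_univ N
    omega
  have hdiff : A \ S = B \ S := by
    ext X
    simp only [hA, hB, hS, Finset.mem_sdiff, Finset.mem_filter]
    constructor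
    · rintro ⟨⟨hXP, hT⟩, hXS⟩
      have hXc : X.card = d + 2 := by
        rw [hP, Finset.mem_powersetCard] at hXP
        exact hXP.2
      refine ⟨⟨hXP, ?_⟩, hXS⟩
      refine (ty_congr hp hp' X hXc ?_ i).1 hT
      intro I hI hIX
      apply h I hI
      intro hr
      apply hXS
      refine ⟨hXP, ?_⟩
      intro z hz
      have hz' : z ∈ Set.range I := by
        rw [hr]
        exact hz
      obtain ⟨r, rfl⟩ := hz'
      exact hIX r
    · rintro ⟨⟨hXP, hT⟩, hXS⟩
      have hXc : X.card = d + 2 := by
        rw [hP, Finset.mem_powersetCard] at hXP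
        exact hXP.2
      refine ⟨⟨hXP, ?_⟩, hXS⟩
      refine (ty_congr hp hp' X hXc ?_ i).2 hT
      intro I hI hIX
      apply h I hI
      intro hr
      apply hXS
      refine ⟨hXP, ?_⟩
      intro z hz
      have hz' : z ∈ Set.range I := by
        rw [hr]
        exact hz
      obtain ⟨r, rfl⟩ := hz'
      exact hIX r
  have hAc : A.card = (A ∩ S).card + (A \ S).card := (Finset.card_inter_add_card_sdiff A S).symm
  have hBc : B.card = (B ∩ S).card + (B \ S).card := (Finset.card_inter_add_card_sdiff B S).symm
  have hA1 : (A ∩ S).card ≤ S.card := Finset.card_le_card Finset.inter_subset_right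
  have hB1 : (B ∩ S).card ≤ S.card := Finset.card_le_card Finset.inter_subset_right
  rw [hdiff] at hAc
  rw [hPA, hPB, abs_le]
  constructor <;> omega

/-- Every `(d+2)`-set has exactly one type number in `1, …, d/2 + 1`. Proof. `ty_exists`, `ty_bounds`, `ty_cases`:
exactly one of `i`, `d + 2 - i` (or both, if they are equal) is in `Icc 1 (d / 2 + 1)`; sum over `X`. -/
theorem pc_sum {p : ι → E d} (hp : GPc p) :
    ∑ i ∈ Finset.Icc 1 (d / 2 + 1), Pc p i = (Fintype.card ι).choose (d + 2) := by
  classical
  have h1 : ∀ i, Pc p i = ∑ X ∈ (Finset.univ : Finset ι).powersetCard (d + 2),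
      if Ty p X i then 1 else 0 := by
    intro i
    unfold Pc
    rw [Finset.card_filter]
  rw [Finset.sum_congr rfl fun i _ => h1 i, Finset.sum_comm]
  have h2 : ∀ X ∈ (Finset.univ : Finset ι).powersetCard (d + 2),
      (∑ i ∈ Finset.Icc 1 (d / 2 + 1), if Ty p X i then 1 else 0) = 1 := by
    intro X hX
    have hXc : X.card = d + 2 := (Finset.mem_powersetCard.1 hX).2
    obtain ⟨i0, hi0⟩ := ty_exists hp hXc
    obtain ⟨hb1, hb2⟩ := ty_bounds hp hXc hi0
    have hi1 : Ty p X (min i0 (d + 2 - i0)) := by
      rw [ty_cases hp hXc hi0]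
      omega
    rw [← Finset.card_filter, Finset.card_eq_one]
    refine ⟨min i0 (d + 2 - i0), ?_⟩
    ext j
    rw [Finset.mem_filter, Finset.mem_Icc, Finset.mem_singleton]
    constructor
    · rintro ⟨⟨hj1, hj2⟩, hj⟩
      rw [ty_cases hp hXc hi1] at hj
      omega
    · rintro rfl
      refine ⟨⟨by omega, by omega⟩, hi1⟩
  rw [Finset.sum_congr rfl h2, Finset.sum_const, Finset.card_powersetCard, Finset.card_univ]
  simp

end Pool.Agent.RVM
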