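import Pool.Agent.MP_c130bd_co.RVM.LinkP

set_option autoImplicit false

namespace Pool.Agent.RVM

/-! ## [RVM-MOM] points on the moment curve -/

/-- the points of the moment curve -/
private noncomputable def mpt (d s : ℕ) (k : Fin s) : E d := fun c => ((k : ℕ) : ℝ) ^ ((c : ℕ) + 1)

private theorem mom_hv (d s : ℕ) (k : Fin s) (c : Fin (d + 1)) :
    hv (mpt d s k) c = ((k : ℕ) : ℝ) ^ (c : ℕ) := by
  refine Fin.cases ?_ (fun c => ?_) c
  · simp [hv]
  · simp [hv, mpt]

private theorem mom_D (d s : ℕ) (I : Fin (d + 1) → Fin s) :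
    D (mpt d s) I = Matrix.det (Matrix.vandermonde fun r => ((I r : ℕ) : ℝ)) := by
  unfold D
  congr 1
  ext r c
  rw [Matrix.of_apply, mom_hv, Matrix.vandermonde_apply]

private theorem mom_gpc (d s : ℕ) : GPc (mpt d s) := by
  intro I hI
  rw [mom_D, Matrix.det_vandermonde_ne_zero_iff]
  intro a b hab
  apply hI
  apply Fin.ext
  have h : ((I a : ℕ) : ℝ) = ((I b : ℕ) : ℝ) := hab
  exact_mod_cast h

private theorem mom_pos (d s : ℕ) (I : Fin (d + 1) → Fin s) (hI : StrictMono I) :
    0 < D (mpt d s) I := by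
  rw [mom_D, Matrix.det_vandermonde]
  apply Finset.prod_pos
  intro a _
  apply Finset.prod_pos
  intro b hb
  have hab : a < b := Finset.mem_Ioi.mp hb
  have h : (I a : ℕ) < (I b : ℕ) := hI hab
  have : ((I a : ℕ) : ℝ) < ((I b : ℕ) : ℝ) := by exact_mod_cast h
  linarith

private theorem mom_odd (n : ℕ) :
    (Finset.univ.filter fun j : Fin n => Odd (j : ℕ)).card = n / 2 := by
  rw [Finset.card_filter, Fin.sum_univ_eq_sum_range (fun j => if Odd j then 1 else 0) n]
  induction n with
  | zero => simp
  | succ m ih =>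
    rw [Finset.sum_range_succ, ih]
    rcases Nat.even_or_odd m with h | h
    · rw [if_neg (Nat.not_odd_iff_even.mpr h)]
      obtain ⟨k, rfl⟩ := h
      omega
    · rw [if_pos h]
      obtain ⟨k, rfl⟩ := h
      omega

private theorem mom_even (n : ℕ) :
    (Finset.univ.filter fun j : Fin n => Even (j : ℕ)).card = (n + 1) / 2 := by
  rw [Finset.card_filter, Fin.sum_univ_eq_sum_range (fun j => if Even j then 1 else 0) n]
  induction n with
  | zero => simp
  | succ m ih =>
    rw [Finset.sum_range_succ, ih]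
    rcases Nat.even_or_odd m with h | h
    · rw [if_pos h]
      obtain ⟨k, rfl⟩ := h
      omega
    · rw [if_neg (Nat.not_even_iff_odd.mpr h)]
      obtain ⟨k, rfl⟩ := h
      omega

private theorem mom_ty (d s : ℕ) (X : Finset (Fin s)) (hX : X.card = d + 2) (i : ℕ) :
    Ty (mpt d s) X i ↔ (d + 3) / 2 = i ∨ d / 2 + 1 = i := by
  set x : Fin (d + 2) → Fin s := fun j => X.orderEmbOfFin hX j with hx
  have hmono : StrictMono x := (X.orderEmbOfFin hX).strictMono
  have himg : Finset.univ.image x = X := by
    apply Finset.coe_injective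
    rw [Finset.coe_image, Finset.coe_univ, Set.image_univ, hx, Finset.range_orderEmbOfFin]
  have h := ty_iff (mom_gpc d s) hmono.injective i
  rw [himg] at h
  rw [h]
  have hL : ∀ j : Fin (d + 2), Lam (mpt d s) x j =
      (-1) ^ (j : ℕ) * D (mpt d s) (x ∘ j.succAbove) := fun j => rfl
  have hD : ∀ j : Fin (d + 2), 0 < D (mpt d s) (x ∘ j.succAbove) := fun j =>
    mom_pos d s _ (hmono.comp (Fin.strictMono_succAbove j))
  have e1 : (Finset.univ.filter fun j => 0 < Lam (mpt d s) x j) =
      Finset.univ.filter fun j : Fin (d + 2) => Even (j : ℕ) := by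
    apply Finset.filter_congr
    intro j _
    rw [hL]
    rcases Nat.even_or_odd (j : ℕ) with hj | hj
    · rw [hj.neg_one_pow, one_mul]
      exact ⟨fun _ => hj, fun _ => hD j⟩
    · rw [hj.neg_one_pow]
      constructor
      · intro h2
        have := hD j
        linarith
      · intro h2
        exact absurd h2 (Nat.not_even_iff_odd.mpr hj)
  have e2 : (Finset.univ.filter fun j => Lam (mpt d s) x j < 0) =
      Finset.univ.filter fun j : Fin (d + 2) => Odd (j : ℕ) := by
    apply Finset.filter_congr
    intro j _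
    rw [hL]
    rcases Nat.even_or_odd (j : ℕ) with hj | hj
    · rw [hj.neg_one_pow, one_mul]
      constructor
      · intro h2
        have := hD j
        linarith
      · intro h2
        exact absurd h2 (Nat.not_odd_iff_even.mpr hj)
    · rw [hj.neg_one_pow]
      have := hD j
      exact ⟨fun _ => hj, fun _ => by linarith⟩
  rw [e1, e2, mom_even, mom_odd]
  have e3 : (d + 2) / 2 = d / 2 + 1 := by omega
  have e4 : (d + 2 + 1) / 2 = (d + 3) / 2 := by omega
  rw [e3, e4]

/-- Proof. `p k = (t, t², …, t^d)` with `t = k`, `k : Fin s`. For increasing `I` the determinant is a Vandermonde determinant (`Matrix.det_vandermonde`,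
`hv (p k) = (1, t, …, t^d)`), which is positive; for injective `I` it is not `0`. For an increasing enumeration `x` of a set of `d + 2`
indices `Lam p x j` has the sign `(-1)^j`, so there are `⌈(d+2)/2⌉` positive and `⌊(d+2)/2⌋` negative ones: `Ty p X i ↔ i = d / 2 + 1 ∨ i = d + 2 - (d / 2 + 1)`
(`ty_iff`); for `1 ≤ i ≤ d / 2` there is none. `pp_eq`, `gp_iff`. -/
theorem moment (d s : ℕ) (hd : 1 ≤ d) (hs : d + 2 ≤ s) : ∃ S : Finset (E d), S.card = s ∧ GP S ∧
    (∀ i, 1 ≤ i → i ≤ d / 2 → PP S i = 0) ∧ PP S (d / 2 + 1) = s.choose (d + 2) := by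
  classical
  have hinj : Function.Injective (mpt d s) := by
    intro a b hab
    have h := congrFun hab ⟨0, hd⟩
    simp only [mpt, zero_add, pow_one] at h
    apply Fin.ext
    exact_mod_cast h
  have hcard : d + 1 ≤ Fintype.card (Fin s) := by
    rw [Fintype.card_fin]; omega
  have hgp := mom_gpc d s
  refine ⟨Finset.univ.image (mpt d s), ?_, ?_, ?_, ?_⟩
  · rw [Finset.card_image_of_injective _ hinj, Finset.card_univ, Fintype.card_fin]
  · exact (gp_iff hinj hcard).mpr hgp
  · intro i hi1 hi2
    rw [pp_eq hgp hcard hd]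
    unfold Pc
    rw [Finset.card_eq_zero, Finset.filter_eq_empty_iff]
    intro X hX
    rw [mom_ty d s X (Finset.mem_powersetCard.mp hX).2]
    omega
  · rw [pp_eq hgp hcard hd]
    unfold Pc
    rw [Finset.filter_true_of_mem]
    · rw [Finset.card_powersetCard, Finset.card_univ, Fintype.card_fin]
    · intro X hX
      rw [mom_ty d s X (Finset.mem_powersetCard.mp hX).2]
      right
      rfl

end Pool.Agent.RVM
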