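import Pool.Agent.MP_c130bd_co.RVM.Flip

set_option autoImplicit false

namespace Pool.Agent.RVM

variable {d : ℕ} {ι : Type*} [Fintype ι] [DecidableEq ι]

/-! ## [RVM-FLIPR] the effect of a mutation on the Radon vector -/

private theorem FlipR_pos_left {a b : ℝ} (h : 0 < a * b) (ha : 0 ≤ a) : 0 < b := by
  by_contra hb
  push Not at hb
  have := mul_nonpos_of_nonneg_of_nonpos ha hb
  linarith

private theorem FlipR_pos_right {a b : ℝ} (h : 0 < a * b) (hb : 0 ≤ b) : 0 < a := by
  rw [mul_comm] at h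
  exact FlipR_pos_left h hb

/-! ### counting partitions -/

private theorem FlipR_pair (A B : Finset ι) :
    (({A, Aᶜ} : Finset (Finset ι)) = {B, Bᶜ}) ↔ A = B ∨ A = Bᶜ := by
  constructor
  · intro h
    have : A ∈ ({B, Bᶜ} : Finset (Finset ι)) := by
      rw [← h]
      exact Finset.mem_insert_self _ _
    simpa using this
  · rintro (rfl | rfl)
    · rfl
    · rw [compl_compl, Finset.pair_comm]

open Classical in
private theorem FlipR_mem (P : Finset ι → Prop) (hP : ∀ A, P Aᶜ ↔ P A) (i : ℕ) (B : Finset ι) :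
    (∃ A : Finset ι, ({B, Bᶜ} : Finset (Finset ι)) = {A, Aᶜ} ∧ A.card = i ∧ P A) ↔
      P B ∧ (i = B.card ∨ i + B.card = Fintype.card ι) := by
  have hc : Bᶜ.card + B.card = Fintype.card ι := by
    rw [Finset.card_compl]
    exact Nat.sub_add_cancel (Finset.card_le_univ B)
  constructor
  · rintro ⟨A, hA, hi, hPA⟩
    rcases (FlipR_pair B A).1 hA with h | h
    · subst h
      exact ⟨hPA, Or.inl hi.symm⟩
    · have hA' : A = Bᶜ := by rw [h, compl_compl]
      subst hA'
      exact ⟨(hP B).1 hPA, Or.inr (by omega)⟩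
  · rintro ⟨hPB, hi | hi⟩
    · exact ⟨B, rfl, hi.symm, hPB⟩
    · exact ⟨Bᶜ, (FlipR_pair B Bᶜ).2 (Or.inr (compl_compl B).symm), by omega, (hP B).2 hPB⟩

open Classical in
private theorem FlipR_count {P Q : Finset ι → Prop} (hP : ∀ A, P Aᶜ ↔ P A)
    (hQ : ∀ A, Q Aᶜ ↔ Q A) {A1 A2 : Finset ι} (hne : A1 ≠ A2) (hne' : A1 ≠ A2ᶜ)
    (h : ∀ A, A ≠ A1 → A ≠ A1ᶜ → A ≠ A2 → A ≠ A2ᶜ → (P A ↔ Q A))
    (hP1 : ¬ P A1) (hP2 : P A2) (hQ1 : Q A1) (hQ2 : ¬ Q A2) (i : ℕ) :
    ((((Finset.univ : Finset (Finset (Finset ι))).filter fun π =>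
      ∃ A : Finset ι, π = {A, Aᶜ} ∧ A.card = i ∧ P A).card : ℕ) : ℤ) =
    ((((Finset.univ : Finset (Finset (Finset ι))).filter fun π =>
      ∃ A : Finset ι, π = {A, Aᶜ} ∧ A.card = i ∧ Q A).card : ℕ) : ℤ) +
      tR (Fintype.card ι) i A2.card - tR (Fintype.card ι) i A1.card := by
  set FP := (Finset.univ : Finset (Finset (Finset ι))).filter fun π =>
      ∃ A : Finset ι, π = {A, Aᶜ} ∧ A.card = i ∧ P A with hFP
  set FQ := (Finset.univ : Finset (Finset (Finset ι))).filter fun π =>
      ∃ A : Finset ι, π = {A, Aᶜ} ∧ A.card = i ∧ Q A with hFQ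
  have hmP : ∀ B : Finset ι, ({B, Bᶜ} : Finset (Finset ι)) ∈ FP ↔
      P B ∧ (i = B.card ∨ i + B.card = Fintype.card ι) := fun B => by
    rw [hFP, Finset.mem_filter]
    exact (and_iff_right (Finset.mem_univ _)).trans (FlipR_mem P hP i B)
  have hmQ : ∀ B : Finset ι, ({B, Bᶜ} : Finset (Finset ι)) ∈ FQ ↔
      Q B ∧ (i = B.card ∨ i + B.card = Fintype.card ι) := fun B => by
    rw [hFQ, Finset.mem_filter]
    exact (and_iff_right (Finset.mem_univ _)).trans (FlipR_mem Q hQ i B)
  have herase : FP.erase {A2, A2ᶜ} = FQ.erase {A1, A1ᶜ} := by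
    have hgen : ∀ B : Finset ι, (({B, Bᶜ} : Finset (Finset ι)) ∈ FP.erase {A2, A2ᶜ} ↔
        ({B, Bᶜ} : Finset (Finset ι)) ∈ FQ.erase {A1, A1ᶜ}) := by
      intro B
      rw [Finset.mem_erase, Finset.mem_erase, hmP, hmQ, ne_eq, ne_eq, FlipR_pair, FlipR_pair]
      by_cases h1 : B = A1 ∨ B = A1ᶜ
      · have hPB : ¬ P B := by
          rcases h1 with rfl | rfl
          · exact hP1
          · rwa [hP]
        constructor
        · rintro ⟨-, h2, -⟩
          exact absurd h2 hPB
        · rintro ⟨h2, -⟩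
          exact absurd h1 h2
      · by_cases h3 : B = A2 ∨ B = A2ᶜ
        · have hQB : ¬ Q B := by
            rcases h3 with rfl | rfl
            · exact hQ2
            · rwa [hQ]
          constructor
          · rintro ⟨h2, -⟩
            exact absurd h3 h2
          · rintro ⟨-, h2, -⟩
            exact absurd h2 hQB
        · push Not at h1 h3
          have := h B h1.1 h1.2 h3.1 h3.2
          constructor
          · rintro ⟨-, h2, h4⟩
            exact ⟨fun h5 => h5.elim h1.1 h1.2, this.1 h2, h4⟩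
          · rintro ⟨-, h2, h4⟩
            exact ⟨fun h5 => h5.elim h3.1 h3.2, this.2 h2, h4⟩
    ext π
    constructor
    · intro hπ
      have h2 := Finset.mem_of_mem_erase hπ
      rw [hFP, Finset.mem_filter] at h2
      obtain ⟨-, A, rfl, -, -⟩ := h2
      exact (hgen A).1 hπ
    · intro hπ
      have h2 := Finset.mem_of_mem_erase hπ
      rw [hFQ, Finset.mem_filter] at h2
      obtain ⟨-, A, rfl, -, -⟩ := h2
      exact (hgen A).2 hπ
  have hcP : (FP.card : ℤ) = (FP.erase {A2, A2ᶜ}).card + tR (Fintype.card ι) i A2.card := by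
    unfold tR
    by_cases h1 : i = A2.card ∨ i + A2.card = Fintype.card ι
    · rw [if_pos h1]
      have := Finset.card_erase_add_one ((hmP A2).2 ⟨hP2, h1⟩)
      exact_mod_cast this.symm
    · rw [if_neg h1, Finset.erase_eq_of_notMem (fun h2 => h1 ((hmP A2).1 h2).2), add_zero]
  have hcQ : (FQ.card : ℤ) = (FQ.erase {A1, A1ᶜ}).card + tR (Fintype.card ι) i A1.card := by
    unfold tR
    by_cases h1 : i = A1.card ∨ i + A1.card = Fintype.card ι
    · rw [if_pos h1]
      have := Finset.card_erase_add_one ((hmQ A1).2 ⟨hQ1, h1⟩)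
      exact_mod_cast this.symm
    · rw [if_neg h1, Finset.erase_eq_of_notMem (fun h2 => h1 ((hmQ A1).1 h2).2), add_zero]
  rw [hcP, hcQ, herase]
  ring

/-! ### transfer of dependences -/

private theorem FlipR_transfer {p p' : ι → E d} (hp : GPc p) {X : Finset ι} (hX : X.card = d + 2)
    (h : ∀ I : Fin (d + 1) → ι, Function.Injective I → (∀ r, I r ∈ X) → 0 < D p I * D p' I)
    {c : ι → ℝ} (hc : Dep p c) (hs : ∀ j, c j ≠ 0 ↔ j ∈ X) :
    ∃ c' : ι → ℝ, Dep p' c' ∧ ∀ j, (c' j ≠ 0 ↔ j ∈ X) ∧ (0 < c' j → 0 < c j) ∧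
      (c' j < 0 → c j < 0) := by
  obtain ⟨x, hx, hxX⟩ := exists_enum X hX
  have hmem : ∀ j, x j ∈ X := fun j => by
    rw [← hxX]
    exact Finset.mem_image_of_mem _ (Finset.mem_univ _)
  obtain ⟨κ, hκ⟩ := dep_unique hx 0 (lam_ne hp hx 0) hc (fun j hj => by
    have := (hs j).1 hj
    rw [← hxX, Finset.mem_image] at this
    obtain ⟨k, -, hk⟩ := this
    exact ⟨k, hk⟩)
  have hκ0 : κ ≠ 0 := by
    intro h0
    have h1 := (hs (x 0)).2 (hmem 0)
    rw [hκ, h0, zero_mul] at h1
    exact h1 rfl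
  have hpos : ∀ j, 0 < Lam p x j * Lam p' x j := by
    intro j
    have h1 := h (x ∘ j.succAbove) (hx.comp (Fin.succAbove_right_injective)) (fun r => hmem _)
    have h2 : Lam p x j * Lam p' x j = D p (x ∘ j.succAbove) * D p' (x ∘ j.succAbove) := by
      unfold Lam
      have h3 : ((-1 : ℝ) ^ (j : ℕ)) * (-1) ^ (j : ℕ) = 1 := by
        rw [← mul_pow]
        norm_num
      calc (-1 : ℝ) ^ (j : ℕ) * D p (x ∘ j.succAbove) * ((-1) ^ (j : ℕ) * D p' (x ∘ j.succAbove))
          = ((-1 : ℝ) ^ (j : ℕ) * (-1) ^ (j : ℕ)) *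
            (D p (x ∘ j.succAbove) * D p' (x ∘ j.succAbove)) := by ring
        _ = _ := by rw [h3, one_mul]
    rw [h2]
    exact h1
  let c' : ι → ℝ := fun i => ∑ j, if x j = i then κ * Lam p' x j else 0
  have hc'x : ∀ j, c' (x j) = κ * Lam p' x j := by
    intro j
    simp only [c']
    rw [Finset.sum_eq_single j]
    · rw [if_pos rfl]
    · intro k _ hk
      rw [if_neg (fun h => hk (hx h))]
    · intro hj
      exact absurd (Finset.mem_univ _) hj
  have hc'0 : ∀ i, i ∉ X → c' i = 0 := by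
    intro i hi
    simp only [c']
    refine Finset.sum_eq_zero fun j _ => if_neg ?_
    rintro rfl
    exact hi (hmem j)
  refine ⟨c', ?_, ?_⟩
  · unfold Dep
    have h1 : ∀ i, c' i • hv (p' i) = ∑ j, if x j = i then (κ * Lam p' x j) • hv (p' (x j)) else 0 := by
      intro i
      simp only [c']
      rw [Finset.sum_smul]
      refine Finset.sum_congr rfl fun j _ => ?_
      split_ifs with h2
      · rw [h2]
      · rw [zero_smul]
    rw [Finset.sum_congr rfl fun i _ => h1 i, Finset.sum_comm]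
    have h2 : ∀ j, (∑ i, if x j = i then (κ * Lam p' x j) • hv (p' (x j)) else 0) =
        κ • (Lam p' x j • hv (p' (x j))) := by
      intro j
      rw [Finset.sum_ite_eq, if_pos (Finset.mem_univ _), mul_smul]
    rw [Finset.sum_congr rfl fun j _ => h2 j, ← Finset.smul_sum, lam_dep, smul_zero]
  · intro i
    by_cases hi : i ∈ X
    · have hi' := hi
      rw [← hxX, Finset.mem_image] at hi'
      obtain ⟨j, -, rfl⟩ := hi'
      have h1 := hpos j
      have h2 : 0 < c (x j) * c' (x j) := by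
        rw [hκ, hc'x]
        have : κ * Lam p x j * (κ * Lam p' x j) = κ ^ 2 * (Lam p x j * Lam p' x j) := by ring
        rw [this]
        positivity
      refine ⟨⟨fun _ => hi, fun _ h0 => ?_⟩, fun h3 => ?_, fun h3 => ?_⟩
      · rw [h0, mul_zero] at h2
        exact lt_irrefl _ h2
      · exact FlipR_pos_right h2 h3.le
      · by_contra h4
        push Not at h4
        nlinarith
    · rw [hc'0 i hi]
      exact ⟨⟨fun h => absurd rfl h, fun h => absurd h hi⟩, fun h => absurd h (lt_irrefl _),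
        fun h => absurd h (lt_irrefl _)⟩

/-! ### the configuration -/

omit [Fintype ι] [DecidableEq ι] in
private theorem FlipR_symm {pp pm p0 : ι → E d} {x : ι} {ζ : Fin d → ι} (h : Mut pp pm p0 x ζ) :
    Mut pm pp p0 x ζ where
  gp := h.gm
  gm := h.gp
  inj := h.inj
  zero := h.zero
  opp := by rw [mul_comm]; exact h.opp
  same := fun I hI hr => by
    obtain ⟨h1, h2⟩ := h.same I hI hr
    refine ⟨by rw [mul_comm]; exact h1, ?_⟩
    have h3 := mul_pos h1 h2
    have h4 : D pp I * D pm I * (D pp I * D p0 I) = D pp I ^ 2 * (D pm I * D p0 I) := by ring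
    rw [h4] at h3
    exact FlipR_pos_left h3 (sq_nonneg _)

/-- the side of `x` in `N` -/
private noncomputable def FlipR_W (β : Fin d → ℝ) (x : ι) (ζ : Fin d → ι) : Finset ι :=
  insert x ((Finset.univ.filter fun i => β i < 0).image ζ)

open Classical in
/-- the points on the side of `x` -/
private noncomputable def FlipR_U (pp : ι → E d) (x : ι) (ζ : Fin d → ι) : Finset ι :=
  Finset.univ.filter fun y => y ∉ Set.range (Fin.cons x ζ : Fin (d + 1) → ι) ∧
    0 < D pp (Fin.cons y ζ) * D pp (Fin.cons x ζ)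

/-- the extremal set -/
private noncomputable def FlipR_A (pp : ι → E d) (β : Fin d → ℝ) (x : ι) (ζ : Fin d → ι) :
    Finset ι := FlipR_W β x ζ ∪ FlipR_U pp x ζ

/-- the set `N` -/
private def FlipR_N (x : ι) (ζ : Fin d → ι) : Finset ι :=
  Finset.univ.image (Fin.cons x ζ : Fin (d + 1) → ι)

omit [Fintype ι] in
private theorem FlipR_mem_N {x : ι} {ζ : Fin d → ι} {y : ι} :
    y ∈ FlipR_N x ζ ↔ y ∈ Set.range (Fin.cons x ζ : Fin (d + 1) → ι) := by
  unfold FlipR_N
  rw [Finset.mem_image, Set.mem_range]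
  simp

omit [Fintype ι] in
private theorem FlipR_card_N {x : ι} {ζ : Fin d → ι}
    (h : Function.Injective (Fin.cons x ζ : Fin (d + 1) → ι)) :
    (FlipR_N x ζ).card = d + 1 := by
  unfold FlipR_N
  rw [Finset.card_image_of_injective _ h, Finset.card_univ, Fintype.card_fin]

omit [Fintype ι] [DecidableEq ι] in
private theorem FlipR_x_mem (x : ι) (ζ : Fin d → ι) :
    x ∈ Set.range (Fin.cons x ζ : Fin (d + 1) → ι) := ⟨0, rfl⟩

omit [Fintype ι] [DecidableEq ι] in
private theorem FlipR_ζ_mem (x : ι) (ζ : Fin d → ι) (i : Fin d) :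
    ζ i ∈ Set.range (Fin.cons x ζ : Fin (d + 1) → ι) := ⟨i.succ, rfl⟩

omit [Fintype ι] [DecidableEq ι] in
private theorem FlipR_ζ_inj {x : ι} {ζ : Fin d → ι}
    (h : Function.Injective (Fin.cons x ζ : Fin (d + 1) → ι)) : Function.Injective ζ := by
  intro i j hij
  have : (Fin.cons x ζ : Fin (d + 1) → ι) i.succ = (Fin.cons x ζ : Fin (d + 1) → ι) j.succ := hij
  exact Fin.succ_injective _ (h this)

omit [Fintype ι] [DecidableEq ι] in
private theorem FlipR_ζ_ne {x : ι} {ζ : Fin d → ι}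
    (h : Function.Injective (Fin.cons x ζ : Fin (d + 1) → ι)) (i : Fin d) : ζ i ≠ x := by
  intro hi
  have : (Fin.cons x ζ : Fin (d + 1) → ι) i.succ = (Fin.cons x ζ : Fin (d + 1) → ι) 0 := hi
  exact Fin.succ_ne_zero _ (h this)

omit [Fintype ι] [DecidableEq ι] in
private theorem FlipR_range_cases {x : ι} {ζ : Fin d → ι} {j : ι}
    (h : j ∈ Set.range (Fin.cons x ζ : Fin (d + 1) → ι)) : j = x ∨ ∃ i, ζ i = j := by
  obtain ⟨k, hk⟩ := h
  revert hk
  refine Fin.cases ?_ (fun i => ?_) k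
  · intro hk
    exact Or.inl hk.symm
  · intro hk
    exact Or.inr ⟨i, hk⟩

omit [Fintype ι] [DecidableEq ι] in
private theorem FlipR_cons_inj {x y : ι} {ζ : Fin d → ι}
    (h : Function.Injective (Fin.cons x ζ : Fin (d + 1) → ι))
    (hy : y ∉ Set.range (Fin.cons x ζ : Fin (d + 1) → ι)) :
    Function.Injective (Fin.cons y ζ : Fin (d + 1) → ι) := by
  rw [Fin.cons_injective_iff]
  refine ⟨?_, FlipR_ζ_inj h⟩
  rintro ⟨i, rfl⟩
  exact hy (FlipR_ζ_mem x ζ i)

omit [Fintype ι] [DecidableEq ι] in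
private theorem FlipR_range_ne {x y : ι} {ζ : Fin d → ι}
    (hy : y ∉ Set.range (Fin.cons x ζ : Fin (d + 1) → ι)) :
    Set.range (Fin.cons y ζ : Fin (d + 1) → ι) ≠ Set.range (Fin.cons x ζ : Fin (d + 1) → ι) := by
  intro h
  apply hy
  rw [← h]
  exact FlipR_x_mem y ζ

/-- a `(d+2)`-set which contains `N` is `N ∪ {y}` -/
private theorem FlipR_insert {x : ι} {ζ : Fin d → ι}
    (h : Function.Injective (Fin.cons x ζ : Fin (d + 1) → ι)) {X : Finset ι} (hX : X.card = d + 2)
    (hN : FlipR_N x ζ ⊆ X) : ∃ y, y ∉ Set.range (Fin.cons x ζ : Fin (d + 1) → ι) ∧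
      X = insert y (FlipR_N x ζ) := by
  have h1 : (X \ FlipR_N x ζ).card = 1 := by
    rw [Finset.card_sdiff_of_subset hN, hX, FlipR_card_N h]
    omega
  obtain ⟨y, hy⟩ := Finset.card_eq_one.1 h1
  have hyX : y ∈ X \ FlipR_N x ζ := by rw [hy]; exact Finset.mem_singleton_self y
  rw [Finset.mem_sdiff] at hyX
  refine ⟨y, fun h2 => hyX.2 (FlipR_mem_N.2 h2), ?_⟩
  rw [← Finset.sdiff_union_of_subset hN, hy]
  rfl

/-- a dependence with support `N ∪ {y}` which is positive at `x` -/
private theorem FlipR_exists_dep {pp pm p0 : ι → E d} {x : ι} {ζ : Fin d → ι}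
    (h : Mut pp pm p0 x ζ) {y : ι} (hy : y ∉ Set.range (Fin.cons x ζ : Fin (d + 1) → ι)) :
    ∃ c : ι → ℝ, Dep pp c ∧
      (∀ j, c j ≠ 0 ↔ j = y ∨ j ∈ Set.range (Fin.cons x ζ : Fin (d + 1) → ι)) ∧ 0 < c x := by
  set X : Finset ι := insert y (FlipR_N x ζ) with hX
  have hyN : y ∉ FlipR_N x ζ := fun h1 => hy (FlipR_mem_N.1 h1)
  have hXc : X.card = d + 2 := by
    rw [hX, Finset.card_insert_of_notMem hyN, FlipR_card_N h.inj]
  obtain ⟨z, hz, hzX⟩ := exists_enum X hXc
  let c : ι → ℝ := fun i => ∑ j, if z j = i then Lam pp z j else 0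
  have hcz : ∀ j, c (z j) = Lam pp z j := by
    intro j
    simp only [c]
    rw [Finset.sum_eq_single j]
    · rw [if_pos rfl]
    · intro k _ hk
      rw [if_neg (fun h => hk (hz h))]
    · intro hj
      exact absurd (Finset.mem_univ _) hj
  have hc0 : ∀ i, i ∉ X → c i = 0 := by
    intro i hi
    simp only [c]
    refine Finset.sum_eq_zero fun j _ => if_neg ?_
    rintro rfl
    apply hi
    rw [← hzX]
    exact Finset.mem_image_of_mem _ (Finset.mem_univ _)
  have hsupp : ∀ j, c j ≠ 0 ↔ j = y ∨ j ∈ Set.range (Fin.cons x ζ : Fin (d + 1) → ι) := by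
    intro j
    rw [← FlipR_mem_N, ← Finset.mem_insert, ← hX]
    constructor
    · intro h1
      by_contra h2
      exact h1 (hc0 j h2)
    · intro h1
      rw [← hzX, Finset.mem_image] at h1
      obtain ⟨k, -, rfl⟩ := h1
      rw [hcz]
      exact lam_ne h.gp hz k
  have hdep : Dep pp c := by
    unfold Dep
    have h1 : ∀ i, c i • hv (pp i) = ∑ j, if z j = i then (Lam pp z j) • hv (pp (z j)) else 0 := by
      intro i
      simp only [c]
      rw [Finset.sum_smul]
      refine Finset.sum_congr rfl fun j _ => ?_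
      split_ifs with h2
      · rw [h2]
      · rw [zero_smul]
    rw [Finset.sum_congr rfl fun i _ => h1 i, Finset.sum_comm]
    have h2 : ∀ j, (∑ i, if z j = i then (Lam pp z j) • hv (pp (z j)) else 0) =
        (Lam pp z j • hv (pp (z j))) := by
      intro j
      rw [Finset.sum_ite_eq, if_pos (Finset.mem_univ _)]
    rw [Finset.sum_congr rfl fun j _ => h2 j, lam_dep]
  have hx0 : c x ≠ 0 := (hsupp x).2 (Or.inr (FlipR_x_mem x ζ))
  rcases lt_or_gt_of_ne hx0 with h1 | h1
  · refine ⟨fun j => - c j, ?_, fun j => ?_, by simpa using h1⟩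
    · unfold Dep at hdep ⊢
      simp only [neg_smul, Finset.sum_neg_distrib, hdep, neg_zero]
    · rw [← hsupp j]
      simp
  · exact ⟨c, hdep, hsupp, h1⟩

/-- `A` separates `N` in the right way -/
private def FlipR_Conf (β : Fin d → ℝ) (x : ι) (ζ : Fin d → ι) (A : Finset ι) : Prop :=
  x ∈ A ∧ ∀ i, (β i < 0 → ζ i ∈ A) ∧ (0 < β i → ζ i ∉ A)

/-- (2), sufficient condition for a Radon partition -/
private theorem FlipR_suff {pp pm p0 : ι → E d} {x : ι} {ζ : Fin d → ι} (h : Mut pp pm p0 x ζ)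
    (hι : d + 1 ≤ Fintype.card ι)
    {β : Fin d → ℝ} (hβ : hv (p0 x) = ∑ i, β i • hv (p0 (ζ i))) {A : Finset ι}
    (hA : FlipR_Conf β x ζ A) {y : ι} (hy : y ∉ Set.range (Fin.cons x ζ : Fin (d + 1) → ι))
    (hyA : ¬ (y ∈ A ↔ y ∈ FlipR_U pp x ζ)) : RadI pp A := by
  rw [radI_iff h.gp hι]
  have hyN : y ∉ FlipR_N x ζ := fun h1 => hy (FlipR_mem_N.1 h1)
  obtain ⟨c, hc, hs, hcx⟩ := FlipR_exists_dep h hy
  refine ⟨insert y (FlipR_N x ζ), ?_, c, hc, fun j => ?_, ?_⟩
  · rw [Finset.card_insert_of_notMem hyN, FlipR_card_N h.inj]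
  · rw [hs, Finset.mem_insert, FlipR_mem_N]
  · obtain ⟨h1, h2⟩ := (flip_signs h hβ hy).1 c hc hs
    intro j
    by_cases hj : c j = 0
    · rw [hj]
      exact ⟨fun h => absurd h (lt_irrefl _), fun h => absurd h (lt_irrefl _)⟩
    rcases (hs j).1 hj with rfl | hj'
    · -- the point `y`
      have hU : j ∈ FlipR_U pp x ζ ↔ 0 < D pp (Fin.cons j ζ) * D pp (Fin.cons x ζ) := by
        unfold FlipR_U
        rw [Finset.mem_filter]
        exact ⟨fun h => h.2.2, fun h => ⟨Finset.mem_univ _, hy, h⟩⟩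
      have hne : D pp (Fin.cons j ζ) * D pp (Fin.cons x ζ) ≠ 0 := by
        intro h0
        rw [mul_comm (D pp (Fin.cons x ζ)), h0, mul_zero] at h2
        exact lt_irrefl _ h2
      constructor
      · intro hpos
        by_contra hjA
        have hjU : j ∈ FlipR_U pp x ζ := by
          by_contra hjU
          exact hyA ⟨fun h => absurd h hjA, fun h => absurd h hjU⟩
        have h3 := hU.1 hjU
        rw [mul_comm] at h3
        have := mul_pos (mul_pos hpos hcx) h3
        linarith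
      · intro hneg hjA
        have hjU : j ∉ FlipR_U pp x ζ := by
          intro hjU
          exact hyA ⟨fun _ => hjU, fun _ => hjA⟩
        have h3 : D pp (Fin.cons j ζ) * D pp (Fin.cons x ζ) < 0 :=
          lt_of_le_of_ne (not_lt.1 fun h => hjU (hU.2 h)) hne
        rw [mul_comm] at h3
        have := mul_pos_of_neg_of_neg (mul_neg_of_neg_of_pos hneg hcx) h3
        linarith
    · rcases FlipR_range_cases hj' with rfl | ⟨i, rfl⟩
      · exact ⟨fun _ => hA.1, fun h => absurd h (not_lt.2 hcx.le)⟩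
      · have h3 := h1 i
        constructor
        · intro hpos
          apply (hA.2 i).1
          by_contra h4
          push Not at h4
          have := mul_nonneg (mul_pos hpos hcx).le h4
          linarith
        · intro hneg
          apply (hA.2 i).2
          by_contra h4
          push Not at h4
          have := mul_nonneg_of_nonpos_of_nonpos (mul_neg_of_neg_of_pos hneg hcx).le h4
          linarith

/-- (2), necessary condition: a dependence with support `N ∪ {y}` and `c x > 0` -/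
private theorem FlipR_nec {pp pm p0 : ι → E d} {x : ι} {ζ : Fin d → ι} (h : Mut pp pm p0 x ζ)
    {β : Fin d → ℝ} (hβ : hv (p0 x) = ∑ i, β i • hv (p0 (ζ i))) {A : Finset ι} {y : ι}
    (hy : y ∉ Set.range (Fin.cons x ζ : Fin (d + 1) → ι)) {c : ι → ℝ} (hc : Dep pp c)
    (hs : ∀ j, c j ≠ 0 ↔ j = y ∨ j ∈ Set.range (Fin.cons x ζ : Fin (d + 1) → ι))
    (hcA : ∀ j, (0 < c j → j ∈ A) ∧ (c j < 0 → j ∉ A)) (hcx : 0 < c x) :
    FlipR_Conf β x ζ A ∧ ¬ (y ∈ A ↔ y ∈ FlipR_U pp x ζ) := by
  obtain ⟨h1, h2⟩ := (flip_signs h hβ hy).1 c hc hs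
  refine ⟨⟨(hcA x).1 hcx, fun i => ⟨fun hb => ?_, fun hb => ?_⟩⟩, ?_⟩
  · apply (hcA (ζ i)).1
    by_contra h4
    push Not at h4
    have h3 := h1 i
    have := mul_nonneg_of_nonpos_of_nonpos (mul_nonpos_of_nonpos_of_nonneg h4 hcx.le) hb.le
    linarith
  · apply (hcA (ζ i)).2
    by_contra h4
    push Not at h4
    have h3 := h1 i
    have := mul_nonneg (mul_nonneg h4 hcx.le) hb.le
    linarith
  · have hU : y ∈ FlipR_U pp x ζ ↔ 0 < D pp (Fin.cons y ζ) * D pp (Fin.cons x ζ) := by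
      unfold FlipR_U
      rw [Finset.mem_filter]
      exact ⟨fun h => h.2.2, fun h => ⟨Finset.mem_univ _, hy, h⟩⟩
    intro hiff
    by_cases hyU : y ∈ FlipR_U pp x ζ
    · have h3 := hU.1 hyU
      rw [mul_comm] at h3
      have h4 : 0 ≤ c y := by
        by_contra h5
        push Not at h5
        exact (hcA y).2 h5 (hiff.2 hyU)
      have := mul_nonneg (mul_nonneg h4 hcx.le) h3.le
      linarith
    · have h3 : D pp (Fin.cons y ζ) * D pp (Fin.cons x ζ) ≤ 0 := not_lt.1 fun h => hyU (hU.2 h)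
      rw [mul_comm] at h3
      have h4 : c y ≤ 0 := by
        by_contra h5
        push Not at h5
        exact hyU (hiff.1 ((hcA y).1 h5))
      have := mul_nonneg_of_nonpos_of_nonpos (mul_nonpos_of_nonpos_of_nonneg h4 hcx.le) h3
      linarith

private theorem FlipR_beta_ne {pp pm p0 : ι → E d} {x : ι} {ζ : Fin d → ι}
    (h : Mut pp pm p0 x ζ) (hι : d + 2 ≤ Fintype.card ι)
    {β : Fin d → ℝ} (hβ : hv (p0 x) = ∑ i, β i • hv (p0 (ζ i))) (i : Fin d) : β i ≠ 0 := by
  have hex : ∃ y, y ∉ FlipR_N x ζ := by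
    by_contra hcon
    push Not at hcon
    have h1 : FlipR_N x ζ = Finset.univ := Finset.eq_univ_iff_forall.2 hcon
    have h2 := FlipR_card_N h.inj
    rw [h1, Finset.card_univ] at h2
    omega
  obtain ⟨y, hy⟩ := hex
  have hy' : y ∉ Set.range (Fin.cons x ζ : Fin (d + 1) → ι) := fun h1 => hy (FlipR_mem_N.2 h1)
  obtain ⟨c, hc, hs, hcx⟩ := FlipR_exists_dep h hy'
  intro h0
  have := ((flip_signs h hβ hy').1 c hc hs).1 i
  rw [h0, mul_zero] at this
  exact lt_irrefl _ this

private theorem FlipR_conf_A {pp pm p0 : ι → E d} {x : ι} {ζ : Fin d → ι}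
    (h : Mut pp pm p0 x ζ) (β : Fin d → ℝ) (q : ι → E d) :
    FlipR_Conf β x ζ (FlipR_A q β x ζ) := by
  refine ⟨?_, fun i => ⟨fun hb => ?_, fun hb hmem => ?_⟩⟩
  · exact Finset.mem_union_left _ (Finset.mem_insert_self _ _)
  · refine Finset.mem_union_left _ (Finset.mem_insert_of_mem (Finset.mem_image_of_mem _ ?_))
    exact Finset.mem_filter.2 ⟨Finset.mem_univ _, hb⟩
  · rcases Finset.mem_union.1 hmem with h1 | h1
    · rcases Finset.mem_insert.1 h1 with h2 | h2
      · exact FlipR_ζ_ne h.inj i h2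
      · obtain ⟨k, hk, hk'⟩ := Finset.mem_image.1 h2
        have : k = i := FlipR_ζ_inj h.inj hk'
        subst this
        have := (Finset.mem_filter.1 hk).2
        linarith
    · unfold FlipR_U at h1
      exact (Finset.mem_filter.1 h1).2.1 (FlipR_ζ_mem x ζ i)

/-- the points outside of `N` of the extremal set -/
private theorem FlipR_A_out {x : ι} {ζ : Fin d → ι} (β : Fin d → ℝ) (q : ι → E d) {y : ι}
    (hy : y ∉ Set.range (Fin.cons x ζ : Fin (d + 1) → ι)) :
    y ∈ FlipR_A q β x ζ ↔ y ∈ FlipR_U q x ζ := by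
  constructor
  · intro h1
    rcases Finset.mem_union.1 h1 with h1 | h1
    · exfalso
      rcases Finset.mem_insert.1 h1 with h2 | h2
      · exact hy (h2 ▸ FlipR_x_mem x ζ)
      · obtain ⟨k, -, hk⟩ := Finset.mem_image.1 h2
        exact hy (hk ▸ FlipR_ζ_mem x ζ k)
    · exact h1
  · intro h1
    exact Finset.mem_union_right _ h1

/-- a conforming set different from the extremal one is Radon -/
private theorem FlipR_conf_radI {pp pm p0 : ι → E d} {x : ι} {ζ : Fin d → ι}
    (h : Mut pp pm p0 x ζ) (hι : d + 2 ≤ Fintype.card ι)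
    {β : Fin d → ℝ} (hβ : hv (p0 x) = ∑ i, β i • hv (p0 (ζ i))) {A : Finset ι}
    (hA : FlipR_Conf β x ζ A) (hne : A ≠ FlipR_A pp β x ζ) : RadI pp A := by
  have hex : ∃ y, y ∉ Set.range (Fin.cons x ζ : Fin (d + 1) → ι) ∧
      ¬ (y ∈ A ↔ y ∈ FlipR_U pp x ζ) := by
    by_contra hcon
    push Not at hcon
    apply hne
    ext j
    by_cases hj : j ∈ Set.range (Fin.cons x ζ : Fin (d + 1) → ι)
    · have hA' := FlipR_conf_A h β pp
      rcases FlipR_range_cases hj with rfl | ⟨i, rfl⟩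
      · exact ⟨fun _ => hA'.1, fun _ => hA.1⟩
      · rcases lt_or_gt_of_ne (FlipR_beta_ne h hι hβ i) with hb | hb
        · exact ⟨fun _ => (hA'.2 i).1 hb, fun _ => (hA.2 i).1 hb⟩
        · exact ⟨fun h1 => absurd h1 ((hA.2 i).2 hb), fun h1 => absurd h1 ((hA'.2 i).2 hb)⟩
    · rw [FlipR_A_out β pp hj]
      exact hcon j hj
  obtain ⟨y, hy, hyA⟩ := hex
  exact FlipR_suff h (by omega) hβ hA hy hyA

/-- RadI for the other family implies RadI for this one, except for the extremal set -/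
private theorem FlipR_step {pp pm p0 : ι → E d} {x : ι} {ζ : Fin d → ι}
    (h : Mut pp pm p0 x ζ) (hι : d + 2 ≤ Fintype.card ι)
    {β : Fin d → ℝ} (hβ : hv (p0 x) = ∑ i, β i • hv (p0 (ζ i))) {A : Finset ι}
    (hne : A ≠ FlipR_A pp β x ζ) (hne' : A ≠ (FlipR_A pp β x ζ)ᶜ) (hA : RadI pm A) :
    RadI pp A := by
  obtain ⟨X, hX, c, hc, hs, hcA⟩ := (radI_iff h.gm (by omega) A).1 hA
  by_cases hN : FlipR_N x ζ ⊆ X
  · obtain ⟨y, hy, rfl⟩ := FlipR_insert h.inj hX hN
    have hs' : ∀ j, c j ≠ 0 ↔ j = y ∨ j ∈ Set.range (Fin.cons x ζ : Fin (d + 1) → ι) := by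
      intro j
      rw [hs, Finset.mem_insert, FlipR_mem_N]
    have hx0 : c x ≠ 0 := (hs' x).2 (Or.inr (FlipR_x_mem x ζ))
    rcases lt_or_gt_of_ne hx0 with h1 | h1
    · -- pass to the complement
      rw [← radI_compl]
      have h2 := FlipR_nec (FlipR_symm h) hβ (A := Aᶜ) hy (c := fun j => - c j)
        (by
          unfold Dep at hc ⊢
          simp only [neg_smul, Finset.sum_neg_distrib, hc, neg_zero])
        (fun j => by rw [← hs' j]; simp)
        (fun j => ⟨fun h3 => by
            rw [Finset.mem_compl]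
            exact (hcA j).2 (by simpa using h3), fun h3 => by
            rw [Finset.mem_compl, not_not]
            exact (hcA j).1 (by simpa using h3)⟩)
        (by simpa using h1)
      refine FlipR_conf_radI h hι hβ h2.1 ?_
      intro h3
      apply hne'
      rw [← h3, compl_compl]
    · have h2 := FlipR_nec (FlipR_symm h) hβ (A := A) hy hc hs' hcA h1
      exact FlipR_conf_radI h hι hβ h2.1 hne
  · -- transfer
    obtain ⟨c', hc', hs'⟩ := FlipR_transfer h.gm (p' := pp) hX (fun I hI hIX => by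
      refine ((FlipR_symm h).same I hI ?_).1
      intro hr
      apply hN
      intro j hj
      rw [FlipR_mem_N, ← hr] at hj
      obtain ⟨k, rfl⟩ := hj
      exact hIX k) hc hs
    exact (radI_iff h.gp (by omega) A).2 ⟨X, hX, c', hc', fun j => (hs' j).1,
      fun j => ⟨fun h1 => (hcA j).1 ((hs' j).2.1 h1), fun h1 => (hcA j).2 ((hs' j).2.2 h1)⟩⟩

omit [DecidableEq ι] in
/-- the linear functional of a hyperplane -/
private theorem FlipR_functional {p : ι → E d} {c : ι → ℝ} (hc : Dep p c) (ζ : Fin d → ι) :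
    ∑ j, c j * D p (Fin.cons j ζ) = 0 := by
  classical
  let B : Matrix (Fin (d + 1)) (Fin (d + 1)) ℝ :=
    Matrix.of fun r c => (Fin.cons 0 (fun i => hv (p (ζ i))) : Fin (d + 1) → Fin (d + 1) → ℝ) r c
  have h1 : ∀ j, D p (Fin.cons j ζ) = Matrix.det (B.updateRow 0 (hv (p j))) := by
    intro j
    unfold D
    congr 1
    ext r k
    refine Fin.cases ?_ (fun r => ?_) r
    · simp [Matrix.updateRow_self]
    · rw [Matrix.updateRow_ne (Fin.succ_ne_zero r)]
      simp [B]
  let L : (Fin (d + 1) → ℝ) →ₗ[ℝ] ℝ :=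
    { toFun := fun u => Matrix.det (B.updateRow 0 u)
      map_add' := fun u u' => Matrix.det_updateRow_add B 0 u u'
      map_smul' := fun a u => by
        simpa using Matrix.det_updateRow_smul B 0 a u }
  have h2 : ∀ j, c j * D p (Fin.cons j ζ) = L (c j • hv (p j)) := by
    intro j
    rw [h1, map_smul]
    rfl
  rw [Finset.sum_congr rfl fun j _ => h2 j, ← map_sum]
  unfold Dep at hc
  rw [hc, map_zero]

/-- (3) the extremal set is not Radon -/
private theorem FlipR_not {pp pm p0 : ι → E d} {x : ι} {ζ : Fin d → ι}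
    (h : Mut pp pm p0 x ζ) (hι : d + 2 ≤ Fintype.card ι)
    {β : Fin d → ℝ} (hβ : hv (p0 x) = ∑ i, β i • hv (p0 (ζ i))) :
    ¬ RadI pp (FlipR_A pp β x ζ) := by
  intro hR
  obtain ⟨X, hX, c, hc, hs, hcA⟩ := (radI_iff h.gp (by omega) _).1 hR
  by_cases hN : FlipR_N x ζ ⊆ X
  · obtain ⟨y, hy, rfl⟩ := FlipR_insert h.inj hX hN
    have hs' : ∀ j, c j ≠ 0 ↔ j = y ∨ j ∈ Set.range (Fin.cons x ζ : Fin (d + 1) → ι) := by
      intro j
      rw [hs, Finset.mem_insert, FlipR_mem_N]
    have hx0 : c x ≠ 0 := (hs' x).2 (Or.inr (FlipR_x_mem x ζ))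
    rcases lt_or_gt_of_ne hx0 with h1 | h1
    · exact (hcA x).2 h1 (FlipR_conf_A h β pp).1
    · exact (FlipR_nec h hβ hy hc hs' hcA h1).2 (FlipR_A_out β pp hy)
  · obtain ⟨c', hc', hs'⟩ := FlipR_transfer h.gp (p' := p0) hX (fun I hI hIX => by
      refine (h.same I hI ?_).2
      intro hr
      apply hN
      intro j hj
      rw [FlipR_mem_N, ← hr] at hj
      obtain ⟨k, rfl⟩ := hj
      exact hIX k) hc hs
    have h1 := FlipR_functional hc' ζ
    have h2 : ∑ j, c' j * D p0 (Fin.cons j ζ) * D pp (Fin.cons x ζ) = 0 := by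
      rw [← Finset.sum_mul, h1, zero_mul]
    have hxne : D pp (Fin.cons x ζ) ≠ 0 := h.gp _ h.inj
    -- the points of `N`
    have hin : ∀ j ∈ Set.range (Fin.cons x ζ : Fin (d + 1) → ι), D p0 (Fin.cons j ζ) = 0 := by
      intro j hj
      rcases FlipR_range_cases hj with rfl | ⟨i, rfl⟩
      · exact h.zero
      · unfold D
        refine Matrix.det_zero_of_row_eq (i := 0) (j := i.succ) (Fin.succ_ne_zero i).symm ?_
        funext k
        simp
    have hout : ∀ j, j ∉ Set.range (Fin.cons x ζ : Fin (d + 1) → ι) →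
        0 ≤ c' j * D p0 (Fin.cons j ζ) * D pp (Fin.cons x ζ) ∧
          (c' j * D p0 (Fin.cons j ζ) * D pp (Fin.cons x ζ) = 0 → c' j = 0) := by
      intro j hj
      have h3 := (h.same _ (FlipR_cons_inj h.inj hj) (FlipR_range_ne hj)).2
      have hp0 : D p0 (Fin.cons j ζ) ≠ 0 := by
        intro h4
        rw [h4, mul_zero] at h3
        exact lt_irrefl _ h3
      refine ⟨?_, fun h4 => ?_⟩
      · by_cases hjU : j ∈ FlipR_U pp x ζ
        · have hc0 : 0 ≤ c' j := by
            by_contra h5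
            push Not at h5
            exact (hcA j).2 ((hs' j).2.2 h5) ((FlipR_A_out β pp hj).2 hjU)
          have h6 : 0 < D pp (Fin.cons j ζ) * D pp (Fin.cons x ζ) := by
            unfold FlipR_U at hjU
            exact (Finset.mem_filter.1 hjU).2.2
          have h7 : 0 < D p0 (Fin.cons j ζ) * D pp (Fin.cons x ζ) := by
            have h8 := mul_pos h3 h6
            have h9 : D pp (Fin.cons j ζ) * D p0 (Fin.cons j ζ) *
                (D pp (Fin.cons j ζ) * D pp (Fin.cons x ζ)) =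
                D pp (Fin.cons j ζ) ^ 2 * (D p0 (Fin.cons j ζ) * D pp (Fin.cons x ζ)) := by ring
            rw [h9] at h8
            exact FlipR_pos_left h8 (sq_nonneg _)
          rw [mul_assoc]
          exact mul_nonneg hc0 h7.le
        · have hc0 : c' j ≤ 0 := by
            by_contra h5
            push Not at h5
            exact hjU ((FlipR_A_out β pp hj).1 ((hcA j).1 ((hs' j).2.1 h5)))
          have h6 : D pp (Fin.cons j ζ) * D pp (Fin.cons x ζ) ≤ 0 := by
            by_contra h7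
            push Not at h7
            apply hjU
            unfold FlipR_U
            exact Finset.mem_filter.2 ⟨Finset.mem_univ _, hj, h7⟩
          have h7 : D p0 (Fin.cons j ζ) * D pp (Fin.cons x ζ) ≤ 0 := by
            by_contra h8
            push Not at h8
            have h9 : 0 < D pp (Fin.cons j ζ) * D pp (Fin.cons x ζ) * (D p0 (Fin.cons j ζ)) ^ 2 := by
              have := mul_pos h3 h8
              calc 0 < D pp (Fin.cons j ζ) * D p0 (Fin.cons j ζ) *
                  (D p0 (Fin.cons j ζ) * D pp (Fin.cons x ζ)) := this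
                _ = _ := by ring
            have h10 := mul_nonpos_of_nonpos_of_nonneg h6 (sq_nonneg (D p0 (Fin.cons j ζ)))
            linarith
          rw [mul_assoc]
          exact mul_nonneg_of_nonpos_of_nonpos hc0 h7
      · rcases mul_eq_zero.1 h4 with h5 | h5
        · rcases mul_eq_zero.1 h5 with h6 | h6
          · exact h6
          · exact absurd h6 hp0
        · exact absurd h5 hxne
    have hall : ∀ j ∈ (Finset.univ : Finset ι),
        0 ≤ c' j * D p0 (Fin.cons j ζ) * D pp (Fin.cons x ζ) := by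
      intro j _
      by_cases hj : j ∈ Set.range (Fin.cons x ζ : Fin (d + 1) → ι)
      · rw [hin j hj, mul_zero, zero_mul]
      · exact (hout j hj).1
    have hz := (Finset.sum_eq_zero_iff_of_nonneg hall).1 h2
    have hsub : X ⊆ FlipR_N x ζ := by
      intro j hj
      rw [FlipR_mem_N]
      by_contra h3
      exact ((hs' j).1.2 hj) ((hout j h3).2 (hz j (Finset.mem_univ _)))
    have := Finset.card_le_card hsub
    rw [FlipR_card_N h.inj, hX] at this
    omega

private theorem FlipR_U_symm {pp pm p0 : ι → E d} {x : ι} {ζ : Fin d → ι}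
    (h : Mut pp pm p0 x ζ) {y : ι} (hy : y ∉ Set.range (Fin.cons x ζ : Fin (d + 1) → ι)) :
    (D pp (Fin.cons y ζ) * D pp (Fin.cons x ζ) < 0 ↔
      0 < D pm (Fin.cons y ζ) * D pm (Fin.cons x ζ)) ∧
    (y ∈ FlipR_U pm x ζ ↔ y ∉ FlipR_U pp x ζ) := by
  have h1 := (h.same _ (FlipR_cons_inj h.inj hy) (FlipR_range_ne hy)).1
  have h2 := h.opp
  have h3 : (D pp (Fin.cons y ζ) * D pp (Fin.cons x ζ)) *
      (D pm (Fin.cons y ζ) * D pm (Fin.cons x ζ)) < 0 := by
    have := mul_neg_of_pos_of_neg h1 h2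
    calc (D pp (Fin.cons y ζ) * D pp (Fin.cons x ζ)) *
      (D pm (Fin.cons y ζ) * D pm (Fin.cons x ζ)) = D pp (Fin.cons y ζ) * D pm (Fin.cons y ζ) *
        (D pp (Fin.cons x ζ) * D pm (Fin.cons x ζ)) := by ring
      _ < 0 := this
  have h4 : D pp (Fin.cons y ζ) * D pp (Fin.cons x ζ) < 0 ↔
      0 < D pm (Fin.cons y ζ) * D pm (Fin.cons x ζ) := by
    constructor
    · intro h5
      by_contra h6
      push Not at h6
      have := mul_nonneg_of_nonpos_of_nonpos h5.le h6
      linarith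
    · intro h5
      by_contra h6
      push Not at h6
      have := mul_nonneg h6 h5.le
      linarith
  refine ⟨h4, ?_⟩
  have h5 : y ∈ FlipR_U pm x ζ ↔ 0 < D pm (Fin.cons y ζ) * D pm (Fin.cons x ζ) := by
    unfold FlipR_U
    rw [Finset.mem_filter]
    exact ⟨fun h => h.2.2, fun h => ⟨Finset.mem_univ _, hy, h⟩⟩
  have h6 : y ∈ FlipR_U pp x ζ ↔ 0 < D pp (Fin.cons y ζ) * D pp (Fin.cons x ζ) := by
    unfold FlipR_U
    rw [Finset.mem_filter]
    exact ⟨fun h => h.2.2, fun h => ⟨Finset.mem_univ _, hy, h⟩⟩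
  rw [h5, h6, ← h4]
  constructor
  · intro h7
    exact not_lt.2 h7.le
  · intro h7
    refine lt_of_le_of_ne (not_lt.1 h7) ?_
    intro h8
    rw [h8, zero_mul] at h3
    exact lt_irrefl _ h3

private theorem FlipR_card_A {pp pm p0 : ι → E d} {x : ι} {ζ : Fin d → ι}
    (h : Mut pp pm p0 x ζ) (β : Fin d → ℝ) (q : ι → E d) :
    (FlipR_A q β x ζ).card = 1 + (Finset.univ.filter fun i => β i < 0).card + mu q x ζ := by
  unfold FlipR_A
  rw [Finset.card_union_of_disjoint]
  · congr 1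
    unfold FlipR_W
    rw [Finset.card_insert_of_notMem, Finset.card_image_of_injective _ (FlipR_ζ_inj h.inj),
      add_comm]
    intro h1
    obtain ⟨k, -, hk⟩ := Finset.mem_image.1 h1
    exact FlipR_ζ_ne h.inj k hk
  · rw [Finset.disjoint_left]
    intro j h1 h2
    unfold FlipR_U at h2
    apply (Finset.mem_filter.1 h2).2.1
    rcases Finset.mem_insert.1 h1 with h3 | h3
    · rw [h3]
      exact FlipR_x_mem x ζ
    · obtain ⟨k, -, hk⟩ := Finset.mem_image.1 h3
      rw [← hk]
      exact FlipR_ζ_mem x ζ k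

private theorem FlipR_mw {pp pm p0 : ι → E d} {x : ι} {ζ : Fin d → ι}
    (h : Mut pp pm p0 x ζ) : mw pp x ζ = mu pm x ζ := by
  unfold mw mu
  congr 1
  ext y
  rw [Finset.mem_filter, Finset.mem_filter]
  refine and_congr_right fun _ => and_congr_right fun hy => ?_
  exact (FlipR_U_symm h hy).1

/-- **Effect of a mutation on the Radon vector.**

Proof. Notation as in `Flip.lean`: `N = {x, ζ 0, …}`, `W` = `x` and the `ζ i` with `β i < 0` (`q` elements), `W' = N ∖ W`;
`U` (`mu` elements) the `y ∉ N` on the side of `x`, `V` (`mw` elements) the other `y ∉ N`.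
(1) By `radI_iff` a set `A` is a Radon part of `pp` iff some `(d+2)`-set `X` has a dependence `c` with support `X`,
`c > 0` only in `A` and `c < 0` only outside of `A`. For `X ⊉ N` the dependences of `pp` and `pm` with support `X` have the same signs
(as in `ty_congr`: `dep_unique` and the signs of `Lam`). For `X = N ∪ {y}` and (up to the factor `-1`) `c > 0` on `W`, `c < 0` on `W'`
(`flip_signs`): in `pp` `c(y) < 0` for `y ∈ U`, `c(y) > 0` for `y ∈ V`, in `pm` `c(y) > 0` for `y ∈ U`, `c(y) < 0` for `y ∈ V`.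
(2) Hence, if `A` or its complement contains `W` and is disjoint to `W'`, say `W ⊆ A`, `W' ∩ A = ∅`: in `pp` `A` is Radon by some
`N ∪ {y}` unless `U ⊆ A` and `V ∩ A = ∅`, that is unless `A = A₁ := W ∪ U`; in `pm` unless `A = A₂ := W ∪ V`. All the other sets
`A` (not `A₁`, `A₂` or their complements) are Radon in `pp` iff they are in `pm`. (If `A` separates `N` differently, the sets
`N ∪ {y}` never conform to `A`, in `pp` and in `pm`.)
(3) `A₁ = W ∪ U` is not Radon in `pp`: by (2) not by a set `N ∪ {y}`; suppose by `X ⊉ N` with the dependence `c` of `pp`, `c ≥ 0` on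
`A₁`, `≤ 0` outside. There is a dependence `c'` of `p0` with support `X` and the same signs (`Lam p0`; `Mut.same`). The functional
`ℓ(v) = D p0 (cons v ζ) · D pp (cons x ζ)` (a linear functional of `hv v`) vanishes at the points of `N` for `p0` (at `x` by
`Mut.zero`), is positive on `U` and negative on `V` (`Mut.same`). `∑ c'_j ℓ(p0 j) = 0` has only terms `≥ 0`, so `c' = 0` outside `N`, so
`X ⊆ N`: contradiction to the cardinalities. In the same way `A₂` is not Radon in `pm`. (The case `A₁ = A₂`, `U = V = ∅`: then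
`card ι = d + 1` and there is no Radon partition at all: both sides are equal.)
(4) `A₂` is Radon in `pp` and `A₁` is Radon in `pm` if `U ∪ V ≠ ∅` (by (2): `A₂ ≠ A₁`, `A₂ ≠ A₁ᶜ`).
So the Radon partitions of `pp` are those of `pm` without `{A₁, A₁ᶜ}` and with `{A₂, A₂ᶜ}`; `|A₁| = q + mu`, `|A₂| = q + mw`. -/
theorem flip_R {pp pm p0 : ι → E d} {x : ι} {ζ : Fin d → ι} (h : Mut pp pm p0 x ζ)
    (hι : d + 2 ≤ Fintype.card ι)
    {β : Fin d → ℝ} (hβ : hv (p0 x) = ∑ i, β i • hv (p0 (ζ i))) (i : ℕ) :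
    (Rc pp i : ℤ) = Rc pm i +
      tR (Fintype.card ι) i (1 + (Finset.univ.filter fun i => β i < 0).card + mw pp x ζ) -
      tR (Fintype.card ι) i (1 + (Finset.univ.filter fun i => β i < 0).card + mu pp x ζ) := by
  have hex : ∃ y, y ∉ FlipR_N x ζ := by
    by_contra hcon
    push Not at hcon
    have h1 : FlipR_N x ζ = Finset.univ := Finset.eq_univ_iff_forall.2 hcon
    have h2 := FlipR_card_N h.inj
    rw [h1, Finset.card_univ] at h2
    omega
  obtain ⟨y, hy⟩ := hex
  have hy' : y ∉ Set.range (Fin.cons x ζ : Fin (d + 1) → ι) := fun h1 => hy (FlipR_mem_N.2 h1)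
  have hne : FlipR_A pp β x ζ ≠ FlipR_A pm β x ζ := by
    intro h1
    have h2 := FlipR_A_out β pp hy'
    rw [h1, FlipR_A_out β pm hy', (FlipR_U_symm h hy').2] at h2
    tauto
  have hne' : FlipR_A pp β x ζ ≠ (FlipR_A pm β x ζ)ᶜ := by
    intro h1
    have h2 := (FlipR_conf_A h β pp).1
    rw [h1, Finset.mem_compl] at h2
    exact h2 (FlipR_conf_A h β pm).1
  rw [FlipR_mw h, ← FlipR_card_A h β pm, ← FlipR_card_A h β pp]
  unfold Rc
  refine FlipR_count (radI_compl pp) (radI_compl pm) hne hne' ?_ (FlipR_not h hι hβ) ?_ ?_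
    (FlipR_not (FlipR_symm h) hι hβ) i
  · intro A h1 h2 h3 h4
    exact ⟨FlipR_step (FlipR_symm h) hι hβ h3 h4, FlipR_step h hι hβ h1 h2⟩
  · exact FlipR_conf_radI h hι hβ (FlipR_conf_A h β pm) hne.symm
  · exact FlipR_conf_radI (FlipR_symm h) hι hβ (FlipR_conf_A h β pp) hne

/-- Summary. -/
theorem flip_exists {pp pm p0 : ι → E d} {x : ι} {ζ : Fin d → ι} (h : Mut pp pm p0 x ζ)
    (hι : d + 2 ≤ Fintype.card ι) : ∃ q u w : ℕ, 1 ≤ q ∧ q ≤ d ∧ u + w + d + 1 = Fintype.card ι ∧
      (∀ i, (Pc pp i : ℤ) = Pc pm i + ((u : ℤ) - w) * (tP d i q - tP d i (q + 1))) ∧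
      ∀ i, (Rc pp i : ℤ) = Rc pm i + tR (Fintype.card ι) i (q + w) - tR (Fintype.card ι) i (q + u) := by
  obtain ⟨β, hβ⟩ := exists_beta h hι
  exact ⟨1 + (Finset.univ.filter fun i => β i < 0).card, mu pp x ζ, mw pp x ζ, by omega, q_le hβ,
    mu_add_mw h, fun i => flip_P h hβ i, fun i => flip_R h hι hβ i⟩

end Pool.Agent.RVM
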