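import Pool.Agent.MP_c130bd_co.RVM.Gen
import Pool.Agent.MP_c130bd_co.RVM.FlipR

set_option autoImplicit false

namespace Pool.Agent.RVM

variable {d : ℕ}

/-! ## [RVM-GAD] the effect of the gadgets -/

/-- The points `(j, 0)` are moved up (`j ∈ σ`) or down by `ε`. -/
noncomputable def pert [NeZero d] {κ : Type*} {J : ℕ} (F : κ → E d) (g : Fin J × Fin (d + 1) → E d) (ε : ℝ)
    (σ : Finset (Fin J)) : κ ⊕ (Fin J × Fin (d + 1)) → E d :=
  Sum.elim F fun x => if x.2 = 0 then
    g x + Pi.single 0 (if x.1 ∈ σ then ε else -ε) else g x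

variable [NeZero d] {κ : Type*} [Fintype κ] [DecidableEq κ] {J a : ℕ} {F : κ → E d}
  {g : Fin J × Fin (d + 1) → E d}

theorem Gad_hv_zero (x : E d) : hv x 0 = 1 := rfl

theorem Gad_hv_succ (x : E d) (i : Fin d) : hv x i.succ = x i := by
  simp [hv]

/-- the tuple of the points of the gadget `j` -/
def Gad_N (κ : Type*) {J : ℕ} (d : ℕ) (j : Fin J) : Fin (d + 1) → κ ⊕ (Fin J × Fin (d + 1)) :=
  fun r => Sum.inr (j, r)

omit [NeZero d] in
theorem Gad_cons {J : ℕ} (κ : Type*) (j : Fin J) :
    (Fin.cons (Sum.inr (j, 0)) (fun i : Fin d => Sum.inr (j, i.succ)) :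
      Fin (d + 1) → κ ⊕ (Fin J × Fin (d + 1))) = Gad_N κ d j := by
  funext r
  refine Fin.cases ?_ (fun i => ?_) r
  · simp [Gad_N]
  · simp [Gad_N]

omit [NeZero d] in
theorem Gad_N_inj {J : ℕ} (κ : Type*) (j : Fin J) : Function.Injective (Gad_N κ d j) := by
  intro r s h
  simpa [Gad_N] using h

omit [NeZero d] in
theorem Gad_N_range {J : ℕ} (κ : Type*) (j : Fin J) :
    Set.range (Gad_N κ d j) = Sum.inr '' {x : Fin J × Fin (d + 1) | x.1 = j} := by
  ext y
  constructor
  · rintro ⟨r, rfl⟩
    exact ⟨(j, r), rfl, rfl⟩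
  · rintro ⟨⟨j', r⟩, h, rfl⟩
    have h' : j' = j := h
    subst h'
    exact ⟨r, rfl⟩

/-- the determinant of a vector and the points `g (j, i.succ)` -/
theorem Gad_det (G : Gadgets F J a g) (j : Fin J) : ∃ K : ℝ, K ≠ 0 ∧ ∀ w : Fin (d + 1) → ℝ,
    Matrix.det (Matrix.of (Fin.cons w (fun i : Fin d => hv (g (j, i.succ))) :
      Fin (d + 1) → Fin (d + 1) → ℝ)) =
      K * (w (Fin.succ (0 : Fin d)) - (((j : ℕ) : ℝ) + 1) / (J + 1) * w 0) := by
  set H : ℝ := (((j : ℕ) : ℝ) + 1) / (J + 1) with hH
  set R : Fin d → Fin (d + 1) → ℝ := fun i => hv (g (j, i.succ)) with hR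
  have h10 : (Fin.succ (0 : Fin d) : Fin (d + 1)) ≠ 0 := Fin.succ_ne_zero _
  have hrow : ∀ i, R i (Fin.succ (0 : Fin d)) - H * R i 0 = 0 := by
    intro i
    rw [hR]
    simp only [Gad_hv_zero, Gad_hv_succ, G.height]
    rw [hH]
    ring
  have hker : ∀ w : Fin (d + 1) → ℝ, w (Fin.succ (0 : Fin d)) - H * w 0 = 0 →
      Matrix.det (Matrix.of (Fin.cons w R : Fin (d + 1) → Fin (d + 1) → ℝ)) = 0 := by
    intro w hw
    rw [← Matrix.exists_mulVec_eq_zero_iff]
    refine ⟨Pi.single (Fin.succ (0 : Fin d)) 1 - H • Pi.single 0 1, ?_, ?_⟩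
    · intro h0
      have := congrFun h0 (Fin.succ (0 : Fin d))
      rw [Pi.sub_apply, Pi.single_eq_same, Pi.smul_apply, Pi.single_eq_of_ne h10] at this
      simp at this
    · rw [Matrix.mulVec_sub, Matrix.mulVec_smul, Matrix.mulVec_single_one,
        Matrix.mulVec_single_one]
      funext r
      refine Fin.cases ?_ (fun i => ?_) r
      · simpa using hw
      · simpa using hrow i
  have hupd : ∀ w : Fin (d + 1) → ℝ, Matrix.of (Fin.cons w R : Fin (d + 1) → Fin (d + 1) → ℝ) =
      (Matrix.of (Fin.cons 0 R : Fin (d + 1) → Fin (d + 1) → ℝ)).updateRow 0 w := by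
    intro w
    funext r
    refine Fin.cases ?_ (fun i => ?_) r
    · rw [Matrix.updateRow_self]
      rfl
    · rw [Matrix.updateRow_ne (Fin.succ_ne_zero i)]
      rfl
  set e : Fin (d + 1) → ℝ := Pi.single (Fin.succ (0 : Fin d)) 1 with he
  have he1 : e (Fin.succ (0 : Fin d)) = 1 := by rw [he, Pi.single_eq_same]
  have he0 : e 0 = 0 := by rw [he, Pi.single_eq_of_ne h10.symm]
  refine ⟨Matrix.det (Matrix.of (Fin.cons e R : Fin (d + 1) → Fin (d + 1) → ℝ)), ?_, ?_⟩
  · -- independence
    have hli : LinearIndependent ℝ R := by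
      have hcard : (Finset.univ.image (fun i : Fin d =>
          (Sum.inr (j, i.succ) : κ ⊕ (Fin J × Fin (d + 1))))).card ≤ d := by
        refine Finset.card_image_le.trans ?_
        rw [Finset.card_univ, Fintype.card_fin]
      have h1 := G.ag.ind _ hcard
      have h2 := h1.comp (fun i : Fin d => (⟨Sum.inr (j, i.succ),
        Finset.mem_image_of_mem _ (Finset.mem_univ i)⟩ :
        (Finset.univ.image (fun i : Fin d =>
          (Sum.inr (j, i.succ) : κ ⊕ (Fin J × Fin (d + 1))))))) (by
        intro i i' hii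
        have h3 := congrArg Subtype.val hii
        simpa using h3)
      exact h2
    have hnot : e ∉ Submodule.span ℝ (Set.range R) := by
      intro hmem
      have h1 : e (Fin.succ (0 : Fin d)) - H * e 0 = 0 := by
        refine Submodule.span_induction (p := fun w _ => w (Fin.succ (0 : Fin d)) - H * w 0 = 0)
          ?_ ?_ ?_ ?_ hmem
        · rintro w ⟨i, rfl⟩
          exact hrow i
        · simp
        · intro u v _ _ hu hv
          rw [Pi.add_apply, Pi.add_apply]
          linarith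
        · intro t u _ hu
          rw [Pi.smul_apply, Pi.smul_apply, smul_eq_mul, smul_eq_mul]
          have : t * u (Fin.succ (0 : Fin d)) - H * (t * u 0) =
            t * (u (Fin.succ (0 : Fin d)) - H * u 0) := by ring
          rw [this, hu, mul_zero]
      rw [he1, he0] at h1
      norm_num at h1
    have h3 : LinearIndependent ℝ (Fin.cons e R : Fin (d + 1) → Fin (d + 1) → ℝ) :=
      linearIndependent_finCons.2 ⟨hli, hnot⟩
    have h4 : IsUnit (Matrix.of (Fin.cons e R : Fin (d + 1) → Fin (d + 1) → ℝ)) :=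
      Matrix.linearIndependent_rows_iff_isUnit.1 h3
    exact ((Matrix.isUnit_iff_isUnit_det _).1 h4).ne_zero
  · intro w
    set m : ℝ := w (Fin.succ (0 : Fin d)) - H * w 0 with hm
    have h1 : w = (w - m • e) + m • e := by
      funext k
      simp
    have h2 : Matrix.det (Matrix.of (Fin.cons (w - m • e) R :
        Fin (d + 1) → Fin (d + 1) → ℝ)) = 0 := by
      apply hker
      rw [Pi.sub_apply, Pi.sub_apply, Pi.smul_apply, Pi.smul_apply, he1, he0]
      simp only [smul_eq_mul, mul_one, mul_zero, sub_zero]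
      rw [hm]
      ring
    rw [hupd w]
    conv_lhs => rw [h1]
    rw [Matrix.det_updateRow_add, ← hupd, h2, zero_add, Matrix.det_updateRow_smul, ← hupd]
    ring

/-- the same for a family -/
theorem Gad_D (G : Gadgets F J a g) (j : Fin J) : ∃ K : ℝ, K ≠ 0 ∧
    ∀ (p : κ ⊕ (Fin J × Fin (d + 1)) → E d), (∀ i : Fin d, p (Sum.inr (j, i.succ)) = g (j, i.succ)) →
      ∀ y, D p (Fin.cons y (fun i : Fin d => Sum.inr (j, i.succ)) :
        Fin (d + 1) → κ ⊕ (Fin J × Fin (d + 1))) =
        K * (p y 0 - (((j : ℕ) : ℝ) + 1) / (J + 1)) := by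
  obtain ⟨K, hK, h⟩ := Gad_det G j
  refine ⟨K, hK, fun p hp y => ?_⟩
  have h1 := h (hv (p y))
  rw [Gad_hv_zero, Gad_hv_succ, mul_one] at h1
  rw [← h1]
  unfold D
  congr 1
  funext r
  refine Fin.cases ?_ (fun i => ?_) r
  · rfl
  · funext c
    simp only [Matrix.of_apply, Fin.cons_succ, hp i]

theorem Gad_pert_succ (F : κ → E d) (g : Fin J × Fin (d + 1) → E d) (ε : ℝ) (σ : Finset (Fin J))
    (j : Fin J) (i : Fin d) : pert F g ε σ (Sum.inr (j, i.succ)) = g (j, i.succ) := by
  unfold pert
  rw [Sum.elim_inr, if_neg (Fin.succ_ne_zero i)]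

theorem Gad_pert_zero (F : κ → E d) (g : Fin J × Fin (d + 1) → E d) (ε : ℝ) (σ : Finset (Fin J))
    (j : Fin J) : pert F g ε σ (Sum.inr (j, 0)) =
      g (j, 0) + Pi.single 0 (if j ∈ σ then ε else -ε) := by
  unfold pert
  rw [Sum.elim_inr, if_pos rfl]

omit [NeZero d] in
/-- permutation of the points -/
theorem Gad_perm {ι : Type*} (p : ι → E d) (I I' : Fin (d + 1) → ι) (hI : Function.Injective I)
    (hI' : Function.Injective I') (h : Set.range I = Set.range I') (h0 : D p I' ≠ 0) :
    D p I ≠ 0 := by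
  let e : Equiv.Perm (Fin (d + 1)) :=
    ((Equiv.ofInjective I hI).trans (Equiv.setCongr h)).trans (Equiv.ofInjective I' hI').symm
  have he : ∀ r, I' (e r) = I r := by
    intro r
    have h1 : (Equiv.ofInjective I' hI') (e r) = (Equiv.setCongr h) ((Equiv.ofInjective I hI) r) := by
      simp [e]
    have h2 := congrArg Subtype.val h1
    simpa using h2
  have h1 : D p I = (Equiv.Perm.sign e : ℤ) * D p I' := by
    unfold D
    rw [← Matrix.det_permute]
    congr 1
    funext r c
    simp [Matrix.submatrix, he]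
  rw [h1]
  refine mul_ne_zero ?_ h0
  rcases Int.units_eq_one_or (Equiv.Perm.sign e) with h2 | h2 <;> rw [h2] <;> simp

/-- closeness of the perturbed families -/
theorem Gad_norm (F : κ → E d) (g : Fin J × Fin (d + 1) → E d) (ε : ℝ) (hε : 0 ≤ ε)
    (σ : Finset (Fin J)) (k : κ ⊕ (Fin J × Fin (d + 1))) :
    ‖pert F g ε σ k - Sum.elim F g k‖ ≤ ε := by
  rcases k with k | ⟨j, r⟩
  · simp [pert, hε]
  · refine Fin.cases ?_ (fun i => ?_) r
    · rw [Gad_pert_zero, Sum.elim_inr, add_sub_cancel_left, pi_norm_le_iff_of_nonneg hε]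
      intro i
      by_cases hi : i = 0
      · subst hi
        rw [Pi.single_eq_same]
        split_ifs
        · rw [Real.norm_of_nonneg hε]
        · rw [norm_neg, Real.norm_of_nonneg hε]
      · rw [Pi.single_eq_of_ne hi, norm_zero]
        exact hε
    · rw [Gad_pert_succ, Sum.elim_inr, sub_self, norm_zero]
      exact hε

theorem Gad_pert_D (G : Gadgets F J a g) (j : Fin J) : ∃ K : ℝ, K ≠ 0 ∧
    ∀ (ε : ℝ) (σ : Finset (Fin J)),
      (D (pert F g ε σ) (Gad_N κ d j) = K * (if j ∈ σ then ε else -ε)) ∧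
      ∀ y, D (pert F g ε σ) (Fin.cons y (fun i : Fin d => Sum.inr (j, i.succ)) :
        Fin (d + 1) → κ ⊕ (Fin J × Fin (d + 1))) =
        K * (pert F g ε σ y 0 - (((j : ℕ) : ℝ) + 1) / (J + 1)) := by
  obtain ⟨K, hK, h⟩ := Gad_D G j
  refine ⟨K, hK, fun ε σ => ⟨?_, fun y => h _ (fun i => Gad_pert_succ F g ε σ j i) y⟩⟩
  rw [← Gad_cons, h _ (fun i => Gad_pert_succ F g ε σ j i), Gad_pert_zero, Pi.add_apply,
    Pi.single_eq_same, G.height]
  ring

/-- Proof. `near` for `Sum.elim F g`; the determinant of the gadget `j` itself: it is affine in the first point, `0` for `g (j, 0)` and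
it changes by `± ε` times the determinant with the first row `(0, 1, 0, …)`, which is not `0`: the points `g (j, i.succ)` have the
height `h` and are independent (`AG.ind`), so an element of the span of the `hv (g (j, i.succ))` satisfies `v 1 = h * v 0`
(coordinates of `Fin (d+1)`: `0` is the coordinate `1` of `hv`, `1` is the height) and `(0, 1, 0, …)` does not. -/
theorem pert_gp (G : Gadgets F J a g) : ∃ ε₀ > 0, ∀ ε, 0 < ε → ε < ε₀ → ∀ σ : Finset (Fin J),
    GPc (pert F g ε σ) ∧ ∀ I : Fin (d + 1) → κ ⊕ (Fin J × Fin (d + 1)), Function.Injective I →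
      D (Sum.elim F g) I ≠ 0 → 0 < D (Sum.elim F g) I * D (pert F g ε σ) I := by
  obtain ⟨ε₁, h1, hn⟩ := near (Sum.elim F g)
  refine ⟨ε₁, h1, fun ε hε hε1 σ => ?_⟩
  have hn' : ∀ I : Fin (d + 1) → κ ⊕ (Fin J × Fin (d + 1)), D (Sum.elim F g) I ≠ 0 →
      0 < D (Sum.elim F g) I * D (pert F g ε σ) I :=
    hn (pert F g ε σ) (fun k => (Gad_norm F g ε hε.le σ k).trans hε1.le)
  refine ⟨?_, fun I _ hI => hn' I hI⟩
  intro I hI
  by_cases h0 : D (Sum.elim F g) I = 0
  · obtain ⟨j, hj⟩ := (G.ag.det I hI).1 h0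
    rw [← Gad_N_range κ j] at hj
    refine Gad_perm _ I (Gad_N κ d j) hI (Gad_N_inj κ j) hj ?_
    obtain ⟨K, hK, h⟩ := Gad_pert_D G j
    rw [(h ε σ).1]
    refine mul_ne_zero hK ?_
    split_ifs
    · exact hε.ne'
    · exact neg_ne_zero.2 hε.ne'
  · intro h2
    have := hn' I h0
    rw [h2, mul_zero] at this
    exact lt_irrefl _ this

theorem Gad_pert_height (G : Gadgets F J a g) {ε : ℝ} (hε : 0 < ε) (σ : Finset (Fin J))
    (j' : Fin J) (r : Fin (d + 1)) :
    (((j' : ℕ) : ℝ) + 1) / (J + 1) - ε ≤ pert F g ε σ (Sum.inr (j', r)) 0 ∧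
      pert F g ε σ (Sum.inr (j', r)) 0 ≤ (((j' : ℕ) : ℝ) + 1) / (J + 1) + ε := by
  refine Fin.cases ?_ (fun i => ?_) r
  · rw [Gad_pert_zero, Pi.add_apply, Pi.single_eq_same, G.height]
    split_ifs <;> constructor <;> linarith
  · rw [Gad_pert_succ, G.height]
    constructor <;> linarith

theorem Gad_above (G : Gadgets F J a g) (hz : ∀ k, 1 < |F k 0|) {ε : ℝ} (hε : 0 < ε)
    (hε1 : ε < 1 / (J + 1)) (σ : Finset (Fin J)) (j : Fin J)
    (y : κ ⊕ (Fin J × Fin (d + 1))) (hy : y ∉ Set.range (Gad_N κ d j)) :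
    (0 < pert F g ε σ y 0 - (((j : ℕ) : ℝ) + 1) / (J + 1) ↔
      Sum.elim (fun k => 1 < F k 0) (fun x => j < x.1) y) ∧
    (pert F g ε σ y 0 - (((j : ℕ) : ℝ) + 1) / (J + 1) < 0 ↔
      Sum.elim (fun k => F k 0 < -1) (fun x => x.1 < j) y) := by
  have hJ : (0 : ℝ) < J + 1 := by positivity
  have hh0 : 0 < (((j : ℕ) : ℝ) + 1) / (J + 1) := by positivity
  have hh1 : (((j : ℕ) : ℝ) + 1) / (J + 1) < 1 := by
    rw [div_lt_one hJ]
    have : ((j : ℕ) : ℝ) < J := by exact_mod_cast j.2
    linarith
  rcases y with k | ⟨j', r⟩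
  · have hk := hz k
    have e : pert F g ε σ (Sum.inl k) = F k := rfl
    rw [e]
    simp only [Sum.elim_inl]
    rcases lt_abs.1 hk with h1 | h1
    · constructor
      · constructor
        · intro _
          exact h1
        · intro _
          linarith
      · constructor
        · intro h2
          linarith
        · intro h2
          linarith
    · constructor
      · constructor
        · intro h2
          linarith
        · intro h2
          linarith
      · constructor
        · intro _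
          linarith
        · intro _
          linarith
  · obtain ⟨a1, a2⟩ := Gad_pert_height G hε σ j' r
    simp only [Sum.elim_inr]
    have hne : j' ≠ j := by
      intro h
      apply hy
      subst h
      exact ⟨r, rfl⟩
    rcases lt_or_gt_of_ne hne with h1 | h1
    · -- j' < j
      have h2 : ((j' : ℕ) : ℝ) + 1 ≤ (j : ℕ) := by
        have : (j' : ℕ) + 1 ≤ (j : ℕ) := h1
        exact_mod_cast this
      have h3 : (((j' : ℕ) : ℝ) + 1) / (J + 1) + 1 / (J + 1) ≤ (((j : ℕ) : ℝ) + 1) / (J + 1) := by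
        rw [← add_div]
        gcongr
      constructor
      · constructor
        · intro h4
          linarith
        · intro h4
          exact absurd h4 (not_lt.2 h1.le)
      · constructor
        · intro _
          exact h1
        · intro _
          linarith
    · have h2 : ((j : ℕ) : ℝ) + 1 ≤ (j' : ℕ) := by
        have : (j : ℕ) + 1 ≤ (j' : ℕ) := h1
        exact_mod_cast this
      have h3 : (((j : ℕ) : ℝ) + 1) / (J + 1) + 1 / (J + 1) ≤ (((j' : ℕ) : ℝ) + 1) / (J + 1) := by
        rw [← add_div]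
        gcongr
      constructor
      · constructor
        · intro _
          exact h1
        · intro _
          linarith
      · constructor
        · intro h4
          linarith
        · intro h4
          exact absurd h4 (not_lt.2 h1.le)

omit [NeZero d] [DecidableEq κ] in
theorem Gad_count {J : ℕ} (A : κ → Prop) [DecidablePred A] (B : Fin J → Prop) [DecidablePred B]
    (P : κ ⊕ (Fin J × Fin (d + 1)) → Prop) [DecidablePred P]
    (hP : ∀ y, P y ↔ Sum.elim A (fun x : Fin J × Fin (d + 1) => B x.1) y) :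
    (Finset.univ.filter P).card =
      (Finset.univ.filter A).card + (d + 1) * (Finset.univ.filter B).card := by
  rw [Finset.card_filter, Finset.card_filter, Finset.card_filter, Fintype.sum_sum_type,
    Fintype.sum_prod_type, Finset.mul_sum]
  congr 1
  · refine Finset.sum_congr rfl (fun k _ => ?_)
    refine if_congr ?_ rfl rfl
    rw [hP]
    rfl
  · refine Finset.sum_congr rfl (fun j' _ => ?_)
    have : ∀ r : Fin (d + 1), (if P (Sum.inr (j', r)) then 1 else 0) = (if B j' then 1 else 0) := by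
      intro r
      refine if_congr ?_ rfl rfl
      rw [hP]
      rfl
    rw [Finset.sum_congr rfl (fun r _ => this r), Finset.sum_const, Finset.card_univ,
      Fintype.card_fin, smul_eq_mul]

/-- **One gadget.** Proof. `flip_P`, `flip_R` with `pp = pert F g ε (insert j σ)`, `pm = pert F g ε (σ.erase j)`, `p0` = the same with the point
`(j, 0)` at `g (j, 0)`, `x = inr (j, 0)`, `ζ i = inr (j, i.succ)`, `β` of `Gadgets.bary`: `1 + #{β < 0} = d + 1 - a` (all `β ≠ 0`). The determinant
of `v` and the points `g (j, i.succ)` is `κ_j (v 0 - h_j)` with a constant `κ_j ≠ 0` (it is an affine function of `v` which vanishes exactly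
on the hyperplane of the height `h_j`, see `pert_gp`). So `mu` is the number of the other points above `h_j` and `mw` the number of those
below (for small `ε`, `ε < 1 / (2 (J + 1))`): `up` points of `F` and the gadgets `j' > j`, resp. `dn` points of `F` and the gadgets `j' < j`.
`Mut.opp`: the two determinants are `± ε κ_j`. The other conditions of `Mut`: `pert_gp` and `near` for `p0`. -/
theorem gad_one (G : Gadgets F J a g) (hz : ∀ k, 1 < |F k 0|) (ha : 1 ≤ a) (had : a ≤ d)
    (hι : d + 2 ≤ Fintype.card (κ ⊕ (Fin J × Fin (d + 1)))) :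
    ∃ ε₀ > 0, ∀ ε, 0 < ε → ε < ε₀ → ∀ (σ : Finset (Fin J)) (j : Fin J), j ∉ σ →
      (∀ i, (Pc (pert F g ε (insert j σ)) i : ℤ) = Pc (pert F g ε σ) i +
        (((Finset.univ.filter fun k => 1 < F k 0).card : ℤ) -
          (Finset.univ.filter fun k => F k 0 < -1).card + (d + 1) * ((J : ℤ) - 1 - 2 * (j : ℕ))) *
          (tP d i (a + 1) - tP d i a)) ∧
      ∀ i, (Rc (pert F g ε (insert j σ)) i : ℤ) = Rc (pert F g ε σ) i +
        tR (Fintype.card (κ ⊕ (Fin J × Fin (d + 1)))) i
          (d + 1 - a + ((Finset.univ.filter fun k => F k 0 < -1).card + (d + 1) * (j : ℕ))) -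
        tR (Fintype.card (κ ⊕ (Fin J × Fin (d + 1)))) i
          (d + 1 - a + ((Finset.univ.filter fun k => 1 < F k 0).card + (d + 1) * (J - 1 - (j : ℕ)))) := by
  classical
  obtain ⟨ε₁, he1, hn⟩ := near (Sum.elim F g)
  obtain ⟨ε₂, he2, hgp⟩ := pert_gp G
  have hJ : (0 : ℝ) < J + 1 := by positivity
  refine ⟨min (min ε₁ ε₂) (1 / (J + 1)), lt_min (lt_min he1 he2) (by positivity),
    fun ε hε hlt σ j hj => ?_⟩
  have hε1 : ε < ε₁ := hlt.trans_le ((min_le_left _ _).trans (min_le_left _ _))
  have hε2 : ε < ε₂ := hlt.trans_le ((min_le_left _ _).trans (min_le_right _ _))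
  have hε3 : ε < 1 / (J + 1) := hlt.trans_le (min_le_right _ _)
  obtain ⟨K, hK, hKD⟩ := Gad_pert_D G j
  obtain ⟨K', hK', hKD'⟩ := Gad_D G j
  set x : κ ⊕ (Fin J × Fin (d + 1)) := Sum.inr (j, 0) with hx
  set ζ : Fin d → κ ⊕ (Fin J × Fin (d + 1)) := fun i => Sum.inr (j, i.succ) with hζ
  set pp := pert F g ε (insert j σ) with hpp
  set pm := pert F g ε σ with hpm
  set p0 : κ ⊕ (Fin J × Fin (d + 1)) → E d := Function.update pm x (g (j, 0)) with hp0
  have hcons : (Fin.cons x ζ : Fin (d + 1) → κ ⊕ (Fin J × Fin (d + 1))) = Gad_N κ d j :=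
    Gad_cons κ j
  have hp0x : p0 x = g (j, 0) := by rw [hp0, Function.update_self]
  have hp0ne : ∀ y, y ≠ x → p0 y = pm y := by
    intro y hy
    rw [hp0, Function.update_of_ne hy]
  have hζx : ∀ i, ζ i ≠ x := by
    intro i h
    have h1 : (j, i.succ) = (j, (0 : Fin (d + 1))) := Sum.inr_injective h
    exact Fin.succ_ne_zero i (Prod.mk.inj h1).2
  have hp0ζ : ∀ i, p0 (ζ i) = g (j, i.succ) := by
    intro i
    rw [hp0ne _ (hζx i), hpm, hζ]
    exact Gad_pert_succ F g ε σ j i
  have hppm : ∀ y, y ≠ x → pp y = pm y := by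
    intro y hy
    rcases y with k | ⟨j', r⟩
    · rfl
    · refine Fin.cases (motive := fun r => Sum.inr (j', r) ≠ x →
        pp (Sum.inr (j', r)) = pm (Sum.inr (j', r))) ?_ (fun i => ?_) r hy
      · intro hne
        have hj' : j' ≠ j := by
          intro h
          apply hne
          rw [h]
        rw [hpp, hpm, Gad_pert_zero, Gad_pert_zero]
        simp only [Finset.mem_insert, hj', false_or]
      · intro _
        rw [hpp, hpm, Gad_pert_succ, Gad_pert_succ]
  have hnp : ∀ I : Fin (d + 1) → κ ⊕ (Fin J × Fin (d + 1)), D (Sum.elim F g) I ≠ 0 →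
      0 < D (Sum.elim F g) I * D pp I :=
    hn pp (fun k => (Gad_norm F g ε hε.le _ k).trans hε1.le)
  have hnm : ∀ I : Fin (d + 1) → κ ⊕ (Fin J × Fin (d + 1)), D (Sum.elim F g) I ≠ 0 →
      0 < D (Sum.elim F g) I * D pm I :=
    hn pm (fun k => (Gad_norm F g ε hε.le _ k).trans hε1.le)
  have hn0 : ∀ I : Fin (d + 1) → κ ⊕ (Fin J × Fin (d + 1)), D (Sum.elim F g) I ≠ 0 →
      0 < D (Sum.elim F g) I * D p0 I := by
    refine hn p0 (fun k => ?_)
    by_cases hk : k = x
    · rw [hk, hp0x, hx, Sum.elim_inr, sub_self, norm_zero]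
      exact he1.le
    · rw [hp0ne k hk]
      exact (Gad_norm F g ε hε.le _ k).trans hε1.le
  have hgpp : GPc pp := (hgp ε hε hε2 (insert j σ)).1
  have hgpm : GPc pm := (hgp ε hε hε2 σ).1
  have hDp : D pp (Gad_N κ d j) = K * ε := by
    rw [hpp, (hKD ε (insert j σ)).1, if_pos (Finset.mem_insert_self _ _)]
  have hDm : D pm (Gad_N κ d j) = K * (-ε) := by
    rw [hpm, (hKD ε σ).1, if_neg hj]
  have hMut : Mut pp pm p0 x ζ := by
    refine ⟨hgpp, hgpm, ?_, ?_, ?_, ?_⟩
    · rw [hcons]
      exact Gad_N_inj κ j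
    · have h1 := hKD' p0 hp0ζ x
      rw [h1, hp0x, G.height, sub_self, mul_zero]
    · rw [hcons, hDp, hDm]
      have : 0 < K ^ 2 * ε ^ 2 := by positivity
      nlinarith
    · intro I hI hr
      rw [hcons] at hr
      by_cases h0 : D (Sum.elim F g) I = 0
      · obtain ⟨j', hj'⟩ := (G.ag.det I hI).1 h0
        have hjj : j' ≠ j := by
          intro h
          apply hr
          rw [hj', Gad_N_range κ j, h]
        have hIx : ∀ r, I r ≠ x := by
          intro r hrx
          have h1 : x ∈ Set.range I := ⟨r, hrx⟩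
          rw [hj'] at h1
          obtain ⟨⟨j'', r''⟩, h2, h3⟩ := h1
          have h4 : (j'', r'') = (j, (0 : Fin (d + 1))) := Sum.inr_injective h3
          have h5 : j'' = j' := h2
          exact hjj (h5.symm.trans (Prod.mk.inj h4).1)
        have e1 : D pm I = D pp I := by
          unfold D
          congr 1
          funext r c
          simp only [Matrix.of_apply, hppm (I r) (hIx r)]
        have e2 : D p0 I = D pp I := by
          unfold D
          congr 1
          funext r c
          simp only [Matrix.of_apply, hppm (I r) (hIx r), hp0ne (I r) (hIx r)]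
        have h3 : D pp I ≠ 0 := hgpp I hI
        rw [e1, e2]
        exact ⟨mul_self_pos.2 h3, mul_self_pos.2 h3⟩
      · have a1 := hnp I h0
        have a2 := hnm I h0
        have a3 := hn0 I h0
        have b0 : 0 < (D (Sum.elim F g) I) ^ 2 := by positivity
        constructor
        · have h1 := mul_pos a1 a2
          have e : D (Sum.elim F g) I * D pp I * (D (Sum.elim F g) I * D pm I) =
              (D (Sum.elim F g) I) ^ 2 * (D pp I * D pm I) := by ring
          rw [e] at h1
          exact (mul_pos_iff_of_pos_left b0).1 h1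
        · have h1 := mul_pos a1 a3
          have e : D (Sum.elim F g) I * D pp I * (D (Sum.elim F g) I * D p0 I) =
              (D (Sum.elim F g) I) ^ 2 * (D pp I * D p0 I) := by ring
          rw [e] at h1
          exact (mul_pos_iff_of_pos_left b0).1 h1
  obtain ⟨β, hβ, hβ0, hβa⟩ := G.bary j
  have hβ' : hv (p0 x) = ∑ i, β i • hv (p0 (ζ i)) := by
    rw [hp0x, hβ]
    exact Finset.sum_congr rfl (fun i _ => by rw [hp0ζ i])
  have hneg : (Finset.univ.filter fun i => β i < 0).card = d - a := by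
    have h1 := Finset.card_filter_add_card_filter_not (s := (Finset.univ : Finset (Fin d)))
      (fun i => 0 < β i)
    have h2 : (Finset.univ.filter fun i => ¬ 0 < β i) = (Finset.univ.filter fun i => β i < 0) := by
      refine Finset.filter_congr (fun i _ => ?_)
      rw [not_lt]
      exact ⟨fun h => lt_of_le_of_ne h (hβ0 i), fun h => h.le⟩
    rw [h2, hβa, Finset.card_univ, Fintype.card_fin] at h1
    omega
  -- the numbers mu and mw
  have hDy : ∀ y, D pp (Fin.cons y ζ) * D pp (Gad_N κ d j) =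
      (K ^ 2 * ε) * (pp y 0 - (((j : ℕ) : ℝ) + 1) / (J + 1)) := by
    intro y
    have h1 : D pp (Fin.cons y ζ) = K * (pp y 0 - (((j : ℕ) : ℝ) + 1) / (J + 1)) :=
      (hKD ε (insert j σ)).2 y
    rw [hDp, h1]
    ring
  have hKε : 0 < K ^ 2 * ε := by positivity
  have hab := fun y hy => Gad_above G hz hε hε3 (insert j σ) j y hy
  have hNr : ∀ y : κ ⊕ (Fin J × Fin (d + 1)),
      Sum.elim (fun k => 1 < F k 0) (fun x => j < x.1) y → y ∉ Set.range (Gad_N κ d j) := by
    rintro y hy ⟨r, rfl⟩
    exact lt_irrefl _ hy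
  have hNr' : ∀ y : κ ⊕ (Fin J × Fin (d + 1)),
      Sum.elim (fun k => F k 0 < -1) (fun x => x.1 < j) y → y ∉ Set.range (Gad_N κ d j) := by
    rintro y hy ⟨r, rfl⟩
    exact lt_irrefl _ hy
  have hmu : mu pp x ζ = (Finset.univ.filter fun k => 1 < F k 0).card +
      (d + 1) * (J - 1 - (j : ℕ)) := by
    unfold mu
    have h1 : (Finset.univ.filter fun j' : Fin J => j < j').card = J - 1 - (j : ℕ) := by
      rw [← Fin.card_Ioi]
      congr 1
      ext j'
      simp
    refine (Gad_count (fun k => 1 < F k 0) (fun j' => j < j') _ ?_).trans (by rw [h1])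
    intro y
    rw [hcons, hDy y, mul_pos_iff_of_pos_left hKε]
    constructor
    · rintro ⟨h2, h3⟩
      exact (hab y h2).1.1 h3
    · intro h2
      exact ⟨hNr y h2, (hab y (hNr y h2)).1.2 h2⟩
  have hmw : mw pp x ζ = (Finset.univ.filter fun k => F k 0 < -1).card +
      (d + 1) * (j : ℕ) := by
    unfold mw
    have h1 : (Finset.univ.filter fun j' : Fin J => j' < j).card = (j : ℕ) := by
      rw [← Fin.card_Iio j]
      congr 1
      ext j'
      simp
    refine (Gad_count (fun k => F k 0 < -1) (fun j' => j' < j) _ ?_).trans (by rw [h1])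
    intro y
    rw [hcons, hDy y]
    constructor
    · rintro ⟨h2, h3⟩
      exact (hab y h2).2.1 (by
        by_contra hcon
        push Not at hcon
        have := mul_nonneg hKε.le hcon
        linarith)
    · intro h2
      exact ⟨hNr' y h2, mul_neg_of_pos_of_neg hKε ((hab y (hNr' y h2)).2.2 h2)⟩
  have hq : 1 + (Finset.univ.filter fun i => β i < 0).card = d + 1 - a := by
    rw [hneg]
    omega
  constructor
  · intro i
    have h1 := flip_P hMut hβ' i
    rw [hq] at h1
    have t1 : tP d i (d + 1 - a) = tP d i (a + 1) := by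
      unfold tP
      refine if_congr ?_ rfl rfl
      omega
    have t2 : tP d i (d + 1 - a + 1) = tP d i a := by
      unfold tP
      refine if_congr ?_ rfl rfl
      omega
    rw [t1, t2] at h1
    rw [h1]
    have hjJ : (j : ℕ) < J := j.2
    have h2 : (mu pp x ζ : ℤ) - mw pp x ζ = ((Finset.univ.filter fun k => 1 < F k 0).card : ℤ) -
        (Finset.univ.filter fun k => F k 0 < -1).card + (d + 1) * ((J : ℤ) - 1 - 2 * (j : ℕ)) := by
      rw [hmu, hmw]
      have h3 : ((J - 1 - (j : ℕ) : ℕ) : ℤ) = (J : ℤ) - 1 - (j : ℕ) := by omega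
      push_cast [h3]
      ring
    rw [h2]
  · intro i
    have h1 := flip_R hMut hι hβ' i
    rw [hq, hmu, hmw] at h1
    exact h1

/-- **All gadgets.** Proof. Induction on `σ` with `gad_one`. -/
theorem gad_all (G : Gadgets F J a g) (hz : ∀ k, 1 < |F k 0|) (ha : 1 ≤ a) (had : a ≤ d)
    (hι : d + 2 ≤ Fintype.card (κ ⊕ (Fin J × Fin (d + 1)))) :
    ∃ ε₀ > 0, ∀ ε, 0 < ε → ε < ε₀ → ∀ (σ : Finset (Fin J)),
      ∀ i, (Pc (pert F g ε σ) i : ℤ) = Pc (pert F g ε ∅) i +
        (∑ j ∈ σ, (((Finset.univ.filter fun k => 1 < F k 0).card : ℤ) -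
          (Finset.univ.filter fun k => F k 0 < -1).card + (d + 1) * ((J : ℤ) - 1 - 2 * (j : ℕ)))) *
          (tP d i (a + 1) - tP d i a) := by
  obtain ⟨ε₀, h0, h⟩ := gad_one G hz ha had hι
  refine ⟨ε₀, h0, fun ε he he' σ i => ?_⟩
  induction σ using Finset.induction_on with
  | empty => simp
  | insert j σ hj ih =>
    rw [(h ε he he' σ j hj).1 i, ih, Finset.sum_insert hj]
    ring

end Pool.Agent.RVM
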