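import Pool.Agent.MP_c130bd_co.RVM.LinkP
import Pool.Agent.MP_c130bd_co.RVM.Gad

set_option autoImplicit false

namespace Pool.Agent.RVM

/-! ## [RVM-OCC] all mutations occur -/

private theorem occ_tP1 {d i q : ℕ} (hq : 1 ≤ q) (hqd : q ≤ d) :
    tP d i (d + 1 - q + 1) = tP d i q := by
  unfold tP
  congr 1
  apply propext
  omega

private theorem occ_tP2 {d i q : ℕ} (hq : 1 ≤ q) (hqd : q ≤ d) :
    tP d i (d + 1 - q) = tP d i (q + 1) := by
  unfold tP
  congr 1
  apply propext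
  omega

private theorem occ_filter1 {d u w : ℕ} [NeZero d] (F : Fin u ⊕ Fin w → E d)
    (h1 : ∀ k, 1 < F (Sum.inl k) 0) (h2 : ∀ k, F (Sum.inr k) 0 < -1) :
    (Finset.univ.filter fun k => 1 < F k 0).card = u := by
  have : (Finset.univ.filter fun k => 1 < F k 0) =
      (Finset.univ : Finset (Fin u)).map ⟨Sum.inl, Sum.inl_injective⟩ := by
    ext k
    rcases k with k | k
    · simp [h1 k]
    · have := h2 k
      simp only [Finset.mem_filter, Finset.mem_univ, true_and, Finset.mem_map,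
        Function.Embedding.coeFn_mk, reduceCtorEq, exists_false, iff_false, not_lt]
      linarith
  rw [this, Finset.card_map, Finset.card_univ, Fintype.card_fin]

private theorem occ_filter2 {d u w : ℕ} [NeZero d] (F : Fin u ⊕ Fin w → E d)
    (h1 : ∀ k, 1 < F (Sum.inl k) 0) (h2 : ∀ k, F (Sum.inr k) 0 < -1) :
    (Finset.univ.filter fun k => F k 0 < -1).card = w := by
  have : (Finset.univ.filter fun k => F k 0 < -1) =
      (Finset.univ : Finset (Fin w)).map ⟨Sum.inr, Sum.inr_injective⟩ := by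
    ext k
    rcases k with k | k
    · have := h1 k
      simp only [Finset.mem_filter, Finset.mem_univ, true_and, Finset.mem_map,
        Function.Embedding.coeFn_mk, reduceCtorEq, exists_false, iff_false, not_lt]
      linarith
    · simp [h2 k]
  rw [this, Finset.card_map, Finset.card_univ, Fintype.card_fin]

/-- Proof. `gen0` for `u` points above and `w` points below; `gen` with `J = 1`, `a = d + 1 - q`; `gad_one` with `σ = ∅`, `j = 0`: `S'` is the image of
`pert F g ε {0}` and `S` the image of `pert F g ε ∅` (`pp_eq`, `rr_eq`, `gp_iff`, `inj_of_gpc`, `pert_gp`);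
`up = u`, `dn = w`, `tP d i (a + 1) = tP d i q`, `tP d i a = tP d i (q + 1)` as `a + q = d + 1`. -/
theorem occ {d : ℕ} (hd : 1 ≤ d) (s q u w : ℕ) (hq : 1 ≤ q) (hqd : q ≤ d) (hs : u + w + d + 1 = s)
    (huw : 1 ≤ u + w) : ∃ S S' : Finset (E d), GP S ∧ GP S' ∧ S.card = s ∧ S'.card = s ∧
      MoveOf d s q u w S S' := by
  haveI : NeZero d := ⟨by omega⟩
  obtain ⟨F, hF, hF1, hF2⟩ := gen0 (d := d) u w
  have hz : ∀ k, 1 < |F k 0| := by
    rintro (k | k)
    · exact lt_of_lt_of_le (hF1 k) (le_abs_self _)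
    · have := hF2 k
      have h2 : -(F (Sum.inr k) 0) ≤ |F (Sum.inr k) 0| := neg_le_abs _
      linarith
  obtain ⟨g, G⟩ := gen hF hz 1 (d + 1 - q) (by omega) (by omega)
  have hcard : Fintype.card ((Fin u ⊕ Fin w) ⊕ (Fin 1 × Fin (d + 1))) = s := by
    simp only [Fintype.card_sum, Fintype.card_prod, Fintype.card_fin]
    omega
  have hι : d + 2 ≤ Fintype.card ((Fin u ⊕ Fin w) ⊕ (Fin 1 × Fin (d + 1))) := by
    rw [hcard]; omega
  have hι' : d + 1 ≤ Fintype.card ((Fin u ⊕ Fin w) ⊕ (Fin 1 × Fin (d + 1))) := by omega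
  obtain ⟨ε₁, he1, H1⟩ := pert_gp G
  obtain ⟨ε₂, he2, H2⟩ := gad_one G hz (by omega) (by omega) hι
  obtain ⟨ε, hε0, hε⟩ := exists_between (lt_min he1 he2)
  have hεa := lt_of_lt_of_le hε (min_le_left _ _)
  have hεb := lt_of_lt_of_le hε (min_le_right _ _)
  have gpA := (H1 ε hε0 hεa ∅).1
  have gpB := (H1 ε hε0 hεa (insert 0 ∅)).1
  have injA := inj_of_gpc gpA hι' hd
  have injB := inj_of_gpc gpB hι' hd
  obtain ⟨M1, M2⟩ := H2 ε hε0 hεb ∅ 0 (by simp)
  rw [occ_filter1 F hF1 hF2, occ_filter2 F hF1 hF2] at M1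
  rw [occ_filter1 F hF1 hF2, occ_filter2 F hF1 hF2, hcard] at M2
  refine ⟨Finset.univ.image (pert F g ε ∅), Finset.univ.image (pert F g ε (insert 0 ∅)),
    (gp_iff injA hι').2 gpA, (gp_iff injB hι').2 gpB, ?_, ?_, ?_, ?_⟩
  · rw [Finset.card_image_of_injective _ injA, Finset.card_univ, hcard]
  · rw [Finset.card_image_of_injective _ injB, Finset.card_univ, hcard]
  · intro i
    rw [pp_eq gpA hι' hd, pp_eq gpB hι' hd, M1 i, occ_tP1 hq hqd, occ_tP2 hq hqd]
    simp
  · intro i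
    rw [rr_eq gpA hι' hd, rr_eq gpB hι' hd, M2 i]
    have e1 : d + 1 - (d + 1 - q) + (w + (d + 1) * ((0 : Fin 1) : ℕ)) = q + w := by
      simp only [Fin.val_zero, mul_zero, add_zero]; omega
    have e2 : d + 1 - (d + 1 - q) + (u + (d + 1) * (1 - 1 - ((0 : Fin 1) : ℕ))) = q + u := by
      simp only [Fin.val_zero, Nat.sub_self, mul_zero, add_zero]; omega
    rw [e1, e2]

end Pool.Agent.RVM
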