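import Pool.Agent.MP_c130bd_co.RVM.Spec
import Pool.Agent.MP_c130bd_co.RVM.Occ
import Pool.Agent.MP_c130bd_co.RVM.Mom
import Pool.Agent.MP_c130bd_co.RVM.DepC

set_option autoImplicit false

namespace Pool.Agent.RVM

/-! ## [RVM-FIN] the final theorems -/

/-- `v` is the primitive Radon vector of some set of `s` points in general position in `ℝ^d`. -/
def IsPrimVec (d s : ℕ) (v : ℕ → ℕ) : Prop :=
  ∃ S : Finset (E d), S.card = s ∧ GP S ∧ ∀ i, 1 ≤ i → i ≤ d / 2 + 1 → PP S i = v i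

/-- Proof. `conn` and `moment`. -/
theorem even_P {d s : ℕ} (hd : 1 ≤ d) (hs : d + 2 ≤ s) (hp : Odd (s + d)) {S : Finset (E d)}
    (hS : GP S) (hc : S.card = s) {i : ℕ} (hi : 1 ≤ i) (hi' : i ≤ d / 2) : Even (PP S i) := by
  obtain ⟨S', hc', hS', h0, _⟩ := moment d s hd hs
  have h1 := parity hd hs hp hS hS' hc hc' i
  rw [h0 i hi hi'] at h1
  exact Nat.even_iff.2 h1

/-- **No gaps in the Radon numbers.** Proof. `conn`; each `Step` changes `rr _ i` by at most one (`tR` is `0` or `1`). -/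
theorem rr_interval {d s : ℕ} (hd : 1 ≤ d) (hs : d + 2 ≤ s) {S₀ S₁ : Finset (E d)}
    (hS₀ : GP S₀) (hS₁ : GP S₁) (hc₀ : S₀.card = s) (hc₁ : S₁.card = s) (i n : ℕ)
    (h₀ : rr S₀ i ≤ n) (h₁ : n ≤ rr S₁ i) : ∃ S : Finset (E d), GP S ∧ S.card = s ∧ rr S i = n := by
  have key : ∀ S' : Finset (E d), Relation.ReflTransGen (Step d s) S₀ S' →
      ∀ n, rr S₀ i ≤ n → n ≤ rr S' i → ∃ S : Finset (E d), GP S ∧ S.card = s ∧ rr S i = n := by
    intro S' h
    induction h with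
    | refl => exact fun n h1 h2 => ⟨S₀, hS₀, hc₀, le_antisymm h1 h2⟩
    | tail _ hstep ih =>
      rename_i S₂ S₃ _
      intro n h1 h2
      obtain ⟨_, hG, _, hC, hcase⟩ := hstep
      have h3 : rr S₃ i ≤ rr S₂ i + 1 := by
        rcases hcase with ⟨_, h4⟩ | ⟨q, u, w, _, _, _, _, h4⟩
        · rw [h4 i]; omega
        · have h5 := h4 i
          have h6 : tR s i (q + w) ≤ 1 := by
            unfold tR; split_ifs <;> norm_num
          have h7 : 0 ≤ tR s i (q + u) := by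
            unfold tR; split_ifs <;> norm_num
          omega
      by_cases h8 : n ≤ rr S₂ i
      · exact ih n h1 h8
      · exact ⟨S₃, hG, hC, by omega⟩
  exact key S₁ (conn hd hs hS₀ hS₁ hc₀ hc₁) n h₀ h₁

/-- the sum of the primitive Radon numbers. Proof. `pc_sum`, `pp_eq`, `exists_param`. -/
theorem pp_sum {d : ℕ} (hd : 1 ≤ d) {S : Finset (E d)} (hS : GP S) (hc : d + 1 ≤ S.card) :
    ∑ i ∈ Finset.Icc 1 (d / 2 + 1), PP S i = S.card.choose (d + 2) := by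
  obtain ⟨p, hp, hpS⟩ := exists_param S
  have hι : d + 1 ≤ Fintype.card (Fin S.card) := by rw [Fintype.card_fin]; exact hc
  have gp : GPc p := (gp_iff hp hι).1 (by rw [hpS]; exact hS)
  have h1 := pc_sum gp
  rw [Fintype.card_fin] at h1
  rw [← h1]
  apply Finset.sum_congr rfl
  intro i _
  have h2 := pp_eq gp hι hd i
  rw [hpS] at h2
  exact h2

/-- **Dimension 2 and 3.** Proof. `spectrum` with `i = 1`, `S₀` = the points on the moment curve (`moment`: `PP S₀ 1 = 0`), `S₁` a set with the vector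
`v'`; the second coordinate by `pp_sum` (`d / 2 + 1 = 2`). -/
theorem dim_two_three (d : ℕ) (hd : d = 2 ∨ d = 3) (s : ℕ) (hs : d + 2 ≤ s) (v v' : ℕ → ℕ)
    (hv' : IsPrimVec d s v') (hsum : v 1 + v 2 = s.choose (d + 2)) (hpar : Odd (s + d) → Even (v 1))
    (h0 : 100 * ((d : ℝ) + 1) ^ 2 * (s : ℝ) ^ (d + 1) * √s ≤ v 1)
    (h1 : (v 1 : ℝ) + 100 * ((d : ℝ) + 1) ^ 2 * (s : ℝ) ^ (d + 1) * √s ≤ v' 1) :
    IsPrimVec d s v := by
  have hd2 : 2 ≤ d := by rcases hd with h | h <;> omega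
  have hdd : d / 2 + 1 = 2 := by rcases hd with h | h <;> subst h <;> rfl
  obtain ⟨S₁, hc₁, hS₁, hv₁⟩ := hv'
  obtain ⟨S₀, hc₀, hS₀, hz, _⟩ := moment d s (by omega) hs
  have hz1 : PP S₀ 1 = 0 := hz 1 le_rfl (by omega)
  have hv11 : PP S₁ 1 = v' 1 := hv₁ 1 le_rfl (by omega)
  obtain ⟨S, hS, hc, hP⟩ := spectrum d hd2 s hs 1 le_rfl (by omega) S₀ S₁ hS₀ hS₁ hc₀ hc₁ (v 1)
    (fun ho => by rw [hz1]; exact Nat.even_iff.1 (hpar ho))
    (by rw [hz1, Nat.cast_zero, zero_add]; exact h0)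
    (by rw [hv11]; exact h1)
  refine ⟨S, hc, hS, ?_⟩
  have h2 := pp_sum (by omega) hS (by omega : d + 1 ≤ S.card)
  rw [hdd, hc, ← hsum, hP.symm] at h2
  have h3 : Finset.Icc 1 2 = ({1, 2} : Finset ℕ) := by decide
  rw [h3, Finset.sum_pair (by norm_num)] at h2
  intro i hi hi'
  rw [hdd] at hi'
  interval_cases i
  · exact hP
  · omega

end Pool.Agent.RVM
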