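import Pool.Agent.MP_c130bd_co.RVM.Dep

set_option autoImplicit false

namespace Pool.Agent.RVM

/-! ## [RVM-AVOID] avoiding hyperplanes; small perturbations -/

/-- a finset version of `avoid` -/
private theorem Avoid_finset {V : Type*} [AddCommGroup V] [Module ℝ V] {W : Set V}
    (hW : Convex ℝ W) (hne : W.Nonempty) {κ : Type*} (ℓ : κ → V →ᵃ[ℝ] ℝ)
    (h : ∀ k, ∃ v ∈ W, ℓ k v ≠ 0) (s : Finset κ) :
    ∃ v ∈ W, ∀ k ∈ s, ℓ k v ≠ 0 := by
  classical
  induction s using Finset.induction_on with
  | empty =>
    obtain ⟨v, hv⟩ := hne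
    exact ⟨v, hv, by simp⟩
  | insert k₀ s hk₀ ih =>
    obtain ⟨v, hvW, hv⟩ := ih
    obtain ⟨w, hwW, hw⟩ := h k₀
    -- the bad parameters
    have hfin : (⋃ k ∈ (insert k₀ s : Finset κ), {t : ℝ | ℓ k (AffineMap.lineMap v w t) = 0}).Finite := by
      refine Set.Finite.biUnion (Finset.finite_toSet _) ?_
      intro k hk
      have hne' : ℓ k v ≠ 0 ∨ ℓ k w ≠ 0 := by
        rcases Finset.mem_insert.1 (Finset.mem_coe.1 hk) with rfl | hk
        · exact Or.inr hw
        · exact Or.inl (hv k hk)
      refine Set.Subsingleton.finite ?_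
      intro t ht t' ht'
      rw [Set.mem_ofPred_eq, AffineMap.apply_lineMap, AffineMap.lineMap_apply, vsub_eq_sub,
        vadd_eq_add, smul_eq_mul] at ht ht'
      by_contra htt
      have h1 : (t - t') * (ℓ k w - ℓ k v) = 0 := by linear_combination ht - ht'
      have h2 : ℓ k w - ℓ k v = 0 := by
        rcases mul_eq_zero.1 h1 with h1 | h1
        · exact absurd (sub_eq_zero.1 h1) htt
        · exact h1
      rw [h2] at ht
      rcases hne' with h3 | h3
      · apply h3; linarith
      · apply h3; linarith
    have hinf : (Set.Ioo (0 : ℝ) 1).Infinite := Set.Ioo_infinite (by norm_num)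
    obtain ⟨t, ht, htn⟩ := (hinf.sdiff hfin).nonempty
    refine ⟨AffineMap.lineMap v w t, ?_, ?_⟩
    · exact hW.segment_subset hvW hwW (by
        rw [segment_eq_image_lineMap]
        exact ⟨t, ⟨ht.1.le, ht.2.le⟩, rfl⟩)
    · intro k hk h0
      apply htn
      simp only [Set.mem_iUnion]
      exact ⟨k, hk, h0⟩

/-- Proof. Induction on the number of the functionals: let `v ∈ W` with `ℓ k v ≠ 0` for the old `k`, and `w ∈ W` with
`ℓ k₀ w ≠ 0` for the new one. On the segment from `v` to `w` (in `W`) every `ℓ k` is an affine function of the parameter which is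
not identically zero, so it has at most one zero; choose a parameter in `(0, 1)` which is no zero. -/
theorem avoid {V : Type*} [AddCommGroup V] [Module ℝ V] {W : Set V} (hW : Convex ℝ W)
    (hne : W.Nonempty) {κ : Type*} [Finite κ] (ℓ : κ → V →ᵃ[ℝ] ℝ) (h : ∀ k, ∃ v ∈ W, ℓ k v ≠ 0) :
    ∃ v ∈ W, ∀ k, ℓ k v ≠ 0 := by
  have := Fintype.ofFinite κ
  obtain ⟨v, hv, h'⟩ := Avoid_finset hW hne ℓ h Finset.univ
  exact ⟨v, hv, fun k => h' k (Finset.mem_univ k)⟩

/-- The determinant as an affine function of one point. -/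
theorem exists_affine {d : ℕ} (z : Fin d → E d) :
    ∃ ℓ : E d →ᵃ[ℝ] ℝ, ∀ v, ℓ v = D (fun k : Fin (d + 1) => (Fin.cons v z : Fin (d + 1) → E d) k) id := by
  -- the linear map `v ↦ det` in the row 0
  let A : Matrix (Fin (d + 1)) (Fin (d + 1)) ℝ :=
    Matrix.of fun r c => hv ((Fin.cons (0 : E d) z : Fin (d + 1) → E d) r) c
  let L : (Fin (d + 1) → ℝ) →ₗ[ℝ] ℝ :=
    { toFun := fun u => Matrix.det (A.updateRow 0 u)
      map_add' := fun u u' => Matrix.det_updateRow_add A 0 u u'
      map_smul' := fun a u => by
        simpa using Matrix.det_updateRow_smul A 0 a u }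
  let C : E d →ₗ[ℝ] (Fin (d + 1) → ℝ) :=
    { toFun := fun v => Fin.cons 0 v
      map_add' := fun u u' => by
        funext c
        refine Fin.cases ?_ (fun c => ?_) c <;> simp
      map_smul' := fun a u => by
        funext c
        refine Fin.cases ?_ (fun c => ?_) c <;> simp }
  refine ⟨(L ∘ₗ C).toAffineMap + AffineMap.const ℝ (E d) (L (Fin.cons 1 0)), ?_⟩
  intro v
  have h1 : ((L ∘ₗ C).toAffineMap + AffineMap.const ℝ (E d) (L (Fin.cons 1 0))) v =
      L (C v) + L (Fin.cons 1 0) := rfl
  rw [h1, ← map_add]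
  have h2 : C v + Fin.cons 1 0 = hv v := by
    funext c
    refine Fin.cases ?_ (fun c => ?_) c
    · simp [C, hv]
    · simp [C, hv]
  rw [h2]
  change Matrix.det (A.updateRow 0 (hv v)) = _
  unfold D
  congr 1
  ext r c
  refine Fin.cases ?_ (fun r => ?_) r
  · simp [Matrix.updateRow_self]
  · rw [Matrix.updateRow_ne (Fin.succ_ne_zero r)]
    simp [A]

/-- If the `d` points `z` are independent, then the functional does not vanish on any nonempty open set.
Proof. Otherwise the affine functional would be `0`; but the vectors `hv (z i)` can be completed to a basis by some `hv v`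
(the `hv v` span `ℝ^(d+1)`). -/
theorem affine_ne {d : ℕ} (z : Fin d → E d) (hz : LinearIndependent ℝ fun i => hv (z i))
    (U : Set (E d)) (hU : IsOpen U) (hne : U.Nonempty) :
    ∃ v ∈ U, D (fun k : Fin (d + 1) => (Fin.cons v z : Fin (d + 1) → E d) k) id ≠ 0 := by
  obtain ⟨ℓ, hℓ⟩ := exists_affine z
  -- some `v` with nonzero value
  have key : ∃ v : E d, ℓ v ≠ 0 := by
    by_contra hcon
    push Not at hcon
    -- all the `hv v` lie in the span of the `hv (z i)`
    have hmem : ∀ v : E d, hv v ∈ Submodule.span ℝ (Set.range fun i => hv (z i)) := by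
      intro v
      by_contra hv'
      have hli : LinearIndependent ℝ (Fin.cons (hv v) (fun i => hv (z i)) : Fin (d + 1) → _) :=
        hz.finCons hv'
      have hdet := (Matrix.linearIndependent_rows_iff_isUnit (A := Matrix.of fun r c =>
        (Fin.cons (hv v) (fun i => hv (z i)) : Fin (d + 1) → Fin (d + 1) → ℝ) r c)).1 hli
      rw [Matrix.isUnit_iff_isUnit_det, isUnit_iff_ne_zero] at hdet
      apply hdet
      rw [← hcon v, hℓ v]
      unfold D
      congr 1
      ext r c
      refine Fin.cases ?_ (fun r => ?_) r <;> simp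
    -- the `hv v` span everything
    have htop : Submodule.span ℝ (Set.range fun i => hv (z i)) = ⊤ := by
      rw [eq_top_iff]
      intro u _
      have h0 := hmem 0
      have h1 : ∀ i : Fin d, (Pi.single (Fin.succ i) (1 : ℝ) : Fin (d + 1) → ℝ) ∈
          Submodule.span ℝ (Set.range fun i => hv (z i)) := by
        intro i
        have := Submodule.sub_mem _ (hmem (Pi.single i 1)) h0
        convert this using 1
        funext c
        refine Fin.cases ?_ (fun c => ?_) c
        · simp [hv]
        · simp only [hv, Pi.sub_apply, Fin.cons_succ, Pi.zero_apply, sub_zero]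
          by_cases hc : c = i
          · subst hc; simp
          · rw [Pi.single_eq_of_ne hc, Pi.single_eq_of_ne]
            intro h; exact hc (Fin.succ_injective _ h)
      have h2 : (Pi.single 0 (1 : ℝ) : Fin (d + 1) → ℝ) ∈
          Submodule.span ℝ (Set.range fun i => hv (z i)) := by
        convert h0 using 1
        funext c
        refine Fin.cases ?_ (fun c => ?_) c
        · simp [hv]
        · simp [hv]
      have h3 : u = ∑ c : Fin (d + 1), u c • (Pi.single c (1 : ℝ) : Fin (d + 1) → ℝ) := by
        funext c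
        simp [Finset.sum_apply, Pi.single_apply]
      rw [h3]
      refine Submodule.sum_mem _ fun c _ => Submodule.smul_mem _ _ ?_
      refine Fin.cases ?_ (fun c => ?_) c
      · exact h2
      · exact h1 c
    have hcard := finrank_span_eq_card hz
    rw [htop, finrank_top, Module.finrank_fin_fun, Fintype.card_fin] at hcard
    omega
  obtain ⟨w, hw⟩ := key
  obtain ⟨u, hu⟩ := hne
  -- near `u` on the line to `w`
  by_cases hu0 : ℓ u ≠ 0
  · exact ⟨u, hu, by rwa [← hℓ u]⟩
  push Not at hu0
  have hcont : Continuous fun t : ℝ => (AffineMap.lineMap u w t : E d) :=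
    AffineMap.lineMap_continuous
  have hev : ∀ᶠ t : ℝ in nhds 0, (AffineMap.lineMap u w t : E d) ∈ U := by
    have : Filter.Tendsto (fun t : ℝ => (AffineMap.lineMap u w t : E d)) (nhds 0) (nhds u) := by
      simpa using hcont.tendsto 0
    exact this.eventually (hU.mem_nhds hu)
  have hev2 : ∀ᶠ t : ℝ in nhdsWithin 0 (Set.Ioi 0), (AffineMap.lineMap u w t : E d) ∈ U :=
    hev.filter_mono nhdsWithin_le_nhds
  obtain ⟨t, ht, ht0⟩ := (hev2.and self_mem_nhdsWithin).exists
  refine ⟨_, ht, ?_⟩
  rw [← hℓ, AffineMap.apply_lineMap, AffineMap.lineMap_apply, hu0]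
  simp only [vsub_eq_sub, sub_zero, smul_eq_mul, vadd_eq_add, add_zero]
  exact mul_ne_zero (ne_of_gt ht0) hw

/-- the determinant is a continuous function of the points -/
private theorem Avoid_cont {d : ℕ} {ι : Type*} (I : Fin (d + 1) → ι) :
    Continuous fun p : ι → E d => D p I := by
  unfold D
  apply Continuous.matrix_det
  refine continuous_matrix ?_
  intro r c
  refine Fin.cases ?_ (fun c => ?_) c
  · simp only [Matrix.of_apply, hv, Fin.cons_zero]
    exact continuous_const
  · simp only [Matrix.of_apply, hv, Fin.cons_succ]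
    exact (continuous_apply c).comp (continuous_apply (I r))

/-- Small perturbations do not change the signs of the nonzero determinants. Proof. Continuity; finitely many `I`. -/
theorem near {d : ℕ} {ι : Type*} [Finite ι] (b : ι → E d) : ∃ ε > 0, ∀ p : ι → E d,
    (∀ k, ‖p k - b k‖ ≤ ε) → ∀ I : Fin (d + 1) → ι, D b I ≠ 0 → 0 < D b I * D p I := by
  have := Fintype.ofFinite ι
  have hev : ∀ᶠ p : ι → E d in nhds b, ∀ I : Fin (d + 1) → ι, D b I ≠ 0 → 0 < D b I * D p I := by
    rw [Filter.eventually_all]
    intro I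
    by_cases hI : D b I = 0
    · exact Filter.Eventually.of_forall fun p h => absurd hI h
    · have hc : Continuous fun p : ι → E d => D b I * D p I := continuous_const.mul (Avoid_cont I)
      have hpos : 0 < D b I * D b I := mul_self_pos.2 hI
      have := (hc.tendsto b).eventually (lt_mem_nhds hpos)
      exact this.mono fun p hp _ => hp
  rw [Metric.eventually_nhds_iff_ball] at hev
  obtain ⟨ε, hε, h⟩ := hev
  refine ⟨ε / 2, half_pos hε, fun p hp I hI => h p ?_ I hI⟩
  rw [Metric.mem_ball, dist_pi_lt_iff hε]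
  intro k
  rw [dist_eq_norm]
  exact lt_of_le_of_lt (hp k) (half_lt_self hε)

/-- The sets of a family in general position (with at least `d + 1` points) are independent. -/
theorem ag_of_gpc {d : ℕ} {ι : Type*} [Fintype ι] {p : ι → E d} (hp : GPc p)
    (hι : d + 1 ≤ Fintype.card ι) : AG ∅ p := by
  classical
  refine ⟨?_, ?_⟩
  · intro Z hZ
    obtain ⟨Y, hZY, hY⟩ := Finset.exists_superset_card_eq (s := Z) (n := d + 1) (by omega) hι
    obtain ⟨e⟩ : Nonempty (Fin (d + 1) ≃ Y) := by
      refine ⟨(Fintype.equivFinOfCardEq ?_).symm⟩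
      rw [Fintype.card_coe, hY]
    have hinj : Function.Injective (fun r => (e r : ι)) := Subtype.val_injective.comp e.injective
    have hD := hp _ hinj
    have hli : LinearIndependent ℝ (fun r : Fin (d + 1) => hv (p (e r))) := by
      have := (Matrix.linearIndependent_rows_iff_isUnit (A := Matrix.of fun r c =>
        hv (p (e r)) c)).2 (by
          rw [Matrix.isUnit_iff_isUnit_det, isUnit_iff_ne_zero]
          exact hD)
      exact this
    let f : Z → Fin (d + 1) := fun z => e.symm ⟨z, hZY z.2⟩
    have hf : Function.Injective f := by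
      intro z z' h
      have h' := congrArg Subtype.val (e.symm.injective h)
      exact Subtype.ext h'
    have := hli.comp f hf
    have he : (fun z : Z => hv (p z)) = (fun r : Fin (d + 1) => hv (p (e r))) ∘ f := by
      funext z
      change hv (p z) = hv (p ((e (e.symm ⟨z, hZY z.2⟩) : Y) : ι))
      rw [Equiv.apply_symm_apply]
    rw [he]
    exact this
  · intro I hI
    simp only [Set.mem_empty_iff_false, iff_false]
    exact hp I hI

theorem gpc_of_ag {d : ℕ} {ι : Type*} {p : ι → E d} (hp : AG ∅ p) : GPc p := by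
  intro I hI h
  exact (Set.mem_empty_iff_false _).1 ((hp.det I hI).1 h)

/-- Subfamilies. -/
theorem ag_comp {d : ℕ} {ι κ : Type*} {p : ι → E d} {M : Set (Set ι)} (hp : AG M p) (f : κ → ι)
    (hf : Function.Injective f) : AG {m | f '' m ∈ M} (p ∘ f) := by
  classical
  refine ⟨?_, ?_⟩
  · intro Z hZ
    have h1 := hp.ind (Z.map ⟨f, hf⟩) (by rwa [Finset.card_map])
    let g : Z → (Z.map ⟨f, hf⟩ : Finset ι) := fun z =>
      ⟨f z, Finset.mem_map.2 ⟨z, z.2, rfl⟩⟩
    have hg : Function.Injective g := by
      intro z z' h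
      have := congrArg Subtype.val h
      exact Subtype.ext (hf this)
    exact h1.comp g hg
  · intro I hI
    have h1 := hp.det (f ∘ I) (hf.comp hI)
    rw [Set.range_comp] at h1
    exact h1

end Pool.Agent.RVM
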