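import Pool.Agent.MP_c130bd_co.RVM.LinkP
import Pool.Agent.MP_c130bd_co.RVM.Avoid

set_option autoImplicit false

namespace Pool.Agent.RVM

variable {d : ℕ}

/-! ## [RVM-ARR] arranging a set above and below of the slab; subsets -/

/-! ### auxiliary -/

private theorem arr_sum_iff {κ : Type*} [Fintype κ] (x : κ → E d) (a : κ → ℝ) :
    ∑ j, a j • hv (x j) = 0 ↔ ∑ j, a j = 0 ∧ ∑ j, a j • x j = 0 := by
  constructor
  · intro h
    constructor
    · have h0 := congrFun h 0
      simpa [hv, Finset.sum_apply] using h0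
    · funext i
      have h1 := congrFun h i.succ
      simpa [hv, Finset.sum_apply] using h1
  · rintro ⟨h0, h1⟩
    funext i
    refine Fin.cases ?_ (fun i => ?_) i
    · simpa [hv, Finset.sum_apply] using h0
    · have h2 := congrFun h1 i
      simpa [hv, Finset.sum_apply] using h2

private theorem arr_affine_sum {κ : Type*} [Fintype κ] (x : κ → E d) (L : E d ≃ₗ[ℝ] E d) (c : E d)
    (a : κ → ℝ) : ∑ j, a j • hv (L (x j) + c) = 0 ↔ ∑ j, a j • hv (x j) = 0 := by
  rw [arr_sum_iff (fun j => L (x j) + c) a, arr_sum_iff x a]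
  refine and_congr_right fun h0 => ?_
  have h1 : ∑ j, a j • (L (x j) + c) = L (∑ j, a j • x j) := by
    simp only [smul_add, Finset.sum_add_distrib, map_sum, map_smul]
    rw [← Finset.sum_smul, h0, zero_smul, add_zero]
  rw [h1]
  exact LinearEquiv.map_eq_zero_iff L

private theorem arr_D_iff {κ : Type*} (x : κ → E d) (I : Fin (d + 1) → κ) :
    D x I = 0 ↔ ∃ a : Fin (d + 1) → ℝ, a ≠ 0 ∧ ∑ r, a r • hv (x (I r)) = 0 := by
  unfold D
  rw [← Matrix.exists_vecMul_eq_zero_iff]
  refine exists_congr fun a => and_congr_right fun _ => ?_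
  have h : Matrix.vecMul a (Matrix.of fun r c => hv (x (I r)) c) = ∑ r, a r • hv (x (I r)) := by
    funext c
    simp [Matrix.vecMul, dotProduct, Finset.sum_apply]
  rw [h]

private theorem arr_D_affine {κ : Type*} (x : κ → E d) (L : E d ≃ₗ[ℝ] E d) (c : E d)
    (I : Fin (d + 1) → κ) : D (fun k => L (x k) + c) I = 0 ↔ D x I = 0 := by
  rw [arr_D_iff, arr_D_iff]
  exact exists_congr fun a => and_congr_right fun _ => arr_affine_sum (fun r => x (I r)) L c a

private theorem arr_swap {κ : Type*} [DecidableEq κ] (a b k : κ) :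
    Equiv.swap a b (Equiv.swap a b k) = k := by
  rw [← Equiv.Perm.mul_apply, Equiv.swap_mul_self, Equiv.Perm.one_apply]

private theorem arr_functional [NeZero d] {s : ℕ} (p : Fin s → E d) (hp : Function.Injective p)
    (hs : 2 ≤ s) : ∃ L : E d ≃ₗ[ℝ] E d, Function.Injective fun k => L (p k) 0 := by
  classical
  let ℓ : {x : Fin s × Fin s // x.1 ≠ x.2} → E d →ᵃ[ℝ] ℝ := fun x =>
    (LinearMap.toAffineMap
      (∑ i : Fin d, (p x.1.1 i - p x.1.2 i) • (LinearMap.proj i : E d →ₗ[ℝ] ℝ)))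
  have hℓ : ∀ x v, ℓ x v = ∑ i : Fin d, (p x.1.1 i - p x.1.2 i) * v i := by
    intro x v
    simp [ℓ, LinearMap.sum_apply]
  obtain ⟨v, -, hv⟩ := avoid (W := (Set.univ : Set (E d))) convex_univ Set.univ_nonempty ℓ (by
    intro x
    refine ⟨p x.1.1 - p x.1.2, Set.mem_univ _, ?_⟩
    rw [hℓ]
    have h0 : p x.1.1 ≠ p x.1.2 := fun h => x.2 (hp h)
    obtain ⟨i, hi⟩ := Function.ne_iff.1 h0
    have h1 : 0 < ∑ i : Fin d, (p x.1.1 i - p x.1.2 i) * (p x.1.1 - p x.1.2) i := by
      refine Finset.sum_pos' (fun j _ => ?_) ⟨i, Finset.mem_univ _, ?_⟩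
      · simpa using mul_self_nonneg (p x.1.1 j - p x.1.2 j)
      · have h2 : p x.1.1 i - p x.1.2 i ≠ 0 := sub_ne_zero.2 hi
        simpa using mul_self_pos.2 h2
    exact h1.ne')
  have hne : v ≠ 0 := by
    intro h
    have h1 : (⟨0, by omega⟩ : Fin s) ≠ ⟨1, by omega⟩ := by simp
    have h2 := hv ⟨(⟨0, by omega⟩, ⟨1, by omega⟩), h1⟩
    rw [hℓ] at h2
    apply h2
    simp [h]
  obtain ⟨j₀, hj₀⟩ := Function.ne_iff.1 hne
  let A : E d →ₗ[ℝ] E d := LinearMap.pi fun i =>
    if i = 0 then ∑ k : Fin d, v k • (LinearMap.proj k : E d →ₗ[ℝ] ℝ)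
    else (LinearMap.proj (Equiv.swap 0 j₀ i) : E d →ₗ[ℝ] ℝ)
  have hA0 : ∀ x : E d, A x 0 = ∑ k, v k * x k := by
    intro x
    simp [A, LinearMap.sum_apply]
  have hA1 : ∀ (x : E d) (i : Fin d), i ≠ 0 → A x i = x (Equiv.swap 0 j₀ i) := by
    intro x i hi
    simp [A, hi]
  have hinj : Function.Injective A := by
    rw [← LinearMap.ker_eq_bot, LinearMap.ker_eq_bot']
    intro x hx
    have h1 : ∀ k, k ≠ j₀ → x k = 0 := by
      intro k hk
      have h2 : Equiv.swap 0 j₀ k ≠ 0 := by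
        intro h3
        have h4 := congrArg (Equiv.swap 0 j₀) h3
        rw [arr_swap, Equiv.swap_apply_left] at h4
        exact hk h4
      have h5 := hA1 x _ h2
      rw [hx, arr_swap] at h5
      simpa using h5.symm
    have h6 := hA0 x
    rw [hx] at h6
    have h7 : ∑ k, v k * x k = v j₀ * x j₀ := by
      refine Finset.sum_eq_single j₀ (fun k _ hk => ?_) (fun h => absurd (Finset.mem_univ _) h)
      rw [h1 k hk, mul_zero]
    rw [h7] at h6
    have h8 : x j₀ = 0 := by
      rcases mul_eq_zero.1 h6.symm with h | h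
      · exact absurd h hj₀
      · exact h
    funext k
    by_cases hk : k = j₀
    · rw [hk]; exact h8
    · exact h1 k hk
  refine ⟨LinearEquiv.ofInjectiveEndo A hinj, ?_⟩
  intro a b hab
  by_contra hne'
  have h1 := hv ⟨(a, b), hne'⟩
  rw [hℓ] at h1
  apply h1
  simp only [LinearEquiv.coe_ofInjectiveEndo] at hab
  rw [hA0, hA0] at hab
  have h2 : ∑ i : Fin d, (p a i - p b i) * v i = ∑ k, v k * p a k - ∑ k, v k * p b k := by
    rw [← Finset.sum_sub_distrib]
    exact Finset.sum_congr rfl fun i _ => by ring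
  rw [h2, hab, sub_self]

private theorem arr_scale {κ : Type*} [Fintype κ] (f : κ → ℝ) (hf : ∀ k, f k ≠ 0) :
    ∃ N : ℝ, 0 < N ∧ ∀ k, 1 < N * |f k| := by
  refine ⟨∑ k, 2 / |f k| + 1, ?_, ?_⟩
  · have : 0 ≤ ∑ k, 2 / |f k| := Finset.sum_nonneg fun k _ => by positivity
    linarith
  · intro k
    have hk : 0 < |f k| := abs_pos.2 (hf k)
    have h1 : 2 / |f k| ≤ ∑ k, 2 / |f k| :=
      Finset.single_le_sum (f := fun k => 2 / |f k|) (fun j _ => by positivity)
        (Finset.mem_univ k)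
    have h2 : 2 / |f k| * |f k| = 2 := div_mul_cancel₀ _ hk.ne'
    have h3 : 2 / |f k| * |f k| ≤ (∑ k, 2 / |f k| + 1) * |f k| :=
      mul_le_mul_of_nonneg_right (by linarith) hk.le
    linarith

/-- Affine bijections: `L` a linear bijection, `c` a vector. All the determinants are multiplied with the determinant of the block
matrix, i.e. with `LinearMap.det L`. Proof of `Pc`: `ty_congr`-like: `Ty` is invariant, because the affine dependences are the same
(`Dep (A ∘ p) c ↔ Dep p c`). -/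
theorem pc_affine {ι : Type*} [Fintype ι] [DecidableEq ι] (p : ι → E d) (L : E d ≃ₗ[ℝ] E d) (c : E d) :
    (GPc (fun k => L (p k) + c) ↔ GPc p) ∧ ∀ i, Pc (fun k => L (p k) + c) i = Pc p i := by
  have hD : ∀ I : Fin (d + 1) → ι, D (fun k => L (p k) + c) I = 0 ↔ D p I = 0 := fun I =>
    arr_D_affine p L c I
  have hdep : ∀ a : ι → ℝ, Dep (fun k => L (p k) + c) a ↔ Dep p a := fun a =>
    arr_affine_sum p L c a
  refine ⟨?_, fun i => ?_⟩
  · unfold GPc
    exact forall_congr' fun I => imp_congr_right fun _ => not_congr (hD I)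
  · have hTy : ∀ X : Finset ι, Ty (fun k => L (p k) + c) X i ↔ Ty p X i := fun X =>
      exists_congr fun a => and_congr_left fun _ => hdep a
    unfold Pc
    congr 1
    ext X
    simp only [Finset.mem_filter]
    exact and_congr_right fun _ => hTy X

/-- Proof. There is a linear functional `φ` which is injective on `S` (`avoid` in the dual space for the functionals `φ ↦ φ (x - y)`);
extend it to a linear bijection `L` of `ℝ^d` with `(L v) 0 = φ v` (`φ ≠ 0`). Enumerate `S` in the order of decreasing `φ`: `p : Fin (h₁ + h₂) → E d`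
(`exists_param` and a sort, or `Finset.orderIsoOfFin` for the image of `S` under `φ`). Let `m` be a number between `φ (p (h₁ - 1))` and `φ (p h₁)`
different from both and `N` large; `k ↦ N (L (p k) - m e₀)` has the properties; `pc_affine`, `pp_eq`, `gp_iff`. -/
theorem arrange [NeZero d] (S : Finset (E d)) (hS : GP S) (h₁ h₂ : ℕ) (hc : S.card = h₁ + h₂)
    (hd : d + 1 ≤ S.card) : ∃ F : Fin h₁ ⊕ Fin h₂ → E d, AG ∅ F ∧ (∀ k, 1 < F (Sum.inl k) 0) ∧
      (∀ k, F (Sum.inr k) 0 < -1) ∧ ∀ i, Pc F i = PP S i := by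
  classical
  have hd1 : 1 ≤ d := Nat.one_le_iff_ne_zero.2 (NeZero.ne d)
  obtain ⟨p, hpinj, hpS⟩ := exists_param S
  obtain ⟨L, hL⟩ := arr_functional p hpinj (by omega)
  -- sort by decreasing values of the functional
  let σ : Equiv.Perm (Fin S.card) := Tuple.sort fun k => -(L (p k) 0)
  have hσ : Monotone ((fun k => -(L (p k) 0)) ∘ σ) := Tuple.monotone_sort _
  have hlt : ∀ a b : Fin S.card, a < b → L (p (σ b)) 0 < L (p (σ a)) 0 := by
    intro a b hab
    have h1 := hσ hab.le
    simp only [Function.comp] at h1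
    have h2 : L (p (σ a)) 0 ≠ L (p (σ b)) 0 := fun h =>
      hab.ne (σ.injective (hL h))
    exact lt_of_le_of_ne (by linarith) (Ne.symm h2)
  let e : Fin h₁ ⊕ Fin h₂ ≃ Fin S.card := finSumFinEquiv.trans (finCongr hc.symm)
  have he : ∀ (a : Fin h₁) (b : Fin h₂), e (Sum.inl a) < e (Sum.inr b) := by
    intro a b
    rw [Fin.lt_def]
    have h1 : ((e (Sum.inl a) : Fin S.card) : ℕ) = a := by
      simp [e, finSumFinEquiv_apply_left]
    have h2 : ((e (Sum.inr b) : Fin S.card) : ℕ) = h₁ + b := by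
      simp [e, finSumFinEquiv_apply_right]
    rw [h1, h2]
    have := a.2
    omega
  let q : Fin h₁ ⊕ Fin h₂ → E d := fun k => p (σ (e k))
  have hqinj : Function.Injective q := fun a b h => e.injective (σ.injective (hpinj h))
  have hqS : Finset.univ.image q = S := by
    rw [← hpS]
    ext x
    simp only [Finset.mem_image, Finset.mem_univ, true_and]
    constructor
    · rintro ⟨k, hk⟩
      exact ⟨σ (e k), hk⟩
    · rintro ⟨k, hk⟩
      refine ⟨e.symm (σ.symm k), ?_⟩
      simp only [q, Equiv.apply_symm_apply]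
      exact hk
  have hcard : Fintype.card (Fin h₁ ⊕ Fin h₂) = S.card := by
    rw [Fintype.card_sum, Fintype.card_fin, Fintype.card_fin, hc]
  have hq : GPc q := by
    rw [← gp_iff hqinj (by rw [hcard]; exact hd), hqS]
    exact hS
  -- the level between the two groups
  obtain ⟨m, hm1, hm2⟩ := Order.exists_between_finsets
    (Finset.univ.image fun b : Fin h₂ => L (q (Sum.inr b)) 0)
    (Finset.univ.image fun a : Fin h₁ => L (q (Sum.inl a)) 0) (by
      intro x hx y hy
      obtain ⟨b, -, rfl⟩ := Finset.mem_image.1 hx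
      obtain ⟨a, -, rfl⟩ := Finset.mem_image.1 hy
      exact hlt _ _ (he a b))
  have hm1' : ∀ b : Fin h₂, L (q (Sum.inr b)) 0 < m := fun b =>
    hm1 _ (Finset.mem_image_of_mem _ (Finset.mem_univ b))
  have hm2' : ∀ a : Fin h₁, m < L (q (Sum.inl a)) 0 := fun a =>
    hm2 _ (Finset.mem_image_of_mem _ (Finset.mem_univ a))
  obtain ⟨N, hN, hN1⟩ := arr_scale (fun k => L (q k) 0 - m) (by
    rintro (a | b)
    · exact (sub_pos.2 (hm2' a)).ne'
    · exact (sub_neg.2 (hm1' b)).ne)
  let L' : E d ≃ₗ[ℝ] E d := L.trans (LinearEquiv.smulOfNeZero ℝ (E d) N hN.ne')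
  let c : E d := fun i => if i = 0 then -(N * m) else 0
  have hL' : ∀ k, (L' (q k) + c) 0 = N * (L (q k) 0 - m) := by
    intro k
    simp only [L', c, Pi.add_apply, LinearEquiv.trans_apply, LinearEquiv.smulOfNeZero_apply,
      Pi.smul_apply, smul_eq_mul, if_true]
    ring
  obtain ⟨hg, hP⟩ := pc_affine q L' c
  refine ⟨fun k => L' (q k) + c, ?_, fun k => ?_, fun k => ?_, fun i => ?_⟩
  · exact ag_of_gpc (hg.2 hq) (by rw [hcard]; exact hd)
  · have h0 := hL' (Sum.inl k)
    have h2 : (1 : ℝ) < (L' (q (Sum.inl k)) + c) 0 := by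
      rw [h0]
      have h1 := hN1 (Sum.inl k)
      rw [abs_of_pos (sub_pos.2 (hm2' k))] at h1
      exact h1
    exact h2
  · have h0 := hL' (Sum.inr k)
    have h2 : (L' (q (Sum.inr k)) + c) 0 < -1 := by
      rw [h0]
      have h1 := hN1 (Sum.inr k)
      rw [abs_of_neg (sub_neg.2 (hm1' k))] at h1
      linarith
    exact h2
  · rw [hP i, ← pp_eq hq (by rw [hcard]; exact hd) hd1 i, hqS]

end Pool.Agent.RVM
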