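import Pool.Agent.MP_c130bd_co.RVM.DepB

set_option autoImplicit false

namespace Pool.Agent.RVM

variable {d : ℕ} {ι : Type*} [Fintype ι] [DecidableEq ι]

/-! ## [RVM-LINK] the geometric numbers of a finite set and the numbers of an enumeration -/

omit [Fintype ι] [DecidableEq ι] in
theorem Link_sum_hv {κ : Type*} (s : Finset κ) (g : κ → ℝ) (q : κ → E d) :
    ∑ i ∈ s, g i • hv (q i) = (Fin.cons (∑ i ∈ s, g i) (∑ i ∈ s, g i • q i) : Fin (d + 1) → ℝ) := by
  funext c
  refine Fin.cases ?_ (fun c => ?_) c
  · simp [hv, Finset.sum_apply]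
  · simp [hv, Finset.sum_apply]

omit [Fintype ι] [DecidableEq ι] in
theorem Link_sum_hv_eq_zero {κ : Type*} (s : Finset κ) (g : κ → ℝ) (q : κ → E d) :
    ∑ i ∈ s, g i • hv (q i) = 0 ↔ ∑ i ∈ s, g i = 0 ∧ ∑ i ∈ s, g i • q i = 0 := by
  rw [Link_sum_hv]
  constructor
  · intro h
    refine ⟨?_, ?_⟩
    · have := congrFun h 0
      simpa using this
    · funext c
      have := congrFun h c.succ
      simpa using this
  · rintro ⟨h1, h2⟩
    rw [h1, h2]
    funext c
    refine Fin.cases ?_ (fun c => ?_) c <;> simp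

omit [Fintype ι] [DecidableEq ι] in
theorem Link_affine_iff {κ : Type*} (q : κ → E d) :
    AffineIndependent ℝ q ↔ LinearIndependent ℝ (fun k => hv (q k)) := by
  rw [affineIndependent_iff, linearIndependent_iff']
  constructor
  · intro h s g hg
    rw [Link_sum_hv_eq_zero] at hg
    exact h s g hg.1 hg.2
  · intro h s g h1 h2
    exact h s g ((Link_sum_hv_eq_zero s g q).2 ⟨h1, h2⟩)

omit [Fintype ι] [DecidableEq ι] in
theorem Link_D_iff (p : ι → E d) (I : Fin (d + 1) → ι) :
    D p I ≠ 0 ↔ AffineIndependent ℝ (p ∘ I) := by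
  rw [Link_affine_iff]
  have h1 := Matrix.linearIndependent_rows_iff_isUnit
    (A := Matrix.of fun (r : Fin (d + 1)) (c : Fin (d + 1)) => hv (p (I r)) c)
  rw [Matrix.isUnit_iff_isUnit_det, isUnit_iff_ne_zero] at h1
  unfold D
  rw [← h1]
  rfl

omit [DecidableEq ι] in
/-- every set of at most `d + 1` indices is contained in the range of an injective `I` -/
theorem Link_enum (hι : d + 1 ≤ Fintype.card ι) (J : Finset ι) (hJ : J.card ≤ d + 1) :
    ∃ I : Fin (d + 1) → ι, Function.Injective I ∧ ∀ j ∈ J, ∃ r, I r = j := by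
  obtain ⟨t, ht, htc⟩ := Finset.exists_superset_card_eq hJ hι
  refine ⟨fun r => ((Finset.equivFinOfCardEq htc).symm r : ι), ?_, ?_⟩
  · intro a b hab
    exact (Finset.equivFinOfCardEq htc).symm.injective (Subtype.ext hab)
  · intro j hj
    exact ⟨Finset.equivFinOfCardEq htc ⟨j, ht hj⟩, by simp⟩

/-- Proof. Let `I` be injective with `D p I ≠ 0`. The points `p (I r)` are affinely independent iff the vectors
`hv (p (I r))` are linearly independent (an affine dependence `∑ c = 0`, `∑ c p = 0` is the same as `∑ c • hv (p _) = 0`,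
`affineIndependent_iff`), i.e. iff the determinant is not `0` (`Matrix.linearIndependent_rows_iff_isUnit` or
`Matrix.exists_vecMul_eq_zero_iff`). `←`: a subset of at most `d + 1` points is contained in a set of `d + 1` points, because
`card ι ≥ d + 1`, and subfamilies of independent families are independent. -/
theorem gp_iff {p : ι → E d} (hinj : Function.Injective p) (hι : d + 1 ≤ Fintype.card ι) :
    GP (Finset.univ.image p) ↔ GPc p := by
  constructor
  · intro h I hI
    rw [Link_D_iff]
    have hc : (Finset.univ.image (p ∘ I)).card = d + 1 := by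
      rw [Finset.card_image_of_injective _ (hinj.comp hI), Finset.card_fin]
    have h1 := h (Finset.univ.image (p ∘ I)) (by
      intro x hx
      rw [Finset.mem_image] at hx ⊢
      obtain ⟨r, -, rfl⟩ := hx
      exact ⟨I r, Finset.mem_univ _, rfl⟩) hc.le
    have h2 := h1.comp_embedding (⟨fun r => ⟨p (I r), Finset.mem_image.2 ⟨r, Finset.mem_univ _, rfl⟩⟩,
      fun a b hab => hI (hinj (congrArg Subtype.val hab))⟩ :
        Fin (d + 1) ↪ (Finset.univ.image (p ∘ I) : Finset (E d)))
    exact h2
  · intro h T hT hTc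
    have hJ : (Finset.univ.filter (fun j => p j ∈ T)).card ≤ d + 1 := by
      refine le_trans ?_ hTc
      refine Finset.card_le_card_of_injOn p ?_ hinj.injOn
      intro j hj
      simpa using hj
    obtain ⟨I, hI, hIJ⟩ := Link_enum hι _ hJ
    have h1 := (Link_D_iff p I).1 (h I hI)
    have h2 : ∀ x : T, ∃ r, p (I r) = (x : E d) := by
      intro x
      obtain ⟨j, -, hj⟩ := Finset.mem_image.1 (hT x.2)
      obtain ⟨r, hr⟩ := hIJ j (by simp [hj])
      exact ⟨r, by rw [hr, hj]⟩
    choose f hf using h2
    have h3 := h1.comp_embedding (⟨f, fun a b hab => Subtype.ext (by rw [← hf a, ← hf b, hab])⟩ :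
      T ↪ Fin (d + 1))
    have h4 : (p ∘ I) ∘ (⟨f, fun a b hab => Subtype.ext (by rw [← hf a, ← hf b, hab])⟩ :
      T ↪ Fin (d + 1)) = fun x : T => (x : E d) := funext hf
    rwa [h4] at h3

/-- Proof. If `p a = p b`, `a ≠ b`, choose an injective `I` with `a`, `b` in its range: two equal rows. -/
theorem inj_of_gpc {p : ι → E d} (hp : GPc p) (hι : d + 1 ≤ Fintype.card ι) (hd : 1 ≤ d) :
    Function.Injective p := by
  intro a b hab
  by_contra hne
  have hJ : ({a, b} : Finset ι).card ≤ d + 1 := by
    rw [Finset.card_pair hne]; omega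
  obtain ⟨I, hI, hIJ⟩ := Link_enum hι {a, b} hJ
  obtain ⟨r, hr⟩ := hIJ a (by simp)
  obtain ⟨t, ht⟩ := hIJ b (by simp)
  have hrt : r ≠ t := by
    rintro rfl
    exact hne (hr.symm.trans ht)
  refine hp I hI ?_
  unfold D
  refine Matrix.det_zero_of_row_eq hrt ?_
  funext c
  simp [hr, ht, hab]

/-- If `A` and `B` are disjoint sets of indices, then the convex hulls of the points of `A` and of `B` meet iff there is a dependence
`c ≠ 0` which is `≥ 0` on `A`, `≤ 0` on `B` and `0` elsewhere. Proof. `→`: a common point `∑ α_a p a = ∑ β_b p b` with convex combinations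
(`Finset.convexHull_eq`, `Finset.mem_convexHull'`, `p` is injective). `←`: `∑_A c = - ∑_B c =: s > 0` (coordinate `0` of `hv`; `c ≠ 0`); divide by `s`. -/
theorem hull_iff {p : ι → E d} (hinj : Function.Injective p) {A B : Finset ι} (hAB : Disjoint A B) :
    (convexHull ℝ ((A.image p : Finset (E d)) : Set (E d)) ∩
      convexHull ℝ ((B.image p : Finset (E d)) : Set (E d))).Nonempty ↔
      ∃ c : ι → ℝ, Dep p c ∧ c ≠ 0 ∧ (∀ j ∈ A, 0 ≤ c j) ∧ (∀ j ∈ B, c j ≤ 0) ∧
        ∀ j, j ∉ A → j ∉ B → c j = 0 := by
  have hsplit : ∀ {M : Type} [AddCommMonoid M] (f : ι → M), (∀ j, j ∉ A → j ∉ B → f j = 0) →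
      ∑ j, f j = ∑ j ∈ A, f j + ∑ j ∈ B, f j := by
    intro M _ f hf
    rw [← Finset.sum_union hAB]
    symm
    apply Finset.sum_subset (Finset.subset_univ _)
    intro j _ hj
    rw [Finset.mem_union, not_or] at hj
    exact hf j hj.1 hj.2
  constructor
  · rintro ⟨x, hxA, hxB⟩
    obtain ⟨α, hα0, hα1, hαx⟩ := Finset.mem_convexHull'.1 hxA
    obtain ⟨β, hβ0, hβ1, hβx⟩ := Finset.mem_convexHull'.1 hxB
    rw [Finset.sum_image hinj.injOn] at hα1 hαx hβ1 hβx
    have hBA : ∀ j ∈ B, j ∉ A := fun j hj hj' => Finset.disjoint_left.1 hAB hj' hj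
    set c : ι → ℝ := fun j => if j ∈ A then α (p j) else if j ∈ B then -β (p j) else 0 with hc
    have hcA : ∀ j ∈ A, c j = α (p j) := fun j hj => by simp [hc, hj]
    have hcB : ∀ j ∈ B, c j = -β (p j) := fun j hj => by simp [hc, hj, hBA j hj]
    have hc0 : ∀ j, j ∉ A → j ∉ B → c j = 0 := fun j h1 h2 => by simp [hc, h1, h2]
    refine ⟨c, ?_, ?_, ?_, ?_, hc0⟩
    · unfold Dep
      rw [Link_sum_hv_eq_zero]
      constructor
      · rw [hsplit c hc0, Finset.sum_congr rfl hcA, Finset.sum_congr rfl hcB,
          Finset.sum_neg_distrib, hα1, hβ1]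
        ring
      · rw [hsplit (fun j => c j • p j) (fun j h1 h2 => by rw [hc0 j h1 h2, zero_smul])]
        have e1 : ∑ j ∈ A, c j • p j = x := by
          rw [← hαx]; exact Finset.sum_congr rfl fun j hj => by rw [hcA j hj]
        have e2 : ∑ j ∈ B, c j • p j = -x := by
          rw [← hβx, ← Finset.sum_neg_distrib]
          exact Finset.sum_congr rfl fun j hj => by rw [hcB j hj, neg_smul]
        rw [e1, e2, add_neg_cancel]
    · intro h0
      have : ∑ j ∈ A, α (p j) = 0 := by
        refine Finset.sum_eq_zero fun j hj => ?_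
        rw [← hcA j hj, h0]; rfl
      rw [hα1] at this
      exact one_ne_zero this
    · intro j hj
      rw [hcA j hj]
      exact hα0 _ (Finset.mem_image_of_mem _ hj)
    · intro j hj
      rw [hcB j hj, neg_nonpos]
      exact hβ0 _ (Finset.mem_image_of_mem _ hj)
  · rintro ⟨c, hdep, hne, hA, hB, h0⟩
    unfold Dep at hdep
    rw [Link_sum_hv_eq_zero] at hdep
    obtain ⟨hd1, hd2⟩ := hdep
    rw [hsplit c h0] at hd1
    rw [hsplit (fun j => c j • p j) (fun j h1 h2 => by rw [h0 j h1 h2, zero_smul])] at hd2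
    set s : ℝ := ∑ j ∈ A, c j with hs
    have hs0 : 0 ≤ s := Finset.sum_nonneg hA
    have hBs : ∑ j ∈ B, c j = -s := by linarith
    have hspos : 0 < s := by
      rcases hs0.lt_or_eq with h | h
      · exact h
      · exfalso
        apply hne
        have hA0 := (Finset.sum_eq_zero_iff_of_nonneg hA).1 h.symm
        have hB0 := (Finset.sum_eq_zero_iff_of_nonpos hB).1 (by rw [hBs, ← h, neg_zero])
        funext j
        by_cases h1 : j ∈ A
        · exact hA0 j h1
        · by_cases h2 : j ∈ B
          · exact hB0 j h2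
          · exact h0 j h1 h2
    refine ⟨∑ j ∈ A, (c j / s) • p j, ?_, ?_⟩
    · refine (convex_convexHull ℝ _).sum_mem (fun j hj => div_nonneg (hA j hj) hs0) ?_ ?_
      · rw [← Finset.sum_div, ← hs, div_self hspos.ne']
      · intro j hj
        exact subset_convexHull ℝ _ (by
          simp only [Finset.coe_image]
          exact ⟨j, hj, rfl⟩)
    · have e1 : ∑ j ∈ A, (c j / s) • p j = ∑ j ∈ B, (-(c j) / s) • p j := by
        have e2 : ∑ j ∈ A, (c j / s) • p j = s⁻¹ • ∑ j ∈ A, c j • p j := by
          rw [Finset.smul_sum]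
          exact Finset.sum_congr rfl fun j _ => by rw [smul_smul, div_eq_inv_mul]
        have e3 : ∑ j ∈ B, (-(c j) / s) • p j = -(s⁻¹ • ∑ j ∈ B, c j • p j) := by
          rw [Finset.smul_sum, ← Finset.sum_neg_distrib]
          exact Finset.sum_congr rfl fun j _ => by
            rw [smul_smul, ← neg_smul, div_eq_inv_mul]; congr 1; ring
        rw [e2, e3, eq_neg_iff_add_eq_zero, ← smul_add, hd2, smul_zero]
      rw [e1]
      refine (convex_convexHull ℝ _).sum_mem
        (fun j hj => div_nonneg (neg_nonneg.2 (hB j hj)) hs0) ?_ ?_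
      · rw [← Finset.sum_div, Finset.sum_neg_distrib, hBs, neg_neg, div_self hspos.ne']
      · intro j hj
        exact subset_convexHull ℝ _ (by
          simp only [Finset.coe_image]
          exact ⟨j, hj, rfl⟩)

/-- Proof. `hull_iff`; the unordered partitions `{A, B}` of the set correspond to the unordered partitions
`{A, Aᶜ}` of `ι`. (`Rc p i` counts the partitions with a part of size `i`.) -/
theorem rr_eq {p : ι → E d} (hp : GPc p) (hι : d + 1 ≤ Fintype.card ι) (hd : 1 ≤ d) (i : ℕ) :
    rr (Finset.univ.image p) i = Rc p i := by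
  classical
  have hinj := inj_of_gpc hp hι hd
  set Φ : Finset (Finset ι) → Finset (Finset (E d)) := fun π => π.image (fun A => A.image p)
    with hΦ
  have hΦinj : Function.Injective Φ :=
    Finset.image_injective (Finset.image_injective hinj)
  unfold rr Rc
  conv_rhs => rw [← Set.ncard_coe_finset, ← Set.ncard_image_of_injective _ hΦinj]
  congr 1
  ext π
  simp only [Set.mem_ofPred_eq, Finset.coe_filter, Finset.mem_univ, true_and, Set.mem_image]
  have hrad : ∀ A : Finset ι, Radon (A.image p) (Aᶜ.image p) ↔ RadI p A := by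
    intro A
    unfold Radon RadI
    rw [hull_iff hinj (disjoint_compl_right)]
    constructor
    · rintro ⟨-, c, h1, h2, h3, h4, -⟩
      exact ⟨c, h1, h2, fun j => ⟨h3 j, fun hj => h4 j (Finset.mem_compl.2 hj)⟩⟩
    · rintro ⟨c, h1, h2, h3⟩
      refine ⟨?_, c, h1, h2, fun j hj => (h3 j).1 hj,
        fun j hj => (h3 j).2 (Finset.mem_compl.1 hj), ?_⟩
      · rw [Finset.disjoint_image hinj]
        exact disjoint_compl_right
      · intro j hj hj'
        exact absurd (Finset.mem_compl.2 hj) hj'
  constructor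
  · rintro ⟨A, B, rfl, hAB, hR, hcA, hcB⟩
    have hdis := hR.1
    set A' := Finset.univ.filter (fun j => p j ∈ A) with hA'
    have e1 : A'.image p = A := by
      ext x
      simp only [hA', Finset.mem_image, Finset.mem_filter, Finset.mem_univ, true_and]
      constructor
      · rintro ⟨j, hj, rfl⟩; exact hj
      · intro hx
        have : x ∈ Finset.univ.image p := hAB ▸ Finset.mem_union_left B hx
        obtain ⟨j, -, rfl⟩ := Finset.mem_image.1 this
        exact ⟨j, hx, rfl⟩
    have e2 : A'ᶜ.image p = B := by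
      ext x
      simp only [hA', Finset.mem_image, Finset.mem_compl, Finset.mem_filter, Finset.mem_univ,
        true_and]
      constructor
      · rintro ⟨j, hj, rfl⟩
        have : p j ∈ A ∪ B := hAB ▸ Finset.mem_image_of_mem p (Finset.mem_univ j)
        exact (Finset.mem_union.1 this).resolve_left hj
      · intro hx
        have : x ∈ Finset.univ.image p := hAB ▸ Finset.mem_union_right A hx
        obtain ⟨j, -, rfl⟩ := Finset.mem_image.1 this
        exact ⟨j, fun h => Finset.disjoint_left.1 hdis h hx, rfl⟩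
    refine ⟨{A', A'ᶜ}, ⟨A', rfl, ?_, ?_⟩, ?_⟩
    · rw [← hcA, ← e1, Finset.card_image_of_injective _ hinj]
    · rw [← hrad, e1, e2]; exact hR
    · simp only [hΦ, Finset.image_insert, Finset.image_singleton, e1, e2]
  · rintro ⟨π', ⟨A', rfl, hcA, hR⟩, rfl⟩
    refine ⟨A'.image p, A'ᶜ.image p, ?_, ?_, ?_, ?_, ?_⟩
    · simp only [hΦ, Finset.image_insert, Finset.image_singleton]
    · rw [← Finset.image_union, Finset.union_compl]
    · rw [hrad]; exact hR
    · rw [Finset.card_image_of_injective _ hinj, hcA]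
    · rw [Finset.card_image_of_injective _ hinj, Finset.card_image_of_injective _ hinj,
        Finset.card_compl, Finset.card_univ, hcA]

/-- Every finite set of `s` points is the image of an injective `p : Fin s → E d`. -/
theorem exists_param (S : Finset (E d)) : ∃ p : Fin S.card → E d, Function.Injective p ∧
    Finset.univ.image p = S := by
  refine ⟨fun i => (S.equivFin.symm i : E d), ?_, ?_⟩
  · intro a b hab
    exact S.equivFin.symm.injective (Subtype.ext hab)
  · ext x
    simp only [Finset.mem_image, Finset.mem_univ, true_and]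
    constructor
    · rintro ⟨i, rfl⟩; exact (S.equivFin.symm i).2
    · intro hx
      exact ⟨S.equivFin ⟨x, hx⟩, by simp⟩

end Pool.Agent.RVM
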