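import Pool.Agent.MP_c130bd_co.RVM.Gallery
import Pool.Agent.MP_c130bd_co.RVM.Link

set_option autoImplicit false

namespace Pool.Agent.RVM

variable {d : ℕ} {ι : Type*}

/-! ## [RVM-CHAIN] moving the points one by one -/

/-- Neighbouring almost general families (with the same dependent sets `M`, the points of these sets are fixed). -/
def Adj (M : Set (Set ι)) (U : ι → Set (E d)) (q q' : ι → E d) : Prop :=
  AG M q ∧ AG M q' ∧ (∀ k, q k ∈ U k ∧ q' k ∈ U k) ∧ (∀ m ∈ M, ∀ k ∈ m, q k = q' k) ∧
    ((∀ I : Fin (d + 1) → ι, Function.Injective I → Set.range I ∉ M → 0 < D q I * D q' I) ∨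
      ∃ (q₀ : ι → E d) (x : ι) (ζ : Fin d → ι),
        Function.Injective (Fin.cons x ζ : Fin (d + 1) → ι) ∧
        Set.range (Fin.cons x ζ : Fin (d + 1) → ι) ∉ M ∧
        D q₀ (Fin.cons x ζ) = 0 ∧ D q (Fin.cons x ζ) * D q' (Fin.cons x ζ) < 0 ∧
        ∀ I : Fin (d + 1) → ι, Function.Injective I →
          Set.range I ≠ Set.range (Fin.cons x ζ : Fin (d + 1) → ι) → Set.range I ∉ M →
          0 < D q I * D q' I ∧ 0 < D q I * D q₀ I)

theorem Chain_perm {I J : Fin (d + 1) → ι} (hI : Function.Injective I)
    (hJ : Function.Injective J) (h : Set.range I = Set.range J) :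
    ∃ ε : ℝ, ε * ε = 1 ∧ ∀ q : ι → E d, D q I = ε * D q J := by
  let σ : Equiv.Perm (Fin (d + 1)) :=
    (Equiv.ofInjective I hI).trans ((Equiv.setCongr h).trans (Equiv.ofInjective J hJ).symm)
  have hσ : ∀ r, J (σ r) = I r := by
    intro r
    have h1 : (Equiv.ofInjective J hJ) (σ r) =
        (Equiv.setCongr h) ((Equiv.ofInjective I hI) r) := by
      simp [σ]
    have h2 := congrArg Subtype.val h1
    simpa using h2
  refine ⟨((Equiv.Perm.sign σ : ℤ) : ℝ), ?_, ?_⟩
  · rcases Int.units_eq_one_or (Equiv.Perm.sign σ) with h1 | h1 <;> simp [h1]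
  · intro q
    have h1 := Matrix.det_permute σ (Matrix.of fun (r : Fin (d + 1)) (c : Fin (d + 1)) =>
      hv (q (J r)) c)
    unfold D
    rw [← h1]
    congr 1
    ext r c
    simp [Matrix.submatrix, hσ]

theorem Chain_D_update [DecidableEq ι] (h : ι → E d) (y : ι) (a : E d) (ζ : Fin d → ι)
    (hy : ∀ i, ζ i ≠ y) :
    D (Function.update h y a) (Fin.cons y ζ : Fin (d + 1) → ι) =
      D (fun k : Fin (d + 1) => (Fin.cons a (h ∘ ζ) : Fin (d + 1) → E d) k) id := by
  unfold D
  congr 1
  ext r c
  simp only [Matrix.of_apply, id]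
  refine Fin.cases ?_ (fun r => ?_) r
  · simp
  · simp [Function.update_of_ne (hy r)]

theorem Chain_D_of_notMem [DecidableEq ι] (h : ι → E d) (y : ι) (a : E d)
    (I : Fin (d + 1) → ι) (hy : y ∉ Set.range I) : D (Function.update h y a) I = D h I := by
  unfold D
  congr 1
  ext r c
  simp only [Matrix.of_apply]
  rw [Function.update_of_ne]
  rintro h1
  exact hy ⟨r, h1⟩

theorem Chain_cons_inj {y : ι} {ζ : Fin d → ι} (hζ : Function.Injective ζ) (hy : ∀ i, ζ i ≠ y) :
    Function.Injective (Fin.cons y ζ : Fin (d + 1) → ι) := by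
  rw [Fin.cons_injective_iff]
  refine ⟨?_, hζ⟩
  rintro ⟨i, hi⟩
  exact hy i hi

theorem Chain_range_cons (y : ι) (ζ : Fin d → ι) :
    Set.range (Fin.cons y ζ : Fin (d + 1) → ι) = insert y (Set.range ζ) := by
  rw [Fin.range_cons]

/-- **Chains.** `p` and `p'` are joined by a chain of neighbouring families, if all the mixtures `h` of `p` and `p'` are almost
general.

Proof. Move the points one after the other: it is enough to join two mixtures `h`, `h'` which differ at one index `y` only
(`h y = p y`, `h' y = p' y`, and we may assume `p y ≠ p' y`, so `y` is in no `m ∈ M`); the order of the moves is arbitrary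
(induction on the number of the indices with `h k ≠ p' k`). For each set `Z ∌ y` of `d` indices choose an enumeration `ζ` and let `ℓ_Z v` be the
determinant of `v` and the points `h (ζ i)` (`exists_affine`). `gallery` for the `ℓ_Z`, `U y`, `e = p y`, `e' = p' y`:
`ℓ_Z (p y) ≠ 0`, because `h` is almost general and the range of `cons y ζ` contains `y`. If `ℓ_Z' = c ℓ_Z`, `Z ≠ Z'`,
take `z' ∈ Z' ∖ Z`: `ℓ_Z (h z') = 0` or `c = 0`; `c = 0` is impossible (`ℓ_Z' (p y) ≠ 0`), `ℓ_Z'(h z') = 0` gives
`ℓ_Z(h z') = 0`, so `Z ∪ {z'} ∈ M` for every `z' ∈ Z' ∖ Z`; then `Z' ⊆ Z ∪ {z'}  =: m`, and `ℓ_Z` does not vanish on `U y` by `hM`.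
Each step of the gallery gives neighbouring families `h[y := a]`, `h[y := b]` (`q₀ = h[y := m]`); they are almost general: the
independence of the sets of at most `d` indices which contain `y`: extend to `d` indices (`d + 1 ≤ card ι`), then to `d+1` indices with nonzero
determinant: for a set `Z'` of `d` indices with `y ∈ Z'` choose any index `k ∉ Z'`: the set `Z' ∪ {k}` contains `y`, so it is not in `M` and
its determinant is `± ℓ (a) ≠ 0`. -/
theorem chain [Fintype ι] [DecidableEq ι] (hι : d + 1 ≤ Fintype.card ι) (M : Set (Set ι))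
    (p p' : ι → E d) (U : ι → Set (E d))
    (hUo : ∀ k, IsOpen (U k)) (hUc : ∀ k, Convex ℝ (U k)) (hp : ∀ k, p k ∈ U k)
    (hp' : ∀ k, p' k ∈ U k)
    (hh : ∀ h : ι → E d, (∀ k, h k = p k ∨ h k = p' k) → AG M h)
    (hfix : ∀ m ∈ M, ∀ k ∈ m, p k = p' k)
    (hM : ∀ m ∈ M, ∀ ζ : Fin d → ι, Function.Injective ζ → (∀ i, ζ i ∈ m) → ∀ y, p y ≠ p' y → ∀ v ∈ U y,
      D (fun k : Fin (d + 1) => (Fin.cons v (p ∘ ζ) : Fin (d + 1) → E d) k) id ≠ 0) :
    Relation.ReflTransGen (Adj M U) p p' := by
  classical
  -- one index
  have step : ∀ h : ι → E d, (∀ k, h k = p k ∨ h k = p' k) → ∀ y, h y = p y → p y ≠ p' y →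
      Relation.ReflTransGen (Adj M U) h (Function.update h y (p' y)) := by
    intro h hmix y hy hne
    have hyM : ∀ m ∈ M, y ∉ m := fun m hm hym => hne (hfix m hm y hym)
    have hU : ∀ k, h k ∈ U k := by
      intro k
      rcases hmix k with h1 | h1
      · rw [h1]; exact hp k
      · rw [h1]; exact hp' k
    have hAG : AG M h := hh h hmix
    -- the functionals
    let κ := {Z : Finset ι // y ∉ Z ∧ Z.card = d}
    let ζ : κ → Fin d → ι := fun Z r => ((Finset.equivFinOfCardEq Z.2.2).symm r : ι)
    have hζi : ∀ Z : κ, Function.Injective (ζ Z) := fun Z a b hab =>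
      (Finset.equivFinOfCardEq Z.2.2).symm.injective (Subtype.ext hab)
    have hζm : ∀ (Z : κ) (i : Fin d), ζ Z i ∈ Z.1 := fun Z i =>
      ((Finset.equivFinOfCardEq Z.2.2).symm i).2
    have hζr : ∀ (Z : κ), Set.range (ζ Z) = (Z.1 : Set ι) := by
      intro Z
      ext j
      constructor
      · rintro ⟨i, rfl⟩; exact hζm Z i
      · intro hj
        exact ⟨Finset.equivFinOfCardEq Z.2.2 ⟨j, hj⟩, by simp [ζ]⟩
    have hζy : ∀ (Z : κ) (i : Fin d), ζ Z i ≠ y := fun Z i h1 => Z.2.1 (by
      have h2 := hζm Z i
      rwa [h1] at h2)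
    choose ℓ hℓ using fun Z : κ => exists_affine (h ∘ ζ Z)
    have hℓD : ∀ (Z : κ) (a : E d), ℓ Z a =
        D (Function.update h y a) (Fin.cons y (ζ Z) : Fin (d + 1) → ι) := by
      intro Z a
      rw [hℓ, Chain_D_update h y a (ζ Z) (hζy Z)]
    have hci : ∀ Z : κ, Function.Injective (Fin.cons y (ζ Z) : Fin (d + 1) → ι) :=
      fun Z => Chain_cons_inj (hζi Z) (hζy Z)
    have hcM : ∀ I : Fin (d + 1) → ι, y ∈ Set.range I → Set.range I ∉ M :=
      fun I hyI hI => hyM _ hI hyI
    have hyc : ∀ Z : κ, y ∈ Set.range (Fin.cons y (ζ Z) : Fin (d + 1) → ι) := fun Z =>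
      ⟨0, by simp⟩
    have hnz : ∀ (q : ι → E d), AG M q → q = Function.update h y (q y) → ∀ Z, ℓ Z (q y) ≠ 0 := by
      intro q hq hqe Z
      rw [hℓD, ← hqe]
      intro h0
      exact hcM _ (hyc Z) ((hq.det _ (hci Z)).1 h0)
    have he : ∀ Z, ℓ Z (p y) ≠ 0 := by
      have h1 := hnz h hAG (by rw [Function.update_eq_self])
      rwa [hy] at h1
    have hmix' : ∀ k, Function.update h y (p' y) k = p k ∨ Function.update h y (p' y) k = p' k := by
      intro k
      by_cases hk : k = y
      · subst hk; right; simp
      · rw [Function.update_of_ne hk]; exact hmix k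
    have he' : ∀ Z, ℓ Z (p' y) ≠ 0 := by
      have h1 := hnz (Function.update h y (p' y)) (hh _ hmix') (by simp)
      simpa using h1
    have hnp : ∀ k k' : κ, k ≠ k' → (∀ v ∈ U y, ℓ k v ≠ 0) ∨ (∀ v ∈ U y, ℓ k' v ≠ 0) ∨
        ¬ ∃ c : ℝ, ∀ v, ℓ k' v = c * ℓ k v := by
      intro Z Z' hZZ
      by_cases hc : ∃ c : ℝ, ∀ v, ℓ Z' v = c * ℓ Z v
      swap
      · exact Or.inr (Or.inr hc)
      left
      obtain ⟨c, hc⟩ := hc
      have hc0 : c ≠ 0 := by
        rintro rfl
        exact he' Z' (by rw [hc, zero_mul])
      -- an element of `Z'` outside of `Z`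
      obtain ⟨z, hz', hz⟩ : ∃ z ∈ Z'.1, z ∉ Z.1 := by
        by_contra hcon
        push Not at hcon
        apply hZZ
        apply Subtype.ext
        exact (Finset.eq_of_subset_of_card_le hcon (by rw [Z.2.2, Z'.2.2])).symm
      have h1 : ℓ Z' (h z) = 0 := by
        obtain ⟨i, hi⟩ : z ∈ Set.range (ζ Z') := by rw [hζr]; exact hz'
        rw [hℓ]
        unfold D
        refine Matrix.det_zero_of_row_eq (i := 0) (j := i.succ) (Fin.succ_ne_zero i).symm ?_
        funext c
        simp [hi]
      have h2 : ℓ Z (h z) = 0 := by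
        have := hc (h z)
        rw [h1] at this
        exact (mul_eq_zero.1 this.symm).resolve_left hc0
      have hzζ : ∀ i, ζ Z i ≠ z := fun i hi => hz (hi ▸ hζm Z i)
      have h3 : D h (Fin.cons z (ζ Z) : Fin (d + 1) → ι) = 0 := by
        rw [← h2, hℓ]
        have h4 := Chain_D_update h z (h z) (ζ Z) hzζ
        rw [Function.update_eq_self] at h4
        exact h4
      have h5 := (hAG.det _ (Chain_cons_inj (hζi Z) hzζ)).1 h3
      intro v hv
      have h6 := hM _ h5 (ζ Z) (hζi Z) (fun i => ⟨i.succ, by simp⟩) y hne v hv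
      rw [hℓ]
      have h7 : h ∘ ζ Z = p ∘ ζ Z := by
        funext i
        have h8 := hfix _ h5 (ζ Z i) ⟨i.succ, by simp⟩
        rcases hmix (ζ Z i) with h9 | h9
        · exact h9
        · simp only [Function.comp_apply]; rw [h9, h8]
      rw [h7]
      exact h6
    have hgal := gallery ℓ (hUo y) (hUc y) (hp y) (hp' y) he he' hnp
    -- every index set with `y`
    have hrep : ∀ I : Fin (d + 1) → ι, Function.Injective I → y ∈ Set.range I → ∃ (Z : κ) (ε : ℝ),
        ε * ε = 1 ∧ (∀ a, D (Function.update h y a) I = ε * ℓ Z a) ∧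
          Set.range I = insert y (Z.1 : Set ι) := by
      intro I hI hyI
      have hZ : ((Finset.univ.image I).erase y).card = d := by
        rw [Finset.card_erase_of_mem, Finset.card_image_of_injective _ hI, Finset.card_fin]
        · rfl
        · obtain ⟨r, hr⟩ := hyI
          exact Finset.mem_image.2 ⟨r, Finset.mem_univ _, hr⟩
      let Z : κ := ⟨(Finset.univ.image I).erase y, Finset.notMem_erase _ _, hZ⟩
      have hr : Set.range I = insert y (Z.1 : Set ι) := by
        ext j
        simp only [Z, Finset.coe_erase, Finset.coe_image, Finset.coe_univ, Set.image_univ,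
          Set.mem_insert_iff, Set.mem_sdiff, Set.mem_singleton_iff]
        constructor
        · intro hj
          by_cases hjy : j = y
          · exact Or.inl hjy
          · exact Or.inr ⟨hj, hjy⟩
        · rintro (rfl | h1)
          · exact hyI
          · exact h1.1
      have hr2 : Set.range I = Set.range (Fin.cons y (ζ Z) : Fin (d + 1) → ι) := by
        rw [Chain_range_cons, hζr, hr]
      obtain ⟨ε, hε, hD⟩ := Chain_perm (d := d) hI (hci Z) hr2
      exact ⟨Z, ε, hε, fun a => by rw [hD, hℓD], hr⟩
    -- almost general position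
    have hAGu : ∀ a, (∀ Z, ℓ Z a ≠ 0) → AG M (Function.update h y a) := by
      intro a ha
      have hdet : ∀ I : Fin (d + 1) → ι, Function.Injective I → y ∈ Set.range I →
          D (Function.update h y a) I ≠ 0 := by
        intro I hI hyI
        obtain ⟨Z, ε, hε, hD, -⟩ := hrep I hI hyI
        rw [hD]
        refine mul_ne_zero ?_ (ha Z)
        rintro rfl
        simp at hε
      constructor
      · intro Z hZ
        by_cases hyZ : y ∈ Z
        · obtain ⟨I, hI, hIJ⟩ := Link_enum (d := d) hι Z (by omega)
          have h1 := hdet I hI (hIJ y hyZ)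
          rw [Link_D_iff, Link_affine_iff] at h1
          choose f hf using fun z : Z => hIJ z z.2
          have hfi : Function.Injective f := by
            intro a b hab
            apply Subtype.ext
            rw [← hf a, ← hf b, hab]
          have h2 := h1.comp f hfi
          have h3 : ((fun k => hv ((Function.update h y a ∘ I) k)) ∘ f) =
              fun z : Z => hv (Function.update h y a z) := by
            funext z
            simp only [Function.comp_apply, hf]
          rwa [h3] at h2
        · have h1 := hAG.ind Z hZ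
          have h3 : (fun z : Z => hv (Function.update h y a z)) = fun z : Z => hv (h z) := by
            funext z
            rw [Function.update_of_ne]
            rintro h4
            exact hyZ (h4 ▸ z.2)
          rwa [h3]
      · intro I hI
        by_cases hyI : y ∈ Set.range I
        · constructor
          · intro h0; exact absurd h0 (hdet I hI hyI)
          · intro h0; exact absurd h0 (hcM I hyI)
        · rw [Chain_D_of_notMem h y a I hyI]
          exact hAG.det I hI
    -- the steps
    have hstep : ∀ a b, GStep ℓ (U y) a b →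
        Adj M U (Function.update h y a) (Function.update h y b) := by
      rintro a b ⟨haU, hbU, ha, hb, hcase⟩
      have hUu : ∀ a ∈ U y, ∀ k, Function.update h y a k ∈ U k := by
        intro a haU k
        by_cases hk : k = y
        · subst hk; simpa using haU
        · rw [Function.update_of_ne hk]; exact hU k
      have hsq : ∀ I : Fin (d + 1) → ι, Function.Injective I → Set.range I ∉ M →
          y ∉ Set.range I → 0 < D h I * D h I := by
        intro I hI hIM _
        have h1 : D h I ≠ 0 := fun h0 => hIM ((hAG.det I hI).1 h0)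
        exact mul_self_pos.2 h1
      refine ⟨hAGu a ha, hAGu b hb, fun k => ⟨hUu a haU k, hUu b hbU k⟩, ?_, ?_⟩
      · intro m hm k hk
        have hky : k ≠ y := fun h1 => hyM m hm (h1 ▸ hk)
        rw [Function.update_of_ne hky, Function.update_of_ne hky]
      · rcases hcase with hpos | ⟨Z₀, m, hmU, hm0, hneg, hpos⟩
        · left
          intro I hI hIM
          by_cases hyI : y ∈ Set.range I
          · obtain ⟨Z, ε, hε, hD, -⟩ := hrep I hI hyI
            rw [hD, hD]
            have : ε * ℓ Z a * (ε * ℓ Z b) = (ε * ε) * (ℓ Z a * ℓ Z b) := by ring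
            rw [this, hε, one_mul]
            exact hpos Z
          · rw [Chain_D_of_notMem h y a I hyI, Chain_D_of_notMem h y b I hyI]
            exact hsq I hI hIM hyI
        · right
          refine ⟨Function.update h y m, y, ζ Z₀, hci Z₀, hcM _ (hyc Z₀), ?_, ?_, ?_⟩
          · rw [← hℓD]; exact hm0
          · rw [← hℓD, ← hℓD]; exact hneg
          · intro I hI hIr hIM
            by_cases hyI : y ∈ Set.range I
            · obtain ⟨Z, ε, hε, hD, hr⟩ := hrep I hI hyI
              have hZne : Z ≠ Z₀ := by
                rintro rfl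
                apply hIr
                rw [Chain_range_cons, hζr, hr]
              rw [hD, hD, hD]
              have e1 : ε * ℓ Z a * (ε * ℓ Z b) = (ε * ε) * (ℓ Z a * ℓ Z b) := by ring
              have e2 : ε * ℓ Z a * (ε * ℓ Z m) = (ε * ε) * (ℓ Z a * ℓ Z m) := by ring
              rw [e1, e2, hε, one_mul, one_mul]
              exact hpos Z hZne
            · rw [Chain_D_of_notMem h y a I hyI, Chain_D_of_notMem h y b I hyI,
                Chain_D_of_notMem h y m I hyI]
              exact ⟨hsq I hI hIM hyI, hsq I hI hIM hyI⟩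
    have hlift := Relation.ReflTransGen.lift (fun a => Function.update h y a) hstep _ _ hgal
    have hfin : Function.update h y (p y) = h := by rw [← hy, Function.update_eq_self]
    simp only [Function.onFun] at hlift
    rwa [hfin] at hlift
  -- induction
  have main : ∀ n : ℕ, ∀ h : ι → E d, (∀ k, h k = p k ∨ h k = p' k) →
      (Finset.univ.filter fun k => h k ≠ p' k).card = n → Relation.ReflTransGen (Adj M U) h p' := by
    intro n
    induction n using Nat.strong_induction_on with
    | _ n ih =>
      intro h hmix hn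
      by_cases hall : ∀ k, h k = p' k
      · have : h = p' := funext hall
        rw [this]
      · push Not at hall
        obtain ⟨y, hy⟩ := hall
        have hyp : h y = p y := (hmix y).resolve_right hy
        have h1 := step h hmix y hyp (by rw [← hyp]; exact hy)
        refine h1.trans (ih _ ?_ _ ?_ rfl)
        · rw [← hn]
          apply Finset.card_lt_card
          rw [Finset.ssubset_iff_of_subset]
          · refine ⟨y, by simpa using hy, by simp⟩
          · intro k hk
            simp only [Finset.mem_filter, Finset.mem_univ, true_and] at hk ⊢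
            by_cases hky : k = y
            · subst hky; exact hy
            · rwa [Function.update_of_ne hky] at hk
        · intro k
          by_cases hk : k = y
          · subst hk; right; simp
          · rw [Function.update_of_ne hk]; exact hmix k
  exact main _ p (fun k => Or.inl rfl) rfl

end Pool.Agent.RVM
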