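import Pool.Agent.MP_c130bd_co.RVM.LinkP

set_option autoImplicit false

namespace Pool.Agent.RVM

variable {d : ℕ}

/-! ## [RVM-CNT] adding points, subsets -/

theorem cnt_ty_map {κ μ : Type*} [Fintype κ] [DecidableEq κ] [Fintype μ] [DecidableEq μ]
    (F : κ → E d) (g : μ → E d) (i : ℕ) (X : Finset κ) :
    Ty (Sum.elim F g) (X.map Function.Embedding.inl) i ↔ Ty F X i := by
  constructor
  · rintro ⟨c, hc, hs, hi⟩
    have hz : ∀ m : μ, c (Sum.inr m) = 0 := by
      intro m
      by_contra h
      have := (hs (Sum.inr m)).1 h
      simp at this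
    refine ⟨fun k => c (Sum.inl k), ?_, ?_, ?_⟩
    · unfold Dep at hc ⊢
      rw [Fintype.sum_sum_type] at hc
      simpa [hz] using hc
    · intro j
      rw [hs (Sum.inl j)]
      simp
    · rw [← hi]
      have : (Finset.univ.filter fun j : κ ⊕ μ => 0 < c j) =
          (Finset.univ.filter fun k : κ => 0 < c (Sum.inl k)).map Function.Embedding.inl := by
        ext j
        rcases j with k | m
        · simp
        · simp [hz m]
      rw [this, Finset.card_map]
  · rintro ⟨c, hc, hs, hi⟩
    refine ⟨Sum.elim c 0, ?_, ?_, ?_⟩
    · unfold Dep at hc ⊢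
      rw [Fintype.sum_sum_type]
      simpa using hc
    · intro j
      rcases j with k | m
      · simpa using hs k
      · simp
    · rw [← hi]
      have : (Finset.univ.filter fun j : κ ⊕ μ => 0 < (Sum.elim c 0 : κ ⊕ μ → ℝ) j) =
          (Finset.univ.filter fun k : κ => 0 < c k).map Function.Embedding.inl := by
        ext j
        rcases j with k | m
        · simp
        · simp
      rw [this, Finset.card_map]

theorem cnt_card_mem {α : Type*} [Fintype α] [DecidableEq α] (a : α) (n : ℕ) :
    ((Finset.univ.powersetCard (n + 1)).filter fun X : Finset α => a ∈ X).card ≤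
      (Fintype.card α - 1).choose n := by
  have h1 : ((Finset.univ.erase a : Finset α).powersetCard n).card = (Fintype.card α - 1).choose n := by
    rw [Finset.card_powersetCard, Finset.card_erase_of_mem (Finset.mem_univ a), Finset.card_univ]
  rw [← h1]
  refine Finset.card_le_card_of_injOn (fun X => X.erase a) ?_ ?_
  · intro X hX
    simp only [Finset.coe_filter, Finset.mem_powersetCard, Set.mem_ofPred_eq, Finset.subset_univ,
      true_and] at hX
    simp only [Finset.mem_coe, Finset.mem_powersetCard]
    refine ⟨Finset.erase_subset_erase a (Finset.subset_univ X), ?_⟩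
    rw [Finset.card_erase_of_mem hX.2, hX.1]
    rfl
  · intro X hX Y hY hXY
    simp only [Finset.coe_filter, Finset.mem_powersetCard, Set.mem_ofPred_eq, Finset.subset_univ,
      true_and] at hX hY
    have h2 : insert a (X.erase a) = insert a (Y.erase a) := by
      simpa using congrArg (fun Z => insert a Z) hXY
    rwa [Finset.insert_erase hX.2, Finset.insert_erase hY.2] at h2

/-- Adding points. Proof. A `(d+2)`-subset of `κ ⊕ μ` which is not contained in `κ` contains an element of `μ`: at most
`card μ * choose (card κ + card μ - 1) (d + 1)` of them. The types of the subsets of `κ` are the same for both families (extend the dependence by `0`,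
resp. restrict it). -/
theorem pc_sum_le {κ μ : Type*} [Fintype κ] [DecidableEq κ] [Fintype μ] [DecidableEq μ]
    (F : κ → E d) (g : μ → E d) (i : ℕ) :
    Pc F i ≤ Pc (Sum.elim F g) i ∧ Pc (Sum.elim F g) i ≤ Pc F i +
      Fintype.card μ * (Fintype.card κ + Fintype.card μ - 1).choose (d + 1) := by
  classical
  constructor
  · unfold Pc
    refine Finset.card_le_card_of_injOn (fun X => X.map Function.Embedding.inl) ?_ ?_
    · intro X hX
      simp only [Finset.coe_filter, Finset.mem_powersetCard, Set.mem_ofPred_eq, Finset.subset_univ,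
        true_and] at hX ⊢
      refine ⟨by rw [Finset.card_map]; exact hX.1, (cnt_ty_map F g i X).2 hX.2⟩
    · intro X _ Y _ hXY
      exact Finset.map_injective _ hXY
  · have hsub : ((Finset.univ.powersetCard (d + 2)).filter fun X : Finset (κ ⊕ μ) =>
        Ty (Sum.elim F g) X i) ⊆
        (((Finset.univ.powersetCard (d + 2)).filter fun X : Finset κ => Ty F X i).image
          (fun X => X.map Function.Embedding.inl)) ∪
        (Finset.univ : Finset μ).biUnion (fun m =>
          (Finset.univ.powersetCard (d + 1 + 1)).filter fun X : Finset (κ ⊕ μ) => Sum.inr m ∈ X) := by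
      intro X hX
      simp only [Finset.mem_filter, Finset.mem_powersetCard, Finset.subset_univ, true_and] at hX
      by_cases hm : ∃ m : μ, Sum.inr m ∈ X
      · obtain ⟨m, hm⟩ := hm
        refine Finset.mem_union_right _ ?_
        simp only [Finset.mem_biUnion, Finset.mem_univ, true_and, Finset.mem_filter,
          Finset.mem_powersetCard, Finset.subset_univ]
        exact ⟨m, hX.1, hm⟩
      · refine Finset.mem_union_left _ ?_
        have hXe : (Finset.univ.filter fun k : κ => Sum.inl k ∈ X).map Function.Embedding.inl = X := by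
          ext j
          rcases j with k | m
          · simp
          · have := fun h => hm ⟨m, h⟩
            simp only [Finset.mem_map, Function.Embedding.inl_apply, reduceCtorEq, and_false,
              exists_false, false_iff]
            exact this
        refine Finset.mem_image.2 ⟨Finset.univ.filter fun k : κ => Sum.inl k ∈ X, ?_, hXe⟩
        simp only [Finset.mem_filter, Finset.mem_powersetCard, Finset.subset_univ, true_and]
        refine ⟨?_, ?_⟩
        · rw [← hX.1, ← congrArg Finset.card hXe, Finset.card_map]
        · rw [← cnt_ty_map F g i, hXe]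
          exact hX.2
    unfold Pc
    refine (Finset.card_le_card hsub).trans ((Finset.card_union_le _ _).trans ?_)
    refine Nat.add_le_add Finset.card_image_le ?_
    refine Finset.card_biUnion_le.trans ?_
    calc ∑ m : μ, ((Finset.univ.powersetCard (d + 1 + 1)).filter
          fun X : Finset (κ ⊕ μ) => Sum.inr m ∈ X).card
        ≤ ∑ _m : μ, (Fintype.card (κ ⊕ μ) - 1).choose (d + 1) :=
          Finset.sum_le_sum fun m _ => cnt_card_mem (Sum.inr m) (d + 1)
      _ = _ := by
          rw [Finset.sum_const, Finset.card_univ, Fintype.card_sum, smul_eq_mul]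

/-- Subsets of sets in general position. Proof. `pp_eq` for an enumeration of `S` adapted to `T` (`Fin T.card ⊕ Fin (S.card - T.card)`),
`pc_sum_le`. -/
theorem pp_subset {S T : Finset (E d)} (hd : 1 ≤ d) (hS : GP S) (hTS : T ⊆ S) (hT : d + 1 ≤ T.card) (i : ℕ) :
    GP T ∧ PP T i ≤ PP S i ∧ PP S i ≤ PP T i + (S.card - T.card) * (S.card - 1).choose (d + 1) := by
  classical
  have hGT : GP T := fun U hU hc => hS U (hU.trans hTS) hc
  refine ⟨hGT, ?_⟩
  let F : {x // x ∈ T} → E d := fun x => x
  let g : {x // x ∈ S \ T} → E d := fun x => x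
  have hF : Finset.univ.image F = T := by
    ext x
    simp [F]
  have hFi : Function.Injective F := Subtype.val_injective
  have hpi : Function.Injective (Sum.elim F g) := by
    refine Function.Injective.sumElim hFi Subtype.val_injective ?_
    intro x y h
    have hy := y.2
    rw [Finset.mem_sdiff] at hy
    apply hy.2
    have : (y : E d) = x := h.symm
    rw [this]
    exact x.2
  have hp : Finset.univ.image (Sum.elim F g) = S := by
    ext x
    simp only [Finset.mem_image, Finset.mem_univ, true_and, Sum.exists, Sum.elim_inl, Sum.elim_inr,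
      F, g]
    constructor
    · rintro (⟨y, rfl⟩ | ⟨y, rfl⟩)
      · exact hTS y.2
      · exact (Finset.mem_sdiff.1 y.2).1
    · intro hx
      by_cases hxT : x ∈ T
      · exact Or.inl ⟨⟨x, hxT⟩, rfl⟩
      · exact Or.inr ⟨⟨x, Finset.mem_sdiff.2 ⟨hx, hxT⟩⟩, rfl⟩
  have hcT : Fintype.card {x // x ∈ T} = T.card := Fintype.card_coe T
  have hcS : Fintype.card {x // x ∈ S \ T} = S.card - T.card := by
    rw [Fintype.card_coe, Finset.card_sdiff_of_subset hTS]
  have hle : T.card ≤ S.card := Finset.card_le_card hTS
  have hGF : GPc F := (gp_iff hFi (by rw [hcT]; exact hT)).1 (by rw [hF]; exact hGT)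
  have hGp : GPc (Sum.elim F g) := by
    refine (gp_iff hpi ?_).1 (by rw [hp]; exact hS)
    rw [Fintype.card_sum, hcT]
    omega
  have e1 : PP T i = Pc F i := by
    have := pp_eq hGF (by rw [hcT]; exact hT) hd i
    rwa [hF] at this
  have e2 : PP S i = Pc (Sum.elim F g) i := by
    have := pp_eq hGp (by rw [Fintype.card_sum, hcT]; omega) hd i
    rwa [hp] at this
  have h := pc_sum_le F g i
  rw [e1, e2]
  refine ⟨h.1, h.2.trans (le_of_eq ?_)⟩
  rw [hcT, hcS, Nat.add_sub_cancel' hle]

end Pool.Agent.RVM
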