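import Pool.Agent.MP_c130bd_co.RVM.Extend

set_option autoImplicit false

namespace Pool.Agent.RVM

variable {d : ℕ} {ι : Type*}

/-! ## [RVM-MID] -/

private theorem Mid_affine_zero (ψ : E d →ᵃ[ℝ] ℝ) {W : Set (E d)} (hW : IsOpen W) {w : E d}
    (hw : w ∈ W) (h : ∀ v ∈ W, ψ v = 0) (v : E d) : ψ v = 0 := by
  have hc : Continuous fun t : ℝ => AffineMap.lineMap w v t := by
    exact AffineMap.lineMap_continuous
  have h0 : (fun t : ℝ => (AffineMap.lineMap w v t : E d)) ⁻¹' W ∈ nhds (0 : ℝ) :=
    (hW.preimage hc).mem_nhds (by simpa using hw)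
  have h1 : ∀ᶠ t in nhdsWithin (0:ℝ) (Set.Ioi 0), (AffineMap.lineMap w v t : E d) ∈ W :=
    nhdsWithin_le_nhds h0
  obtain ⟨t, ht, ht0⟩ := (h1.and self_mem_nhdsWithin).exists
  have h2 := h _ ht
  rw [AffineMap.apply_lineMap, h w hw, AffineMap.lineMap_apply] at h2
  simp only [vsub_eq_sub, sub_zero, smul_eq_mul, vadd_eq_add, add_zero] at h2
  rcases mul_eq_zero.mp h2 with h3 | h3
  · exact absurd h3 (ne_of_gt ht0)
  · exact h3

/-- `hv` as an affine map -/
private noncomputable def Mid_hvA (d : ℕ) : E d →ᵃ[ℝ] (Fin (d + 1) → ℝ) where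
  toFun := hv
  linear :=
    { toFun := fun v => Fin.cons 0 v
      map_add' := by
        intro x y
        funext j
        refine Fin.cases ?_ (fun i => ?_) j
        · simp
        · simp
      map_smul' := by
        intro c x
        funext j
        refine Fin.cases ?_ (fun i => ?_) j
        · simp
        · simp }
  map_vadd' := by
    intro x v
    funext j
    refine Fin.cases ?_ (fun i => ?_) j
    · simp [hv]
    · simp [hv]

/-- the determinant is an affine function of every point -/
private theorem Mid_affine {κ : Type*} [DecidableEq κ] (q : κ → E d) (a : κ)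
    (I : Fin (d + 1) → κ) (hI : Function.Injective I) :
    ∃ ℓ : E d →ᵃ[ℝ] ℝ, ∀ v, ℓ v = D (Function.update q a v) I := by
  classical
  by_cases hr : ∃ r, I r = a
  · obtain ⟨r₀, hr₀⟩ := hr
    let L : (Fin (d + 1) → ℝ) →ₗ[ℝ] ℝ :=
      (Matrix.detRowAlternating (R := ℝ) (n := Fin (d + 1))).toMultilinearMap.toLinearMap
        (fun r => hv (q (I r))) r₀
    refine ⟨L.toAffineMap.comp (Mid_hvA d), fun v => ?_⟩
    show Matrix.det (Function.update (fun r => hv (q (I r))) r₀ (hv v)) = _
    unfold D
    congr 1
    funext r c
    by_cases h : r = r₀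
    · subst h
      simp [hr₀]
    · have h1 : I r ≠ a := fun h2 => h (hI (h2.trans hr₀.symm))
      simp [Function.update_of_ne h, Function.update_of_ne h1]
  · push Not at hr
    refine ⟨AffineMap.const ℝ (E d) (D q I), fun v => ?_⟩
    have : D (Function.update q a v) I = D q I := by
      unfold D
      congr 1
      funext r c
      simp [Function.update_of_ne (hr r)]
    rw [this]
    rfl

/-- one more point -/
private theorem Mid_step [Fintype ι] [DecidableEq ι] (hι : d + 1 ≤ Fintype.card ι) (p : ι → E d)
    (F : Finset ι) (a : ι) (ha : a ∉ F) (f : ι → E d)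
    (hf : ∀ I : Fin (d + 1) → ι ⊕ ι, Function.Injective I → (∀ r k, I r = Sum.inr k → k ∈ F) →
      D (Sum.elim p f) I ≠ 0)
    (I : Fin (d + 1) → ι ⊕ ι) (hI : Function.Injective I)
    (hIF : ∀ r k, I r = Sum.inr k → k ∈ insert a F) :
    ∃ v, D (Sum.elim p (Function.update f a v)) I ≠ 0 := by
  classical
  by_cases hr : ∃ r, I r = Sum.inr a
  · obtain ⟨r₀, hr₀⟩ := hr
    obtain ⟨j, hj⟩ : ∃ j : ι, ∀ r, I r ≠ Sum.inl j := by
      by_contra hcon
      push Not at hcon
      have h1 : (Finset.univ.image (Sum.inl : ι → ι ⊕ ι)) ⊆
          (Finset.univ.image I).erase (Sum.inr a) := by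
        intro x hx
        simp only [Finset.mem_image, Finset.mem_univ, true_and] at hx
        obtain ⟨j, rfl⟩ := hx
        simp only [Finset.mem_erase, ne_eq, reduceCtorEq, not_false_eq_true, Finset.mem_image,
          Finset.mem_univ, true_and]
        exact hcon j
      have h2 := Finset.card_le_card h1
      rw [Finset.card_image_of_injective _ Sum.inl_injective, Finset.card_erase_of_mem,
        Finset.card_image_of_injective _ hI] at h2
      · simp only [Finset.card_univ, Fintype.card_fin] at h2
        omega
      · simp only [Finset.mem_image, Finset.mem_univ, true_and]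
        exact ⟨r₀, hr₀⟩
    refine ⟨p j, ?_⟩
    have h3 : D (Sum.elim p (Function.update f a (p j))) I =
        D (Sum.elim p f) (Function.update I r₀ (Sum.inl j)) := by
      unfold D
      congr 1
      funext r c
      by_cases h : r = r₀
      · rw [h, Matrix.of_apply, Matrix.of_apply, hr₀, Function.update_self]
        show hv (Function.update f a (p j) a) c = hv (p j) c
        rw [Function.update_self]
      · simp only [Matrix.of_apply, Function.update_of_ne h]
        have h1 : I r ≠ Sum.inr a := fun h2 => h (hI (h2.trans hr₀.symm))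
        rcases hIr : I r with x | x
        · rfl
        · have h4 : x ≠ a := fun h5 => h1 (by rw [hIr, h5])
          simp [Function.update_of_ne h4]
    rw [h3]
    refine hf _ ?_ ?_
    · intro x y hxy
      by_cases hx : x = r₀ <;> by_cases hy : y = r₀
      · rw [hx, hy]
      · subst hx
        rw [Function.update_self, Function.update_of_ne hy] at hxy
        exact absurd hxy.symm (hj y)
      · subst hy
        rw [Function.update_self, Function.update_of_ne hx] at hxy
        exact absurd hxy (hj x)
      · rw [Function.update_of_ne hx, Function.update_of_ne hy] at hxy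
        exact hI hxy
    · intro r k hrk
      by_cases hx : r = r₀
      · subst hx
        rw [Function.update_self] at hrk
        exact absurd hrk (by simp)
      · rw [Function.update_of_ne hx] at hrk
        have h5 := hIF r k hrk
        rcases Finset.mem_insert.mp h5 with h6 | h6
        · subst h6
          exact absurd (hI (hrk.trans hr₀.symm)) hx
        · exact h6
  · push Not at hr
    refine ⟨f a, ?_⟩
    rw [Function.update_eq_self]
    refine hf I hI fun r k hrk => ?_
    rcases Finset.mem_insert.mp (hIF r k hrk) with h6 | h6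
    · subst h6
      exact absurd hrk (hr r)
    · exact h6

private theorem Mid_update (p f : ι → E d) [DecidableEq ι] (a : ι) (v : E d) :
    Sum.elim p (Function.update f a v) = Function.update (Sum.elim p f) (Sum.inr a) v := by
  funext x
  rcases x with x | x
  · simp
  · by_cases h : x = a
    · subst h; simp
    · simp [Function.update_of_ne h]

/-- A generic intermediate family.

Proof. Choose the points `p'' k` one after the other: it is enough to show the following. Let `q`, `q'` be families with `AG ∅`
(indexed by the same type `κ = ι ⊕ F`, where `F` is the set of the indices already treated) and `W` an open ball; then there is `e ∈ W` such that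
both families remain `AG ∅` with `e` as additional point: the argument of `extend` for the finitely many functionals of
both families (none of them vanishes identically on the ball). `W` = a small ball around `p' k` in `U k`; by `near` (for `p'`)
the orientations of `p''` are those of `p'` if all the balls are small. -/
theorem mid [Fintype ι] [DecidableEq ι] (hι : d + 1 ≤ Fintype.card ι) (hd : 1 ≤ d) (p p' : ι → E d)
    (hp : AG ∅ p) (hp' : AG ∅ p')
    (U : ι → Set (E d)) (hUo : ∀ k, IsOpen (U k)) (hU : ∀ k, p' k ∈ U k) :
    ∃ p'' : ι → E d, (∀ k, p'' k ∈ U k) ∧ AG ∅ (Sum.elim p p'') ∧ AG ∅ (Sum.elim p' p'') ∧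
      ∀ I : Fin (d + 1) → ι, Function.Injective I → 0 < D p' I * D p'' I := by
  classical
  obtain ⟨ε, hε, hnear⟩ := near p'
  have hball : ∀ k, ∃ δ > 0, Metric.ball (p' k) δ ⊆ U k ∧ δ ≤ ε := by
    intro k
    obtain ⟨δ, hδ, hδU⟩ := Metric.isOpen_iff.mp (hUo k) (p' k) (hU k)
    exact ⟨min δ ε, lt_min hδ hε, (Metric.ball_subset_ball (min_le_left _ _)).trans hδU,
      min_le_right _ _⟩
  choose δ hδ hδU hδε using hball
  have key : ∀ F : Finset ι, ∃ f : ι → E d, (∀ k, f k ∈ Metric.ball (p' k) (δ k)) ∧
      (∀ I : Fin (d + 1) → ι ⊕ ι, Function.Injective I → (∀ r k, I r = Sum.inr k → k ∈ F) →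
        D (Sum.elim p f) I ≠ 0) ∧
      (∀ I : Fin (d + 1) → ι ⊕ ι, Function.Injective I → (∀ r k, I r = Sum.inr k → k ∈ F) →
        D (Sum.elim p' f) I ≠ 0) := by
    intro F
    induction F using Finset.induction_on with
    | empty =>
      have h0 : ∀ q : ι → E d, GPc q → ∀ I : Fin (d + 1) → ι ⊕ ι, Function.Injective I →
          (∀ r k, I r = Sum.inr k → k ∈ (∅ : Finset ι)) → D (Sum.elim q p') I ≠ 0 := by
        intro q hq I hI hI0
        have h1 : ∀ r, ∃ j, I r = Sum.inl j := by
          intro r
          rcases hr : I r with x | x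
          · exact ⟨x, rfl⟩
          · exact absurd (hI0 r x hr) (by simp)
        choose J hJ using h1
        have h2 : D (Sum.elim q p') I = D q J := by
          unfold D
          congr 1
          funext r c
          simp [hJ]
        rw [h2]
        refine hq J fun x y hxy => hI ?_
        rw [hJ x, hJ y, hxy]
      exact ⟨p', fun k => Metric.mem_ball_self (hδ k), h0 p (gpc_of_ag hp), h0 p' (gpc_of_ag hp')⟩
    | insert a F ha ih =>
      obtain ⟨f, hfb, hf, hf'⟩ := ih
      let K := {I : Fin (d + 1) → ι ⊕ ι // Function.Injective I ∧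
        ∀ r k, I r = Sum.inr k → k ∈ insert a F}
      choose L hL using fun I : K => Mid_affine (Sum.elim p f) (Sum.inr a) I.1 I.2.1
      choose L' hL' using fun I : K => Mid_affine (Sum.elim p' f) (Sum.inr a) I.1 I.2.1
      obtain ⟨v, hvW, hv⟩ := avoid (κ := K ⊕ K) (convex_ball (p' a) (δ a))
        ⟨p' a, Metric.mem_ball_self (hδ a)⟩ (Sum.elim L L') (by
          intro x
          by_contra hcon
          push Not at hcon
          have hall := Mid_affine_zero _ Metric.isOpen_ball (Metric.mem_ball_self (hδ a)) hcon
          rcases x with I | I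
          · obtain ⟨v, hv⟩ := Mid_step hι p F a ha f hf I.1 I.2.1 I.2.2
            rw [Mid_update, ← hL I] at hv
            exact hv (hall v)
          · obtain ⟨v, hv⟩ := Mid_step hι p' F a ha f hf' I.1 I.2.1 I.2.2
            rw [Mid_update, ← hL' I] at hv
            exact hv (hall v))
      refine ⟨Function.update f a v, ?_, ?_, ?_⟩
      · intro k
        by_cases hk : k = a
        · subst hk; rw [Function.update_self]; exact hvW
        · rw [Function.update_of_ne hk]; exact hfb k
      · intro I hI hIF
        rw [Mid_update, ← hL ⟨I, hI, hIF⟩]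
        exact hv (Sum.inl ⟨I, hI, hIF⟩)
      · intro I hI hIF
        rw [Mid_update, ← hL' ⟨I, hI, hIF⟩]
        exact hv (Sum.inr ⟨I, hI, hIF⟩)
  obtain ⟨f, hfb, hf, hf'⟩ := key Finset.univ
  have hcard : d + 1 ≤ Fintype.card (ι ⊕ ι) := by
    rw [Fintype.card_sum]; omega
  refine ⟨f, fun k => hδU k (hfb k), ag_of_gpc (fun I hI => hf I hI (by simp)) hcard,
    ag_of_gpc (fun I hI => hf' I hI (by simp)) hcard, ?_⟩
  intro I hI
  refine hnear f (fun k => ?_) I (gpc_of_ag hp' I hI)
  have := hfb k
  rw [Metric.mem_ball, dist_eq_norm] at this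
  exact this.le.trans (hδε k)

end Pool.Agent.RVM
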