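import Pool.Agent.MP_c130bd_co.RVM.LinkP
import Pool.Agent.MP_c130bd_co.RVM.FlipR
import Pool.Agent.MP_c130bd_co.RVM.Chain
import Pool.Agent.MP_c130bd_co.RVM.Mid

set_option autoImplicit false

namespace Pool.Agent.RVM

/-! ## [RVM-CONN] connectivity by mutations -/

/-- Proof. `Adj ∅ U q q'`: both families are in general position. In the first case of `Adj` the numbers are equal (`pc_congr`,
`rc_congr`), in the second case `Mut q' q q₀ x ζ` (or `Mut q q' q₀ x ζ`) and `flip_exists`; `pp_eq`, `rr_eq`, `gp_iff` for the images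
(`inj_of_gpc`; `card` of the image is `s`). -/
theorem step_of_adj {d s : ℕ} (hd : 1 ≤ d) (hs : d + 2 ≤ s) (U : Fin s → Set (E d)) {q q' : Fin s → E d}
    (h : Adj ∅ U q q') : Step d s (Finset.univ.image q) (Finset.univ.image q') := by
  obtain ⟨hq, hq', _, _, hcase⟩ := h
  have gq : GPc q := gpc_of_ag hq
  have gq' : GPc q' := gpc_of_ag hq'
  have hι : d + 1 ≤ Fintype.card (Fin s) := by rw [Fintype.card_fin]; omega
  have iq := inj_of_gpc gq hι hd
  have iq' := inj_of_gpc gq' hι hd
  refine ⟨(gp_iff iq hι).2 gq, (gp_iff iq' hι).2 gq', ?_, ?_, ?_⟩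
  · rw [Finset.card_image_of_injective _ iq, Finset.card_univ, Fintype.card_fin]
  · rw [Finset.card_image_of_injective _ iq', Finset.card_univ, Fintype.card_fin]
  rcases hcase with h1 | ⟨q₀, x, ζ, hinj, _, hz, hopp, hsame⟩
  · left
    have h2 : ∀ I : Fin (d + 1) → Fin s, Function.Injective I → 0 < D q' I * D q I := by
      intro I hI
      rw [mul_comm]
      exact h1 I hI (Set.notMem_empty _)
    refine ⟨fun i => ?_, fun i => ?_⟩
    · rw [pp_eq gq hι hd, pp_eq gq' hι hd]
      exact pc_congr gq' gq h2 i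
    · rw [rr_eq gq hι hd, rr_eq gq' hι hd]
      exact rc_congr gq' gq hι h2 i
  · right
    have hMut : Mut q' q q₀ x ζ := by
      refine ⟨gq', gq, hinj, hz, by rw [mul_comm]; exact hopp, ?_⟩
      intro I hI hne
      obtain ⟨h3, h4⟩ := hsame I hI hne (Set.notMem_empty _)
      refine ⟨by rw [mul_comm]; exact h3, ?_⟩
      have h5 : 0 < (D q I * D q' I) * (D q I * D q₀ I) := mul_pos h3 h4
      have h6 : (D q I * D q' I) * (D q I * D q₀ I) = (D q I) ^ 2 * (D q' I * D q₀ I) := by ring
      rw [h6] at h5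
      exact pos_of_mul_pos_right h5 (sq_nonneg _)
    obtain ⟨k, u, w, h1, h2, h3, h4, h5⟩ := flip_exists hMut (by rw [Fintype.card_fin]; exact hs)
    rw [Fintype.card_fin] at h3 h5
    refine ⟨k, u, w, h1, h2, h3, fun i => ?_, fun i => ?_⟩
    · rw [pp_eq gq hι hd, pp_eq gq' hι hd]
      exact h4 i
    · rw [rr_eq gq hι hd, rr_eq gq' hι hd]
      exact h5 i

private theorem Conn_param {d s : ℕ} {S : Finset (E d)} (hc : S.card = s) :
    ∃ p : Fin s → E d, Function.Injective p ∧ Finset.univ.image p = S := by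
  subst hc
  exact exists_param S

private theorem Conn_mix {d s : ℕ} {p p'' : Fin s → E d} (h : AG ∅ (Sum.elim p p''))
    (q : Fin s → E d) (hq : ∀ k, q k = p k ∨ q k = p'' k) : AG ∅ q := by
  classical
  have hf : Function.Injective (fun k : Fin s => if q k = p k then (Sum.inl k : Fin s ⊕ Fin s)
      else Sum.inr k) := by
    intro a b hab
    by_cases h1 : q a = p a <;> by_cases h2 : q b = p b <;> simp [h1, h2] at hab <;> exact hab
  have h1 := ag_comp h (fun k : Fin s => if q k = p k then (Sum.inl k : Fin s ⊕ Fin s)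
      else Sum.inr k) hf
  have h2 : (Sum.elim p p'' ∘ fun k : Fin s => if q k = p k then (Sum.inl k : Fin s ⊕ Fin s)
      else Sum.inr k) = q := by
    funext k
    by_cases h3 : q k = p k
    · simp [h3]
    · rcases hq k with h4 | h4
      · exact absurd h4 h3
      · simp only [Function.comp_apply, if_neg h3, Sum.elim_inr]
        exact h4.symm
  rw [h2] at h1
  simpa using h1

private theorem Conn_lift {d s : ℕ} (hd : 1 ≤ d) (hs : d + 2 ≤ s) (U : Fin s → Set (E d))
    {q q' : Fin s → E d} (h : Relation.ReflTransGen (Adj ∅ U) q q') :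
    Relation.ReflTransGen (Step d s) (Finset.univ.image q) (Finset.univ.image q') :=
  Relation.ReflTransGen.lift (fun q : Fin s → E d => Finset.univ.image q)
    (fun _ _ hab => step_of_adj hd hs U hab) _ _ h

/-- **Any two sets of `s` points in general position are joined by a sequence of mutations.**

Proof. Enumerate both sets (`exists_param`, `gp_iff`, `ag_of_gpc`): `p`, `p'`. Take `p''` from `mid` (`U = univ`). `chain` (`M = ∅`, `U = univ`) joins `p`
with `p''` and `p''` with `p'` (the relation `Step` is symmetric in the sense needed, or apply `chain` to `(p'', p')`): the mixtures of `p` and `p''` are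
subfamilies of `Sum.elim p p''` (`ag_comp` with `k ↦ inl k` or `inr k`). `step_of_adj`. -/
theorem conn {d s : ℕ} (hd : 1 ≤ d) (hs : d + 2 ≤ s) {S S' : Finset (E d)} (hS : GP S) (hS' : GP S')
    (hc : S.card = s) (hc' : S'.card = s) : Relation.ReflTransGen (Step d s) S S' := by
  classical
  obtain ⟨p, hp, rfl⟩ := Conn_param hc
  obtain ⟨p', hp', rfl⟩ := Conn_param hc'
  have hι : d + 1 ≤ Fintype.card (Fin s) := by rw [Fintype.card_fin]; omega
  have ap : AG ∅ p := ag_of_gpc ((gp_iff hp hι).1 hS) hι
  have ap' : AG ∅ p' := ag_of_gpc ((gp_iff hp' hι).1 hS') hι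
  obtain ⟨p'', _, h1, h2, _⟩ := mid hι hd p p' ap ap' (fun _ => Set.univ) (fun _ => isOpen_univ)
    (fun _ => Set.mem_univ _)
  have c1 : Relation.ReflTransGen (Adj ∅ fun _ : Fin s => (Set.univ : Set (E d))) p p'' :=
    chain hι ∅ p p'' (fun _ => Set.univ) (fun _ => isOpen_univ) (fun _ => convex_univ)
      (fun _ => Set.mem_univ _) (fun _ => Set.mem_univ _) (fun q hq => Conn_mix h1 q hq)
      (fun m hm => absurd hm (Set.notMem_empty _)) (fun m hm => absurd hm (Set.notMem_empty _))
  have c2 : Relation.ReflTransGen (Adj ∅ fun _ : Fin s => (Set.univ : Set (E d))) p'' p' :=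
    chain hι ∅ p'' p' (fun _ => Set.univ) (fun _ => isOpen_univ) (fun _ => convex_univ)
      (fun _ => Set.mem_univ _) (fun _ => Set.mem_univ _)
      (fun q hq => Conn_mix h2 q (fun k => (hq k).symm))
      (fun m hm => absurd hm (Set.notMem_empty _)) (fun m hm => absurd hm (Set.notMem_empty _))
  exact (Conn_lift hd hs _ c1).trans (Conn_lift hd hs _ c2)

end Pool.Agent.RVM
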