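import Mathlib

/-!
# Radon vectors and primitive Radon vectors (MP_c130bd_co): definitions
-/

set_option autoImplicit false

namespace Pool.Agent.RVM

/-- points of `ℝ^d` -/
abbrev E (d : ℕ) : Type := Fin d → ℝ

/-! ## the notions of the problem -/

/-- general position: every `d + 1` or fewer points are affinely independent -/
def GP {d : ℕ} (S : Finset (E d)) : Prop :=
  ∀ T ⊆ S, T.card ≤ d + 1 → AffineIndependent ℝ (fun x : T => (x : E d))

/-- `{A, B}` is a Radon partition of `A ∪ B` -/
def Radon {d : ℕ} (A B : Finset (E d)) : Prop :=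
  Disjoint A B ∧ (convexHull ℝ (A : Set (E d)) ∩ convexHull ℝ (B : Set (E d))).Nonempty

/-- `{A, B}` is a primitive Radon partition -/
def Prim {d : ℕ} (A B : Finset (E d)) : Prop :=
  Radon A B ∧ ∀ A' ⊆ A, ∀ B' ⊆ B, A' ∪ B' ≠ A ∪ B → ¬ Radon A' B'

/-- `r_i(S)`: the number of the (unordered) Radon partitions of `S` of type `{i, |S| - i}` -/
noncomputable def rr {d : ℕ} (S : Finset (E d)) (i : ℕ) : ℕ :=
  {π : Finset (Finset (E d)) | ∃ A B, π = {A, B} ∧ A ∪ B = S ∧ Radon A B ∧ A.card = i ∧
    B.card = S.card - i}.ncard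

/-- `P_i(S)`: the number of the (unordered) primitive Radon partitions in `S` of type `{i, d + 2 - i}` -/
noncomputable def PP {d : ℕ} (S : Finset (E d)) (i : ℕ) : ℕ :=
  {π : Finset (Finset (E d)) | ∃ A B, π = {A, B} ∧ A ⊆ S ∧ B ⊆ S ∧ Prim A B ∧ A.card = i ∧
    B.card = d + 2 - i}.ncard

/-- `1` if `{j, d + 2 - j}` is the type number `i`, otherwise `0` -/
def tP (d i j : ℕ) : ℤ := if i = j ∨ i + j = d + 2 then 1 else 0

/-- `1` if `{j, s - j}` is the type number `i`, otherwise `0` -/
def tR (s i j : ℕ) : ℤ := if i = j ∨ i + j = s then 1 else 0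

/-- The vectors of `S'` arise from those of `S` by a mutation of type `(q, u, w)`. -/
def MoveOf (d s q u w : ℕ) (S S' : Finset (E d)) : Prop :=
  (∀ i, (PP S' i : ℤ) = PP S i + ((u : ℤ) - w) * (tP d i q - tP d i (q + 1))) ∧
  ∀ i, (rr S' i : ℤ) = rr S i + tR s i (q + w) - tR s i (q + u)

/-- `S` and `S'` have the same vectors or arise from each other by a mutation. -/
def Step (d s : ℕ) (S S' : Finset (E d)) : Prop :=
  GP S ∧ GP S' ∧ S.card = s ∧ S'.card = s ∧
    (((∀ i, PP S' i = PP S i) ∧ ∀ i, rr S' i = rr S i) ∨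
      ∃ q u w, 1 ≤ q ∧ q ≤ d ∧ u + w + d + 1 = s ∧ MoveOf d s q u w S S')

/-! ## indexed families and determinants -/

section

variable {d : ℕ} {ι : Type*}

/-- homogeneous coordinates -/
def hv (x : E d) : Fin (d + 1) → ℝ := Fin.cons 1 x

/-- the determinant of `d + 1` points -/
noncomputable def D (p : ι → E d) (I : Fin (d + 1) → ι) : ℝ :=
  Matrix.det (Matrix.of fun r c => hv (p (I r)) c)

/-- the coefficients of the affine dependence of `d + 2` points -/
noncomputable def Lam (p : ι → E d) (x : Fin (d + 2) → ι) (j : Fin (d + 2)) : ℝ :=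
  (-1) ^ (j : ℕ) * D p (x ∘ j.succAbove)

/-- general position of an indexed family -/
def GPc (p : ι → E d) : Prop := ∀ I : Fin (d + 1) → ι, Function.Injective I → D p I ≠ 0

/-- Almost general position: `d` or fewer of the points are affinely independent, and the sets in `M` are
exactly the affinely dependent sets of `d + 1` points. -/
structure AG (M : Set (Set ι)) (p : ι → E d) : Prop where
  ind : ∀ Z : Finset ι, Z.card ≤ d → LinearIndependent ℝ (fun z : Z => hv (p z))
  det : ∀ I : Fin (d + 1) → ι, Function.Injective I → (D p I = 0 ↔ Set.range I ∈ M)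

variable [Fintype ι] [DecidableEq ι]

/-- affine dependence -/
def Dep (p : ι → E d) (c : ι → ℝ) : Prop := ∑ j, c j • hv (p j) = 0

/-- the set `X` of `d + 2` indices has the type `{i, d + 2 - i}` -/
def Ty (p : ι → E d) (X : Finset ι) (i : ℕ) : Prop :=
  ∃ c : ι → ℝ, Dep p c ∧ (∀ j, c j ≠ 0 ↔ j ∈ X) ∧ (Finset.univ.filter fun j => 0 < c j).card = i

open Classical in
/-- the number of the `(d + 2)`-sets of type `{i, d + 2 - i}` -/
noncomputable def Pc (p : ι → E d) (i : ℕ) : ℕ :=
  ((Finset.univ.powersetCard (d + 2)).filter fun X : Finset ι => Ty p X i).card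

/-- `A` and its complement form a Radon partition of the family -/
def RadI (p : ι → E d) (A : Finset ι) : Prop :=
  ∃ c : ι → ℝ, Dep p c ∧ c ≠ 0 ∧ ∀ j, (j ∈ A → 0 ≤ c j) ∧ (j ∉ A → c j ≤ 0)

open Classical in
/-- the number of the Radon partitions of type `{i, |ι| - i}` -/
noncomputable def Rc (p : ι → E d) (i : ℕ) : ℕ :=
  ((Finset.univ : Finset (Finset (Finset ι))).filter fun π =>
    ∃ A : Finset ι, π = {A, Aᶜ} ∧ A.card = i ∧ RadI p A).card

end

end Pool.Agent.RVM
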