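import Pool.Agent.MP_c130bd_co.RVM.Dep

set_option autoImplicit false

namespace Pool.Agent.RVM

variable {d : ℕ} {ι : Type*} [Fintype ι] [DecidableEq ι]

/-! ## [RVM-DEPB] Radon partitions of the whole family -/

theorem DepB_sum {κ : Type*} [Fintype κ] {M : Type*} [AddCommMonoid M]
    {x : κ → ι} (hx : Function.Injective x) (g : ι → M)
    (hs : ∀ j, g j ≠ 0 → j ∈ Set.range x) : ∑ j, g j = ∑ j, g (x j) := by
  rw [← Finset.sum_image (s := Finset.univ) (g := x) (f := g) (fun a _ b _ h => hx h)]
  symm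
  apply Finset.sum_subset (Finset.subset_univ _)
  intro j _ hj
  by_contra h0
  obtain ⟨k, hk⟩ := hs j h0
  exact hj (Finset.mem_image.2 ⟨k, Finset.mem_univ _, hk⟩)

/-- a dependence with at most `d + 1` points in its support is zero -/
theorem DepB_zero {p : ι → E d} (hp : GPc p) (hι : d + 1 ≤ Fintype.card ι) (c : ι → ℝ) (hc : Dep p c)
    (h : (Finset.univ.filter fun j => c j ≠ 0).card ≤ d + 1) : c = 0 := by
  obtain ⟨Y, hY1, hY2⟩ := Finset.exists_superset_card_eq h hι
  let e := Y.equivFinOfCardEq hY2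
  let I : Fin (d + 1) → ι := fun k => (e.symm k : ι)
  have hI : Function.Injective I := fun a b hab => e.symm.injective (Subtype.ext hab)
  have hr : ∀ j, c j ≠ 0 → j ∈ Set.range I := by
    intro j hj
    have h1 : j ∈ Y := hY1 (Finset.mem_filter.2 ⟨Finset.mem_univ _, hj⟩)
    exact ⟨e ⟨j, h1⟩, by simp [I]⟩
  have hsum := DepB_sum (M := Fin (d + 1) → ℝ) hI (fun j => c j • hv (p j)) (by
    intro j hj
    apply hr j
    intro h2
    apply hj
    show c j • hv (p j) = 0
    rw [h2, zero_smul])
  have h2 : ∑ r, c (I r) • hv (p (I r)) = 0 := by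
    rw [← hsum]
    exact hc
  have h3 := indep_of_D (hp I hI) (fun r => c (I r)) h2
  funext j
  by_contra hj
  obtain ⟨k, rfl⟩ := hr j hj
  exact hj (congrFun h3 k)

/-- the minimal support argument -/
theorem DepB_aux {p : ι → E d} (hp : GPc p) (hι : d + 1 ≤ Fintype.card ι) (A : Finset ι) (n : ℕ) :
    ∀ c : ι → ℝ, Dep p c → c ≠ 0 → (∀ j, (j ∈ A → 0 ≤ c j) ∧ (j ∉ A → c j ≤ 0)) →
      (Finset.univ.filter fun j => c j ≠ 0).card = n →
      ∃ X : Finset ι, X.card = d + 2 ∧ ∃ c : ι → ℝ, Dep p c ∧ (∀ j, c j ≠ 0 ↔ j ∈ X) ∧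
        ∀ j, (0 < c j → j ∈ A) ∧ (c j < 0 → j ∉ A) := by
  induction n using Nat.strong_induction_on with
  | _ n ih =>
  intro c hc hc0 hA hn
  rcases Nat.lt_trichotomy n (d + 2) with hlt | heq | hgt
  · exact absurd (DepB_zero hp hι c hc (by omega)) hc0
  · refine ⟨Finset.univ.filter fun j => c j ≠ 0, by omega, c, hc, ?_, ?_⟩
    · intro j
      simp
    · intro j
      constructor
      · intro h
        by_contra hj
        exact absurd ((hA j).2 hj) (not_le.2 h)
      · intro h hj
        exact absurd ((hA j).1 hj) (not_le.2 h)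
  · obtain ⟨X, hX1, hX2⟩ := Finset.exists_subset_card_eq
      (show d + 2 ≤ (Finset.univ.filter fun j => c j ≠ 0).card by omega)
    obtain ⟨x, hx, hxX⟩ := exists_enum X hX2
    have hcX : ∀ j ∈ X, c j ≠ 0 := fun j hj => (Finset.mem_filter.1 (hX1 hj)).2
    have hx0 : c (x 0) ≠ 0 := hcX _ (by rw [← hxX]; exact Finset.mem_image.2 ⟨0, Finset.mem_univ _, rfl⟩)
    have hL0 : Lam p x 0 ≠ 0 := lam_ne hp hx 0
    obtain ⟨b, hb, hbs, hbv⟩ := Dep_extend hp hx (c (x 0) * Lam p x 0) (mul_ne_zero hx0 hL0)
    rw [hxX] at hbs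
    have hbc : ∀ j, b j ≠ 0 → c j ≠ 0 := fun j hj => hcX j ((hbs j).1 hj)
    have hne : (Finset.univ.filter fun j => 0 < b j * c j).Nonempty := by
      refine ⟨x 0, Finset.mem_filter.2 ⟨Finset.mem_univ _, ?_⟩⟩
      rw [hbv 0]
      have h1 : c (x 0) * Lam p x 0 * Lam p x 0 * c (x 0) = (c (x 0) * Lam p x 0) ^ 2 := by ring
      rw [h1]
      have := mul_ne_zero hx0 hL0
      positivity
    obtain ⟨j1, hj1, hmin⟩ := Finset.exists_min_image _ (fun j => c j / b j) hne
    have hj1' : 0 < b j1 * c j1 := (Finset.mem_filter.1 hj1).2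
    have hb1 : b j1 ≠ 0 := by
      intro h0
      rw [h0, zero_mul] at hj1'
      exact lt_irrefl _ hj1'
    set t := c j1 / b j1 with ht
    have ht0 : 0 < t := by
      have h1 : t = (b j1 * c j1) / (b j1) ^ 2 := by
        rw [ht]
        field_simp
      rw [h1]
      positivity
    have hmin' : ∀ j, 0 < b j * c j → t ≤ c j / b j :=
      fun j hj => hmin j (Finset.mem_filter.2 ⟨Finset.mem_univ _, hj⟩)
    have hc' : Dep p (fun j => c j - t * b j) := by
      unfold Dep
      have h1 : ∑ j, (c j - t * b j) • hv (p j) = ∑ j, c j • hv (p j) - t • ∑ j, b j • hv (p j) := by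
        rw [Finset.smul_sum, ← Finset.sum_sub_distrib]
        apply Finset.sum_congr rfl
        intro j _
        rw [sub_smul, smul_smul]
      rw [h1]
      unfold Dep at hc hb
      rw [hc, hb, smul_zero, sub_zero]
    have hne0 : (fun j => c j - t * b j) ≠ 0 := by
      intro h0
      have hlt : X.card < (Finset.univ.filter fun j => c j ≠ 0).card := by omega
      obtain ⟨j2, hj2, hj2X⟩ := Finset.exists_mem_notMem_of_card_lt_card hlt
      have h1 := congrFun h0 j2
      have h2 : b j2 = 0 := by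
        by_contra h3
        exact hj2X ((hbs j2).1 h3)
      simp only [h2, mul_zero, sub_zero, Pi.zero_apply] at h1
      exact (Finset.mem_filter.1 hj2).2 h1
    have hsub : (Finset.univ.filter fun j => c j - t * b j ≠ 0) ⊂
        (Finset.univ.filter fun j => c j ≠ 0) := by
      rw [Finset.ssubset_iff_of_subset]
      · refine ⟨j1, Finset.mem_filter.2 ⟨Finset.mem_univ _, hbc j1 hb1⟩, ?_⟩
        rw [Finset.mem_filter, not_and, not_not]
        intro _
        rw [ht, div_mul_cancel₀ _ hb1, sub_self]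
      · intro j hj
        rw [Finset.mem_filter] at hj ⊢
        refine ⟨Finset.mem_univ _, ?_⟩
        intro h0
        have h1 : b j = 0 := by
          by_contra h2
          exact hbc j h2 h0
        apply hj.2
        rw [h0, h1, mul_zero, sub_zero]
    have hcard := Finset.card_lt_card hsub
    rw [hn] at hcard
    refine ih _ hcard (fun j => c j - t * b j) hc' hne0 ?_ rfl
    intro j
    constructor
    · intro hj
      have h1 := (hA j).1 hj
      show 0 ≤ c j - t * b j
      rcases le_or_gt (b j) 0 with h2 | h2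
      · nlinarith
      · have h3 : c j ≠ 0 := hbc j h2.ne'
        have h4 : 0 < c j := lt_of_le_of_ne h1 h3.symm
        have h5 := hmin' j (mul_pos h2 h4)
        rw [le_div_iff₀ h2] at h5
        linarith
    · intro hj
      have h1 := (hA j).2 hj
      show c j - t * b j ≤ 0
      rcases le_or_gt 0 (b j) with h2 | h2
      · nlinarith
      · have h3 : c j ≠ 0 := hbc j h2.ne
        have h4 : c j < 0 := lt_of_le_of_ne h1 h3
        have h5 := hmin' j (mul_pos_of_neg_of_neg h2 h4)
        rw [le_div_iff_of_neg h2] at h5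
        linarith

/-- A Radon partition of a family in general position contains a Radon partition of some `d + 2` of its points.

Proof. `←` clear. `→`: among all `c` as in `RadI p A` take one with the smallest support `supp c`. The support has at least
`d + 2` elements: otherwise it is contained in the range of an injective `I : Fin (d+1) → ι` (`card ι ≥ d + 1`) and `D p I ≠ 0`
gives `c = 0` (`indep_of_D`). Suppose that it has more than `d + 2` elements. Choose a `(d+2)`-subset `X` of the support and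
the dependence `b ≠ 0` with support `X` (`Lam`, `lam_ne`). Replacing `b` by `-b` there is `j` with `b j * c j > 0`. Let
`t > 0` be the smallest of the quotients `c j / b j` over the `j` with `b j * c j > 0`. Then `c - t b` satisfies the sign conditions
(for `b j c j ≤ 0` the sign of `c j - t b j` is that of `c j`, resp. `c j ≠ 0` on the support; for `b j c j > 0` use `t ≤ c j / b j`),
its support is strictly smaller, and it is not `0` (it equals `c` outside `X`): contradiction. So the support has exactly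
`d + 2` elements. -/
theorem radI_iff {p : ι → E d} (hp : GPc p) (hι : d + 1 ≤ Fintype.card ι) (A : Finset ι) :
    RadI p A ↔ ∃ X : Finset ι, X.card = d + 2 ∧ ∃ c : ι → ℝ, Dep p c ∧ (∀ j, c j ≠ 0 ↔ j ∈ X) ∧
      ∀ j, (0 < c j → j ∈ A) ∧ (c j < 0 → j ∉ A) := by
  constructor
  · rintro ⟨c, hc, hc0, hA⟩
    exact DepB_aux hp hι A _ c hc hc0 hA rfl
  · rintro ⟨X, hX, c, hc, hs, hA⟩
    refine ⟨c, hc, ?_, ?_⟩
    · intro h0
      have h1 : X.Nonempty := by
        rw [← Finset.card_pos]
        omega
      obtain ⟨j, hj⟩ := h1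
      exact (hs j).2 hj (congrFun h0 j)
    · intro j
      constructor
      · intro hj
        by_contra h
        exact (hA j).2 (not_le.1 h) hj
      · intro hj
        by_contra h
        exact hj ((hA j).1 (not_le.1 h))

theorem DepB_compl (p : ι → E d) (A : Finset ι) (h : RadI p A) : RadI p Aᶜ := by
  obtain ⟨c, hc, hc0, hA⟩ := h
  refine ⟨fun j => -c j, ?_, ?_, ?_⟩
  · unfold Dep at hc ⊢
    have h1 : ∑ j, (-c j) • hv (p j) = -∑ j, c j • hv (p j) := by
      rw [← Finset.sum_neg_distrib]
      apply Finset.sum_congr rfl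
      intro j _
      rw [neg_smul]
    rw [h1, hc, neg_zero]
  · intro h0
    apply hc0
    funext j
    have := congrFun h0 j
    simpa using this
  · intro j
    constructor
    · intro hj
      have := (hA j).2 (Finset.mem_compl.1 hj)
      show 0 ≤ -c j
      linarith
    · intro hj
      have h1 : j ∈ A := by
        by_contra h2
        exact hj (Finset.mem_compl.2 h2)
      have := (hA j).1 h1
      show -c j ≤ 0
      linarith

theorem radI_compl (p : ι → E d) (A : Finset ι) : RadI p Aᶜ ↔ RadI p A := by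
  constructor
  · intro h
    have := DepB_compl p Aᶜ h
    rwa [compl_compl] at this
  · exact DepB_compl p A

/-- Same orientations: same numbers. Proof. `ty_congr`; for `Rc` use `radI_iff` and the signs of the dependences
(`dep_unique`, `Lam`). -/
theorem pc_congr {p p' : ι → E d} (hp : GPc p) (hp' : GPc p')
    (h : ∀ I : Fin (d + 1) → ι, Function.Injective I → 0 < D p I * D p' I) (i : ℕ) :
    Pc p i = Pc p' i := by
  classical
  unfold Pc
  congr 1
  apply Finset.filter_congr
  intro X hX
  exact ty_congr hp hp' X (Finset.mem_powersetCard.1 hX).2 (fun I hI _ => h I hI) i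

theorem DepB_radI_mp {p p' : ι → E d} (hp : GPc p) (hp' : GPc p') (hι : d + 1 ≤ Fintype.card ι)
    (h : ∀ I : Fin (d + 1) → ι, Function.Injective I → 0 < D p I * D p' I) (A : Finset ι)
    (hA : RadI p A) : RadI p' A := by
  rw [radI_iff hp hι] at hA
  rw [radI_iff hp' hι]
  obtain ⟨X, hX, c, hc, hs, hA⟩ := hA
  obtain ⟨x, hx, hxX⟩ := exists_enum X hX
  obtain ⟨κ, hκ⟩ := dep_unique hx 0 (lam_ne hp hx 0) hc (by
    intro j hj
    have h1 := (hs j).1 hj
    rw [← hxX] at h1
    obtain ⟨k, _, hk⟩ := Finset.mem_image.1 h1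
    exact ⟨k, hk⟩)
  have hκ0 : κ ≠ 0 := by
    intro h0
    have h1 : c (x 0) ≠ 0 := (hs _).2 (by rw [← hxX]; exact Finset.mem_image.2 ⟨0, Finset.mem_univ _, rfl⟩)
    apply h1
    rw [hκ, h0, zero_mul]
  obtain ⟨b, hb, hbs, hbv⟩ := Dep_extend hp' hx κ hκ0
  rw [hxX] at hbs
  have hsign : ∀ k, 0 < c (x k) * b (x k) := by
    intro k
    have h1 := Dep_lam_same (p := p) (p' := p') hx (fun I hI _ => h I hI) k
    rw [hκ k, hbv k]
    have h2 : κ * Lam p x k * (κ * Lam p' x k) = κ ^ 2 * (Lam p x k * Lam p' x k) := by ring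
    rw [h2]
    positivity
  refine ⟨X, hX, b, hb, hbs, ?_⟩
  intro j
  constructor
  · intro hj
    have h1 := (hbs j).1 hj.ne'
    rw [← hxX] at h1
    obtain ⟨k, _, rfl⟩ := Finset.mem_image.1 h1
    exact (hA _).1 ((Dep_sign (hsign k)).1.2 hj)
  · intro hj
    have h1 := (hbs j).1 hj.ne
    rw [← hxX] at h1
    obtain ⟨k, _, rfl⟩ := Finset.mem_image.1 h1
    exact (hA _).2 ((Dep_sign (hsign k)).2.2 hj)

theorem rc_congr {p p' : ι → E d} (hp : GPc p) (hp' : GPc p') (hι : d + 1 ≤ Fintype.card ι)
    (h : ∀ I : Fin (d + 1) → ι, Function.Injective I → 0 < D p I * D p' I) (i : ℕ) :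
    Rc p i = Rc p' i := by
  classical
  unfold Rc
  congr 1
  apply Finset.filter_congr
  intro π _
  constructor
  · rintro ⟨A, h1, h2, h3⟩
    exact ⟨A, h1, h2, DepB_radI_mp hp hp' hι h A h3⟩
  · rintro ⟨A, h1, h2, h3⟩
    refine ⟨A, h1, h2, DepB_radI_mp hp' hp hι ?_ A h3⟩
    intro I hI
    rw [mul_comm]
    exact h I hI

end Pool.Agent.RVM
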