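import Pool.Agent.MP_c130bd_co.RVM.Avoid

set_option autoImplicit false

namespace Pool.Agent.RVM

/-! ## [RVM-EXT] -/

theorem ext_perm {d : ℕ} {κ : Type*} (q : κ → E d) {I J : Fin (d + 1) → κ} (hI : Function.Injective I)
    (hJ : Function.Injective J) (h : Set.range I = Set.range J) : D q I = 0 ↔ D q J = 0 := by
  let σ : Equiv.Perm (Fin (d + 1)) :=
    (Equiv.ofInjective J hJ).trans ((Equiv.setCongr h.symm).trans (Equiv.ofInjective I hI).symm)
  have hσ : ∀ r, I (σ r) = J r := by
    intro r
    have h1 : Equiv.ofInjective I hI (σ r) = (Equiv.setCongr h.symm) (Equiv.ofInjective J hJ r) := by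
      simp [σ]
    have h2 := congrArg Subtype.val h1
    exact h2
  have hD : D q J = (Equiv.Perm.sign σ : ℤ) * D q I := by
    have h3 := Matrix.det_permute σ (Matrix.of fun r c => hv (q (I r)) c)
    rw [D, D]
    rw [← h3]
    congr 1
    ext r c
    simp [hσ]
  rw [hD]
  constructor
  · intro h0
    rw [h0, mul_zero]
  · intro h0
    rcases mul_eq_zero.mp h0 with h4 | h4
    · exfalso
      have h5 : ((Equiv.Perm.sign σ : ℤ) : ℝ) ≠ 0 := by
        exact_mod_cast (Equiv.Perm.sign σ).ne_zero
      exact h5 h4
    · exact h4

/-- the linear functional of an affine functional -/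
noncomputable def extLin {d : ℕ} (ℓ : E d →ᵃ[ℝ] ℝ) : (Fin (d + 1) → ℝ) →ₗ[ℝ] ℝ :=
  ℓ.linear ∘ₗ (LinearMap.funLeft ℝ ℝ Fin.succ) + (ℓ 0) • LinearMap.proj 0

theorem extLin_hv {d : ℕ} (ℓ : E d →ᵃ[ℝ] ℝ) (v : E d) : extLin ℓ (hv v) = ℓ v := by
  have h1 : ℓ v = ℓ.linear v + ℓ 0 := by
    have := ℓ.map_vadd 0 v
    simpa using this
  have h2 : (LinearMap.funLeft ℝ ℝ Fin.succ) (hv v) = v := by
    ext i
    simp [LinearMap.funLeft_apply, hv]
  rw [h1]
  simp only [extLin, LinearMap.add_apply, LinearMap.comp_apply, LinearMap.smul_apply, LinearMap.proj_apply, h2]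
  simp [hv]

/-- **Adding a generic point.** `W` is a convex set which is not contained in the affine hull of any `d - 1` or fewer points of the
family (condition `h1`: for every set `Z` of at most `d - 1` indices there is a functional which vanishes at the points of `Z` and
not everywhere in `W`). Then there is a point of `W` such that the new family is almost general: the dependent sets with the new
point are the `Z ∪ {none}` for which the determinant vanishes identically on `W`.

Proof. `avoid` for the following affine functionals: for each set `Z` of at most `d - 1` indices the functional of `h1`; for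
each injective `ζ : Fin d → ι` for which the determinant does not vanish identically on `W` this determinant
(`exists_affine`). Independence of `Z ∪ {none}`, `|Z| ≤ d - 1`: the new vector is not in the span of the independent
others, because the functional of `h1` (a linear functional of `hv v`) vanishes on the others. The determinant of an injective
`I : Fin (d+1) → Option ι` with `none` in its range is up to the sign the one of `Fin.cons none (some ∘ ζ)`. -/
theorem extend {d : ℕ} {ι : Type*} [Finite ι] {p : ι → E d} {M : Set (Set ι)} (hp : AG M p)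
    {W : Set (E d)} (hW : Convex ℝ W) (hne : W.Nonempty)
    (h1 : ∀ Z : Finset ι, Z.card + 1 ≤ d → ∃ ℓ : E d →ᵃ[ℝ] ℝ, (∀ z ∈ Z, ℓ (p z) = 0) ∧
      ∃ v ∈ W, ℓ v ≠ 0) :
    ∃ e ∈ W, AG {m : Set (Option ι) | (∃ m' ∈ M, m = some '' m') ∨
        ∃ ζ : Fin d → ι, Function.Injective ζ ∧ m = insert none (some '' Set.range ζ) ∧
          ∀ v ∈ W, D (fun k : Fin (d + 1) => (Fin.cons v (p ∘ ζ) : Fin (d + 1) → E d) k) id = 0}
      (fun k : Option ι => k.elim e p) := by
  classical
  choose ℓ1 hℓ1 hℓ1' using h1
  choose ℓ2 hℓ2 using fun ζ : Fin d → ι => exists_affine (p ∘ ζ)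
  let κ1 := {Z : Finset ι // Z.card + 1 ≤ d}
  let κ2 := {ζ : Fin d → ι // ∃ v ∈ W, ℓ2 ζ v ≠ 0}
  obtain ⟨e, heW, he⟩ := avoid hW hne (κ := κ1 ⊕ κ2) (Sum.elim (fun Z => ℓ1 Z.1 Z.2) (fun ζ => ℓ2 ζ.1)) (by
    rintro (Z | ζ)
    · exact hℓ1' Z.1 Z.2
    · exact ζ.2)
  have he1 : ∀ (Z : Finset ι) (hZ : Z.card + 1 ≤ d), ℓ1 Z hZ e ≠ 0 := fun Z hZ => he (Sum.inl ⟨Z, hZ⟩)
  have he2 : ∀ (ζ : Fin d → ι), ℓ2 ζ e = 0 → ∀ v ∈ W, ℓ2 ζ v = 0 := by
    intro ζ h0 v hv'
    by_contra h3
    exact he (Sum.inr ⟨ζ, v, hv', h3⟩) h0
  refine ⟨e, heW, ?_, ?_⟩
  · intro Z hZ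
    have hZ'card : (Finset.eraseNone Z).card ≤ d :=
      (Finset.card_eraseNone_le Z).trans hZ
    have hind := hp.ind (Finset.eraseNone Z) hZ'card
    by_cases hn : none ∈ Z
    · have hcard : (Finset.eraseNone Z).card + 1 ≤ d := by
        rw [Finset.card_eraseNone_of_mem hn]
        have : 0 < Z.card := Finset.card_pos.mpr ⟨none, hn⟩
        omega
      have hnot : hv e ∉ Submodule.span ℝ (Set.range fun z : (Finset.eraseNone Z : Finset ι) => hv (p z)) := by
        intro hmem
        have hle : Submodule.span ℝ (Set.range fun z : (Finset.eraseNone Z : Finset ι) => hv (p z)) ≤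
            LinearMap.ker (extLin (ℓ1 _ hcard)) := by
          rw [Submodule.span_le]
          rintro _ ⟨z, rfl⟩
          simp only [SetLike.mem_coe, LinearMap.mem_ker]
          rw [extLin_hv]
          exact hℓ1 _ hcard z z.2
        have h4 := hle hmem
        rw [LinearMap.mem_ker, extLin_hv] at h4
        exact he1 _ hcard h4
      have hopt : LinearIndependent ℝ (fun o : Option (Finset.eraseNone Z : Finset ι) =>
          hv ((o.map Subtype.val).elim e p)) := by
        rw [linearIndependent_option]
        exact ⟨hind, hnot⟩
      let f : Z → Option (Finset.eraseNone Z : Finset ι) := fun z =>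
        if h : z.1.isSome then some ⟨z.1.get h, by
          rw [Finset.mem_eraseNone, Option.some_get]; exact z.2⟩ else none
      have hf : ∀ z : Z, (f z).map Subtype.val = z.1 := by
        intro z
        by_cases h : z.1.isSome
        · simp [f, h]
        · simp only [f, h]
          simp at h
          simp [h]
      have hfinj : Function.Injective f := by
        intro z z' hzz
        apply Subtype.ext
        rw [← hf z, ← hf z', hzz]
      have := hopt.comp f hfinj
      convert this using 1
      ext z
      simp only [Function.comp_apply, hf]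
    · let f : Z → (Finset.eraseNone Z : Finset ι) := fun z =>
        ⟨z.1.get (by
          rw [Option.isSome_iff_ne_none]; intro h; exact hn (h ▸ z.2)), by
          rw [Finset.mem_eraseNone, Option.some_get]; exact z.2⟩
      have hf : ∀ z : Z, some (f z).1 = z.1 := by
        intro z
        simp [f]
      have hfinj : Function.Injective f := by
        intro z z' hzz
        apply Subtype.ext
        rw [← hf z, ← hf z', hzz]
      have := hind.comp f hfinj
      convert this using 1
      ext z
      simp only [Function.comp_apply]
      rw [← hf z]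
      rfl
  · intro I hI
    -- the value on a standard family
    have hstd : ∀ ζ : Fin d → ι, D (fun k : Option ι => k.elim e p)
        (Fin.cons none (some ∘ ζ) : Fin (d + 1) → Option ι) = ℓ2 ζ e := by
      intro ζ
      rw [hℓ2, D, D]
      congr 1
      ext r c
      refine Fin.cases ?_ (fun k => ?_) r
      · simp
      · simp
    have hstdinj : ∀ ζ : Fin d → ι, Function.Injective ζ →
        Function.Injective (Fin.cons none (some ∘ ζ) : Fin (d + 1) → Option ι) := by
      intro ζ hζ
      rw [Fin.cons_injective_iff]
      refine ⟨?_, (Option.some_injective ι).comp hζ⟩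
      rintro ⟨k, hk⟩
      simp at hk
    have hstdrange : ∀ ζ : Fin d → ι, Set.range (Fin.cons none (some ∘ ζ) : Fin (d + 1) → Option ι) =
        insert none (some '' Set.range ζ) := by
      intro ζ
      rw [Fin.range_cons, Set.range_comp]
    by_cases hn : none ∈ Set.range I
    · obtain ⟨r0, hr0⟩ := hn
      have hsome : ∀ k, (I (r0.succAbove k)).isSome := by
        intro k
        rw [Option.isSome_iff_ne_none]
        intro h
        exact Fin.succAbove_ne r0 k (hI (h.trans hr0.symm))
      let ζ : Fin d → ι := fun k => (I (r0.succAbove k)).get (hsome k)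
      have hζ : ∀ k, some (ζ k) = I (r0.succAbove k) := by
        intro k; simp [ζ]
      have hζinj : Function.Injective ζ := by
        intro k k' h
        apply Fin.succAbove_right_injective (p := r0)
        apply hI
        rw [← hζ, ← hζ, h]
      have hrange : Set.range I = insert none (some '' Set.range ζ) := by
        ext x
        simp only [Set.mem_range, Set.mem_insert_iff, Set.mem_image, exists_exists_eq_and]
        constructor
        · rintro ⟨r, rfl⟩
          rcases Fin.eq_self_or_eq_succAbove r0 r with h | ⟨k, hk⟩
          · left; rw [h, hr0]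
          · right; exact ⟨k, by rw [hζ, hk]⟩
        · rintro (h | ⟨k, hk⟩)
          · exact ⟨r0, by rw [hr0, h]⟩
          · exact ⟨r0.succAbove k, by rw [← hζ, hk]⟩
      constructor
      · intro h0
        right
        refine ⟨ζ, hζinj, hrange, ?_⟩
        have h5 := (ext_perm _ hI (hstdinj ζ hζinj) (by rw [hrange, hstdrange])).mp h0
        rw [hstd] at h5
        intro v hv'
        rw [← hℓ2]
        exact he2 ζ h5 v hv'
      · rintro (⟨m', hm', hm⟩ | ⟨ζ', hζ', hm, hall⟩)
        · exfalso
          have : none ∈ Set.range I := ⟨r0, hr0⟩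
          rw [hm] at this
          obtain ⟨x, -, hx⟩ := this
          simp at hx
        · rw [ext_perm _ hI (hstdinj ζ' hζ') (by rw [hm, hstdrange]), hstd, hℓ2]
          exact hall e heW
    · have hsome : ∀ k, (I k).isSome := by
        intro k
        rw [Option.isSome_iff_ne_none]
        intro h
        exact hn ⟨k, h⟩
      let I' : Fin (d + 1) → ι := fun k => (I k).get (hsome k)
      have hI' : ∀ k, some (I' k) = I k := by
        intro k; simp [I']
      have hI'f : I = some ∘ I' := by
        ext1 k; exact (hI' k).symm
      have hI'inj : Function.Injective I' := by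
        intro k k' h
        apply hI
        rw [← hI', ← hI', h]
      have hrange : Set.range I = some '' Set.range I' := by
        rw [hI'f, Set.range_comp]
      have hD : D (fun k : Option ι => k.elim e p) I = D p I' := by
        rw [hI'f]
        rfl
      rw [hD, hp.det I' hI'inj]
      constructor
      · intro h
        exact Or.inl ⟨_, h, hrange⟩
      · rintro (⟨m', hm', hm⟩ | ⟨ζ', hζ', hm, hall⟩)
        · rw [hrange] at hm
          rw [(Option.some_injective ι).image_injective hm]
          exact hm'
        · exfalso
          apply hn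
          rw [hm]
          exact Set.mem_insert _ _

end Pool.Agent.RVM
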