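import Pool.Agent.MP_c130bd_co.RVM.DepB

set_option autoImplicit false

namespace Pool.Agent.RVM

variable {d : ℕ} {ι : Type*} [Fintype ι] [DecidableEq ι]

/-! ## [RVM-FLIP] the effect of a mutation

`pp` and `pm` have the same orientations except for the set `N = range (cons x ζ)`, and `p0` is a family with the same
orientations except that the points of `N` are dependent. -/

/-- The configuration of a mutation. -/
structure Mut (pp pm p0 : ι → E d) (x : ι) (ζ : Fin d → ι) : Prop where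
  gp : GPc pp
  gm : GPc pm
  inj : Function.Injective (Fin.cons x ζ : Fin (d + 1) → ι)
  zero : D p0 (Fin.cons x ζ) = 0
  opp : D pp (Fin.cons x ζ) * D pm (Fin.cons x ζ) < 0
  same : ∀ I : Fin (d + 1) → ι, Function.Injective I →
    Set.range I ≠ Set.range (Fin.cons x ζ : Fin (d + 1) → ι) →
      0 < D pp I * D pm I ∧ 0 < D pp I * D p0 I

open Classical in
/-- the points on the side of `x` (in `pp`) of the hyperplane of the `ζ i` -/
noncomputable def mu (pp : ι → E d) (x : ι) (ζ : Fin d → ι) : ℕ :=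
  (Finset.univ.filter fun y => y ∉ Set.range (Fin.cons x ζ : Fin (d + 1) → ι) ∧
    0 < D pp (Fin.cons y ζ) * D pp (Fin.cons x ζ)).card

open Classical in
/-- the points on the other side -/
noncomputable def mw (pp : ι → E d) (x : ι) (ζ : Fin d → ι) : ℕ :=
  (Finset.univ.filter fun y => y ∉ Set.range (Fin.cons x ζ : Fin (d + 1) → ι) ∧
    D pp (Fin.cons y ζ) * D pp (Fin.cons x ζ) < 0).card

theorem Flip_x_notMem {pp pm p0 : ι → E d} {x : ι} {ζ : Fin d → ι} (h : Mut pp pm p0 x ζ) :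
    x ∉ Set.range ζ := (Fin.cons_injective_iff.1 h.inj).1

theorem Flip_zeta_inj {pp pm p0 : ι → E d} {x : ι} {ζ : Fin d → ι} (h : Mut pp pm p0 x ζ) :
    Function.Injective ζ := (Fin.cons_injective_iff.1 h.inj).2

theorem Flip_y {x y : ι} {ζ : Fin d → ι}
    (hy : y ∉ Set.range (Fin.cons x ζ : Fin (d + 1) → ι)) : y ≠ x ∧ y ∉ Set.range ζ := by
  rw [Fin.range_cons, Set.mem_insert_iff, not_or] at hy
  exact hy

theorem Flip_cons_inj {pp pm p0 : ι → E d} {x : ι} {ζ : Fin d → ι} (h : Mut pp pm p0 x ζ) {y : ι}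
    (hy : y ∉ Set.range (Fin.cons x ζ : Fin (d + 1) → ι)) :
    Function.Injective (Fin.cons y ζ : Fin (d + 1) → ι) :=
  Fin.cons_injective_iff.2 ⟨(Flip_y hy).2, Flip_zeta_inj h⟩

theorem Flip_X_inj {pp pm p0 : ι → E d} {x : ι} {ζ : Fin d → ι} (h : Mut pp pm p0 x ζ) {y : ι}
    (hy : y ∉ Set.range (Fin.cons x ζ : Fin (d + 1) → ι)) :
    Function.Injective (Fin.cons y (Fin.cons x ζ : Fin (d + 1) → ι) : Fin (d + 2) → ι) :=
  Fin.cons_injective_iff.2 ⟨hy, h.inj⟩

theorem Flip_comp_zero (x y : ι) (ζ : Fin d → ι) :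
    (Fin.cons y (Fin.cons x ζ : Fin (d + 1) → ι) : Fin (d + 2) → ι) ∘ (0 : Fin (d + 2)).succAbove =
      (Fin.cons x ζ : Fin (d + 1) → ι) := by
  funext i
  simp [Function.comp]

theorem Flip_comp_one (x y : ι) (ζ : Fin d → ι) :
    (Fin.cons y (Fin.cons x ζ : Fin (d + 1) → ι) : Fin (d + 2) → ι) ∘ (1 : Fin (d + 2)).succAbove =
      (Fin.cons y ζ : Fin (d + 1) → ι) := by
  funext i
  refine Fin.cases ?_ (fun i => ?_) i
  · simp [Function.comp]
  · have h1 : (1 : Fin (d + 2)).succAbove i.succ = i.succ.succ := by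
      rw [← Fin.succ_zero_eq_one, Fin.succ_succAbove_succ, Fin.succAbove_zero]
    simp only [Function.comp, h1, Fin.cons_succ]

theorem Flip_Lam_zero (p : ι → E d) (x y : ι) (ζ : Fin d → ι) :
    Lam p (Fin.cons y (Fin.cons x ζ : Fin (d + 1) → ι) : Fin (d + 2) → ι) 0 =
      D p (Fin.cons x ζ) := by
  unfold Lam
  rw [Flip_comp_zero]
  simp

theorem Flip_Lam_one (p : ι → E d) (x y : ι) (ζ : Fin d → ι) :
    Lam p (Fin.cons y (Fin.cons x ζ : Fin (d + 1) → ι) : Fin (d + 2) → ι) 1 =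
      - D p (Fin.cons y ζ) := by
  unfold Lam
  rw [Flip_comp_one]
  simp

theorem Flip_same {pp pm p0 : ι → E d} {x : ι} {ζ : Fin d → ι} (h : Mut pp pm p0 x ζ) {y : ι}
    (hy : y ∉ Set.range (Fin.cons x ζ : Fin (d + 1) → ι)) {j : Fin (d + 2)} (hj : j ≠ 0) :
    0 < Lam pp (Fin.cons y (Fin.cons x ζ : Fin (d + 1) → ι) : Fin (d + 2) → ι) j *
        Lam pm (Fin.cons y (Fin.cons x ζ : Fin (d + 1) → ι) : Fin (d + 2) → ι) j ∧
      0 < Lam pp (Fin.cons y (Fin.cons x ζ : Fin (d + 1) → ι) : Fin (d + 2) → ι) j *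
        Lam p0 (Fin.cons y (Fin.cons x ζ : Fin (d + 1) → ι) : Fin (d + 2) → ι) j := by
  set X : Fin (d + 2) → ι := Fin.cons y (Fin.cons x ζ : Fin (d + 1) → ι) with hX
  have hinj : Function.Injective (X ∘ j.succAbove) :=
    (Flip_X_inj h hy).comp Fin.succAbove_right_injective
  have hr : Set.range (X ∘ j.succAbove) ≠ Set.range (Fin.cons x ζ : Fin (d + 1) → ι) := by
    intro he
    apply hy
    rw [← he]
    refine ⟨0, ?_⟩
    simp only [Function.comp, Fin.succAbove_ne_zero_zero hj, hX, Fin.cons_zero]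
  obtain ⟨h1, h2⟩ := h.same _ hinj hr
  have e : ((-1 : ℝ) ^ (j : ℕ)) * ((-1 : ℝ) ^ (j : ℕ)) = 1 := by
    rw [← mul_pow]
    norm_num
  constructor
  · unfold Lam
    have : (-1 : ℝ) ^ (j : ℕ) * D pp (X ∘ j.succAbove) * ((-1) ^ (j : ℕ) * D pm (X ∘ j.succAbove)) =
        ((-1 : ℝ) ^ (j : ℕ) * (-1 : ℝ) ^ (j : ℕ)) * (D pp (X ∘ j.succAbove) *
          D pm (X ∘ j.succAbove)) := by ring
    rw [this, e, one_mul]
    exact h1
  · unfold Lam
    have : (-1 : ℝ) ^ (j : ℕ) * D pp (X ∘ j.succAbove) * ((-1) ^ (j : ℕ) * D p0 (X ∘ j.succAbove)) =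
        ((-1 : ℝ) ^ (j : ℕ) * (-1 : ℝ) ^ (j : ℕ)) * (D pp (X ∘ j.succAbove) *
          D p0 (X ∘ j.succAbove)) := by ring
    rw [this, e, one_mul]
    exact h2

/-- independence of the points `ζ i` -/
theorem Flip_ind {p : ι → E d} {ζ : Fin d → ι} {y : ι} (h : D p (Fin.cons y ζ) ≠ 0)
    (c : Fin d → ℝ) (hc : ∑ i, c i • hv (p (ζ i)) = 0) : c = 0 := by
  have h1 := indep_of_D h (Fin.cons 0 c) (by
    rw [Fin.sum_univ_succ]
    simpa using hc)
  funext i
  have := congrFun h1 i.succ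
  simpa using this

theorem Flip_D_ne {pp pm p0 : ι → E d} {x : ι} {ζ : Fin d → ι} (h : Mut pp pm p0 x ζ) {y : ι}
    (hy : y ∉ Set.range (Fin.cons x ζ : Fin (d + 1) → ι)) :
    0 < D pp (Fin.cons y ζ) * D pm (Fin.cons y ζ) ∧
      0 < D pp (Fin.cons y ζ) * D p0 (Fin.cons y ζ) := by
  refine h.same _ (Flip_cons_inj h hy) ?_
  intro he
  apply hy
  rw [← he]
  exact ⟨0, by simp⟩

/-- the dependence in `p0` -/
theorem Flip_beta {pp pm p0 : ι → E d} {x : ι} {ζ : Fin d → ι} (h : Mut pp pm p0 x ζ)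
    {β : Fin d → ℝ} (hβ : hv (p0 x) = ∑ i, β i • hv (p0 (ζ i))) {y : ι}
    (hy : y ∉ Set.range (Fin.cons x ζ : Fin (d + 1) → ι)) (i : Fin d) :
    Lam p0 (Fin.cons y (Fin.cons x ζ : Fin (d + 1) → ι) : Fin (d + 2) → ι) i.succ.succ =
      - β i * Lam p0 (Fin.cons y (Fin.cons x ζ : Fin (d + 1) → ι) : Fin (d + 2) → ι) 1 := by
  set X : Fin (d + 2) → ι := Fin.cons y (Fin.cons x ζ : Fin (d + 1) → ι) with hX
  have h0 : Lam p0 X 0 = 0 := by
    rw [hX, Flip_Lam_zero]
    exact h.zero
  have hdep := lam_dep p0 X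
  rw [Fin.sum_univ_succ, Fin.sum_univ_succ, h0, zero_smul, zero_add] at hdep
  have e1 : X (Fin.succ 0) = x := by rw [hX]; simp
  have e2 : ∀ i : Fin d, X i.succ.succ = ζ i := by intro i; rw [hX]; simp
  simp only [e2] at hdep
  rw [e1, hβ, Finset.smul_sum, ← Finset.sum_add_distrib] at hdep
  have hD : D p0 (Fin.cons y ζ) ≠ 0 := by
    intro h1
    have := (Flip_D_ne h hy).2
    rw [h1, mul_zero] at this
    exact lt_irrefl _ this
  have h2 := Flip_ind hD (fun i => Lam p0 X (Fin.succ 0) * β i + Lam p0 X i.succ.succ) (by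
    rw [← hdep]
    refine Finset.sum_congr rfl (fun i _ => ?_)
    rw [add_smul, smul_smul])
  have h3 := congrFun h2 i
  simp only [Pi.zero_apply, Fin.succ_zero_eq_one] at h3
  linarith

/-- the sign conditions for one family -/
theorem Flip_signs_aux {p : ι → E d} {x y : ι} {ζ : Fin d → ι} (X : Fin (d + 2) → ι)
    (hX : X = (Fin.cons y (Fin.cons x ζ : Fin (d + 1) → ι) : Fin (d + 2) → ι))
    (hXinj : Function.Injective X) (l : Fin (d + 2) → ℝ) {β : Fin d → ℝ}
    (hl1 : l 1 ≠ 0) (hl : ∀ i : Fin d, l i.succ.succ = - β i * l 1)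
    (hs : ∀ j : Fin (d + 2), j ≠ 0 → 0 < Lam p X j * l j)
    (c : ι → ℝ) (hc : Dep p c)
    (hsupp : ∀ j, c j ≠ 0 ↔ j = y ∨ j ∈ Set.range (Fin.cons x ζ : Fin (d + 1) → ι)) :
    (∀ i, c (ζ i) * c x * β i < 0) ∧
      ∃ κ : ℝ, κ ≠ 0 ∧ c y * c x = - (κ ^ 2 * (D p (Fin.cons x ζ) * D p (Fin.cons y ζ))) := by
  have hne : ∀ j : Fin (d + 2), j ≠ 0 → Lam p X j ≠ 0 := by
    intro j hj h0
    have := hs j hj
    rw [h0, zero_mul] at this
    exact lt_irrefl _ this
  have h10 : (1 : Fin (d + 2)) ≠ 0 := by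
    rw [← Fin.succ_zero_eq_one]
    exact Fin.succ_ne_zero _
  obtain ⟨κ, hκ⟩ := dep_unique hXinj 1 (hne 1 h10) hc (by
    intro j hj
    rcases (hsupp j).1 hj with h1 | h1
    · exact ⟨0, by rw [hX, h1]; simp⟩
    · obtain ⟨k, hk⟩ := h1
      exact ⟨k.succ, by rw [hX, ← hk]; simp⟩)
  have e0 : X 0 = y := by rw [hX]; simp
  have e1 : X 1 = x := by
    rw [hX, ← Fin.succ_zero_eq_one]
    simp
  have e2 : ∀ i : Fin d, X i.succ.succ = ζ i := by intro i; rw [hX]; simp
  have hcx : c x = κ * Lam p X 1 := by rw [← e1]; exact hκ 1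
  have hcy : c y = κ * Lam p X 0 := by
    have := hκ 0
    rwa [e0] at this
  have hcz : ∀ i, c (ζ i) = κ * Lam p X i.succ.succ := by
    intro i
    rw [← e2 i]
    exact hκ _
  have hx0 : c x ≠ 0 := (hsupp x).2 (Or.inr ⟨0, by simp⟩)
  have hκ0 : κ ≠ 0 := by
    intro h0
    rw [hcx, h0, zero_mul] at hx0
    exact hx0 rfl
  constructor
  · intro i
    have hj : (i.succ.succ : Fin (d + 2)) ≠ 0 := Fin.succ_ne_zero _
    have s1 := hs _ hj
    have s2 := hs 1 h10
    rw [hl i] at s1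
    have hβ0 : β i ≠ 0 := by
      intro h0
      rw [h0] at s1
      simp at s1
    rw [hcx, hcz i]
    have hκ2 : 0 < κ ^ 2 := by positivity
    -- s1 : 0 < A * (-β l), s2 : 0 < B * l
    have s3 : 0 < (Lam p X i.succ.succ * (-β i * l 1)) * (Lam p X 1 * l 1) := mul_pos s1 s2
    have hl2 : 0 < (l 1) ^ 2 := by positivity
    have s4 : (Lam p X i.succ.succ * Lam p X 1 * β i) * (l 1) ^ 2 < 0 := by nlinarith
    have s5 : Lam p X i.succ.succ * Lam p X 1 * β i < 0 := by
      by_contra hcon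
      push Not at hcon
      have := mul_nonneg hcon hl2.le
      linarith
    have e : κ * Lam p X i.succ.succ * (κ * Lam p X 1) * β i =
        κ ^ 2 * (Lam p X i.succ.succ * Lam p X 1 * β i) := by ring
    rw [e]
    exact mul_neg_of_pos_of_neg hκ2 s5
  · refine ⟨κ, hκ0, ?_⟩
    rw [hcx, hcy, hX, Flip_Lam_zero, Flip_Lam_one]
    ring

/-- the count for one family -/
theorem Flip_ty {p : ι → E d} {x y : ι} {ζ : Fin d → ι}
    (hinj : Function.Injective (Fin.cons x ζ : Fin (d + 1) → ι))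
    (hy : y ∉ Set.range (Fin.cons x ζ : Fin (d + 1) → ι)) {β : Fin d → ℝ} {c : ι → ℝ}
    (hc : Dep p c)
    (hsupp : ∀ j, c j ≠ 0 ↔ j = y ∨ j ∈ Set.range (Fin.cons x ζ : Fin (d + 1) → ι))
    (hs : ∀ i, c (ζ i) * c x * β i < 0) :
    (c y * c x < 0 → Ty p (insert y (Finset.univ.image (Fin.cons x ζ : Fin (d + 1) → ι)))
        (1 + (Finset.univ.filter fun i => β i < 0).card)) ∧
      (0 < c y * c x → Ty p (insert y (Finset.univ.image (Fin.cons x ζ : Fin (d + 1) → ι)))
        (1 + (Finset.univ.filter fun i => β i < 0).card + 1)) := by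
  have hx0 : c x ≠ 0 := (hsupp x).2 (Or.inr ⟨0, by simp⟩)
  have hxx : 0 < c x * c x := mul_self_pos.2 hx0
  have hdep : Dep p (fun j => c x * c j) := by
    unfold Dep at hc ⊢
    have : ∑ j, (c x * c j) • hv (p j) = c x • ∑ j, c j • hv (p j) := by
      rw [Finset.smul_sum]
      exact Finset.sum_congr rfl (fun j _ => mul_smul _ _ _)
    rw [this, hc, smul_zero]
  have hsupp' : ∀ j, c x * c j ≠ 0 ↔
      j ∈ insert y (Finset.univ.image (Fin.cons x ζ : Fin (d + 1) → ι)) := by
    intro j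
    rw [Finset.mem_insert, Finset.mem_image, mul_ne_zero_iff, hsupp j]
    simp only [Finset.mem_univ, true_and, Set.mem_range]
    exact ⟨fun h => h.2, fun h => ⟨hx0, h⟩⟩
  obtain ⟨hxz, hzinj⟩ := Fin.cons_injective_iff.1 hinj
  obtain ⟨hyx, hyz⟩ := Flip_y hy
  have hpos : ∀ i, 0 < c x * c (ζ i) ↔ β i < 0 := by
    intro i
    have h1 := hs i
    constructor
    · intro h2
      by_contra h3
      push Not at h3
      nlinarith [mul_nonneg h2.le h3]
    · intro h2
      by_contra h3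
      push Not at h3
      nlinarith [mul_nonneg_of_nonpos_of_nonpos h3 h2.le]
  have hcard : (insert x (Finset.image ζ (Finset.univ.filter fun i => β i < 0))).card =
      1 + (Finset.univ.filter fun i => β i < 0).card := by
    rw [Finset.card_insert_of_notMem, Finset.card_image_of_injective _ hzinj, add_comm]
    intro h
    obtain ⟨i, -, hi⟩ := Finset.mem_image.1 h
    exact hxz ⟨i, hi⟩
  have hmem : ∀ j, j ≠ y → (0 < c x * c j ↔
      j ∈ insert x (Finset.image ζ (Finset.univ.filter fun i => β i < 0))) := by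
    intro j hj
    rw [Finset.mem_insert, Finset.mem_image]
    constructor
    · intro h1
      have h2 : c j ≠ 0 := by
        intro h0
        rw [h0, mul_zero] at h1
        exact lt_irrefl _ h1
      rcases (hsupp j).1 h2 with h3 | h3
      · exact absurd h3 hj
      · rw [Fin.range_cons, Set.mem_insert_iff] at h3
        rcases h3 with h3 | ⟨i, h3⟩
        · exact Or.inl h3
        · right
          subst h3
          exact ⟨i, Finset.mem_filter.2 ⟨Finset.mem_univ _, (hpos i).1 h1⟩, rfl⟩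
    · rintro (h1 | ⟨i, h1, h2⟩)
      · rw [h1]
        exact hxx
      · rw [← h2]
        exact (hpos i).2 (Finset.mem_filter.1 h1).2
  have hynot : y ∉ insert x (Finset.image ζ (Finset.univ.filter fun i => β i < 0)) := by
    rw [Finset.mem_insert, Finset.mem_image]
    rintro (h1 | ⟨i, -, h2⟩)
    · exact hyx h1
    · exact hyz ⟨i, h2⟩
  constructor
  · intro hneg
    refine ⟨fun j => c x * c j, hdep, hsupp', ?_⟩
    rw [← hcard]
    congr 1
    ext j
    rw [Finset.mem_filter]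
    by_cases hj : j = y
    · subst hj
      constructor
      · rintro ⟨-, h1⟩
        have : c x * c j < 0 := by rwa [mul_comm]
        linarith
      · intro h1
        exact absurd h1 hynot
    · rw [← hmem j hj]
      simp
  · intro hposy
    refine ⟨fun j => c x * c j, hdep, hsupp', ?_⟩
    rw [← hcard, ← Finset.card_insert_of_notMem hynot]
    congr 1
    ext j
    rw [Finset.mem_filter, Finset.mem_insert]
    by_cases hj : j = y
    · subst hj
      have : 0 < c x * c j := by rwa [mul_comm]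
      simp [this]
    · rw [← hmem j hj]
      simp [hj]

/-- sets of `d + 2` elements which contain `N` -/
theorem Flip_card_image {x : ι} {ζ : Fin d → ι}
    (hinj : Function.Injective (Fin.cons x ζ : Fin (d + 1) → ι)) :
    (Finset.univ.image (Fin.cons x ζ : Fin (d + 1) → ι)).card = d + 1 := by
  rw [Finset.card_image_of_injective _ hinj, Finset.card_univ, Fintype.card_fin]

theorem mu_add_mw {pp pm p0 : ι → E d} {x : ι} {ζ : Fin d → ι} (h : Mut pp pm p0 x ζ) :
    mu pp x ζ + mw pp x ζ + d + 1 = Fintype.card ι := by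
  classical
  have h1 : mu pp x ζ + mw pp x ζ =
      (Finset.univ.filter fun y => y ∉ Set.range (Fin.cons x ζ : Fin (d + 1) → ι)).card := by
    unfold mu mw
    rw [← Finset.card_union_of_disjoint]
    · congr 1
      ext y
      simp only [Finset.mem_union, Finset.mem_filter, Finset.mem_univ, true_and]
      constructor
      · rintro (h1 | h1)
        · exact h1.1
        · exact h1.1
      · intro hy
        have h2 : D pp (Fin.cons y ζ) ≠ 0 := h.gp _ (Flip_cons_inj h hy)
        have h3 : D pp (Fin.cons x ζ) ≠ 0 := h.gp _ h.inj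
        rcases lt_or_gt_of_ne (mul_ne_zero h2 h3) with h4 | h4
        · exact Or.inr ⟨hy, h4⟩
        · exact Or.inl ⟨hy, h4⟩
    · rw [Finset.disjoint_left]
      intro y h1 h2
      have h3 := (Finset.mem_filter.1 h1).2.2
      have h4 := (Finset.mem_filter.1 h2).2.2
      linarith
  have h2 : (Finset.univ.filter fun y => y ∉ Set.range (Fin.cons x ζ : Fin (d + 1) → ι)) =
      (Finset.univ.image (Fin.cons x ζ : Fin (d + 1) → ι))ᶜ := by
    ext y
    rw [Finset.mem_filter, Finset.mem_compl, Finset.mem_image]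
    simp only [Finset.mem_univ, true_and, Set.mem_range]
  have h3 := Finset.card_add_card_compl (Finset.univ.image (Fin.cons x ζ : Fin (d + 1) → ι))
  rw [Flip_card_image h.inj] at h3
  rw [h1, h2]
  omega

/-- Proof. Coordinate `0` of `hβ`: `∑ β = 1`, so some `β i > 0`. -/
theorem q_le {p0 : ι → E d} {x : ι} {ζ : Fin d → ι} {β : Fin d → ℝ}
    (hβ : hv (p0 x) = ∑ i, β i • hv (p0 (ζ i))) :
    1 + (Finset.univ.filter fun i => β i < 0).card ≤ d := by
  have h0 : (1 : ℝ) = ∑ i, β i := by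
    have h1 := congrFun hβ 0
    simpa [hv, Finset.sum_apply] using h1
  have h2 : ∃ i, ¬ β i < 0 := by
    by_contra hcon
    push Not at hcon
    have : ∑ i, β i ≤ 0 := Finset.sum_nonpos (fun i _ => (hcon i).le)
    linarith
  obtain ⟨i, hi⟩ := h2
  have h3 : (Finset.univ.filter fun i => β i < 0).card < (Finset.univ : Finset (Fin d)).card := by
    refine Finset.card_lt_card ?_
    rw [Finset.filter_ssubset]
    exact ⟨i, Finset.mem_univ _, hi⟩
  rw [Finset.card_univ, Fintype.card_fin] at h3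
  omega

/-- The signs of the dependence of `N ∪ {y}`. `c` is a dependence of `pp` (or of `pm`) with support `N ∪ {y}`.

Proof. Enumerate `N ∪ {y}` by `X = cons y (cons x ζ) : Fin (d+2) → ι`.
`Lam q X 0 = D q (cons x ζ)`, `Lam q X 1 = - D q (cons y ζ)` (`X ∘ (1).succAbove = cons y ζ`). For `q = p0` we have `Lam p0 X 0 = 0`, so
`(Lam p0 X j)_{j ≥ 1}` is a dependence of the points of `N` in `p0` by `lam_dep`; the determinants `Lam p0 X j`, `j ≥ 1`,
are not `0` and have the sign of `Lam pp X j` and of `Lam pm X j` (`Mut.same`: the sets `X ∖ {X j}` contain `y`, so they are not `N`). Now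
`hv (p0 x) = ∑ β i hv (p0 (ζ i))` and the `hv (p0 (ζ i))` are linearly independent (`D p0 (cons y ζ) ≠ 0`), so
`Lam p0 X (i+2) = - β i Lam p0 X 1`. Hence all `β i ≠ 0`, and for a dependence `c` of `pp` with support `N ∪ {y}`, `c = κ Lam pp X`:
`sign c(ζ i) = - sign (β i) sign c(x)`, and `sign c(y) = sign κ sign D pp (cons x ζ)`,
`sign c(x) = - sign κ sign D pp (cons y ζ)`: `c(y) c(x)` has the sign of `- D pp (cons x ζ) D pp (cons y ζ)`. For `pm` the sign of
`D (cons x ζ)` is the opposite one and that of `D (cons y ζ)` is the same. -/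
theorem flip_signs {pp pm p0 : ι → E d} {x : ι} {ζ : Fin d → ι} (h : Mut pp pm p0 x ζ)
    {β : Fin d → ℝ} (hβ : hv (p0 x) = ∑ i, β i • hv (p0 (ζ i))) {y : ι}
    (hy : y ∉ Set.range (Fin.cons x ζ : Fin (d + 1) → ι)) :
    (∀ c : ι → ℝ, Dep pp c → (∀ j, c j ≠ 0 ↔ j = y ∨ j ∈ Set.range (Fin.cons x ζ : Fin (d + 1) → ι)) →
      (∀ i, c (ζ i) * c x * β i < 0) ∧ c y * c x * (D pp (Fin.cons x ζ) * D pp (Fin.cons y ζ)) < 0) ∧
    ∀ c : ι → ℝ, Dep pm c → (∀ j, c j ≠ 0 ↔ j = y ∨ j ∈ Set.range (Fin.cons x ζ : Fin (d + 1) → ι)) →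
      (∀ i, c (ζ i) * c x * β i < 0) ∧ 0 < c y * c x * (D pp (Fin.cons x ζ) * D pp (Fin.cons y ζ)) := by
  set X : Fin (d + 2) → ι := Fin.cons y (Fin.cons x ζ : Fin (d + 1) → ι) with hX
  have hXinj : Function.Injective X := Flip_X_inj h hy
  have h10 : (1 : Fin (d + 2)) ≠ 0 := by
    rw [← Fin.succ_zero_eq_one]
    exact Fin.succ_ne_zero _
  have hl1 : Lam p0 X 1 ≠ 0 := by
    intro h0
    have := (Flip_same h hy h10).2
    rw [h0, mul_zero] at this
    exact lt_irrefl _ this
  have hl : ∀ i : Fin d, Lam p0 X i.succ.succ = - β i * Lam p0 X 1 := Flip_beta h hβ hy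
  have hDx : D pp (Fin.cons x ζ) ≠ 0 := h.gp _ h.inj
  have hDy : D pp (Fin.cons y ζ) ≠ 0 := h.gp _ (Flip_cons_inj h hy)
  constructor
  · intro c hc hsupp
    obtain ⟨h1, κ, hκ, h2⟩ := Flip_signs_aux X hX hXinj (Lam p0 X) hl1 hl
      (fun j hj => (Flip_same h hy hj).2) c hc hsupp
    refine ⟨h1, ?_⟩
    rw [h2]
    have h3 : 0 < κ ^ 2 * (D pp (Fin.cons x ζ) * D pp (Fin.cons y ζ)) ^ 2 := by
      have := mul_ne_zero hDx hDy
      positivity
    nlinarith
  · intro c hc hsupp
    have hs : ∀ j : Fin (d + 2), j ≠ 0 → 0 < Lam pm X j * Lam p0 X j := by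
      intro j hj
      obtain ⟨a1, a2⟩ := Flip_same h hy hj
      by_contra hcon
      push Not at hcon
      have h3 : 0 < (Lam pp X j * Lam pm X j) * (Lam pp X j * Lam p0 X j) := mul_pos a1 a2
      have h4 : (Lam pp X j * Lam pm X j) * (Lam pp X j * Lam p0 X j) =
          (Lam pp X j) ^ 2 * (Lam pm X j * Lam p0 X j) := by ring
      have h5 := mul_nonpos_of_nonneg_of_nonpos (sq_nonneg (Lam pp X j)) hcon
      linarith
    obtain ⟨h1, κ, hκ, h2⟩ := Flip_signs_aux X hX hXinj (Lam p0 X) hl1 hl hs c hc hsupp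
    refine ⟨h1, ?_⟩
    rw [h2]
    have a1 := h.opp
    have a2 := (Flip_D_ne h hy).1
    have h3 : 0 < κ ^ 2 := by positivity
    have h4 : (D pp (Fin.cons x ζ) * D pm (Fin.cons x ζ)) *
        (D pp (Fin.cons y ζ) * D pm (Fin.cons y ζ)) < 0 := mul_neg_of_neg_of_pos a1 a2
    have h5 := mul_neg_of_pos_of_neg h3 h4
    have e : -(κ ^ 2 * (D pm (Fin.cons x ζ) * D pm (Fin.cons y ζ))) *
        (D pp (Fin.cons x ζ) * D pp (Fin.cons y ζ)) = - (κ ^ 2 *
        ((D pp (Fin.cons x ζ) * D pm (Fin.cons x ζ)) *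
        (D pp (Fin.cons y ζ) * D pm (Fin.cons y ζ)))) := by ring
    rw [e]
    linarith

/-- **Effect of a mutation on the primitive Radon vector.**

Proof. Put `q = 1 + #{β < 0}`: the number of the points of `N` on the side of `x` in the dependences of `flip_signs` (`x` and the `ζ i`
with `β i < 0`; the other `d + 1 - q` points of `N` have the opposite sign). The sets `X` of `d + 2` indices which do not contain
`N` have the same type for `pp` and `pm` (`ty_congr`). The other ones are `N ∪ {y}`, `y ∉ N`. If `y` is on the side of `x` (`mu`), then for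
`pp` `y` has the sign opposite to that of `x` (`flip_signs`): the type is `{q, d + 2 - q}`, and for `pm` it has the sign of `x`: the type
is `{q + 1, d + 1 - q}`. If `y` is on the other side (`mw`), it is the other way round. Summing over `y`:
`Pc pp i - Pc pm i = (mu - mw) (tP d i q - tP d i (q + 1))`. -/
theorem flip_P {pp pm p0 : ι → E d} {x : ι} {ζ : Fin d → ι} (h : Mut pp pm p0 x ζ)
    {β : Fin d → ℝ} (hβ : hv (p0 x) = ∑ i, β i • hv (p0 (ζ i))) (i : ℕ) :
    (Pc pp i : ℤ) = Pc pm i + ((mu pp x ζ : ℤ) - mw pp x ζ) *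
      (tP d i (1 + (Finset.univ.filter fun i => β i < 0).card) -
        tP d i (1 + (Finset.univ.filter fun i => β i < 0).card + 1)) := by
  classical
  set q := 1 + (Finset.univ.filter fun i => β i < 0).card with hq
  set Nf : Finset ι := Finset.univ.image (Fin.cons x ζ : Fin (d + 1) → ι) with hNf
  have hNcard : Nf.card = d + 1 := Flip_card_image h.inj
  have hNmem : ∀ y, y ∈ Nf ↔ y ∈ Set.range (Fin.cons x ζ : Fin (d + 1) → ι) := by
    intro y
    rw [hNf, Finset.mem_image]
    simp only [Finset.mem_univ, true_and, Set.mem_range]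
  have hsum : ∀ p : ι → E d, (Pc p i : ℤ) =
      ∑ X ∈ Finset.univ.powersetCard (d + 2), (if Ty p X i then (1 : ℤ) else 0) := by
    intro p
    unfold Pc
    rw [Finset.card_filter]
    push_cast
    exact Finset.sum_congr rfl (fun X _ => by split_ifs <;> rfl)
  have hdiff : (Pc pp i : ℤ) - Pc pm i =
      ∑ y ∈ Finset.univ.filter (fun y => y ∉ Set.range (Fin.cons x ζ : Fin (d + 1) → ι)),
        ((if Ty pp (insert y Nf) i then (1 : ℤ) else 0) -
          (if Ty pm (insert y Nf) i then (1 : ℤ) else 0)) := by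
    rw [hsum, hsum, ← Finset.sum_sub_distrib]
    have h1 : ∑ y ∈ Finset.univ.filter (fun y => y ∉ Set.range (Fin.cons x ζ : Fin (d + 1) → ι)),
        ((if Ty pp (insert y Nf) i then (1 : ℤ) else 0) -
          (if Ty pm (insert y Nf) i then (1 : ℤ) else 0)) =
        ∑ X ∈ (Finset.univ.filter
          (fun y => y ∉ Set.range (Fin.cons x ζ : Fin (d + 1) → ι))).image (fun y => insert y Nf),
        ((if Ty pp X i then (1 : ℤ) else 0) - (if Ty pm X i then (1 : ℤ) else 0)) := by
      rw [Finset.sum_image]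
      intro y hy y' hy' hyy
      have h2 : y ∉ Nf := by
        rw [hNmem]
        exact (Finset.mem_filter.1 hy).2
      have h3 : y ∈ insert y' Nf := by
        have : insert y Nf = insert y' Nf := hyy
        rw [← this]
        exact Finset.mem_insert_self _ _
      rcases Finset.mem_insert.1 h3 with h4 | h4
      · exact h4
      · exact absurd h4 h2
    rw [h1]
    symm
    refine Finset.sum_subset ?_ ?_
    · intro X hX
      obtain ⟨y, hy, rfl⟩ := Finset.mem_image.1 hX
      rw [Finset.mem_powersetCard]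
      refine ⟨Finset.subset_univ _, ?_⟩
      rw [Finset.card_insert_of_notMem, hNcard]
      rw [hNmem]
      exact (Finset.mem_filter.1 hy).2
    · intro X hX hX'
      have hXc := (Finset.mem_powersetCard.1 hX).2
      have hnot : ¬ Nf ⊆ X := by
        intro hsub
        apply hX'
        obtain ⟨y, hy, hyX⟩ := Finset.exists_eq_insert_iff.2 ⟨hsub, by rw [hNcard, hXc]⟩
        rw [Finset.mem_image]
        refine ⟨y, Finset.mem_filter.2 ⟨Finset.mem_univ _, ?_⟩, hyX⟩
        rw [← hNmem]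
        exact hy
      have hiff : Ty pp X i ↔ Ty pm X i := by
        refine ty_congr h.gp h.gm X hXc (fun I hI hIX => ?_) i
        refine (h.same I hI ?_).1
        intro he
        apply hnot
        intro z hz
        rw [hNmem, ← he] at hz
        obtain ⟨r, hr⟩ := hz
        rw [← hr]
        exact hIX r
      simp only [hiff, sub_self]
  -- the types of the sets `insert y N`
  have hkey : ∀ y, y ∉ Set.range (Fin.cons x ζ : Fin (d + 1) → ι) →
      ((if Ty pp (insert y Nf) i then (1 : ℤ) else 0) -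
        (if Ty pm (insert y Nf) i then (1 : ℤ) else 0)) =
      if 0 < D pp (Fin.cons y ζ) * D pp (Fin.cons x ζ) then tP d i q - tP d i (q + 1)
        else -(tP d i q - tP d i (q + 1)) := by
    intro y hy
    have hyN : y ∉ Nf := by
      rw [hNmem]
      exact hy
    have hXc : (insert y Nf).card = d + 2 := by
      rw [Finset.card_insert_of_notMem hyN, hNcard]
    obtain ⟨hs1, hs2⟩ := flip_signs h hβ hy
    have hsupp : ∀ c : ι → ℝ, (∀ j, c j ≠ 0 ↔ j ∈ insert y Nf) →
        ∀ j, c j ≠ 0 ↔ j = y ∨ j ∈ Set.range (Fin.cons x ζ : Fin (d + 1) → ι) := by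
      intro c hc j
      rw [hc j, Finset.mem_insert, hNmem]
    obtain ⟨i1, c1, hc1, hd1, -⟩ := ty_exists h.gp hXc
    obtain ⟨i2, c2, hc2, hd2, -⟩ := ty_exists h.gm hXc
    obtain ⟨a1, a2⟩ := hs1 c1 hc1 (hsupp c1 hd1)
    obtain ⟨b1, b2⟩ := hs2 c2 hc2 (hsupp c2 hd2)
    have t1 := Flip_ty h.inj hy hc1 (hsupp c1 hd1) a1
    have t2 := Flip_ty h.inj hy hc2 (hsupp c2 hd2) b1
    rw [← hNf, ← hq] at t1 t2
    have hDx : D pp (Fin.cons x ζ) ≠ 0 := h.gp _ h.inj
    have hDy : D pp (Fin.cons y ζ) ≠ 0 := h.gp _ (Flip_cons_inj h hy)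
    have htP : ∀ (p : ι → E d) (_ : GPc p) (j : ℕ) (_ : Ty p (insert y Nf) j),
        (if Ty p (insert y Nf) i then (1 : ℤ) else 0) = tP d i j := by
      intro p hp j hj
      have h1 := ty_cases (i' := i) hp hXc hj
      unfold tP
      refine if_congr ?_ rfl rfl
      rw [h1, add_comm j i]
    by_cases hpos : 0 < D pp (Fin.cons y ζ) * D pp (Fin.cons x ζ)
    · rw [if_pos hpos]
      have hpos' : 0 < D pp (Fin.cons x ζ) * D pp (Fin.cons y ζ) := by rwa [mul_comm]
      have h1 : c1 y * c1 x < 0 := by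
        by_contra hcon
        push Not at hcon
        have := mul_nonneg hcon hpos'.le
        linarith
      have h2 : 0 < c2 y * c2 x := by
        by_contra hcon
        push Not at hcon
        have := mul_nonpos_of_nonpos_of_nonneg hcon hpos'.le
        linarith
      rw [htP pp h.gp q (t1.1 h1), htP pm h.gm (q + 1) (t2.2 h2)]
    · rw [if_neg hpos]
      have hneg : D pp (Fin.cons x ζ) * D pp (Fin.cons y ζ) < 0 := by
        have h1 := mul_ne_zero hDx hDy
        have h2 : ¬ 0 < D pp (Fin.cons x ζ) * D pp (Fin.cons y ζ) := by rwa [mul_comm]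
        exact lt_of_le_of_ne (not_lt.1 h2) h1
      have h1 : 0 < c1 y * c1 x := by
        by_contra hcon
        push Not at hcon
        have := mul_nonneg_of_nonpos_of_nonpos hcon hneg.le
        linarith
      have h2 : c2 y * c2 x < 0 := by
        by_contra hcon
        push Not at hcon
        have := mul_nonpos_of_nonneg_of_nonpos hcon hneg.le
        linarith
      rw [htP pp h.gp (q + 1) (t1.2 h1), htP pm h.gm q (t2.1 h2)]
      ring
  have hmu : (mu pp x ζ : ℤ) = ∑ y ∈ Finset.univ.filter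
      (fun y => y ∉ Set.range (Fin.cons x ζ : Fin (d + 1) → ι)),
        if 0 < D pp (Fin.cons y ζ) * D pp (Fin.cons x ζ) then (1 : ℤ) else 0 := by
    unfold mu
    rw [← Finset.filter_filter, Finset.card_filter]
    push_cast
    exact Finset.sum_congr rfl (fun y _ => by split_ifs <;> rfl)
  have hmw : (mw pp x ζ : ℤ) = ∑ y ∈ Finset.univ.filter
      (fun y => y ∉ Set.range (Fin.cons x ζ : Fin (d + 1) → ι)),
        if 0 < D pp (Fin.cons y ζ) * D pp (Fin.cons x ζ) then (0 : ℤ) else 1 := by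
    unfold mw
    rw [← Finset.filter_filter, Finset.card_filter]
    push_cast
    refine Finset.sum_congr rfl (fun y hy => ?_)
    have hy' := (Finset.mem_filter.1 hy).2
    have hDx : D pp (Fin.cons x ζ) ≠ 0 := h.gp _ h.inj
    have hDy : D pp (Fin.cons y ζ) ≠ 0 := h.gp _ (Flip_cons_inj h hy')
    rcases lt_or_gt_of_ne (mul_ne_zero hDy hDx) with h4 | h4
    · rw [if_pos h4, if_neg (not_lt.2 h4.le)]
    · rw [if_neg (not_lt.2 h4.le), if_pos h4]
  have hfin : (Pc pp i : ℤ) - Pc pm i = ((mu pp x ζ : ℤ) - mw pp x ζ) *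
      (tP d i q - tP d i (q + 1)) := by
    rw [hdiff, hmu, hmw, ← Finset.sum_sub_distrib, Finset.sum_mul]
    refine Finset.sum_congr rfl (fun y hy => ?_)
    rw [hkey y (Finset.mem_filter.1 hy).2]
    split_ifs <;> ring
  linarith

/-- If `card ι ≥ d + 2` the coefficients `β` exist. Proof. There is `y ∉ N`; `D p0 (cons y ζ) ≠ 0` (`Mut.same`), so the
`hv (p0 (ζ i))` are linearly independent, and `D p0 (cons x ζ) = 0`. -/
theorem exists_beta {pp pm p0 : ι → E d} {x : ι} {ζ : Fin d → ι} (h : Mut pp pm p0 x ζ)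
    (hι : d + 2 ≤ Fintype.card ι) : ∃ β : Fin d → ℝ, hv (p0 x) = ∑ i, β i • hv (p0 (ζ i)) := by
  classical
  obtain ⟨y, hy⟩ : ∃ y, y ∉ Set.range (Fin.cons x ζ : Fin (d + 1) → ι) := by
    by_contra hcon
    push Not at hcon
    have h1 : Finset.univ ⊆ Finset.univ.image (Fin.cons x ζ : Fin (d + 1) → ι) := by
      intro z _
      obtain ⟨k, hk⟩ := hcon z
      exact Finset.mem_image.2 ⟨k, Finset.mem_univ _, hk⟩
    have h2 := Finset.card_le_card h1
    rw [Flip_card_image h.inj, Finset.card_univ] at h2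
    omega
  have hD : D p0 (Fin.cons y ζ) ≠ 0 := by
    intro h1
    have := (Flip_D_ne h hy).2
    rw [h1, mul_zero] at this
    exact lt_irrefl _ this
  have hz := h.zero
  unfold D at hz
  obtain ⟨v, hv0, hv1⟩ := Matrix.exists_vecMul_eq_zero_iff.2 hz
  have hv2 : ∑ r, v r • hv (p0 ((Fin.cons x ζ : Fin (d + 1) → ι) r)) = 0 := by
    funext k
    have := congrFun hv1 k
    simpa [Matrix.vecMul, dotProduct, Finset.sum_apply] using this
  rw [Fin.sum_univ_succ] at hv2
  simp only [Fin.cons_zero, Fin.cons_succ] at hv2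
  have hv00 : v 0 ≠ 0 := by
    intro h0
    rw [h0, zero_smul, zero_add] at hv2
    have h1 := Flip_ind hD (fun i => v i.succ) hv2
    apply hv0
    funext k
    refine Fin.cases h0 (fun i => ?_) k
    exact congrFun h1 i
  refine ⟨fun i => - (v 0)⁻¹ * v i.succ, ?_⟩
  have h1 : v 0 • hv (p0 x) = - ∑ i, v i.succ • hv (p0 (ζ i)) := eq_neg_of_add_eq_zero_left hv2
  have h2 : hv (p0 x) = (v 0)⁻¹ • (v 0 • hv (p0 x)) := by
    rw [smul_smul, inv_mul_cancel₀ hv00, one_smul]
  rw [h2, h1, smul_neg, Finset.smul_sum, ← Finset.sum_neg_distrib]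
  refine Finset.sum_congr rfl (fun i _ => ?_)
  rw [smul_smul, ← neg_smul, ← neg_mul]

end Pool.Agent.RVM
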