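import Pool.Agent.MP_c130bd_co.RVM.Avoid

set_option autoImplicit false

namespace Pool.Agent.RVM

/-! ## [RVM-GAL] galleries in hyperplane arrangements -/

variable {d : ℕ}

/-- `a` and `b` are in the same cell, or in two cells which are separated by exactly one of the hyperplanes; `m` is a point
between them. -/
def GStep {κ : Type*} (ℓ : κ → E d →ᵃ[ℝ] ℝ) (U : Set (E d)) (a b : E d) : Prop :=
  a ∈ U ∧ b ∈ U ∧ (∀ k, ℓ k a ≠ 0) ∧ (∀ k, ℓ k b ≠ 0) ∧
    ((∀ k, 0 < ℓ k a * ℓ k b) ∨ ∃ k₀, ∃ m ∈ U, ℓ k₀ m = 0 ∧ ℓ k₀ a * ℓ k₀ b < 0 ∧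
      ∀ k, k ≠ k₀ → 0 < ℓ k a * ℓ k b ∧ 0 < ℓ k a * ℓ k m)

private theorem Gallery_affine_zero (ψ : E d →ᵃ[ℝ] ℝ) {W : Set (E d)} (hW : IsOpen W) {w : E d}
    (hw : w ∈ W) (h : ∀ v ∈ W, ψ v = 0) (v : E d) : ψ v = 0 := by
  have hc : Continuous fun t : ℝ => AffineMap.lineMap w v t := by
    exact AffineMap.lineMap_continuous
  have h0 : (fun t : ℝ => (AffineMap.lineMap w v t : E d)) ⁻¹' W ∈ nhds (0 : ℝ) :=
    (hW.preimage hc).mem_nhds (by simpa using hw)
  have h1 : ∀ᶠ t in nhdsWithin (0:ℝ) (Set.Ioi 0), (AffineMap.lineMap w v t : E d) ∈ W :=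
    nhdsWithin_le_nhds h0
  obtain ⟨t, ht, ht0⟩ := (h1.and self_mem_nhdsWithin).exists
  have h2 := h _ ht
  rw [AffineMap.apply_lineMap, h w hw, AffineMap.lineMap_apply] at h2
  simp only [vsub_eq_sub, sub_zero, smul_eq_mul, vadd_eq_add, add_zero] at h2
  rcases mul_eq_zero.mp h2 with h3 | h3
  · exact absurd h3 (ne_of_gt ht0)
  · exact h3

private theorem Gallery_val (ℓ : E d →ᵃ[ℝ] ℝ) (e e₁ : E d) (t : ℝ) :
    ℓ (AffineMap.lineMap e e₁ t) = ℓ e - t * (ℓ e - ℓ e₁) := by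
  rw [AffineMap.apply_lineMap, AffineMap.lineMap_apply]
  simp only [vsub_eq_sub, smul_eq_mul, vadd_eq_add]
  ring

private theorem Gallery_mem_segment (e e₁ : E d) {t : ℝ} (h0 : 0 ≤ t) (h1 : t ≤ 1) :
    AffineMap.lineMap e e₁ t ∈ segment ℝ e e₁ := by
  rw [segment_eq_image_lineMap]
  exact ⟨t, ⟨h0, h1⟩, rfl⟩

/-- the gallery along a generic segment -/
private theorem Gallery_seg {κ : Type*} [Fintype κ] [DecidableEq κ] (ℓ : κ → E d →ᵃ[ℝ] ℝ)
    {U : Set (E d)} (hUc : Convex ℝ U) {e e₁ : E d} (he : e ∈ U) (he₁ : e₁ ∈ U)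
    (h : ∀ k, ℓ k e ≠ 0) (h₁ : ∀ k, ℓ k e₁ ≠ 0)
    (hT : ∀ k k', k ≠ k' → ℓ k e * ℓ k e₁ < 0 → ℓ k' e * ℓ k' e₁ < 0 →
      ℓ k e / (ℓ k e - ℓ k e₁) ≠ ℓ k' e / (ℓ k' e - ℓ k' e₁)) (n : ℕ) :
    ∀ s : ℝ, 0 ≤ s → s ≤ 1 →
      (∀ k, ℓ k e * ℓ k e₁ < 0 → ℓ k e / (ℓ k e - ℓ k e₁) ≠ s) →
      (Finset.univ.filter fun k => ℓ k e * ℓ k e₁ < 0 ∧ ℓ k e / (ℓ k e - ℓ k e₁) < s).card = n →
      Relation.ReflTransGen (GStep ℓ U) e (AffineMap.lineMap e e₁ s) := by
  classical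
  have hmem : ∀ t : ℝ, 0 ≤ t → t ≤ 1 → (AffineMap.lineMap e e₁ t : E d) ∈ U := by
    intro t ht0 ht1
    exact hUc.segment_subset he he₁ (Gallery_mem_segment e e₁ ht0 ht1)
  -- the crossing functionals
  have hcr : ∀ k, ℓ k e * ℓ k e₁ < 0 → ∀ t : ℝ,
      ℓ k (AffineMap.lineMap e e₁ t) = (ℓ k e - ℓ k e₁) * (ℓ k e / (ℓ k e - ℓ k e₁) - t) ∧
        ℓ k e - ℓ k e₁ ≠ 0 := by
    intro k hk t
    have hne : ℓ k e - ℓ k e₁ ≠ 0 := by
      intro h0
      have h1 : ℓ k e = ℓ k e₁ := by linarith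
      rw [h1] at hk
      nlinarith [mul_self_nonneg (ℓ k e₁)]
    refine ⟨?_, hne⟩
    rw [Gallery_val]
    field_simp
  have hnc : ∀ k, ¬ ℓ k e * ℓ k e₁ < 0 → ∀ t : ℝ, 0 ≤ t → t ≤ 1 →
      0 < ℓ k e * ℓ k (AffineMap.lineMap e e₁ t) := by
    intro k hk t ht0 ht1
    rw [Gallery_val]
    have h1 : 0 < ℓ k e * ℓ k e₁ :=
      lt_of_le_of_ne (not_lt.mp hk) (Ne.symm (mul_ne_zero (h k) (h₁ k)))
    have h2 : 0 < ℓ k e * ℓ k e := mul_self_pos.mpr (h k)
    have h3 : ℓ k e * (ℓ k e - t * (ℓ k e - ℓ k e₁)) =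
        (1 - t) * (ℓ k e * ℓ k e) + t * (ℓ k e * ℓ k e₁) := by ring
    rw [h3]
    rcases eq_or_lt_of_le ht0 with h4 | h4
    · rw [← h4]; linarith
    · have := mul_pos h4 h1
      have := mul_nonneg (sub_nonneg.mpr ht1) h2.le
      linarith
  have hpp : ∀ a x y : ℝ, 0 < a * x → 0 < a * y → 0 < x * y := by
    intro a x y hx hy
    rcases lt_trichotomy a 0 with ha | ha | ha
    · have h1 : x < 0 := by
        by_contra hx'
        push Not at hx'
        nlinarith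
      have h2 : y < 0 := by
        by_contra hy'
        push Not at hy'
        nlinarith
      exact mul_pos_of_neg_of_neg h1 h2
    · rw [ha] at hx; simp at hx
    · exact mul_pos ((mul_pos_iff_of_pos_left ha).mp hx) ((mul_pos_iff_of_pos_left ha).mp hy)
  induction n using Nat.strong_induction_on with
  | _ n ih =>
  intro s hs0 hs1 hs hcard
  have hnz : ∀ t : ℝ, 0 ≤ t → t ≤ 1 →
      (∀ k, ℓ k e * ℓ k e₁ < 0 → ℓ k e / (ℓ k e - ℓ k e₁) ≠ t) →
      ∀ k, ℓ k (AffineMap.lineMap e e₁ t) ≠ 0 := by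
    intro t ht0 ht1 ht k
    by_cases hk : ℓ k e * ℓ k e₁ < 0
    · rw [(hcr k hk t).1]
      exact mul_ne_zero (hcr k hk t).2 (sub_ne_zero.mpr (ht k hk))
    · intro h0
      have := hnc k hk t ht0 ht1
      rw [h0] at this
      simp at this
  set F := Finset.univ.filter fun k => ℓ k e * ℓ k e₁ < 0 ∧ ℓ k e / (ℓ k e - ℓ k e₁) < s with hF
  rcases F.eq_empty_or_nonempty with hFe | hFn
  · -- no crossing
    refine Relation.ReflTransGen.single ⟨he, hmem s hs0 hs1, h, hnz s hs0 hs1 hs, Or.inl ?_⟩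
    intro k
    by_cases hk : ℓ k e * ℓ k e₁ < 0
    · have h1 : ¬ ℓ k e / (ℓ k e - ℓ k e₁) < s := by
        intro hlt
        have : k ∈ F := by
          rw [hF]; simp only [Finset.mem_filter, Finset.mem_univ, true_and]; exact ⟨hk, hlt⟩
        rw [hFe] at this
        simp at this
      have h2 : s < ℓ k e / (ℓ k e - ℓ k e₁) := lt_of_le_of_ne (not_lt.mp h1) (Ne.symm (hs k hk))
      have h3 := (hcr k hk 0).1
      rw [AffineMap.lineMap_apply_zero] at h3
      have h4 := (hcr k hk s).1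
      rw [h4]
      have h5 : ℓ k e = (ℓ k e - ℓ k e₁) * (ℓ k e / (ℓ k e - ℓ k e₁)) := by
        rw [mul_div_cancel₀ _ (hcr k hk 0).2]
      have h6 : 0 < (ℓ k e - ℓ k e₁) * (ℓ k e - ℓ k e₁) := mul_self_pos.mpr (hcr k hk 0).2
      have h7 : 0 < ℓ k e / (ℓ k e - ℓ k e₁) := lt_of_le_of_lt hs0 h2
      have h8 : ℓ k e * ((ℓ k e - ℓ k e₁) * (ℓ k e / (ℓ k e - ℓ k e₁) - s)) =
          ((ℓ k e - ℓ k e₁) * (ℓ k e - ℓ k e₁)) * ((ℓ k e / (ℓ k e - ℓ k e₁)) *
            (ℓ k e / (ℓ k e - ℓ k e₁) - s)) := by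
        nth_rewrite 1 [h5]; ring
      rw [h8]
      exact mul_pos h6 (mul_pos h7 (by linarith))
    · exact hnc k hk s hs0 hs1
  · obtain ⟨k₀, hk₀F, hk₀⟩ := F.exists_max_image (fun k => ℓ k e / (ℓ k e - ℓ k e₁)) hFn
    have hk₀' := hk₀F
    rw [hF] at hk₀'
    simp only [Finset.mem_filter, Finset.mem_univ, true_and] at hk₀'
    obtain ⟨hck, hTs⟩ := hk₀'
    set T₀ := ℓ k₀ e / (ℓ k₀ e - ℓ k₀ e₁) with hT₀
    have hT0pos : 0 < T₀ := by
      rw [hT₀]
      rcases lt_trichotomy (ℓ k₀ e) 0 with h1 | h1 | h1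
      · have h2 : 0 < ℓ k₀ e₁ := by
          by_contra h3
          push Not at h3
          nlinarith
        exact div_pos_of_neg_of_neg h1 (by linarith)
      · exact absurd h1 (h k₀)
      · have h2 : ℓ k₀ e₁ < 0 := by
          by_contra h3
          push Not at h3
          nlinarith
        exact div_pos h1 (by linarith)
    have hex : ∀ᶠ t in nhdsWithin T₀ (Set.Iio T₀), 0 < t ∧
        ∀ k, ℓ k e / (ℓ k e - ℓ k e₁) < T₀ → ℓ k e / (ℓ k e - ℓ k e₁) < t := by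
      refine Filter.Eventually.and ?_ ?_
      · exact Filter.mem_of_superset (Ioo_mem_nhdsLT hT0pos) fun t ht => ht.1
      · rw [Filter.eventually_all]
        intro k
        by_cases hk : ℓ k e / (ℓ k e - ℓ k e₁) < T₀
        · exact Filter.mem_of_superset (Ioo_mem_nhdsLT hk) fun t ht _ => ht.1
        · exact Filter.Eventually.of_forall fun t h => absurd h hk
    obtain ⟨s', ⟨hs'0, hs'⟩, hs'T⟩ := (hex.and self_mem_nhdsWithin).exists
    have hs'T : s' < T₀ := hs'T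
    have hs's : s' < s := hs'T.trans hTs
    have hs'1 : s' ≤ 1 := hs's.le.trans hs1
    have hs'ne : ∀ k, ℓ k e * ℓ k e₁ < 0 → ℓ k e / (ℓ k e - ℓ k e₁) ≠ s' := by
      intro k hk heq
      have := hs' k (by rw [heq]; exact hs'T)
      rw [heq] at this
      exact lt_irrefl _ this
    have hcard' : (Finset.univ.filter fun k => ℓ k e * ℓ k e₁ < 0 ∧
        ℓ k e / (ℓ k e - ℓ k e₁) < s').card < n := by
      rw [← hcard]
      refine Finset.card_lt_card ?_
      rw [Finset.ssubset_iff_of_subset]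
      · refine ⟨k₀, hk₀F, ?_⟩
        simp only [Finset.mem_filter, Finset.mem_univ, true_and, not_and, not_lt]
        intro _
        exact hs'T.le
      · intro k hk
        simp only [Finset.mem_filter, Finset.mem_univ, true_and] at hk
        rw [hF]
        simp only [Finset.mem_filter, Finset.mem_univ, true_and]
        exact ⟨hk.1, hk.2.trans hs's⟩
    have hstep := ih _ hcard' s' hs'0.le hs'1 hs'ne rfl
    refine Relation.ReflTransGen.tail hstep ?_
    refine ⟨hmem s' hs'0.le hs'1, hmem s hs0 hs1, hnz s' hs'0.le hs'1 hs'ne,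
      hnz s hs0 hs1 hs, Or.inr ⟨k₀, AffineMap.lineMap e e₁ T₀,
        hmem T₀ hT0pos.le (hTs.le.trans hs1), ?_, ?_, ?_⟩⟩
    · rw [(hcr k₀ hck T₀).1, ← hT₀, sub_self, mul_zero]
    · rw [(hcr k₀ hck s').1, (hcr k₀ hck s).1, ← hT₀]
      have h1 : 0 < (ℓ k₀ e - ℓ k₀ e₁) * (ℓ k₀ e - ℓ k₀ e₁) := mul_self_pos.mpr (hcr k₀ hck 0).2
      have h2 : (T₀ - s') * (T₀ - s) < 0 :=
        mul_neg_of_pos_of_neg (by linarith) (by linarith)
      calc (ℓ k₀ e - ℓ k₀ e₁) * (T₀ - s') * ((ℓ k₀ e - ℓ k₀ e₁) * (T₀ - s))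
          = ((ℓ k₀ e - ℓ k₀ e₁) * (ℓ k₀ e - ℓ k₀ e₁)) * ((T₀ - s') * (T₀ - s)) := by ring
        _ < 0 := mul_neg_of_pos_of_neg h1 h2
    · intro k hkk
      by_cases hk : ℓ k e * ℓ k e₁ < 0
      · have hne : ℓ k e / (ℓ k e - ℓ k e₁) ≠ T₀ := hT k k₀ hkk hk hck
        have h1 : 0 < (ℓ k e - ℓ k e₁) * (ℓ k e - ℓ k e₁) := mul_self_pos.mpr (hcr k hk 0).2
        rw [(hcr k hk s').1, (hcr k hk s).1, (hcr k hk T₀).1]
        set Tk := ℓ k e / (ℓ k e - ℓ k e₁) with hTk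
        have key : 0 < (Tk - s') * (Tk - s) ∧ 0 < (Tk - s') * (Tk - T₀) := by
          rcases lt_or_gt_of_ne hne with hlt | hgt
          · have h2 := hs' k hlt
            rw [← hTk] at h2
            exact ⟨mul_pos_of_neg_of_neg (by linarith) (by linarith),
              mul_pos_of_neg_of_neg (by linarith) (by linarith)⟩
          · have h2 : ¬ Tk < s := by
              intro hlt
              have hkF : k ∈ F := by
                rw [hF]; simp only [Finset.mem_filter, Finset.mem_univ, true_and]; exact ⟨hk, hlt⟩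
              have := hk₀ k hkF
              simp only [← hTk] at this
              linarith
            have h3 : s < Tk := lt_of_le_of_ne (not_lt.mp h2) (Ne.symm (hs k hk))
            exact ⟨mul_pos (by linarith) (by linarith), mul_pos (by linarith) (by linarith)⟩
        constructor
        · calc (0:ℝ) < ((ℓ k e - ℓ k e₁) * (ℓ k e - ℓ k e₁)) * ((Tk - s') * (Tk - s)) :=
              mul_pos h1 key.1
            _ = _ := by ring
        · calc (0:ℝ) < ((ℓ k e - ℓ k e₁) * (ℓ k e - ℓ k e₁)) * ((Tk - s') * (Tk - T₀)) :=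
              mul_pos h1 key.2
            _ = _ := by ring
      · exact ⟨hpp _ _ _ (hnc k hk s' hs'0.le hs'1) (hnc k hk s hs0 hs1),
          hpp _ _ _ (hnc k hk s' hs'0.le hs'1) (hnc k hk T₀ hT0pos.le (hTs.le.trans hs1))⟩

/-- Any two points of a convex open set `U` outside of the hyperplanes are joined by a gallery in `U`.

Proof. (1) Choose `e₁ ∈ U` near `e'`, with `0 < ℓ k e' * ℓ k e₁` for all `k` and the following: for all `k ≠ k'` for which `ℓ k` and
`ℓ k'` both vanish somewhere in `U` one has `ℓ k e * ℓ k' e₁ - ℓ k' e * ℓ k e₁ ≠ 0`. This is possible by `avoid` (`W` = a small ball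
around `e'`, the functionals `ℓ k e • ℓ k' - ℓ k' e • ℓ k`, which are not `0` by `hnp`: otherwise `ℓ k' = (ℓ k' e / ℓ k e) ℓ k`; a
nonzero affine functional does not vanish on a ball). The last step `e₁ → e'` is a `GStep` of the first kind.
(2) On the segment `γ t = e + t (e₁ - e)` the functional `ℓ k` has a zero in `(0, 1)` iff `ℓ k e * ℓ k e₁ < 0`, and then it is
`t_k = ℓ k e / (ℓ k e - ℓ k e₁)`, `γ t_k ∈ U`. By the choice of `e₁` the `t_k` are distinct for distinct such `k`. Let `0 < t_1 < … < t_r < 1` be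
these numbers, choose `s_0 = 0 < t_1 < s_1 < t_2 < … < t_r < s_r = 1`; `γ s_{i-1} → γ s_i` is a `GStep` (`m = γ t_i`). (Formally for
instance: induction on the number of the `k` with `t_k < s`, for the statement: `e` and `γ s` are joined if `s` is none of the `t_k`.) -/
theorem gallery {κ : Type*} [Finite κ] (ℓ : κ → E d →ᵃ[ℝ] ℝ) {U : Set (E d)} (hUo : IsOpen U)
    (hUc : Convex ℝ U) {e e' : E d} (he : e ∈ U) (he' : e' ∈ U) (h : ∀ k, ℓ k e ≠ 0)
    (h' : ∀ k, ℓ k e' ≠ 0)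
    (hnp : ∀ k k', k ≠ k' → (∀ v ∈ U, ℓ k v ≠ 0) ∨ (∀ v ∈ U, ℓ k' v ≠ 0) ∨
      ¬ ∃ c : ℝ, ∀ v, ℓ k' v = c * ℓ k v) :
    Relation.ReflTransGen (GStep ℓ U) e e' := by
  classical
  have : Fintype κ := Fintype.ofFinite κ
  -- the cell of `e'`
  let W : Set (E d) := U ∩ ⋂ k, {v | 0 < ℓ k e' * ℓ k v}
  have hcont : ∀ k, Continuous (ℓ k) := fun k => (ℓ k).continuous_of_finiteDimensional
  have hWo : IsOpen W := by
    refine hUo.inter (isOpen_iInter_of_finite fun k => ?_)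
    exact isOpen_lt continuous_const (continuous_const.mul (hcont k))
  have hWc : Convex ℝ W := by
    refine hUc.inter (convex_iInter fun k => ?_)
    have : {v : E d | 0 < ℓ k e' * ℓ k v} = (ℓ k) ⁻¹' {x : ℝ | 0 < ℓ k e' * x} := rfl
    rw [this]
    refine Convex.affine_preimage (ℓ k) ?_
    intro x hx y hy a b ha hb hab
    simp only [Set.mem_ofPred_eq, smul_eq_mul] at hx hy ⊢
    have h1 : ℓ k e' * (a * x + b * y) = a * (ℓ k e' * x) + b * (ℓ k e' * y) := by ring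
    rw [h1]
    rcases eq_or_lt_of_le ha with h2 | h2
    · have h3 : b = 1 := by linarith
      rw [← h2, h3]; linarith
    · have := mul_pos h2 hx
      have := mul_nonneg hb hy.le
      linarith
  have he'W : e' ∈ W := by
    refine ⟨he', ?_⟩
    simp only [Set.mem_iInter, Set.mem_ofPred_eq]
    exact fun k => mul_self_pos.mpr (h' k)
  -- the generic point
  let K := {q : κ × κ // q.1 ≠ q.2 ∧ (∃ v ∈ U, ℓ q.1 v = 0) ∧ ∃ v ∈ U, ℓ q.2 v = 0}
  obtain ⟨e₁, he₁W, he₁⟩ := avoid (κ := K) hWc ⟨e', he'W⟩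
    (fun q => (ℓ q.1.1 e) • ℓ q.1.2 - (ℓ q.1.2 e) • ℓ q.1.1) (by
      rintro ⟨⟨k, k'⟩, hkk, hz, hz'⟩
      by_contra hcon
      push Not at hcon
      simp only at hcon hkk hz hz'
      have hall := Gallery_affine_zero _ hWo he'W hcon
      rcases hnp k k' hkk with h1 | h1 | h1
      · obtain ⟨v, hv, hv0⟩ := hz
        exact h1 v hv hv0
      · obtain ⟨v, hv, hv0⟩ := hz'
        exact h1 v hv hv0
      · apply h1
        refine ⟨ℓ k' e / ℓ k e, fun v => ?_⟩
        have h2 := hall v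
        simp only [AffineMap.coe_sub, AffineMap.coe_smul, Pi.sub_apply, Pi.smul_apply,
          smul_eq_mul] at h2
        have h3 := h k
        field_simp
        linarith)
  have he₁U : e₁ ∈ U := he₁W.1
  have hsame : ∀ k, 0 < ℓ k e' * ℓ k e₁ := by
    have := he₁W.2
    simp only [Set.mem_iInter, Set.mem_ofPred_eq] at this
    exact this
  have h₁ : ∀ k, ℓ k e₁ ≠ 0 := by
    intro k h0
    have := hsame k
    rw [h0] at this
    simp at this
  have hTbd : ∀ k, ℓ k e * ℓ k e₁ < 0 → 0 < ℓ k e / (ℓ k e - ℓ k e₁) ∧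
      ℓ k e / (ℓ k e - ℓ k e₁) < 1 := by
    intro k hk
    rcases lt_trichotomy (ℓ k e) 0 with h1 | h1 | h1
    · have h2 : 0 < ℓ k e₁ := by
        by_contra h3
        push Not at h3
        nlinarith
      refine ⟨div_pos_of_neg_of_neg h1 (by linarith), ?_⟩
      rw [div_lt_one_of_neg (by linarith)]
      linarith
    · exact absurd h1 (h k)
    · have h2 : ℓ k e₁ < 0 := by
        by_contra h3
        push Not at h3
        nlinarith
      refine ⟨div_pos h1 (by linarith), ?_⟩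
      rw [div_lt_one (by linarith)]
      linarith
  have hzero : ∀ k, ℓ k e * ℓ k e₁ < 0 → ∃ v ∈ U, ℓ k v = 0 := by
    intro k hk
    have hb := hTbd k hk
    refine ⟨AffineMap.lineMap e e₁ (ℓ k e / (ℓ k e - ℓ k e₁)),
      hUc.segment_subset he he₁U (Gallery_mem_segment e e₁ hb.1.le hb.2.le), ?_⟩
    rw [Gallery_val]
    have hne : ℓ k e - ℓ k e₁ ≠ 0 := by
      intro h0
      rw [h0] at hb
      simp at hb
    rw [div_mul_cancel₀ _ hne]
    ring
  have hT : ∀ k k', k ≠ k' → ℓ k e * ℓ k e₁ < 0 → ℓ k' e * ℓ k' e₁ < 0 →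
      ℓ k e / (ℓ k e - ℓ k e₁) ≠ ℓ k' e / (ℓ k' e - ℓ k' e₁) := by
    intro k k' hkk hk hk' heq
    have hne : ℓ k e - ℓ k e₁ ≠ 0 := by
      intro h0
      have := (hTbd k hk).1
      rw [h0] at this
      simp at this
    have hne' : ℓ k' e - ℓ k' e₁ ≠ 0 := by
      intro h0
      have := (hTbd k' hk').1
      rw [h0] at this
      simp at this
    have h1 := he₁ ⟨(k, k'), hkk, hzero k hk, hzero k' hk'⟩
    simp only [AffineMap.coe_sub, AffineMap.coe_smul, Pi.sub_apply, Pi.smul_apply,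
          smul_eq_mul] at h1
    rw [div_eq_div_iff hne hne'] at heq
    apply h1
    linarith
  have hseg := Gallery_seg ℓ hUc he he₁U h h₁ hT _ 1 zero_le_one le_rfl
    (fun k hk => ne_of_lt (hTbd k hk).2) rfl
  rw [AffineMap.lineMap_apply_one] at hseg
  refine Relation.ReflTransGen.tail hseg ⟨he₁U, he', h₁, h', Or.inl fun k => ?_⟩
  rw [mul_comm]
  exact hsame k

end Pool.Agent.RVM
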