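import Pool.Agent.MP_c130bd_co.RVM.Gen1

set_option autoImplicit false

namespace Pool.Agent.RVM

variable {d : ℕ}

/-! ## [RVM-GEN] generic gadgets -/

/-- the gadgets (`J` gadgets with `d + 1` points each; type `a`, heights `(j + 1)/(J + 1)`) -/
structure Gadgets [NeZero d] {κ : Type*} (F : κ → E d) (J a : ℕ) (g : Fin J × Fin (d + 1) → E d) :
    Prop where
  height : ∀ j i, g (j, i) 0 = ((j : ℕ) + 1) / (J + 1)
  ag : AG {m : Set (κ ⊕ (Fin J × Fin (d + 1))) | ∃ j, m = Sum.inr '' {x | x.1 = j}} (Sum.elim F g)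
  bary : ∀ j, ∃ β : Fin d → ℝ, hv (g (j, 0)) = ∑ i, β i • hv (g (j, i.succ)) ∧ (∀ i, β i ≠ 0) ∧
    (Finset.univ.filter fun i => 0 < β i).card = a

/-- the transport map -/
private def Gen_e {κ : Type*} (J n : ℕ) :
    κ ⊕ (Fin (J + 1) × Fin n) → (κ ⊕ (Fin J × Fin n)) ⊕ Fin n
  | Sum.inl k => Sum.inl (Sum.inl k)
  | Sum.inr x => Fin.lastCases (motive := fun _ => (κ ⊕ (Fin J × Fin n)) ⊕ Fin n)
      (Sum.inr x.2) (fun j => Sum.inl (Sum.inr (j, x.2))) x.1

private theorem Gen_e_inl {κ : Type*} (J n : ℕ) (k : κ) :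
    Gen_e J n (Sum.inl k) = Sum.inl (Sum.inl k) := rfl

private theorem Gen_e_last {κ : Type*} (J n : ℕ) (i : Fin n) :
    Gen_e (κ := κ) J n (Sum.inr (Fin.last J, i)) = Sum.inr i := by
  simp [Gen_e]

private theorem Gen_e_cast {κ : Type*} (J n : ℕ) (j : Fin J) (i : Fin n) :
    Gen_e (κ := κ) J n (Sum.inr (j.castSucc, i)) = Sum.inl (Sum.inr (j, i)) := by
  simp [Gen_e]

private theorem Gen_e_inj {κ : Type*} (J n : ℕ) : Function.Injective (Gen_e (κ := κ) J n) := by
  rintro (k | ⟨j, i⟩) (k' | ⟨j', i'⟩) h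
  · rw [Gen_e_inl, Gen_e_inl] at h
    rw [Sum.inl.inj (Sum.inl.inj h)]
  · induction j' using Fin.lastCases with
    | last => rw [Gen_e_inl, Gen_e_last] at h; exact absurd h (by simp)
    | cast j' => rw [Gen_e_inl, Gen_e_cast] at h; exact absurd (Sum.inl.inj h) (by simp)
  · induction j using Fin.lastCases with
    | last => rw [Gen_e_inl, Gen_e_last] at h; exact absurd h (by simp)
    | cast j => rw [Gen_e_inl, Gen_e_cast] at h; exact absurd (Sum.inl.inj h) (by simp)
  · induction j using Fin.lastCases with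
    | last =>
      induction j' using Fin.lastCases with
      | last => rw [Gen_e_last, Gen_e_last] at h; rw [Sum.inr.inj h]
      | cast j' => rw [Gen_e_cast, Gen_e_last] at h; exact absurd h (by simp)
    | cast j =>
      induction j' using Fin.lastCases with
      | last => rw [Gen_e_cast, Gen_e_last] at h; exact absurd h (by simp)
      | cast j' =>
        rw [Gen_e_cast, Gen_e_cast] at h
        have h1 := Sum.inr.inj (Sum.inl.inj h)
        rw [Prod.mk.injEq] at h1
        rw [h1.1, h1.2]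

private theorem Gen_img_cast {κ : Type*} (J n : ℕ) (j : Fin J) :
    Gen_e (κ := κ) J n '' (Sum.inr '' {x | x.1 = j.castSucc}) =
      Sum.inl '' (Sum.inr '' {x | x.1 = j}) := by
  ext y
  constructor
  · rintro ⟨_, ⟨⟨j', i⟩, hx, rfl⟩, rfl⟩
    have hx' : j' = j.castSucc := hx
    subst hx'
    rw [Gen_e_cast]
    exact ⟨_, ⟨(j, i), rfl, rfl⟩, rfl⟩
  · rintro ⟨_, ⟨⟨j', i⟩, hx, rfl⟩, rfl⟩
    have hx' : j' = j := hx
    subst hx'
    refine ⟨_, ⟨(j'.castSucc, i), rfl, rfl⟩, ?_⟩
    rw [Gen_e_cast]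

private theorem Gen_img_last {κ : Type*} (J n : ℕ) :
    Gen_e (κ := κ) J n '' (Sum.inr '' {x | x.1 = Fin.last J}) = Set.range Sum.inr := by
  ext y
  constructor
  · rintro ⟨_, ⟨⟨j', i⟩, hx, rfl⟩, rfl⟩
    have hx' : j' = Fin.last J := hx
    subst hx'
    rw [Gen_e_last]
    exact ⟨i, rfl⟩
  · rintro ⟨i, rfl⟩
    refine ⟨_, ⟨(Fin.last J, i), rfl, rfl⟩, ?_⟩
    rw [Gen_e_last]

private theorem Gen_aux [NeZero d] {κ : Type*} [Fintype κ] [DecidableEq κ] {F : κ → E d}
    (hF : AG ∅ F) (a : ℕ) (ha : 1 ≤ a) (had : a ≤ d) : ∀ (J : ℕ) (ζ : Fin J → ℝ),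
    Function.Injective ζ → (∀ k j, F k 0 ≠ ζ j) →
    ∃ g : Fin J × Fin (d + 1) → E d, (∀ j i, g (j, i) 0 = ζ j) ∧
      AG {m : Set (κ ⊕ (Fin J × Fin (d + 1))) | ∃ j, m = Sum.inr '' {x | x.1 = j}} (Sum.elim F g) ∧
      ∀ j, ∃ β : Fin d → ℝ, hv (g (j, 0)) = ∑ i, β i • hv (g (j, i.succ)) ∧ (∀ i, β i ≠ 0) ∧
        (Finset.univ.filter fun i => 0 < β i).card = a := by
  intro J
  induction J with
  | zero =>
    intro ζ _ _
    refine ⟨fun x => x.1.elim0, fun j => j.elim0, ?_, fun j => j.elim0⟩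
    have hinj : Function.Injective
        (Sum.elim id (fun x => x.1.elim0) : κ ⊕ (Fin 0 × Fin (d + 1)) → κ) := by
      rintro (k | x) (k' | x') h
      · rw [show k = k' from h]
      · exact x'.1.elim0
      · exact x.1.elim0
      · exact x.1.elim0
    have h := ag_comp hF _ hinj
    convert h using 1
    · ext m
      constructor
      · rintro ⟨j, _⟩
        exact j.elim0
      · intro hm
        exact absurd hm (Set.notMem_empty _)
    · funext x
      rcases x with k | x
      · rfl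
      · exact x.1.elim0
  | succ J ih =>
    intro ζ hζ hFζ
    obtain ⟨g, hg1, hg2, hg3⟩ := ih (fun j => ζ j.castSucc)
      (fun x y hxy => Fin.castSucc_injective J (hζ hxy)) (fun k j => hFζ k _)
    have hz : ∀ k, Sum.elim F g k 0 ≠ ζ (Fin.last J) := by
      rintro (k | ⟨j, i⟩)
      · exact hFζ k _
      · show g (j, i) 0 ≠ _
        rw [hg1]
        intro h
        have := hζ h
        exact absurd this (Fin.castSucc_lt_last j).ne
    obtain ⟨g', hg1', hg2', hg3'⟩ := gen1 hg2 (ζ (Fin.last J)) hz a ha had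
    refine ⟨fun x => Sum.elim (Sum.elim F g) g' (Gen_e J (d + 1) (Sum.inr x)), ?_, ?_, ?_⟩
    · intro j i
      induction j using Fin.lastCases with
      | last =>
        show Sum.elim (Sum.elim F g) g' (Gen_e J (d + 1) (Sum.inr (Fin.last J, i))) 0 = _
        rw [Gen_e_last]
        exact hg1' i
      | cast j =>
        show Sum.elim (Sum.elim F g) g' (Gen_e J (d + 1) (Sum.inr (j.castSucc, i))) 0 = _
        rw [Gen_e_cast]
        exact hg1 j i
    · have h := ag_comp hg2' (Gen_e (κ := κ) J (d + 1)) (Gen_e_inj J (d + 1))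
      have himg := Set.image_injective.mpr (Gen_e_inj (κ := κ) J (d + 1))
      convert h using 1
      · ext m
        constructor
        · rintro ⟨j, rfl⟩
          induction j using Fin.lastCases with
          | last => exact Or.inr (Gen_img_last J (d + 1))
          | cast j => exact Or.inl ⟨_, ⟨j, rfl⟩, Gen_img_cast J (d + 1) j⟩
        · rintro (⟨m', ⟨j, rfl⟩, hm⟩ | hm)
          · refine ⟨j.castSucc, himg ?_⟩
            show _ '' m = _ '' _
            rw [Gen_img_cast]
            exact hm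
          · refine ⟨Fin.last J, himg ?_⟩
            show _ '' m = _ '' _
            rw [Gen_img_last]
            exact hm
      · funext x
        rcases x with k | x
        · rfl
        · rfl
    · intro j
      induction j using Fin.lastCases with
      | last =>
        obtain ⟨β, h1, h2, h3⟩ := hg3'
        refine ⟨β, ?_, h2, h3⟩
        simp only [Gen_e_last]
        exact h1
      | cast j =>
        obtain ⟨β, h1, h2, h3⟩ := hg3 j
        refine ⟨β, ?_, h2, h3⟩
        simp only [Gen_e_cast]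
        exact h1

/-- Proof. Induction on `J` with `gen1` (for the induction state the theorem with arbitrary distinct heights in `(0, 1)` first);
transport along the equivalence `(κ ⊕ Fin J × Fin (d+1)) ⊕ Fin (d+1) ≃ κ ⊕ Fin (J+1) × Fin (d+1)`, `ag_comp`. -/
theorem gen [NeZero d] {κ : Type*} [Fintype κ] [DecidableEq κ] {F : κ → E d}
    (hF : AG ∅ F) (hz : ∀ k, 1 < |F k 0|) (J a : ℕ) (ha : 1 ≤ a) (had : a ≤ d) :
    ∃ g, Gadgets F J a g := by
  have hJ : (0 : ℝ) < (J : ℝ) + 1 := by positivity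
  obtain ⟨g, h1, h2, h3⟩ := Gen_aux hF a ha had J
    (fun j => (((j : ℕ) : ℝ) + 1) / ((J : ℝ) + 1)) (by
      intro x y hxy
      have hxy' : (((x : ℕ) : ℝ) + 1) / ((J : ℝ) + 1) = (((y : ℕ) : ℝ) + 1) / ((J : ℝ) + 1) := hxy
      rw [div_left_inj' hJ.ne'] at hxy'
      apply Fin.ext
      have h : ((x : ℕ) : ℝ) = ((y : ℕ) : ℝ) := by linarith
      exact_mod_cast h) (by
      intro k j h
      have h1 := hz k
      have h2 : F k 0 = (((j : ℕ) : ℝ) + 1) / ((J : ℝ) + 1) := h
      have hj : ((j : ℕ) : ℝ) + 1 ≤ J := by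
        have := j.2
        exact_mod_cast this
      rw [h2, abs_of_nonneg (by positivity), lt_div_iff₀ hJ] at h1
      linarith)
  exact ⟨g, h1, h2, h3⟩

end Pool.Agent.RVM
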