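import Pool.Agent.MP_c130bd_co.RVM.Extend

set_option autoImplicit false

namespace Pool.Agent.RVM

variable {d : ℕ}

/-! ## [RVM-GEN1] one generic gadget -/

/-- The vectors `hv v`, `v ∈ W`, span a space of dimension at least `d`. -/
def Gen1_Sp (W : Set (E d)) : Prop :=
  ∀ S : Submodule ℝ (Fin (d + 1) → ℝ), (∀ v ∈ W, hv v ∈ S) → d ≤ Module.finrank ℝ S

theorem Gen1_hv_lin (v w : E d) : hv (v + w) = hv v + Fin.cons 0 w := by
  unfold hv
  funext j
  refine Fin.cases ?_ (fun i => ?_) j
  · simp
  · simp

/-- `v ↦ f (hv v)` as an affine map. -/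
theorem Gen1_aff (f : (Fin (d + 1) → ℝ) →ₗ[ℝ] ℝ) : ∃ ℓ : E d →ᵃ[ℝ] ℝ, ∀ v, ℓ v = f (hv v) := by
  let C : E d →ₗ[ℝ] (Fin (d + 1) → ℝ) :=
    { toFun := fun v => Fin.cons 0 v
      map_add' := by
        intro v w
        funext j
        refine Fin.cases ?_ (fun i => ?_) j
        · simp
        · simp
      map_smul' := by
        intro c v
        funext j
        refine Fin.cases ?_ (fun i => ?_) j
        · simp
        · simp }
  refine ⟨⟨fun v => f (hv v), f.comp C, ?_⟩, fun v => rfl⟩
  intro p v
  have : hv (v +ᵥ p) = C v + hv p := by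
    show hv (v + p) = _
    rw [add_comm v p, Gen1_hv_lin]
    exact add_comm _ _
  rw [this, map_add]
  rfl

theorem Gen1_h1 {ι : Type*} {p : ι → E d} {W : Set (E d)} (hW : Gen1_Sp W) (Z : Finset ι)
    (hZ : Z.card + 1 ≤ d) : ∃ ℓ : E d →ᵃ[ℝ] ℝ, (∀ z ∈ Z, ℓ (p z) = 0) ∧ ∃ v ∈ W, ℓ v ≠ 0 := by
  classical
  let S : Submodule ℝ (Fin (d + 1) → ℝ) := Submodule.span ℝ ((Z.image fun z => hv (p z) :
    Finset (Fin (d + 1) → ℝ)) : Set (Fin (d + 1) → ℝ))
  have hfr : Module.finrank ℝ S ≤ Z.card :=
    (finrank_span_finset_le_card (R := ℝ) (Z.image fun z => hv (p z))).trans Finset.card_image_le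
  have h1 : ∃ v ∈ W, hv v ∉ S := by
    by_contra hcon
    push Not at hcon
    have := hW S hcon
    omega
  obtain ⟨v, hvW, hvS⟩ := h1
  obtain ⟨f, hf, hfS⟩ := Submodule.exists_le_ker_of_notMem hvS
  obtain ⟨ℓ, hℓ⟩ := Gen1_aff f
  refine ⟨ℓ, ?_, v, hvW, ?_⟩
  · intro z hz
    rw [hℓ]
    apply hfS
    apply Submodule.subset_span
    simp only [Finset.coe_image, Set.mem_image, Finset.mem_coe]
    exact ⟨z, hz, rfl⟩
  · rw [hℓ]
    exact hf

theorem Gen1_sp_plane [NeZero d] (h : ℝ) : Gen1_Sp {v : E d | v 0 = h} := by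
  intro S hS
  let v0 : E d := Pi.single 0 h
  let b : Fin d → (Fin (d + 1) → ℝ) := fun j => if j = 0 then hv v0 else Pi.single j.succ 1
  have hb : LinearIndependent ℝ b := by
    rw [Fintype.linearIndependent_iff]
    intro c hc
    have h0 : c 0 = 0 := by
      have := congrFun hc 0
      rw [Finset.sum_apply] at this
      rw [Finset.sum_eq_single 0] at this
      · simpa [b, hv] using this
      · intro j _ hj
        simp [b, hj, hv]
      · intro h'
        exact absurd (Finset.mem_univ _) h'
    intro i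
    by_cases hi : i = 0
    · rw [hi]; exact h0
    · have := congrFun hc i.succ
      rw [Finset.sum_apply] at this
      rw [Finset.sum_eq_single i] at this
      · simpa [b, hi] using this
      · intro j _ hj
        by_cases hj0 : j = 0
        · simp [hj0, h0]
        · simp [b, hj0, Pi.single_apply]
          intro h'
          exact absurd h'.symm hj
      · intro h'
        exact absurd (Finset.mem_univ _) h'
  have hv0 : hv v0 ∈ S := hS v0 (by simp [v0])
  have hbS : Submodule.span ℝ (Set.range b) ≤ S := by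
    rw [Submodule.span_le]
    rintro _ ⟨j, rfl⟩
    by_cases hj : j = 0
    · simp only [b, hj, if_true]
      exact hv0
    · have h1 : hv (v0 + Pi.single j 1) ∈ S := by
        apply hS
        simp [v0, Ne.symm hj]
      have h2 : b j = hv (v0 + Pi.single j 1) - hv v0 := by
        rw [Gen1_hv_lin, add_sub_cancel_left]
        simp only [b, hj, if_false]
        funext k
        refine Fin.cases ?_ (fun i => ?_) k
        · simp
        · simp [Pi.single_apply]
      rw [h2]
      exact S.sub_mem h1 hv0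
  have h3 : Module.finrank ℝ (Submodule.span ℝ (Set.range b)) = d := by
    rw [finrank_span_eq_card hb, Fintype.card_fin]
  calc d = Module.finrank ℝ (Submodule.span ℝ (Set.range b)) := h3.symm
    _ ≤ Module.finrank ℝ S := Submodule.finrank_mono hbS

theorem Gen1_sp_mono {W W' : Set (E d)} (h : Gen1_Sp W) (hs : W ⊆ W') : Gen1_Sp W' :=
  fun S hS => h S fun v hv' => hS v (hs hv')

/-- A functional of `d` points which vanishes on the plane at the height `h`. -/
theorem Gen1_height [NeZero d] {z : Fin d → E d} (hz : LinearIndependent ℝ fun i => hv (z i))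
    {h : ℝ} (hv0 : ∀ v : E d, v 0 = h →
      D (fun k : Fin (d + 1) => (Fin.cons v z : Fin (d + 1) → E d) k) id = 0) (i : Fin d) :
    z i 0 = h := by
  by_contra hne
  obtain ⟨ℓ, hℓ⟩ := exists_affine z
  obtain ⟨u, -, hu⟩ := affine_ne z hz Set.univ isOpen_univ Set.univ_nonempty
  apply hu
  rw [← hℓ]
  have hzi : ℓ (z i) = 0 := by
    rw [hℓ]
    unfold D
    refine Matrix.det_zero_of_row_eq (i := 0) (j := i.succ) (Fin.succ_ne_zero i).symm ?_
    funext c
    simp
  have hw0 : ∀ v : E d, v 0 = h → ℓ v = 0 := fun v hv' => by rw [hℓ]; exact hv0 v hv'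
  set t : ℝ := (u 0 - h) / (z i 0 - h) with ht
  have hne' : z i 0 - h ≠ 0 := sub_ne_zero.2 hne
  let w0 : E d := Pi.single 0 h
  have hw00 : w0 0 = h := by simp [w0]
  have h1 : ℓ (u - t • (z i - w0)) = 0 := by
    apply hw0
    simp only [Pi.sub_apply, Pi.smul_apply, smul_eq_mul, hw00]
    rw [ht]
    field_simp
    ring
  have h2 : ℓ.linear (z i - w0) = 0 := by
    have := ℓ.linearMap_vsub (z i) w0
    simp only [vsub_eq_sub] at this
    rw [this, hzi, hw0 w0 hw00, sub_zero]
  have h3 : ℓ u = ℓ (u - t • (z i - w0)) + ℓ.linear (t • (z i - w0)) := by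
    have := ℓ.linearMap_vsub u (u - t • (z i - w0))
    simp only [vsub_eq_sub, sub_sub_cancel] at this
    rw [this]
    ring
  rw [h3, h1, map_smul, h2]
  simp

theorem Gen1_congr {ι : Type*} {M M' : Set (Set ι)} {p : ι → E d} (hp : AG M p)
    (h : ∀ I : Fin (d + 1) → ι, Function.Injective I → (Set.range I ∈ M ↔ Set.range I ∈ M')) :
    AG M' p :=
  ⟨hp.ind, fun I hI => (hp.det I hI).trans (h I hI)⟩

theorem Gen1_ind {ι : Type*} {M : Set (Set ι)} {p : ι → E d} (hp : AG M p) {ζ : Fin d → ι}
    (hζ : Function.Injective ζ) : LinearIndependent ℝ fun i => hv (p (ζ i)) := by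
  classical
  have h1 := hp.ind (Finset.univ.image ζ) (by
    rw [Finset.card_image_of_injective _ hζ, Finset.card_univ, Fintype.card_fin])
  have h2 := h1.comp (fun i : Fin d => (⟨ζ i, Finset.mem_image_of_mem ζ (Finset.mem_univ i)⟩ :
    {x // x ∈ Finset.univ.image ζ})) (fun i j hij => hζ (by simpa using hij))
  exact h2

/-- the reindexing map -/
def Gen1_f {κ : Type*} (n : ℕ) : κ ⊕ Fin (n + 1) → Option (κ ⊕ Fin n) :=
  Sum.elim (fun k => some (Sum.inl k)) (Fin.cases none fun i => some (Sum.inr i))

theorem Gen1_f_inj {κ : Type*} (n : ℕ) : Function.Injective (Gen1_f (κ := κ) n) := by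
  rintro (k | i) (k' | i')
  · simp [Gen1_f]
  · refine Fin.cases ?_ (fun i' => ?_) i'
    · simp [Gen1_f]
    · simp [Gen1_f]
  · refine Fin.cases ?_ (fun i => ?_) i
    · simp [Gen1_f]
    · simp [Gen1_f]
  · refine Fin.cases ?_ (fun i => ?_) i
    · refine Fin.cases ?_ (fun i' => ?_) i'
      · simp [Gen1_f]
      · simp [Gen1_f]
    · refine Fin.cases ?_ (fun i' => ?_) i'
      · simp [Gen1_f]
      · simp [Gen1_f]

theorem Gen1_f_comp {κ : Type*} (n : ℕ) (F : κ → E d) (g : Fin n → E d) (e : E d) :
    (fun k : Option (κ ⊕ Fin n) => k.elim e (Sum.elim F g)) ∘ Gen1_f n =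
      Sum.elim F (Fin.cons e g : Fin (n + 1) → E d) := by
  funext x
  rcases x with k | i
  · rfl
  · refine Fin.cases ?_ (fun i => ?_) i
    · rfl
    · rfl

theorem Gen1_f_inl {κ : Type*} (n : ℕ) (m : Set κ) :
    Gen1_f n '' (Sum.inl '' m) = some '' (Sum.inl '' m : Set (κ ⊕ Fin n)) := by
  rw [Set.image_image, Set.image_image]
  rfl

theorem Gen1_f_inr {κ : Type*} (n : ℕ) :
    Gen1_f n '' (Set.range (Sum.inr : Fin (n + 1) → κ ⊕ Fin (n + 1))) =
      insert none (some '' (Set.range (Sum.inr : Fin n → κ ⊕ Fin n))) := by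
  ext x
  simp only [Set.mem_image, Set.mem_range, exists_exists_eq_and, Set.mem_insert_iff]
  constructor
  · rintro ⟨i, rfl⟩
    refine Fin.cases ?_ (fun i => ?_) i
    · left; rfl
    · right; exact ⟨i, rfl⟩
  · rintro (rfl | ⟨i, rfl⟩)
    · exact ⟨0, rfl⟩
    · exact ⟨i.succ, rfl⟩

/-- the dependent sets of the old points -/
def Gen1_M {κ : Type*} (M : Set (Set κ)) (μ : Type*) : Set (Set (κ ⊕ μ)) :=
  {m | ∃ m' ∈ M, m = Sum.inl '' m'}

theorem Gen1_addn {κ : Type*} [Finite κ] {M : Set (Set κ)} {F : κ → E d} (hF : AG M F)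
    {W : Set (E d)} (hW : Convex ℝ W) (hne : W.Nonempty) (hsp : Gen1_Sp W) (N : ℕ)
    (hQ : ∀ n < N, ∀ g : Fin n → E d, (∀ i, g i ∈ W) → AG (Gen1_M M (Fin n)) (Sum.elim F g) →
      ∀ ζ : Fin d → κ ⊕ Fin n, Function.Injective ζ → ∃ v ∈ W,
        D (fun k : Fin (d + 1) => (Fin.cons v (Sum.elim F g ∘ ζ) : Fin (d + 1) → E d) k) id ≠ 0) :
    ∀ n ≤ N, ∃ g : Fin n → E d, (∀ i, g i ∈ W) ∧ AG (Gen1_M M (Fin n)) (Sum.elim F g) := by
  intro n
  induction n with
  | zero =>
    intro _
    refine ⟨Fin.elim0, fun i => i.elim0, ?_⟩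
    have h1 := ag_comp hF (Sum.elim id (fun i : Fin 0 => i.elim0) : κ ⊕ Fin 0 → κ) (by
      rintro (x | x) (y | y) h
      · simpa using h
      · exact y.elim0
      · exact x.elim0
      · exact x.elim0)
    have h2 : F ∘ (Sum.elim id (fun i : Fin 0 => i.elim0) : κ ⊕ Fin 0 → κ) =
        Sum.elim F Fin.elim0 := by
      funext x
      rcases x with x | x
      · rfl
      · exact x.elim0
    rw [h2] at h1
    refine Gen1_congr h1 fun I _ => ?_
    have h3 : ∀ m : Set (κ ⊕ Fin 0), m = Sum.inl ''
        ((Sum.elim id (fun i : Fin 0 => i.elim0) : κ ⊕ Fin 0 → κ) '' m) := by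
      intro m
      ext x
      rcases x with x | x
      · simp
      · exact x.elim0
    constructor
    · intro h4
      exact ⟨_, h4, h3 _⟩
    · rintro ⟨m', hm', h5⟩
      show _ '' _ ∈ M
      rw [h5, Set.image_image]
      simpa using hm'
  | succ n ih =>
    intro hn
    obtain ⟨g, hg, hAG⟩ := ih (by omega)
    obtain ⟨e, he, hE⟩ := extend hAG hW hne (fun Z hZ => Gen1_h1 hsp Z hZ)
    refine ⟨Fin.cons e g, ?_, ?_⟩
    · intro i
      refine Fin.cases ?_ (fun i => ?_) i
      · simpa using he
      · simpa using hg i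
    have h1 := ag_comp hE (Gen1_f n) (Gen1_f_inj n)
    rw [Gen1_f_comp] at h1
    refine Gen1_congr h1 fun I _ => ?_
    constructor
    · rintro (⟨m', ⟨m0, hm0, rfl⟩, h3⟩ | ⟨ζ, hζ, -, h3⟩)
      · refine ⟨m0, hm0, ?_⟩
        rw [← Gen1_f_inl] at h3
        exact (Gen1_f_inj n).image_injective h3
      · obtain ⟨v, hvW, hv'⟩ := hQ n (by omega) g hg hAG ζ hζ
        exact absurd (h3 v hvW) hv'
    · rintro ⟨m0, hm0, h3⟩
      refine Or.inl ⟨Sum.inl '' m0, ⟨m0, hm0, rfl⟩, ?_⟩
      rw [h3, Gen1_f_inl]

/-- coefficients with prescribed signs -/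
def Gen1_B (d a : ℕ) : Set (Fin d → ℝ) :=
  {β | ∑ i, β i = 1 ∧ (∀ i : Fin d, (i : ℕ) < a → 0 < β i) ∧ ∀ i : Fin d, a ≤ (i : ℕ) → β i < 0}

theorem Gen1_card (a : ℕ) (had : a ≤ d) :
    (Finset.univ.filter fun i : Fin d => (i : ℕ) < a).card = a := by
  have h1 : (Finset.univ.filter fun i : Fin d => (i : ℕ) < a) =
      Finset.univ.map (Fin.castLEEmb had) := by
    ext i
    simp only [Finset.mem_filter, Finset.mem_univ, true_and, Finset.mem_map, Fin.castLEEmb_apply]
    constructor
    · intro h
      exact ⟨⟨i, h⟩, rfl⟩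
    · rintro ⟨j, rfl⟩
      exact j.2
  rw [h1, Finset.card_map, Finset.card_univ, Fintype.card_fin]

/-- the basic coefficients -/
noncomputable def Gen1_b0 (d a : ℕ) : Fin d → ℝ :=
  fun i => if (i : ℕ) < a then (1 + (d - a)) / a else -1

theorem Gen1_b0_sum (a : ℕ) (ha : 1 ≤ a) (had : a ≤ d) : ∑ i, Gen1_b0 d a i = 1 := by
  unfold Gen1_b0
  rw [Finset.sum_ite, Finset.sum_const, Finset.sum_const, Gen1_card a had]
  have h2 : (Finset.univ.filter fun i : Fin d => ¬ (i : ℕ) < a).card = d - a := by
    have := Finset.card_filter_add_card_filter_not (s := (Finset.univ : Finset (Fin d)))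
      (fun i : Fin d => (i : ℕ) < a)
    rw [Gen1_card a had, Finset.card_univ, Fintype.card_fin] at this
    omega
  rw [h2, nsmul_eq_mul, nsmul_eq_mul, Nat.cast_sub had]
  have : (a : ℝ) ≠ 0 := by positivity
  field_simp
  ring

theorem Gen1_b0_pert (a : ℕ) (ha : 1 ≤ a) (had : a ≤ d) (i j : Fin d) :
    Gen1_b0 d a + (1 / (2 * d) : ℝ) • (Pi.single i 1 - Pi.single j 1) ∈ Gen1_B d a := by
  have hd : (1 : ℝ) ≤ d := by exact_mod_cast ha.trans had
  have ha' : (1 : ℝ) ≤ a := by exact_mod_cast ha
  have had' : (a : ℝ) ≤ d := by exact_mod_cast had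
  have hsm : ∀ k : Fin d, |(1 / (2 * d) : ℝ) * ((Pi.single i 1 - Pi.single j 1 : Fin d → ℝ) k)| ≤
      1 / (2 * d) := by
    intro k
    rw [abs_mul, abs_of_pos (by positivity : (0 : ℝ) < 1 / (2 * d))]
    have : |((Pi.single i 1 - Pi.single j 1 : Fin d → ℝ) k)| ≤ 1 := by
      simp only [Pi.sub_apply, Pi.single_apply]
      split_ifs <;> simp
    calc 1 / (2 * d) * |((Pi.single i 1 - Pi.single j 1 : Fin d → ℝ) k)| ≤ 1 / (2 * (d : ℝ)) * 1 :=
          mul_le_mul_of_nonneg_left this (by positivity)
      _ = _ := mul_one _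
  refine ⟨?_, ?_, ?_⟩
  · simp only [Pi.add_apply, Pi.smul_apply, smul_eq_mul, Finset.sum_add_distrib,
      ← Finset.mul_sum, Pi.sub_apply, Finset.sum_sub_distrib]
    rw [Gen1_b0_sum a ha had]
    simp
  · intro k hk
    simp only [Pi.add_apply, Pi.smul_apply, smul_eq_mul]
    have h1 : Gen1_b0 d a k = (1 + (d - a)) / a := by simp [Gen1_b0, hk]
    have h2 : (1 : ℝ) / d ≤ (1 + (d - a)) / a := by
      rw [div_le_div_iff₀ (by linarith) (by linarith)]
      nlinarith
    have h3 : (1 : ℝ) / (2 * d) < 1 / d := by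
      rw [div_lt_div_iff₀ (by linarith) (by linarith)]
      linarith
    have h4 := (abs_le.1 (hsm k)).1
    rw [h1]
    linarith
  · intro k hk
    simp only [Pi.add_apply, Pi.smul_apply, smul_eq_mul]
    have h1 : Gen1_b0 d a k = -1 := by simp [Gen1_b0, hk]
    have h3 : (1 : ℝ) / (2 * d) < 1 := by
      rw [div_lt_one (by linarith)]
      linarith
    have h4 := (abs_le.1 (hsm k)).2
    rw [h1]
    linarith

theorem Gen1_b0_mem (a : ℕ) (ha : 1 ≤ a) (had : a ≤ d) : Gen1_b0 d a ∈ Gen1_B d a := by
  have ha' : (1 : ℝ) ≤ a := by exact_mod_cast ha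
  have had' : (a : ℝ) ≤ d := by exact_mod_cast had
  refine ⟨Gen1_b0_sum a ha had, ?_, ?_⟩
  · intro k hk
    have h1 : Gen1_b0 d a k = (1 + (d - a)) / a := by simp [Gen1_b0, hk]
    rw [h1]
    apply div_pos <;> linarith
  · intro k hk
    have h1 : Gen1_b0 d a k = -1 := by simp [Gen1_b0, hk]
    rw [h1]
    norm_num

theorem Gen1_all {V : Type*} [AddCommGroup V] [Module ℝ V] (a : ℕ) (ha : 1 ≤ a) (had : a ≤ d)
    (y : Fin d → V) (S : Submodule ℝ V) (h : ∀ β ∈ Gen1_B d a, ∑ i, β i • y i ∈ S) (i : Fin d) :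
    y i ∈ S := by
  have hd : (1 : ℝ) ≤ d := by exact_mod_cast ha.trans had
  have h0 := h _ (Gen1_b0_mem a ha had)
  have h1 : ∀ j, y j - y i ∈ S := by
    intro j
    by_cases hji : j = i
    · rw [hji, sub_self]; exact S.zero_mem
    have h2 := h _ (Gen1_b0_pert a ha had j i)
    have h3 : ∑ k, (Gen1_b0 d a + (1 / (2 * d) : ℝ) • (Pi.single j 1 - Pi.single i 1) : Fin d → ℝ) k • y k =
        ∑ k, Gen1_b0 d a k • y k + (1 / (2 * d) : ℝ) • (y j - y i) := by
      simp only [Pi.add_apply, Pi.smul_apply, add_smul, Finset.sum_add_distrib, smul_assoc,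
        ← Finset.smul_sum, Pi.sub_apply, sub_smul, Finset.sum_sub_distrib]
      congr 3
      · rw [Finset.sum_eq_single j]
        · simp
        · intro b _ hb
          simp [hb]
        · intro h'; exact absurd (Finset.mem_univ _) h'
      · rw [Finset.sum_eq_single i]
        · simp
        · intro b _ hb
          simp [hb]
        · intro h'; exact absurd (Finset.mem_univ _) h'
    rw [h3] at h2
    have h4 : (1 / (2 * d) : ℝ) • (y j - y i) ∈ S := by
      have := S.sub_mem h2 h0
      rwa [add_sub_cancel_left] at this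
    have h5 := S.smul_mem (2 * d : ℝ) h4
    rwa [smul_smul, mul_one_div_cancel (by linarith : (0 : ℝ) < 2 * d).ne', one_smul] at h5
  have h6 : ∑ k, Gen1_b0 d a k • (y k - y i) ∈ S :=
    S.sum_mem fun k _ => S.smul_mem _ (h1 k)
  have h7 : ∑ k, Gen1_b0 d a k • (y k - y i) = ∑ k, Gen1_b0 d a k • y k - y i := by
    simp only [smul_sub, Finset.sum_sub_distrib, ← Finset.sum_smul]
    rw [Gen1_b0_sum a ha had, one_smul]
  rw [h7] at h6
  have := S.sub_mem h0 h6
  rwa [sub_sub_cancel] at this

theorem Gen1_hv_comb {β : Fin d → ℝ} (hβ : ∑ i, β i = 1) (g : Fin d → E d) :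
    hv (∑ i, β i • g i) = ∑ i, β i • hv (g i) := by
  funext j
  refine Fin.cases ?_ (fun i => ?_) j
  · simp [hv, Finset.sum_apply, hβ]
  · simp [hv, Finset.sum_apply]

/-- **Adding one gadget.** A gadget of type `a` at the height `ζ`: `d` points `g 1, …, g d` and `g 0 = ∑ β i • g (i+1)` in the hyperplane
`{v | v 0 = ζ}`, exactly `a` of the barycentric coordinates `β` are positive and the other ones are negative; otherwise generic.

Proof. Choose `g 1, …, g d` one after the other by `extend` with `W = {v | v 0 = ζ}`. The condition `h1` of `extend`: `Z` has at most `d - 1`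
elements; the span of the vectors `hv (p z)`, `z ∈ Z`, and the space `{v | v 0 = ζ}`: the vectors `hv v`, `v 0 = ζ`, span a space of dimension
`d`, so there is a linear functional which vanishes on the `hv (p z)` (a space of dimension at most `d - 1`) and not on all the
`hv v`. The determinant with `d` old points `p ∘ η` vanishes identically on `W` only if the span of the `hv (p (η i))` (dimension `d`) is the
span of the `hv v`, `v ∈ W`, i.e. if all the points `p (η i)` have the height `ζ`: impossible, since at most `d - 1` of the old points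
have the height `ζ` (those of the gadget). So no new dependent set arises for `g 1, …, g d`.
Now `g 0`: `W = {∑ β i • g (i+1) | ∑ β i = 1, β i > 0 for i < a, β i < 0 for i ≥ a}` (convex, nonempty: `β i = (1 + d - a) / a` resp. `-1`; it spans
the hyperplane affinely: the differences of elements of `W` contain a neighbourhood of `0` in `{∑ β = 0}`), so again the only set
`ζ` for which the determinant vanishes identically on `W` is `{g 1, …, g d}` (the only `d` old points with the height `ζ`).
It is convenient to do this for `Option`-types or `κ ⊕ Fin k` and to transport the result (`ag_comp`, `Equiv`). -/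
theorem gen1 [NeZero d] {κ : Type*} [Fintype κ] [DecidableEq κ] {F : κ → E d} {M : Set (Set κ)}
    (hF : AG M F) (h : ℝ) (hz : ∀ k, F k 0 ≠ h) (a : ℕ) (ha : 1 ≤ a) (had : a ≤ d) :
    ∃ g : Fin (d + 1) → E d, (∀ i, g i 0 = h) ∧
      AG ({m : Set (κ ⊕ Fin (d + 1)) | (∃ m' ∈ M, m = Sum.inl '' m') ∨ m = Set.range Sum.inr})
        (Sum.elim F g) ∧
      ∃ β : Fin d → ℝ, hv (g 0) = ∑ i, β i • hv (g i.succ) ∧ (∀ i, β i ≠ 0) ∧
        (Finset.univ.filter fun i => 0 < β i).card = a := by
  have hconvW : Convex ℝ {v : E d | v 0 = h} := by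
    intro v hv' w hw s t hs ht hst
    simp only [Set.mem_ofPred_eq] at hv' hw ⊢
    simp only [Pi.add_apply, Pi.smul_apply, smul_eq_mul, hv', hw]
    rw [← add_mul, hst, one_mul]
  obtain ⟨g, hgh, hAG⟩ := Gen1_addn hF hconvW ⟨Pi.single 0 h, by simp⟩ (Gen1_sp_plane h) d (by
    intro n hn g hg hAG ζ hζ
    by_contra hcon
    push Not at hcon
    have hall := Gen1_height (Gen1_ind hAG hζ) hcon
    have hrange : ∀ i, ∃ j, ζ i = Sum.inr j := by
      intro i
      rcases hζi : ζ i with k | j
      · exfalso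
        have := hall i
        simp only [hζi, Sum.elim_inl] at this
        exact hz k this
      · exact ⟨j, rfl⟩
    choose j hj using hrange
    have hji : Function.Injective j := by
      intro x y hxy
      apply hζ
      rw [hj, hj, hxy]
    have := Fintype.card_le_of_injective j hji
    simp only [Fintype.card_fin] at this
    omega) d le_rfl
  simp only [Set.mem_ofPred_eq] at hgh
  let W : Set (E d) := {v | ∃ β ∈ Gen1_B d a, v = ∑ i, β i • g i}
  have hWconv : Convex ℝ W := by
    rintro _ ⟨β, hβ, rfl⟩ _ ⟨γ, hγ, rfl⟩ s t hs ht hst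
    refine ⟨s • β + t • γ, ⟨?_, ?_, ?_⟩, ?_⟩
    · simp only [Pi.add_apply, Pi.smul_apply, smul_eq_mul, Finset.sum_add_distrib,
        ← Finset.mul_sum, hβ.1, hγ.1, mul_one, hst]
    · intro i hi
      have h1 := hβ.2.1 i hi
      have h2 := hγ.2.1 i hi
      simp only [Pi.add_apply, Pi.smul_apply, smul_eq_mul]
      rcases hs.eq_or_lt with h3 | h3
      · rw [← h3] at hst ⊢
        have : t = 1 := by linarith
        rw [this]
        linarith
      · have := mul_pos h3 h1
        have := mul_nonneg ht h2.le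
        linarith
    · intro i hi
      have h1 := hβ.2.2 i hi
      have h2 := hγ.2.2 i hi
      simp only [Pi.add_apply, Pi.smul_apply, smul_eq_mul]
      rcases hs.eq_or_lt with h3 | h3
      · rw [← h3] at hst ⊢
        have : t = 1 := by linarith
        rw [this]
        linarith
      · have := mul_neg_of_pos_of_neg h3 h1
        have := mul_nonpos_of_nonneg_of_nonpos ht h2.le
        linarith
    · simp only [Pi.add_apply, Pi.smul_apply, add_smul, Finset.sum_add_distrib, smul_assoc,
        ← Finset.smul_sum]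
  have hWne : W.Nonempty := ⟨_, _, Gen1_b0_mem a ha had, rfl⟩
  have hWsp : Gen1_Sp W := by
    intro S hS
    have h1 : ∀ i, hv (g i) ∈ S := by
      refine Gen1_all a ha had (fun i => hv (g i)) S ?_
      intro β hβ
      rw [← Gen1_hv_comb hβ.1]
      exact hS _ ⟨β, hβ, rfl⟩
    have h2 : LinearIndependent ℝ fun i => hv (g i) :=
      Gen1_ind hAG (ζ := (Sum.inr : Fin d → κ ⊕ Fin d)) Sum.inr_injective
    have h3 : Submodule.span ℝ (Set.range fun i => hv (g i)) ≤ S := by
      rw [Submodule.span_le]
      rintro _ ⟨i, rfl⟩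
      exact h1 i
    calc d = Module.finrank ℝ (Submodule.span ℝ (Set.range fun i => hv (g i))) := by
          rw [finrank_span_eq_card h2, Fintype.card_fin]
      _ ≤ Module.finrank ℝ S := Submodule.finrank_mono h3
  obtain ⟨e, ⟨β, hβ, hev⟩, hE⟩ := extend hAG hWconv hWne (fun Z hZ => Gen1_h1 hWsp Z hZ)
  have he : hv e = ∑ i, β i • hv (g i) := by rw [hev, Gen1_hv_comb hβ.1]
  refine ⟨Fin.cons e g, ?_, ?_, β, ?_, ?_, ?_⟩
  · intro i
    refine Fin.cases ?_ (fun i => ?_) i
    · simp only [Fin.cons_zero]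
      rw [hev]
      simp only [Finset.sum_apply, Pi.smul_apply, smul_eq_mul, hgh]
      rw [← Finset.sum_mul, hβ.1, one_mul]
    · simpa using hgh i
  · have h1 := ag_comp hE (Gen1_f d) (Gen1_f_inj d)
    rw [Gen1_f_comp] at h1
    refine Gen1_congr h1 fun I _ => ?_
    constructor
    · rintro (⟨m', ⟨m0, hm0, rfl⟩, h3⟩ | ⟨ζ, hζ, h3, h4⟩)
      · left
        refine ⟨m0, hm0, ?_⟩
        rw [← Gen1_f_inl] at h3
        exact (Gen1_f_inj d).image_injective h3
      · right
        have hvan : ∀ v : E d, v 0 = h →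
            D (fun k : Fin (d + 1) => (Fin.cons v (Sum.elim F g ∘ ζ) : Fin (d + 1) → E d) k) id
              = 0 := by
          obtain ⟨ℓ, hℓ⟩ := exists_affine (Sum.elim F g ∘ ζ)
          have hcomb : ∀ γ : Fin d → ℝ, ∑ i, γ i = 1 → ℓ (∑ i, γ i • g i) = ∑ i, γ i * ℓ (g i) := by
            intro γ hγ
            have := Finset.univ.map_affineCombination (fun i => g i) γ hγ ℓ
            rw [Finset.affineCombination_eq_linear_combination _ _ _ hγ,
              Finset.affineCombination_eq_linear_combination _ _ _ hγ] at this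
            simpa using this
          have hgi : ∀ i, ℓ (g i) = 0 := by
            intro i
            have := Gen1_all a ha had (fun i => ℓ (g i)) ⊥ (by
              intro γ hγ
              rw [Submodule.mem_bot]
              have h5 := hcomb γ hγ.1
              have h6 : ℓ (∑ i, γ i • g i) = 0 := by
                rw [hℓ]
                exact h4 _ ⟨γ, hγ, rfl⟩
              simpa [h6] using h5.symm) i
            simpa using this
          intro v hv0
          rw [← hℓ]
          -- `v` is an affine combination of the `g i`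
          have hlin : LinearIndependent ℝ fun i => hv (g i) :=
            Gen1_ind hAG (ζ := (Sum.inr : Fin d → κ ⊕ Fin d)) Sum.inr_injective
          have hspan : hv v ∈ Submodule.span ℝ (Set.range fun i => hv (g i)) := by
            let P : Submodule ℝ (Fin (d + 1) → ℝ) :=
              LinearMap.ker ((LinearMap.proj ((0 : Fin d).succ) : (Fin (d + 1) → ℝ) →ₗ[ℝ] ℝ) -
                h • LinearMap.proj 0)
            have hmemP : ∀ w : E d, w 0 = h → hv w ∈ P := by
              intro w hw
              simp only [P, LinearMap.mem_ker, LinearMap.sub_apply, LinearMap.proj_apply,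
                LinearMap.smul_apply, smul_eq_mul]
              have e1 : hv w ((0 : Fin d).succ) = w 0 := Fin.cons_succ (α := fun _ => ℝ) 1 w 0
              have e2 : hv w 0 = 1 := by simp [hv]
              rw [e1, e2, hw]
              ring
            have hPle : Submodule.span ℝ (Set.range fun i => hv (g i)) ≤ P := by
              rw [Submodule.span_le]
              rintro _ ⟨i, rfl⟩
              exact hmemP _ (hgh i)
            have hPne : P ≠ ⊤ := by
              intro htop
              have h7 : (Pi.single ((0 : Fin d).succ) 1 : Fin (d + 1) → ℝ) ∈ P := by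
                rw [htop]; trivial
              simp only [P, LinearMap.mem_ker, LinearMap.sub_apply, LinearMap.proj_apply,
                LinearMap.smul_apply, smul_eq_mul, Pi.single_eq_same] at h7
              have h8 : (Pi.single ((0 : Fin d).succ) 1 : Fin (d + 1) → ℝ) 0 = 0 := by
                rw [Pi.single_apply, if_neg (Fin.succ_ne_zero (0 : Fin d)).symm]
              rw [h8] at h7
              norm_num at h7
            have hPf : Module.finrank ℝ P < d + 1 := by
              have := Submodule.finrank_lt hPne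
              simpa using this
            have hsf : Module.finrank ℝ (Submodule.span ℝ (Set.range fun i => hv (g i))) = d := by
              rw [finrank_span_eq_card hlin, Fintype.card_fin]
            have heq : Submodule.span ℝ (Set.range fun i => hv (g i)) = P :=
              Submodule.eq_of_le_of_finrank_le hPle (by omega)
            rw [heq]
            exact hmemP v hv0
          rw [Submodule.mem_span_range_iff_exists_fun] at hspan
          obtain ⟨γ, hγ⟩ := hspan
          have hγ1 : ∑ i, γ i = 1 := by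
            have := congrFun hγ 0
            simpa [hv, Finset.sum_apply] using this
          have hvg : v = ∑ i, γ i • g i := by
            funext j
            have := congrFun hγ j.succ
            simpa [hv, Finset.sum_apply] using this.symm
          rw [hvg, hcomb γ hγ1]
          simp [hgi]
        have hall := Gen1_height (Gen1_ind hAG hζ) hvan
        have hrange : ∀ i, ∃ j, ζ i = Sum.inr j := by
          intro i
          rcases hζi : ζ i with k | j
          · exfalso
            have := hall i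
            simp only [hζi, Sum.elim_inl] at this
            exact hz k this
          · exact ⟨j, rfl⟩
        choose j hj using hrange
        have hji : Function.Injective j := by
          intro x y hxy
          apply hζ
          rw [hj, hj, hxy]
        have hjs : Function.Surjective j := Finite.surjective_of_injective hji
        have hr : Set.range ζ = Set.range (Sum.inr : Fin d → κ ⊕ Fin d) := by
          ext x
          constructor
          · rintro ⟨i, rfl⟩
            exact ⟨j i, (hj i).symm⟩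
          · rintro ⟨k, rfl⟩
            obtain ⟨i, rfl⟩ := hjs k
            exact ⟨i, hj i⟩
        rw [hr, ← Gen1_f_inr] at h3
        exact (Gen1_f_inj d).image_injective h3
    · rintro (⟨m0, hm0, h3⟩ | h3)
      · refine Or.inl ⟨Sum.inl '' m0, ⟨m0, hm0, rfl⟩, ?_⟩
        rw [h3, Gen1_f_inl]
      · refine Or.inr ⟨Sum.inr, Sum.inr_injective, ?_, ?_⟩
        · rw [h3, Gen1_f_inr]
        · rintro _ ⟨γ, hγ, rfl⟩
          by_contra hD
          have h5 := indep_of_D hD (Fin.cons (-1) γ) (by
            rw [Fin.sum_univ_succ]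
            simp only [id, Fin.cons_zero, Fin.cons_succ, Function.comp, Sum.elim_inr]
            rw [Gen1_hv_comb hγ.1]
            simp)
          have := congrFun h5 0
          simp at this
  · simpa using he
  · intro i
    by_cases hi : (i : ℕ) < a
    · exact (hβ.2.1 i hi).ne'
    · exact (hβ.2.2 i (not_lt.1 hi)).ne
  · rw [← Gen1_card a had]
    congr 1
    ext i
    simp only [Finset.mem_filter, Finset.mem_univ, true_and]
    constructor
    · intro h1
      by_contra hi
      exact absurd h1 (not_lt.2 (hβ.2.2 i (not_lt.1 hi)).le)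
    · exact hβ.2.1 i

theorem Gen1_open {κ : Type*} [Finite κ] {F : κ → E d} (hF : AG ∅ F)
    {W : Set (E d)} (hW : Convex ℝ W) (hne : W.Nonempty) (hsp : Gen1_Sp W) (hop : IsOpen W) (n : ℕ) :
    ∃ g : Fin n → E d, (∀ i, g i ∈ W) ∧ AG ∅ (Sum.elim F g) := by
  obtain ⟨g, hg, hAG⟩ := Gen1_addn hF hW hne hsp n (by
    intro m _ g hg hAG ζ hζ
    exact affine_ne _ (Gen1_ind hAG hζ) W hop hne) n le_rfl
  refine ⟨g, hg, Gen1_congr hAG fun I _ => ?_⟩
  constructor
  · rintro ⟨m', hm', -⟩
    exact hm'
  · intro h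
    exact absurd h (Set.notMem_empty _)

/-- A family with `u` points above and `w` points below of the slab in general position. Proof. `extend` with `W` = the open half space
`{v | 1 < v 0}` resp. `{v | v 0 < -1}`, one point after the other (start with the empty family, `AG ∅` is clear for it). -/
theorem gen0 [NeZero d] (u w : ℕ) : ∃ F : Fin u ⊕ Fin w → E d, AG ∅ F ∧ (∀ k, 1 < F (Sum.inl k) 0) ∧
    ∀ k, F (Sum.inr k) 0 < -1 := by
  have hlin : IsLinearMap ℝ (fun v : E d => v 0) := ⟨fun _ _ => rfl, fun _ _ => rfl⟩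
  have hA0 : AG (d := d) ∅ (Fin.elim0 : Fin 0 → E d) := by
    refine ⟨?_, ?_⟩
    · intro Z _
      have : IsEmpty {z // z ∈ Z} := ⟨fun z => z.1.elim0⟩
      exact linearIndependent_empty_type
    · intro I _
      exact (I 0).elim0
  obtain ⟨g1, hg1, hG1⟩ := Gen1_open hA0 (W := {v : E d | 1 < v 0})
    (convex_halfSpace_gt hlin 1) ⟨Pi.single 0 2, by simp⟩
    (Gen1_sp_mono (Gen1_sp_plane 2) (by
      intro v hv'
      simp only [Set.mem_ofPred_eq] at hv' ⊢
      rw [hv']; norm_num)) (isOpen_lt continuous_const (continuous_apply 0)) u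
  have hG1' : AG ∅ g1 := by
    have h1 := ag_comp hG1 (Sum.inr : Fin u → Fin 0 ⊕ Fin u) Sum.inr_injective
    have h2 : (Sum.elim (Fin.elim0 : Fin 0 → E d) g1) ∘ (Sum.inr : Fin u → Fin 0 ⊕ Fin u) = g1 := rfl
    rw [h2] at h1
    refine Gen1_congr h1 fun I _ => ?_
    simp
  obtain ⟨g2, hg2, hG2⟩ := Gen1_open hG1' (W := {v : E d | v 0 < -1})
    (convex_halfSpace_lt hlin (-1)) ⟨Pi.single 0 (-2), by simp⟩
    (Gen1_sp_mono (Gen1_sp_plane (-2)) (by
      intro v hv'
      simp only [Set.mem_ofPred_eq] at hv' ⊢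
      rw [hv']; norm_num)) (isOpen_lt (continuous_apply 0) continuous_const) w
  exact ⟨Sum.elim g1 g2, hG2, hg1, hg2⟩

end Pool.Agent.RVM
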