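import Mathlib

set_option autoImplicit false

namespace Pool.Agent.RVM

/-! ## [RVM-HPAR] the parameters -/

private lemma par_facts {D : ℝ} (h : 3 ≤ D) : D ≤ D ^ 2 ∧ D ^ 2 ≤ D ^ 3 ∧ D ≤ D ^ 3 := by
  have h1 : D ≤ D ^ 2 := by nlinarith
  have h2 : D ^ 2 ≤ D ^ 3 := by
    have : D ^ 3 = D ^ 2 * D := by ring
    nlinarith [sq_nonneg D]
  exact ⟨h1, h2, h1.trans h2⟩

private lemma par_eta {D s ε η : ℝ} (hD0 : 0 < D) (h4 : 0 < D ^ 3) (h : η * (8 * D ^ 3) = ε)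
    (h3 : 128 * D ^ 3 ≤ ε * s) : 2 ≤ η * s := by
  by_contra hcon
  push Not at hcon
  have h5 : η * s * (8 * D ^ 3) < 2 * (8 * D ^ 3) := by
    apply mul_lt_mul_of_pos_right hcon; positivity
  have h1 : η * s * (8 * D ^ 3) = ε * s := by rw [← h]; ring
  linarith

private lemma par_eta8 {D ε η : ℝ} (hD3 : 3 ≤ D) (h2 : 0 ≤ D ^ 2 * η)
    (hηD : η * (8 * D ^ 3) = ε) : D ^ 2 * η ≤ ε / 24 := by
  have h1 : D ^ 2 * η * (8 * D) = ε := by rw [← hηD]; ring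
  nlinarith

private lemma par_lt {q x : ℝ} (hq : 0 ≤ q) (hx : 0 ≤ x) (h : x * x ≤ q * q) : x ≤ q := by
  by_contra hcon
  push Not at hcon
  nlinarith

private lemma par_a4 {D x P s ε : ℝ} (hx0 : 0 ≤ x) (hP0 : 0 ≤ P) (hxx : x * x = s)
    (hD : 0 ≤ D ^ 3) (hxε : 128 * D ^ 3 ≤ x * ε) : 12 * D ^ 3 * x * P ≤ ε / 4 * (P * s) := by
  have e1 : 48 * D ^ 3 * x ≤ ε * s := by
    have e2 : ε * s = (x * ε) * x := by rw [← hxx]; ring
    rw [e2]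
    exact mul_le_mul_of_nonneg_right (by linarith) hx0
  have := mul_le_mul_of_nonneg_right e1 hP0
  linarith

private lemma par_hQ {D d Q s : ℝ} (hD3 : 3 ≤ D) (hd0 : 0 ≤ d) (hdD : d ≤ D) (hQ1 : 1 ≤ Q)
    (hs : s ≤ Q * Q) (h128 : 128 * D ^ 3 ≤ Q) :
    2 * (s + Q + 2 * D) + 8 * D ^ 2 * (d * (Q + 1)) ≤ D * (Q ^ 2 - 4 * D ^ 2) := by
  obtain ⟨f1, f2, f3⟩ := par_facts hD3
  have hD0 : 0 < D := by linarith
  have hQ0 : 0 ≤ Q := by linarith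
  have h2 : 8 * D ^ 2 * (d * (Q + 1)) ≤ 8 * D ^ 2 * (D * (2 * Q)) := by
    apply mul_le_mul_of_nonneg_left _ (by positivity)
    exact mul_le_mul hdD (by linarith) (by positivity) hD0.le
  have h3 : 3 * Q ^ 2 ≤ D * Q ^ 2 := mul_le_mul_of_nonneg_right hD3 (by positivity)
  have h4 : 128 * D ^ 3 * Q ≤ Q ^ 2 := by
    rw [sq]
    exact mul_le_mul_of_nonneg_right h128 hQ0
  have hD3' : 0 < D ^ 3 := by positivity
  have h5 : 4 * D ^ 3 * 1 ≤ 4 * D ^ 3 * Q := mul_le_mul_of_nonneg_left hQ1 (by positivity)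
  have h7 : 2 * Q ≤ 2 * D ^ 3 * Q := by
    have : 1 * Q ≤ D ^ 3 * Q := mul_le_mul_of_nonneg_right (by linarith) hQ0
    linarith
  have h8 : 8 * D ^ 2 * (D * (2 * Q)) = 16 * (D ^ 3 * Q) := by ring
  have h9 : D * (Q ^ 2 - 4 * D ^ 2) = D * Q ^ 2 - 4 * D ^ 3 := by ring
  have h10 : 0 ≤ D ^ 3 * Q := by positivity
  rw [h9]
  rw [h8] at h2
  have h11 : s ≤ Q ^ 2 := by rw [sq]; exact hs
  linarith

/-- the parameters. Proof. Elementary estimates: with `k = d / 2`, `D = d + 1` let `η = ε / (8 (D + d D (k + 1)))`, `n = ⌊η s⌋`, `Q = √s + 1` (`Nat.sqrt`):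
`n^(d+2) ≤ (η s)^(d+2) ≤ η s^(d+2)`, `m ≤ D (k + 1) η s + D k (2 √s + 3)`, `n ≥ η s / 2` for large `s`; `δ = (η / 2)^(d+2)`;
`hQ`: `D Q² ≥ 3 s`, the other terms are `2 s + O(√s)`. (`ε ≤ 1`.) -/
theorem params (d : ℕ) (hd : 2 ≤ d) (ε : ℝ) (hε : 0 < ε) (hε1 : ε ≤ 1) : ∃ δ > 0, ∃ s₀ : ℕ, ∀ s, s₀ ≤ s →
    ∃ n Q m : ℕ, 1 ≤ n ∧ m = (d + 1) * (d / 2 + 1) * n + (d + 1) * (d / 2) * (2 * Q + 1) ∧
      2 * m + 4 * (d + 1) ≤ s ∧
      2 * ((s : ℤ) + Q + 2 * (d + 1)) + 8 * ((d : ℤ) + 1) ^ 2 * (d * (Q + 1)) ≤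
        (d + 1) * ((Q : ℤ) ^ 2 - 4 * (d + 1) ^ 2) ∧
      2 * (((d + 1) * (n : ℤ) ^ (d + 2) + 2 * (d + 1) * Q * (d * (Q + 1)) + d * (m * (s : ℤ) ^ (d + 1)) : ℤ) : ℝ) ≤
        ε * (s : ℝ) ^ (d + 2) ∧
      d * (δ * (s : ℝ) ^ (d + 2)) ≤ (d + 1) * (n : ℝ) ^ (d + 2) := by
  obtain ⟨D, hD⟩ : ∃ D : ℝ, D = (d : ℝ) + 1 := ⟨_, rfl⟩
  have hdr : (2 : ℝ) ≤ d := by exact_mod_cast hd
  have hD3 : 3 ≤ D := by linarith
  have hD0 : 0 < D := by linarith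
  obtain ⟨η, hη⟩ : ∃ η : ℝ, η = ε / (8 * D ^ 3) := ⟨_, rfl⟩
  have hη0 : 0 < η := by rw [hη]; positivity
  have hηD : η * (8 * D ^ 3) = ε := by rw [hη]; field_simp
  obtain ⟨M, hM⟩ : ∃ M : ℝ, M = 128 * D ^ 3 / ε := ⟨_, rfl⟩
  have hMε : M * ε = 128 * D ^ 3 := by rw [hM]; field_simp
  have hD27 : 27 ≤ D ^ 3 := by
    have h1 : (3 : ℝ) ^ 3 ≤ D ^ 3 := pow_le_pow_left₀ (by norm_num) hD3 3
    linarith
  have hM0 : 0 < M := by rw [hM]; positivity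
  have hM1 : 128 * D ^ 3 ≤ M := by
    rw [← hMε]
    nlinarith
  have hη1 : η ≤ 1 := by
    rw [hη, div_le_one (by positivity)]
    linarith
  refine ⟨(η / 2) ^ (d + 2), by positivity, ⌈M ^ 2⌉₊, ?_⟩
  intro s hs
  have hsM : M ^ 2 ≤ (s : ℝ) := (Nat.le_ceil _).trans (by exact_mod_cast hs)
  obtain ⟨x, hx⟩ : ∃ x : ℝ, x = Real.sqrt s := ⟨_, rfl⟩
  have hs0 : (0 : ℝ) ≤ s := Nat.cast_nonneg s
  have hx0 : 0 ≤ x := by rw [hx]; exact Real.sqrt_nonneg _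
  have hxx : x * x = s := by rw [hx]; exact Real.mul_self_sqrt hs0
  have hxM : M ≤ x := by
    rw [hx]
    exact Real.le_sqrt_of_sq_le hsM
  have hx128 : 128 * D ^ 3 ≤ x := hM1.trans hxM
  have hxε : 128 * D ^ 3 ≤ x * ε := by
    rw [← hMε]; exact mul_le_mul_of_nonneg_right hxM hε.le
  have hx1 : 1 ≤ x := by linarith
  obtain ⟨n, hn⟩ : ∃ n : ℕ, n = ⌊η * s⌋₊ := ⟨_, rfl⟩
  obtain ⟨Q, hQ⟩ : ∃ Q : ℕ, Q = Nat.sqrt s + 1 := ⟨_, rfl⟩
  have hηs : 0 ≤ η * s := by positivity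
  have hnle : (n : ℝ) ≤ η * s := by rw [hn]; exact Nat.floor_le hηs
  have hnge : η * s - 1 ≤ n := by
    rw [hn]; exact (Nat.sub_one_lt_floor _).le
  -- `η s ≥ 2`
  have hηs2 : 2 ≤ η * s := by
    have h1 : η * s * (8 * D ^ 3) = ε * s := by rw [← hηD]; ring
    have h2 : ε * s = (x * ε) * x := by rw [← hxx]; ring
    have h3 : 128 * D ^ 3 * 1 ≤ (x * ε) * x := by
      apply mul_le_mul hxε hx1 (by norm_num) (by positivity)
    have h4 : 0 < D ^ 3 := by positivity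
    exact par_eta hD0 h4 hηD (by linarith)
  have hnhalf : η / 2 * s ≤ n := by linarith
  have hn1 : 1 ≤ n := by
    have : (1 : ℝ) ≤ n := by linarith
    exact_mod_cast this
  -- `Q`
  have hQle : (Q : ℝ) ≤ x + 1 := by
    rw [hQ, hx]; push_cast
    have := Real.nat_sqrt_le_real_sqrt (a := s)
    linarith
  have hQ2x : (Q : ℝ) ≤ 2 * x := by linarith
  have hQs : (s : ℝ) ≤ (Q : ℝ) * Q := by
    have h1 : s < (Nat.sqrt s + 1) * (Nat.sqrt s + 1) := Nat.lt_succ_sqrt s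
    rw [← hQ] at h1
    exact_mod_cast h1.le
  have hQ0 : (0 : ℝ) ≤ Q := Nat.cast_nonneg Q
  have hQx : x ≤ Q := par_lt hQ0 hx0 (by rw [hxx]; exact hQs)
  obtain ⟨f1, f2, f3⟩ := par_facts hD3
  obtain ⟨m, hm⟩ : ∃ m : ℕ, m = (d + 1) * (d / 2 + 1) * n + (d + 1) * (d / 2) * (2 * Q + 1) :=
    ⟨_, rfl⟩
  have hk1 : ((d / 2 : ℕ) : ℝ) + 1 ≤ D := by
    have : d / 2 + 1 ≤ d + 1 := by omega
    have h2 : (((d / 2 + 1 : ℕ)) : ℝ) ≤ ((d + 1 : ℕ) : ℝ) := by exact_mod_cast this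
    push_cast at h2
    rw [hD]; exact h2
  have hk0 : (0 : ℝ) ≤ ((d / 2 : ℕ) : ℝ) := Nat.cast_nonneg _
  have hmr : (m : ℝ) = D * (((d / 2 : ℕ) : ℝ) + 1) * n + D * ((d / 2 : ℕ) : ℝ) * (2 * Q + 1) := by
    rw [hm, hD]; push_cast; ring
  have hn0 : (0 : ℝ) ≤ n := Nat.cast_nonneg n
  have hQ1 : (1 : ℝ) ≤ Q := hx1.trans hQx
  have hmle : (m : ℝ) ≤ D ^ 2 * (η * s) + 6 * D ^ 2 * x := by
    rw [hmr]
    have h1 : D * (((d / 2 : ℕ) : ℝ) + 1) * n ≤ D * D * (η * s) :=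
      mul_le_mul (mul_le_mul_of_nonneg_left hk1 hD0.le) hnle hn0 (by positivity)
    have h2 : D * ((d / 2 : ℕ) : ℝ) * (2 * Q + 1) ≤ D * D * (3 * (2 * x)) := by
      apply mul_le_mul (mul_le_mul_of_nonneg_left (by linarith) hD0.le) _ (by positivity)
        (by positivity)
      linarith
    have h3 : D * D * (η * s) + D * D * (3 * (2 * x)) = D ^ 2 * (η * s) + 6 * D ^ 2 * x := by ring
    linarith
  have hη8 : D ^ 2 * η ≤ ε / 24 := par_eta8 hD3 (by positivity) hηD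
  refine ⟨n, Q, m, hn1, hm, ?_, ?_, ?_, ?_⟩
  · -- `2 m + 4 (d + 1) ≤ s`
    have h1 : 2 * (m : ℝ) + 4 * D ≤ s := by
      have h2 : D ^ 2 * (η * s) ≤ s / 24 := by
        have h7 : D ^ 2 * η * s ≤ ε / 24 * s := mul_le_mul_of_nonneg_right hη8 hs0
        have h8 : ε / 24 * s ≤ 1 / 24 * s := mul_le_mul_of_nonneg_right (by linarith) hs0
        have h9 : D ^ 2 * (η * s) = D ^ 2 * η * s := by ring
        rw [h9]
        linarith
      have h3 : 48 * D ^ 2 * x ≤ s := by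
        rw [← hxx]
        have : 48 * D ^ 2 ≤ x := by linarith [sq_nonneg D]
        exact mul_le_mul_of_nonneg_right this hx0
      have h4 : 16 * D ≤ s := by
        have : 16 * D ≤ 128 * D ^ 3 := by linarith
        have h5 : x ≤ s := by rw [← hxx]; exact le_mul_of_one_le_left hx0 hx1
        linarith
      linarith
    rw [hD] at h1
    exact_mod_cast h1
  · -- `hQ`
    have h1 : 2 * ((s : ℝ) + Q + 2 * D) + 8 * D ^ 2 * (d * (Q + 1)) ≤ D * ((Q : ℝ) ^ 2 - 4 * D ^ 2) :=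
      par_hQ hD3 (by positivity) (by linarith) hQ1 hQs (hx128.trans hQx)
    rw [hD] at h1
    have h2 : ((2 * ((s : ℤ) + Q + 2 * (d + 1)) + 8 * ((d : ℤ) + 1) ^ 2 * (d * (Q + 1)) : ℤ) : ℝ) ≤
        (((d + 1) * ((Q : ℤ) ^ 2 - 4 * (d + 1) ^ 2) : ℤ) : ℝ) := by
      push_cast; exact h1
    exact_mod_cast h2
  · push_cast
    have hP : (1 : ℝ) ≤ (s : ℝ) ^ (d + 1) := by
      apply one_le_pow₀
      rw [← hxx]; nlinarith
    have hP0 : (0 : ℝ) < (s : ℝ) ^ (d + 1) := by linarith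
    have hss : (s : ℝ) ^ (d + 2) = (s : ℝ) ^ (d + 1) * s := pow_succ _ _
    have hspos : (0 : ℝ) < s := by rw [← hxx]; nlinarith
    -- first term
    have t1 : (n : ℝ) ^ (d + 2) ≤ η * (s : ℝ) ^ (d + 2) := by
      have h1 : (n : ℝ) ^ (d + 2) ≤ (η * s) ^ (d + 2) := pow_le_pow_left₀ hn0 hnle _
      rw [mul_pow] at h1
      have h2 : η ^ (d + 2) ≤ η ^ 1 := pow_le_pow_of_le_one hη0.le hη1 (by omega)
      rw [pow_one] at h2
      exact h1.trans (mul_le_mul_of_nonneg_right h2 (by positivity))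
    -- second term
    have hdD : (d : ℝ) ≤ D := by linarith
    have t2 : (Q : ℝ) * (Q + 1) ≤ 8 * s := by
      have e1 : (Q : ℝ) * (Q + 1) ≤ (2 * x) * (2 * (2 * x)) :=
        mul_le_mul hQ2x (by linarith) (by positivity) (by positivity)
      have e2 : (2 * x) * (2 * (2 * x)) = 8 * s := by rw [← hxx]; ring
      rw [← e2]; exact e1
    have t2' : 2 * ((d : ℝ) + 1) * Q * (d * (Q + 1)) ≤ 16 * D ^ 2 * s := by
      have e1 : 2 * ((d : ℝ) + 1) * Q * (d * (Q + 1)) = 2 * D * d * (Q * (Q + 1)) := by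
        rw [hD]; ring
      rw [e1]
      calc 2 * D * d * ((Q : ℝ) * (Q + 1)) ≤ 2 * D * D * (8 * s) := by
            apply mul_le_mul _ t2 (by positivity) (by positivity)
            exact mul_le_mul_of_nonneg_left hdD (by positivity)
        _ = 16 * D ^ 2 * s := by ring
    -- third term
    have t3 : (d : ℝ) * (m * (s : ℝ) ^ (d + 1)) ≤
        D * ((D ^ 2 * (η * s) + 6 * D ^ 2 * x) * (s : ℝ) ^ (d + 1)) :=
      mul_le_mul hdD (mul_le_mul_of_nonneg_right hmle hP0.le) (by positivity) hD0.le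
    obtain ⟨P, hPdef⟩ : ∃ P : ℝ, P = (s : ℝ) ^ (d + 1) := ⟨_, rfl⟩
    rw [hss, ← hPdef] at t1 ⊢
    rw [← hPdef] at t3 hP hP0
    -- everything in terms of `P`, `s`, `x`
    have a1 : 2 * (((d : ℝ) + 1) * (n : ℝ) ^ (d + 2)) ≤ 2 * D * (η * (P * s)) := by
      rw [← hD]
      have := mul_le_mul_of_nonneg_left t1 hD0.le
      linarith
    have a2 : 2 * (16 * D ^ 2 * s) ≤ ε / 4 * (P * s) := by
      -- `128 D² ≤ ε P`
      have e1 : 128 * D ^ 2 ≤ ε * s := by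
        have : 128 * D ^ 2 ≤ 128 * D ^ 3 := by linarith
        have e2 : ε * s = (x * ε) * x := by rw [← hxx]; ring
        rw [e2]
        have e3 : 128 * D ^ 3 * 1 ≤ (x * ε) * x :=
          mul_le_mul hxε hx1 (by norm_num) (by positivity)
        linarith
      have e2 : (s : ℝ) ≤ P := by
        rw [hPdef]
        have h1s : (1 : ℝ) ≤ s := by rw [← hxx]; nlinarith
        calc (s : ℝ) = s ^ 1 := (pow_one _).symm
          _ ≤ s ^ (d + 1) := pow_le_pow_right₀ h1s (by omega)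
      have e3 : ε * s ≤ ε * P := mul_le_mul_of_nonneg_left e2 hε.le
      have e4 : 128 * D ^ 2 * s ≤ ε * P * s :=
        mul_le_mul_of_nonneg_right (e1.trans e3) hs0
      have e5 : ε / 4 * (P * s) = ε * P * s / 4 := by ring
      rw [e5]
      linarith
    have a3 : 2 * (D * ((D ^ 2 * (η * s) + 6 * D ^ 2 * x) * P)) ≤
        2 * (D ^ 3 * η) * (P * s) + 12 * D ^ 3 * x * P := by
      apply le_of_eq; ring
    have a4 : 12 * D ^ 3 * x * P ≤ ε / 4 * (P * s) :=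
      par_a4 hx0 hP0.le hxx (by positivity) hxε
    have a5 : 2 * D * (η * (P * s)) + 2 * (D ^ 3 * η) * (P * s) ≤ ε / 2 * (P * s) := by
      have e1 : 0 ≤ P * s := by positivity
      have e2 : 2 * D * η + 2 * (D ^ 3 * η) ≤ ε / 2 := by
        have e3 : D * η ≤ D ^ 3 * η := mul_le_mul_of_nonneg_right f3 hη0.le
        have e4 : 8 * (D ^ 3 * η) = ε := by rw [← hηD]; ring
        linarith
      calc 2 * D * (η * (P * s)) + 2 * (D ^ 3 * η) * (P * s) =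
          (2 * D * η + 2 * (D ^ 3 * η)) * (P * s) := by ring
        _ ≤ _ := mul_le_mul_of_nonneg_right e2 e1
    have a6 : 2 * (2 * ((d : ℝ) + 1) * Q * (d * (Q + 1))) ≤ 2 * (16 * D ^ 2 * s) := by linarith
    have a7 : 2 * ((d : ℝ) * (m * P)) ≤ 2 * (D * ((D ^ 2 * (η * s) + 6 * D ^ 2 * x) * P)) := by
      linarith
    linarith
  · have h1 : (η / 2 * (s : ℝ)) ^ (d + 2) ≤ (n : ℝ) ^ (d + 2) :=
      pow_le_pow_left₀ (by positivity) hnhalf _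
    rw [mul_pow] at h1
    exact mul_le_mul (by linarith) h1 (by positivity) (by positivity)

end Pool.Agent.RVM
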