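import Pool.Agent.MP_c130bd_co.RVM.HWin
import Pool.Agent.MP_c130bd_co.RVM.HPar
import Pool.Agent.MP_c130bd_co.RVM.Fin

set_option autoImplicit false

namespace Pool.Agent.RVM

/-! ## [RVM-HASY] the asymptotic form -/

/-- sums over `Icc 1 (a + 1)` -/
theorem HAsy_sum (f : ℕ → ℤ) (a : ℕ) :
    ∑ i ∈ Finset.Icc 1 (a + 1), f i = ∑ i ∈ Finset.Icc 1 a, f i + f (a + 1) := by
  rw [Finset.sum_Icc_succ_top (by omega)]

/-- telescoping -/
theorem HAsy_tel (A : ℕ → ℤ) (a : ℕ) :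
    ∑ i ∈ Finset.Icc 1 a, (A i - A (i - 1)) = A a - A 0 := by
  induction a with
  | zero => simp
  | succ a ih =>
    rw [HAsy_sum, ih]
    simp

/-- **Local fullness.** Near every primitive Radon vector of a set of `s` points there is a cube (with centre `w` at the distance at most
`ε s^(d+2)` and with the side `2 δ s^(d+2)`) all of whose lattice points with the sum `s.choose (d + 2)` (and with even `v 1, …, v (d / 2)` if
`s + d` is odd) are primitive Radon vectors.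

Proof. `params` (with `min ε 1`), `window`. Put `A' 0 = 0`, `A' a = A a` for `1 ≤ a ≤ k`, `A' (k + 1) = s.choose (d + 2)`, `w i = A' i - A' (i - 1)`. `pp_sum`:
`PP S (k + 1) = s.choose (d + 2) - ∑_{i ≤ k} PP S i`; so `|w i - PP S i|` is at most twice the bound of `window`. Given `v`: `z a = ∑_{i ≤ a} v i`;
`z a - A a = ∑_{i ≤ a} (v i - w i)`. `window` gives `S'` with `∑_{i ≤ a} PP S' i = z a` for `a ≤ k`, hence `PP S' i = v i` for `i ≤ k`, and by `pp_sum` for `i = k + 1`. -/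
theorem local_full (d : ℕ) (hd : 2 ≤ d) (ε : ℝ) (hε : 0 < ε) : ∃ δ : ℝ, 0 < δ ∧ ∃ s₀ : ℕ, ∀ s, s₀ ≤ s →
    ∀ S : Finset (E d), GP S → S.card = s → ∃ w : ℕ → ℤ,
      (∀ i, 1 ≤ i → i ≤ d / 2 + 1 → |(w i : ℝ) - PP S i| ≤ ε * (s : ℝ) ^ (d + 2)) ∧
      ∀ v : ℕ → ℕ, ∑ i ∈ Finset.Icc 1 (d / 2 + 1), v i = s.choose (d + 2) →
        (Odd (s + d) → ∀ i, 1 ≤ i → i ≤ d / 2 → Even (v i)) →
        (∀ i, 1 ≤ i → i ≤ d / 2 + 1 → |(v i : ℝ) - w i| ≤ δ * (s : ℝ) ^ (d + 2)) → IsPrimVec d s v := by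
  have hε1 : 0 < min ε 1 := lt_min hε one_pos
  obtain ⟨δ, hδ, s₀, hpar⟩ := params d hd (min ε 1) hε1 (min_le_right _ _)
  refine ⟨δ, hδ, s₀, ?_⟩
  intro s hs S hS hc
  obtain ⟨n, Q, m, hn, hm, hms, hQ, hB, hD⟩ := hpar s hs
  obtain ⟨A, hA1, hA2⟩ := window d hd s n Q m S hS hc hn hm hms hQ
  set k := d / 2 with hk
  set B : ℤ := (d + 1) * (n : ℤ) ^ (d + 2) + 2 * (d + 1) * Q * (d * (Q + 1)) +
    d * (m * (s : ℤ) ^ (d + 1)) with hBdef
  have hB0 : 0 ≤ B := by positivity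
  have hd1 : 1 ≤ d := by omega
  have hcS : d + 1 ≤ S.card := by omega
  have hk1 : k ≤ d := by omega
  let A' : ℕ → ℤ := fun a => if a = 0 then 0 else if a ≤ k then A a else (s.choose (d + 2) : ℤ)
  have hA'0 : A' 0 = 0 := by simp [A']
  have hA'1 : ∀ a, 1 ≤ a → a ≤ k → A' a = A a := by
    intro a h1 h2
    simp only [A']
    rw [if_neg (by omega), if_pos h2]
  have hA'2 : A' (k + 1) = (s.choose (d + 2) : ℤ) := by
    simp only [A']
    rw [if_neg (by omega), if_neg (by omega)]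
  have hpS : ∑ i ∈ Finset.Icc 1 (k + 1), (PP S i : ℤ) = (s.choose (d + 2) : ℤ) := by
    have h := pp_sum hd1 hS hcS
    rw [hc] at h
    exact_mod_cast h
  have he : ∀ a, a ≤ k + 1 → |A' a - ∑ i ∈ Finset.Icc 1 a, (PP S i : ℤ)| ≤ B := by
    intro a ha
    rcases Nat.eq_zero_or_pos a with h0 | h0
    · rw [h0, hA'0]
      simpa using hB0
    · rcases Nat.lt_or_ge k a with h1 | h1
      · have h2 : a = k + 1 := by omega
        rw [h2, hA'2, hpS]
        simpa using hB0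
      · rw [hA'1 a h0 h1]
        exact hA1 a h0 h1
  refine ⟨fun i => A' i - A' (i - 1), ?_, ?_⟩
  · intro i hi1 hi2
    obtain ⟨j, rfl⟩ : ∃ j, i = j + 1 := ⟨i - 1, by omega⟩
    have h1 := he (j + 1) hi2
    have h2 := he j (by omega)
    rw [HAsy_sum] at h1
    have h3 : |(A' (j + 1) - A' j) - (PP S (j + 1) : ℤ)| ≤ 2 * B := by
      rw [abs_le] at h1 h2 ⊢
      constructor <;> linarith [h1.1, h1.2, h2.1, h2.2]
    have h4 : |((A' (j + 1) - A' j : ℤ) : ℝ) - (PP S (j + 1) : ℝ)| ≤ 2 * (B : ℝ) := by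
      exact_mod_cast h3
    have h5 : (min ε 1) * (s : ℝ) ^ (d + 2) ≤ ε * (s : ℝ) ^ (d + 2) :=
      mul_le_mul_of_nonneg_right (min_le_left _ _) (by positivity)
    simp only [Nat.add_sub_cancel]
    exact h4.trans (hB.trans h5)
  · intro v hv hpv hvw
    have hvZ : ∑ i ∈ Finset.Icc 1 (k + 1), (v i : ℤ) = (s.choose (d + 2) : ℤ) := by
      exact_mod_cast hv
    obtain ⟨S', hS', hc', hsum⟩ := hA2 (fun a => ∑ i ∈ Finset.Icc 1 a, (v i : ℤ)) (by
      intro a ha1 ha2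
      have h1 : ∑ i ∈ Finset.Icc 1 a, (v i : ℤ) - A a =
          ∑ i ∈ Finset.Icc 1 a, ((v i : ℤ) - (A' i - A' (i - 1))) := by
        rw [Finset.sum_sub_distrib, HAsy_tel, hA'0, hA'1 a ha1 ha2, sub_zero]
      rw [h1]
      have h2 : |((∑ i ∈ Finset.Icc 1 a, ((v i : ℤ) - (A' i - A' (i - 1))) : ℤ) : ℝ)| ≤
          a * (δ * (s : ℝ) ^ (d + 2)) := by
        push_cast
        refine (Finset.abs_sum_le_sum_abs _ _).trans ?_
        have h3 : ∀ i ∈ Finset.Icc 1 a, |(v i : ℝ) - ((A' i : ℝ) - (A' (i - 1) : ℝ))| ≤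
            δ * (s : ℝ) ^ (d + 2) := by
          intro i hi
          rw [Finset.mem_Icc] at hi
          have h4 := hvw i hi.1 (by omega)
          push_cast at h4
          exact h4
        refine (Finset.sum_le_card_nsmul _ _ _ h3).trans ?_
        rw [Nat.card_Icc, nsmul_eq_mul]
        simp
      have h5 : (a : ℝ) * (δ * (s : ℝ) ^ (d + 2)) ≤ d * (δ * (s : ℝ) ^ (d + 2)) := by
        apply mul_le_mul_of_nonneg_right _ (by positivity)
        have : a ≤ d := by omega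
        exact_mod_cast this
      have h6 := (h2.trans h5).trans hD
      exact_mod_cast h6) (by
      intro hodd a ha1 ha2
      apply Finset.dvd_sum
      intro i hi
      rw [Finset.mem_Icc] at hi
      have := hpv hodd i hi.1 (by omega)
      obtain ⟨r, hr⟩ := this
      exact ⟨r, by rw [hr]; push_cast; ring⟩)
    have hpS' : ∑ i ∈ Finset.Icc 1 (k + 1), (PP S' i : ℤ) = (s.choose (d + 2) : ℤ) := by
      have h := pp_sum hd1 hS' (by rw [hc', ← hc]; exact hcS)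
      rw [hc'] at h
      exact_mod_cast h
    have hall : ∀ a, a ≤ k + 1 → ∑ i ∈ Finset.Icc 1 a, (PP S' i : ℤ) =
        ∑ i ∈ Finset.Icc 1 a, (v i : ℤ) := by
      intro a ha
      rcases Nat.eq_zero_or_pos a with h0 | h0
      · rw [h0]
        simp
      · rcases Nat.lt_or_ge k a with h1 | h1
        · have h2 : a = k + 1 := by omega
          rw [h2, hpS', hvZ]
        · exact hsum a h0 h1
    refine ⟨S', hc', hS', ?_⟩
    intro i hi1 hi2
    obtain ⟨j, rfl⟩ : ∃ j, i = j + 1 := ⟨i - 1, by omega⟩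
    have h1 := hall (j + 1) hi2
    have h2 := hall j (by omega)
    rw [HAsy_sum, HAsy_sum, h2] at h1
    have h3 := add_left_cancel h1
    exact_mod_cast h3

end Pool.Agent.RVM
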