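import Pool.Agent.MP_c130bd_co.RVM.HVec

set_option autoImplicit false

namespace Pool.Agent.RVM

variable {d : ℕ} {κ : Type*} {N : ℕ} {n : Fin N → ℕ}

/-! ## [RVM-HCL0] the cluster configurations: definitions and basic facts -/

/-- The configuration: the points of the clusters are `base + ρ (v x)`, and the first cluster of the block `t` is moreover shifted by
`ρ C (τ t) e₀`. -/
noncomputable def cl [NeZero d] (F : κ → E d) (g : Fin N × Fin (d + 1) → E d)
    (v : ((t : Fin N) × (Fin (d + 1) × Fin (n t))) → E d) (ρ C : ℝ) (τ : Fin N → ℝ) :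
    Pt κ d n → E d :=
  Sum.elim F fun x => g (x.1, x.2.1) + ρ • (v x + Pi.single 0 (if x.2.1 = 0 then C * τ x.1 else 0))

/-- the determinant of `(0, e₀)` and the points `g (t, 1), …, g (t, d)` -/
noncomputable def KK [NeZero d] (g : Fin N × Fin (d + 1) → E d) (t : Fin N) : ℝ :=
  Matrix.det (Matrix.of fun r c : Fin (d + 1) =>
    (Fin.cons (Fin.cons 0 (Pi.single 0 1) : Fin (d + 1) → ℝ) (fun i : Fin d => hv (g (t, i.succ))) :
      Fin (d + 1) → Fin (d + 1) → ℝ) r c)

/-- Proof. The finitely many vectors `v x` and the shifts (`|C τ| ≤ |C|`) are bounded. -/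
theorem cl_close [NeZero d] (F : κ → E d) (g : Fin N × Fin (d + 1) → E d)
    (v : ((t : Fin N) × (Fin (d + 1) × Fin (n t))) → E d) (C : ℝ) {ε : ℝ} (hε : 0 < ε) :
    ∃ ρ₀ > 0, ∀ ρ, 0 < ρ → ρ < ρ₀ → ∀ τ : Fin N → ℝ, (∀ t, |τ t| ≤ 1) → ∀ x,
      ‖cl F g v ρ C τ x - bp F g x‖ ≤ ε := by
  have hM : 0 < (∑ x, ‖v x‖) + |C| + 1 := by
    have : 0 ≤ ∑ x, ‖v x‖ := Finset.sum_nonneg fun x _ => norm_nonneg _
    positivity
  refine ⟨ε / ((∑ x, ‖v x‖) + |C| + 1), div_pos hε hM, ?_⟩
  intro ρ hρ0 hρ τ hτ x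
  rw [lt_div_iff₀ hM] at hρ
  rcases x with k | x
  · simp only [cl, bp, Sum.elim_inl, sub_self, norm_zero]
    exact hε.le
  · simp only [cl, bp, Sum.elim_inr, add_sub_cancel_left]
    rw [norm_smul, Real.norm_eq_abs, abs_of_pos hρ0]
    have h1 : ‖v x‖ ≤ ∑ x, ‖v x‖ :=
      Finset.single_le_sum (f := fun x => ‖v x‖) (fun x _ => norm_nonneg _) (Finset.mem_univ x)
    have h2 : ‖(Pi.single 0 (if x.2.1 = 0 then C * τ x.1 else 0) : E d)‖ ≤ |C| := by
      rw [Pi.norm_single, Real.norm_eq_abs]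
      split_ifs
      · rw [abs_mul]
        calc |C| * |τ x.1| ≤ |C| * 1 := mul_le_mul_of_nonneg_left (hτ x.1) (abs_nonneg C)
          _ = |C| := mul_one _
      · simp
    have h3 : ‖v x + Pi.single 0 (if x.2.1 = 0 then C * τ x.1 else 0)‖ ≤
        (∑ x, ‖v x‖) + |C| + 1 := by
      refine (norm_add_le _ _).trans ?_
      linarith
    exact (mul_le_mul_of_nonneg_left h3 hρ0.le).trans hρ.le

/-- auxiliary for `KK_eq`: the determinant with a given first row -/
private theorem HCl0_aux (m : ℕ) [NeZero m] (H : ℝ) (R : Fin m → Fin (m + 1) → ℝ)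
    (h0 : ∀ i, R i 0 = 1) (h1 : ∀ i, R i (Fin.succ 0) = H) (hli : LinearIndependent ℝ R) :
    (Matrix.det (Matrix.of fun r c : Fin (m + 1) =>
      (Fin.cons (Fin.cons 0 (Pi.single 0 1) : Fin (m + 1) → ℝ) R :
        Fin (m + 1) → Fin (m + 1) → ℝ) r c) ≠ 0) ∧
    ∀ a : Fin (m + 1) → ℝ, Matrix.det (Matrix.of fun r c : Fin (m + 1) =>
      (Fin.cons a R : Fin (m + 1) → Fin (m + 1) → ℝ) r c) = (a (Fin.succ 0) - H * a 0) *
      Matrix.det (Matrix.of fun r c : Fin (m + 1) =>
      (Fin.cons (Fin.cons 0 (Pi.single 0 1) : Fin (m + 1) → ℝ) R :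
        Fin (m + 1) → Fin (m + 1) → ℝ) r c) := by
  have hupd : ∀ a : Fin (m + 1) → ℝ, (Matrix.of fun r c : Fin (m + 1) =>
      (Fin.cons a R : Fin (m + 1) → Fin (m + 1) → ℝ) r c) =
      (Matrix.of fun r c : Fin (m + 1) =>
        (Fin.cons 0 R : Fin (m + 1) → Fin (m + 1) → ℝ) r c).updateRow 0 a := by
    intro a
    ext r c
    refine Fin.cases ?_ (fun i => ?_) r
    · simp [Matrix.updateRow_self]
    · rw [Matrix.updateRow_ne (Fin.succ_ne_zero i)]
      simp
  have hker : ∀ a : Fin (m + 1) → ℝ, a (Fin.succ 0) = H * a 0 →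
      Matrix.det (Matrix.of fun r c : Fin (m + 1) =>
        (Fin.cons a R : Fin (m + 1) → Fin (m + 1) → ℝ) r c) = 0 := by
    intro a ha
    rw [← Matrix.exists_mulVec_eq_zero_iff]
    refine ⟨Fin.cons (-H) (Pi.single 0 1), ?_, ?_⟩
    · intro h
      have h5 := congrFun h (Fin.succ 0)
      rw [Fin.cons_succ, Pi.single_eq_same, Pi.zero_apply] at h5
      exact one_ne_zero h5
    · funext r
      refine Fin.cases ?_ (fun i => ?_) r
      · rw [Matrix.mulVec, dotProduct, Fin.sum_univ_succ]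
        simp only [Matrix.of_apply, Fin.cons_zero, Fin.cons_succ, Pi.zero_apply, Pi.single_apply,
          mul_ite, mul_one, mul_zero, Finset.sum_ite_eq', Finset.mem_univ, if_true]
        rw [ha]; ring
      · rw [Matrix.mulVec, dotProduct, Fin.sum_univ_succ]
        simp only [Matrix.of_apply, Fin.cons_zero, Fin.cons_succ, Pi.zero_apply, Pi.single_apply,
          mul_ite, mul_one, mul_zero, Finset.sum_ite_eq', Finset.mem_univ, if_true]
        rw [h0, h1]; ring
  constructor
  · have h2 : LinearIndependent ℝ (Fin.cons (Fin.cons 0 (Pi.single 0 1) : Fin (m + 1) → ℝ) R :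
        Fin (m + 1) → Fin (m + 1) → ℝ) := by
      rw [linearIndependent_finCons]
      refine ⟨hli, ?_⟩
      intro hmem
      let φ : (Fin (m + 1) → ℝ) →ₗ[ℝ] ℝ :=
        LinearMap.proj (R := ℝ) (φ := fun _ : Fin (m + 1) => ℝ) (Fin.succ 0) -
          H • LinearMap.proj (R := ℝ) (φ := fun _ : Fin (m + 1) => ℝ) 0
      have hle : Submodule.span ℝ (Set.range R) ≤ LinearMap.ker φ := by
        rw [Submodule.span_le]
        rintro _ ⟨i, rfl⟩
        show R i (Fin.succ 0) - H * R i 0 = 0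
        rw [h0, h1]; ring
      have h3 : φ (Fin.cons 0 (Pi.single 0 1) : Fin (m + 1) → ℝ) = 0 := hle hmem
      have h3' : (Fin.cons 0 (Pi.single 0 1) : Fin (m + 1) → ℝ) (Fin.succ 0) -
        H * (Fin.cons 0 (Pi.single 0 1) : Fin (m + 1) → ℝ) 0 = 0 := h3
      rw [Fin.cons_succ, Fin.cons_zero, Pi.single_eq_same] at h3'
      norm_num at h3'
    have h4 : IsUnit (Matrix.of fun r c : Fin (m + 1) =>
      (Fin.cons (Fin.cons 0 (Pi.single 0 1) : Fin (m + 1) → ℝ) R :
        Fin (m + 1) → Fin (m + 1) → ℝ) r c) := by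
      rw [← Matrix.linearIndependent_rows_iff_isUnit]
      exact h2
    rw [Matrix.isUnit_iff_isUnit_det] at h4
    exact h4.ne_zero
  · intro a
    have hdec : a = (a - (a (Fin.succ 0) - H * a 0) • (Fin.cons 0 (Pi.single 0 1) :
        Fin (m + 1) → ℝ)) + (a (Fin.succ 0) - H * a 0) • (Fin.cons 0 (Pi.single 0 1) :
        Fin (m + 1) → ℝ) := by
      rw [sub_add_cancel]
    have hz := hker (a - (a (Fin.succ 0) - H * a 0) • (Fin.cons 0 (Pi.single 0 1) :
        Fin (m + 1) → ℝ)) (by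
          simp only [Pi.sub_apply, Pi.smul_apply, Fin.cons_succ, Fin.cons_zero,
            Pi.single_eq_same, smul_eq_mul]
          ring)
    conv_lhs => rw [hdec]
    rw [hupd, Matrix.det_updateRow_add, ← hupd, hz, zero_add, Matrix.det_updateRow_smul, ← hupd]

/-- Proof. `u ↦ det (hv u, hv (g (t, 1)), …)` is affine; it vanishes on the hyperplane of the height `h t`: an element `u` of the hyperplane satisfies
`hv u ∈ span (hv (g (t, i.succ)))` (the `d` independent (`AG.ind`) vectors span the space of the vectors `y` with `y 1 = h t * y 0`, where `y 0`, `y 1` are the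
first two coordinates). A general `u` is `u' + (u 0 - h t) e₀` with `u' 0 = h t`, so the determinant is `(u 0 - h t) KK g t`. `KK ≠ 0`: otherwise
`(0, e₀)` would be in the span, but it does not satisfy `y 1 = h t * y 0`. -/
theorem KK_eq [NeZero d] [Fintype κ] [DecidableEq κ] {F : κ → E d} {h : Fin N → ℝ} {a : Fin N → ℕ}
    {g : Fin N × Fin (d + 1) → E d} (B : Blocks F h a g) (t : Fin N) :
    KK g t ≠ 0 ∧ (∀ w : E d, Matrix.det (Matrix.of fun r c : Fin (d + 1) =>
      (Fin.cons (Fin.cons 0 w : Fin (d + 1) → ℝ) (fun i : Fin d => hv (g (t, i.succ))) :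
        Fin (d + 1) → Fin (d + 1) → ℝ) r c) = w 0 * KK g t) ∧
    ∀ u : E d, Matrix.det (Matrix.of fun r c : Fin (d + 1) =>
      (Fin.cons (hv u) (fun i : Fin d => hv (g (t, i.succ))) :
        Fin (d + 1) → Fin (d + 1) → ℝ) r c) = (u 0 - h t) * KK g t := by
  classical
  have hli : LinearIndependent ℝ (fun i : Fin d => hv (g (t, i.succ))) := by
    have hc : (Finset.univ.image (fun i : Fin d =>
        (Sum.inr (t, i.succ) : κ ⊕ (Fin N × Fin (d + 1))))).card ≤ d := by
      refine Finset.card_image_le.trans ?_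
      simp
    have h1 := B.ag.ind _ hc
    let f : Fin d → (Finset.univ.image (fun i : Fin d =>
        (Sum.inr (t, i.succ) : κ ⊕ (Fin N × Fin (d + 1)))) : Finset _) := fun i =>
      ⟨Sum.inr (t, i.succ), Finset.mem_image_of_mem _ (Finset.mem_univ i)⟩
    have hf : Function.Injective f := by
      intro i j hij
      have := congrArg Subtype.val hij
      simpa [f] using this
    exact h1.comp f hf
  obtain ⟨k1, k2⟩ := HCl0_aux d (h t) (fun i : Fin d => hv (g (t, i.succ)))
    (fun i => by simp only [hv, Fin.cons_zero])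
    (fun i => by simp only [hv, Fin.cons_succ]; exact B.height _ _) hli
  refine ⟨k1, fun w => ?_, fun u => ?_⟩
  · rw [k2]
    simp only [Fin.cons_zero, Fin.cons_succ, mul_zero, sub_zero]
    rfl
  · rw [k2]
    simp only [hv, Fin.cons_zero, Fin.cons_succ, mul_one]
    rfl

end Pool.Agent.RVM
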