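import Pool.Agent.MP_c130bd_co.RVM.HCl0

set_option autoImplicit false

namespace Pool.Agent.RVM

variable {d : ℕ} {κ : Type*} {N : ℕ} {n : Fin N → ℕ}

/-! ## [RVM-HCL1] the orientations which do not change -/

/-- a finite family of `for all small ρ` statements -/
theorem HCl1_finite {α : Type*} [Finite α] {Q : α → ℝ → Prop}
    (h : ∀ a, ∃ ρ₀ > 0, ∀ ρ, 0 < ρ → ρ < ρ₀ → Q a ρ) :
    ∃ ρ₀ > 0, ∀ ρ, 0 < ρ → ρ < ρ₀ → ∀ a, Q a ρ := by
  cases isEmpty_or_nonempty α with
  | inl he => exact ⟨1, one_pos, fun ρ _ _ a => isEmptyElim a⟩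
  | inr hne =>
    choose f hf hQ using h
    obtain ⟨a, ha⟩ := Finite.exists_min f
    exact ⟨f a, hf a, fun ρ h1 h2 b => hQ b ρ h1 (lt_of_lt_of_le h2 (ha b))⟩

/-- matrices close to a nonsingular matrix -/
theorem HCl1_cont {m : ℕ} (A : Matrix (Fin m) (Fin m) ℝ) (hA : A.det ≠ 0) :
    ∃ ε > 0, ∀ B : Matrix (Fin m) (Fin m) ℝ, (∀ i j, |B i j - A i j| ≤ ε) → 0 < B.det * A.det := by
  have hc : Continuous fun B : Fin m → Fin m → ℝ => (Matrix.of B).det * A.det :=
    (Continuous.matrix_det continuous_id).mul continuous_const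
  have hpos : 0 < (Matrix.of fun i j => A i j).det * A.det := mul_self_pos.2 hA
  have hev : ∀ᶠ B in nhds (fun i j => A i j : Fin m → Fin m → ℝ), 0 < (Matrix.of B).det * A.det :=
    (hc.tendsto (fun i j => A i j)).eventually (eventually_gt_nhds hpos)
  rw [Metric.eventually_nhds_iff] at hev
  obtain ⟨ε, hε, hB⟩ := hev
  refine ⟨ε / 2, by positivity, fun B hBA => ?_⟩
  have h1 : dist (fun i j => B i j : Fin m → Fin m → ℝ) (fun i j => A i j) < ε := by
    refine lt_of_le_of_lt ?_ (half_lt_self hε)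
    rw [dist_pi_le_iff (by positivity)]
    intro i
    rw [dist_pi_le_iff (by positivity)]
    intro j
    rw [Real.dist_eq]
    exact hBA i j
  exact hB h1

/-- row operations -/
theorem HCl1_row {m : ℕ} (A : Matrix (Fin m) (Fin m) ℝ) (rep : Fin m → Fin m)
    (hle : ∀ r, rep r ≤ r) :
    (Matrix.of fun r c => if rep r = r then A r c else A r c - A (rep r) c).det = A.det := by
  set T : Matrix (Fin m) (Fin m) ℝ := Matrix.of fun r r' =>
    if r' = r then 1 else if r' = rep r then -1 else 0 with hT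
  have hTdet : T.det = 1 := by
    rw [Matrix.det_of_isLowerTriangular T]
    · refine Finset.prod_eq_one fun i _ => ?_
      rw [hT, Matrix.of_apply, if_pos rfl]
    · intro i j hij
      rw [hT, Matrix.of_apply]
      have h1 : i < j := hij
      rw [if_neg h1.ne', if_neg]
      rintro rfl
      exact absurd (hle i) (not_le.2 h1)
  have hmul : (Matrix.of fun r c => if rep r = r then A r c else A r c - A (rep r) c) = T * A := by
    ext r c
    rw [Matrix.mul_apply, Matrix.of_apply]
    by_cases h : rep r = r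
    · rw [if_pos h, Finset.sum_eq_single r]
      · rw [hT, Matrix.of_apply, if_pos rfl, one_mul]
      · intro b _ hb
        rw [hT, Matrix.of_apply, if_neg hb, h, if_neg hb, zero_mul]
      · intro h'
        exact absurd (Finset.mem_univ r) h'
    · rw [if_neg h]
      have h2 : ∀ b : Fin m, T r b * A b c =
          (if b = r then A b c else 0) + (if b = rep r then - A b c else 0) := by
        intro b
        rw [hT, Matrix.of_apply]
        by_cases hb : b = r
        · rw [if_pos hb, if_pos hb, if_neg (fun h' => h (h'.symm.trans hb)), one_mul, add_zero]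
        · rw [if_neg hb, if_neg hb]
          by_cases hb2 : b = rep r
          · rw [if_pos hb2, if_pos hb2]; ring
          · rw [if_neg hb2, if_neg hb2]; ring
      rw [Finset.sum_congr rfl fun b _ => h2 b, Finset.sum_add_distrib, Finset.sum_ite_eq' Finset.univ,
        Finset.sum_ite_eq' Finset.univ, if_pos (Finset.mem_univ _), if_pos (Finset.mem_univ _)]
      ring
  rw [hmul, Matrix.det_mul, hTdet, one_mul]

/-- the statement for one `I` -/
theorem HCl1_one [NeZero d] [Fintype κ] [DecidableEq κ] (F : κ → E d)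
    (g : Fin N × Fin (d + 1) → E d)
    (v : ((t : Fin N) × (Fin (d + 1) × Fin (n t))) → E d)
    (hgen : ∀ I : Fin (d + 1) → Pt κ d n, Function.Injective I → (∀ t ν, Set.range I ≠ tset t ν) →
        ∀ rep : Fin (d + 1) → Fin (d + 1), (∀ r, rep (rep r) = rep r) →
          (∀ r r', bi (I r) = bi (I r') ↔ rep r = rep r') → LL F g v I rep ≠ 0) (C : ℝ)
    (I : Fin (d + 1) → Pt κ d n) (hI : Function.Injective I) (hIt : ∀ t ν, Set.range I ≠ tset t ν) :
    ∃ L : ℝ, L ≠ 0 ∧ ∃ ρ₀ > 0, ∀ ρ, 0 < ρ → ρ < ρ₀ → ∀ τ : Fin N → ℝ, (∀ t, |τ t| ≤ 1) →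
      0 < D (cl F g v ρ C τ) I * L := by
  classical
  -- the representatives
  have hne : ∀ r, (Finset.univ.filter fun r' => bi (I r') = bi (I r)).Nonempty := fun r =>
    ⟨r, Finset.mem_filter.2 ⟨Finset.mem_univ _, rfl⟩⟩
  set rep : Fin (d + 1) → Fin (d + 1) := fun r =>
    (Finset.univ.filter fun r' => bi (I r') = bi (I r)).min' (hne r) with hrep
  have hbi : ∀ r, bi (I (rep r)) = bi (I r) := fun r =>
    (Finset.mem_filter.1 (Finset.min'_mem _ (hne r))).2
  have hle : ∀ r, rep r ≤ r := by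
    intro r
    have hmem : r ∈ Finset.univ.filter fun r' => bi (I r') = bi (I r) :=
      Finset.mem_filter.2 ⟨Finset.mem_univ r, rfl⟩
    exact Finset.min'_le _ r hmem
  have hiff : ∀ r r', bi (I r) = bi (I r') ↔ rep r = rep r' := by
    intro r r'
    constructor
    · intro h
      simp only [hrep, h]
    · intro h
      rw [← hbi r, h, hbi r']
  have hrr : ∀ r, rep (rep r) = rep r := fun r => (hiff _ _).1 (hbi r)
  have hL := hgen I hI hIt rep hrr hiff
  refine ⟨LL F g v I rep, hL, ?_⟩
  obtain ⟨ε, hε, hcont⟩ := HCl1_cont _ hL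
  obtain ⟨ρ₀, hρ₀, hcl⟩ := cl_close F g v C hε
  refine ⟨ρ₀, hρ₀, fun ρ hρ hρ1 τ hτ => ?_⟩
  set P := cl F g v ρ C τ with hP
  -- the difference of two points of the same cluster
  have hdiff : ∀ r, rep r ≠ r → ∀ c, hv (P (I r)) c - hv (P (I (rep r))) c =
      ρ * (Fin.cons 0 (Sum.elim (fun _ => 0) v (I r) - Sum.elim (fun _ => 0) v (I (rep r))) :
      Fin (d + 1) → ℝ) c := by
    intro r hr c
    have hb := hbi r
    have hrI : I (rep r) ≠ I r := fun h => hr (hI h)
    generalize I r = x at *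
    generalize I (rep r) = y at *
    rcases x with k | x <;> rcases y with k' | y
    · exact absurd (congrArg Sum.inl (Sum.inl.inj hb)) hrI
    · exact absurd hb (by simp [bi])
    · exact absurd hb (by simp [bi])
    · have h1 : (y.1, y.2.1) = (x.1, x.2.1) := Sum.inr.inj hb
      have h2 : y.1 = x.1 := congrArg Prod.fst h1
      have h3 : y.2.1 = x.2.1 := congrArg Prod.snd h1
      refine Fin.cases ?_ (fun j => ?_) c
      · simp [hv]
      · simp only [hv, Fin.cons_succ, hP, cl, Sum.elim_inr, Pi.add_apply, Pi.sub_apply,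
          Pi.smul_apply, smul_eq_mul, h2, h3]
        ring
  -- the determinant
  have hdet : D P I = (∏ r : Fin (d + 1), if rep r = r then (1 : ℝ) else ρ) *
      Matrix.det (Matrix.of fun r c => if rep r = r then hv (P (I r)) c else
    (Fin.cons 0 (Sum.elim (fun _ => 0) v (I r) - Sum.elim (fun _ => 0) v (I (rep r))) :
      Fin (d + 1) → ℝ) c) := by
    unfold D
    rw [← HCl1_row _ rep hle, ← Matrix.det_mul_column]
    congr 1
    ext r c
    simp only [Matrix.of_apply]
    by_cases h : rep r = r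
    · rw [if_pos h, if_pos h, if_pos h, one_mul]
    · rw [if_neg h, if_neg h, if_neg h]
      exact hdiff r h c
  rw [hdet, mul_assoc]
  refine mul_pos (Finset.prod_pos fun r _ => ?_) ?_
  · split_ifs
    · exact one_pos
    · exact hρ
  · refine hcont _ ?_
    intro r c
    simp only [Matrix.of_apply]
    by_cases h : rep r = r
    · rw [if_pos h, if_pos h]
      refine Fin.cases ?_ (fun j => ?_) c
      · simp only [hv, Fin.cons_zero, sub_self, abs_zero]
        exact hε.le
      · simp only [hv, Fin.cons_succ]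
        have h1 := hcl ρ hρ hρ1 τ hτ (I r)
        have h2 := norm_le_pi_norm (P (I r) - bp F g (I r)) j
        rw [Pi.sub_apply, Real.norm_eq_abs] at h2
        exact h2.trans h1
    · rw [if_neg h, if_neg h, sub_self, abs_zero]
      exact hε.le

/-- Proof. Let `I` be injective and no transversal, `rep r` the smallest `r'` with `bi (I r') = bi (I r)`. Subtracting the row `rep r` from the row `r`
(for `rep r ≠ r`) we get the rows `ρ (0, v (I r) - v (I (rep r)))` (the shifts `C τ` of the two points are equal, since they are in the same cluster; the base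
points are equal). So `D (cl F g v ρ C τ) I = ρ^m Δ` with `m = #{r | rep r ≠ r}`, where `Δ` is the determinant with the rows
`hv (cl F g v ρ C τ (I r))` (`rep r = r`), `(0, v (I r) - v (I (rep r)))` (`rep r ≠ r`). For `ρ → 0` the entries tend to those of `LL F g v I rep`, uniformly in `τ` (`cl_close`), and the determinant is
a continuous function of the entries, so for small `ρ` `Δ` has the sign of `LL F g v I rep ≠ 0` (finitely many `I`). (For the row operations: multiply the matrix by the
matrix `1 - (entries (r, rep r), rep r ≠ r)`, which has determinant `1` as it is `1 -` nilpotent (triangular, since `rep r < r`), or use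
`Matrix.det_eq_of_forall_row_eq_smul_add_const`-like lemmas, or induction.) -/
theorem cl_same [NeZero d] [Fintype κ] [DecidableEq κ] (F : κ → E d) (g : Fin N × Fin (d + 1) → E d)
    (v : ((t : Fin N) × (Fin (d + 1) × Fin (n t))) → E d)
    (hgen : ∀ I : Fin (d + 1) → Pt κ d n, Function.Injective I → (∀ t ν, Set.range I ≠ tset t ν) →
        ∀ rep : Fin (d + 1) → Fin (d + 1), (∀ r, rep (rep r) = rep r) →
          (∀ r r', bi (I r) = bi (I r') ↔ rep r = rep r') → LL F g v I rep ≠ 0) (C : ℝ) :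
    ∃ ρ₀ > 0, ∀ ρ, 0 < ρ → ρ < ρ₀ → ∀ τ τ' : Fin N → ℝ, (∀ t, |τ t| ≤ 1) → (∀ t, |τ' t| ≤ 1) →
      ∀ I : Fin (d + 1) → Pt κ d n, Function.Injective I → (∀ t ν, Set.range I ≠ tset t ν) →
        0 < D (cl F g v ρ C τ) I * D (cl F g v ρ C τ') I := by
  have hone : ∀ I : Fin (d + 1) → Pt κ d n, ∃ ρ₀ > 0, ∀ ρ, 0 < ρ → ρ < ρ₀ →
      ∀ τ τ' : Fin N → ℝ, (∀ t, |τ t| ≤ 1) → (∀ t, |τ' t| ≤ 1) →
      Function.Injective I → (∀ t ν, Set.range I ≠ tset t ν) →
        0 < D (cl F g v ρ C τ) I * D (cl F g v ρ C τ') I := by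
    intro I
    by_cases hI : Function.Injective I ∧ ∀ t ν, Set.range I ≠ tset t ν
    · obtain ⟨L, hL, ρ₀, hρ₀, h⟩ := HCl1_one F g v hgen C I hI.1 hI.2
      refine ⟨ρ₀, hρ₀, fun ρ h1 h2 τ τ' hτ hτ' _ _ => ?_⟩
      have e1 := h ρ h1 h2 τ hτ
      have e2 := h ρ h1 h2 τ' hτ'
      have e3 := mul_pos e1 e2
      have e4 : 0 < L * L := mul_self_pos.2 hL
      have e5 : D (cl F g v ρ C τ) I * L * (D (cl F g v ρ C τ') I * L) =
          D (cl F g v ρ C τ) I * D (cl F g v ρ C τ') I * (L * L) := by ring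
      rw [e5] at e3
      exact pos_of_mul_pos_left e3 e4.le
    · exact ⟨1, one_pos, fun ρ _ _ τ τ' _ _ h1 h2 => absurd ⟨h1, h2⟩ hI⟩
  obtain ⟨ρ₀, hρ₀, h⟩ := HCl1_finite hone
  exact ⟨ρ₀, hρ₀, fun ρ h1 h2 τ τ' hτ hτ' I hI hIt => h ρ h1 h2 I τ τ' hτ hτ' hI hIt⟩

end Pool.Agent.RVM
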