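import Pool.Agent.MP_c130bd_co.RVM.HCl0

set_option autoImplicit false

namespace Pool.Agent.RVM

variable {d : ℕ} {κ : Type*} {N : ℕ} {n : Fin N → ℕ}

/-! ## [RVM-HCL2] the determinants of the transversals -/

/-- the determinant as a linear function of the first row -/
noncomputable def HCl2_dt (Z : Fin d → Fin (d + 1) → ℝ) : (Fin (d + 1) → ℝ) →ₗ[ℝ] ℝ where
  toFun y := Matrix.det (Matrix.of fun r c : Fin (d + 1) =>
    (Fin.cons y Z : Fin (d + 1) → Fin (d + 1) → ℝ) r c)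
  map_add' x y := by
    rw [Matrix.det_succ_row_zero, Matrix.det_succ_row_zero, Matrix.det_succ_row_zero,
      ← Finset.sum_add_distrib]
    refine Finset.sum_congr rfl fun j _ => ?_
    have h : ∀ w : Fin (d + 1) → ℝ, (Matrix.of fun r c : Fin (d + 1) =>
        (Fin.cons w Z : Fin (d + 1) → Fin (d + 1) → ℝ) r c).submatrix Fin.succ j.succAbove =
        Matrix.of fun r c => Z r (j.succAbove c) := by
      intro w
      ext r c
      simp
    rw [h, h, h]
    simp only [Matrix.of_apply, Fin.cons_zero, Pi.add_apply]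
    ring
  map_smul' a y := by
    rw [Matrix.det_succ_row_zero, Matrix.det_succ_row_zero, RingHom.id_apply, smul_eq_mul,
      Finset.mul_sum]
    refine Finset.sum_congr rfl fun j _ => ?_
    have h : ∀ w : Fin (d + 1) → ℝ, (Matrix.of fun r c : Fin (d + 1) =>
        (Fin.cons w Z : Fin (d + 1) → Fin (d + 1) → ℝ) r c).submatrix Fin.succ j.succAbove =
        Matrix.of fun r c => Z r (j.succAbove c) := by
      intro w
      ext r c
      simp
    rw [h, h]
    simp only [Matrix.of_apply, Fin.cons_zero, Pi.smul_apply, smul_eq_mul]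
    ring

theorem HCl2_dt_apply (Z : Fin d → Fin (d + 1) → ℝ) (y : Fin (d + 1) → ℝ) :
    HCl2_dt Z y = Matrix.det (Matrix.of fun r c : Fin (d + 1) =>
    (Fin.cons y Z : Fin (d + 1) → Fin (d + 1) → ℝ) r c) := rfl

theorem HCl2_dt_row (Z : Fin d → Fin (d + 1) → ℝ) (i : Fin d) : HCl2_dt Z (Z i) = 0 := by
  rw [HCl2_dt_apply]
  refine Matrix.det_zero_of_row_eq (i := 0) (j := i.succ) (Fin.succ_ne_zero i).symm ?_
  funext c
  simp

/-- the rows of the other points of a transversal -/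
noncomputable def HCl2_Z (g : Fin N × Fin (d + 1) → E d)
    (v : ((t : Fin N) × (Fin (d + 1) × Fin (n t))) → E d) (t : Fin N)
    (ν : Fin (d + 1) → Fin (n t)) (ρ : ℝ) : Fin d → Fin (d + 1) → ℝ :=
  fun i => hv (g (t, i.succ) + ρ • v ⟨t, i.succ, ν i.succ⟩)

theorem HCl2_Z_zero (g : Fin N × Fin (d + 1) → E d)
    (v : ((t : Fin N) × (Fin (d + 1) × Fin (n t))) → E d) (t : Fin N)
    (ν : Fin (d + 1) → Fin (n t)) : HCl2_Z g v t ν 0 = fun i => hv (g (t, i.succ)) := by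
  funext i
  simp only [HCl2_Z, zero_smul, add_zero]

theorem HCl2_cont (g : Fin N × Fin (d + 1) → E d)
    (v : ((t : Fin N) × (Fin (d + 1) × Fin (n t))) → E d) (t : Fin N)
    (ν : Fin (d + 1) → Fin (n t)) (y : Fin (d + 1) → ℝ) :
    Continuous fun ρ : ℝ => HCl2_dt (HCl2_Z g v t ν ρ) y := by
  simp only [HCl2_dt_apply]
  refine Continuous.matrix_det ?_
  refine continuous_matrix ?_
  intro r c
  simp only [Matrix.of_apply]
  refine Fin.cases ?_ (fun i => ?_) r
  · simp only [Fin.cons_zero]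
    exact continuous_const
  · simp only [Fin.cons_succ, HCl2_Z]
    refine Fin.cases ?_ (fun j => ?_) c
    · simp only [hv, Fin.cons_zero]
      exact continuous_const
    · simp only [hv, Fin.cons_succ, Pi.add_apply, Pi.smul_apply, smul_eq_mul]
      exact continuous_const.add (continuous_id.mul continuous_const)

/-- the determinant of a transversal -/
theorem HCl2_D [NeZero d] [Fintype κ] [DecidableEq κ] {F : κ → E d}
    {g : Fin N × Fin (d + 1) → E d}
    (v : ((t : Fin N) × (Fin (d + 1) × Fin (n t))) → E d) (β : Fin N → Fin d → ℝ)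
    (hβ : ∀ t, hv (g (t, 0)) = ∑ i, β t i • hv (g (t, i.succ)))
    (C ρ : ℝ) (τ : Fin N → ℝ) (t : Fin N) (ν : Fin (d + 1) → Fin (n t)) :
    D (cl F g v ρ C τ) (Fin.cons (tx t ν) (tz t ν)) =
      ρ * C * τ t * HCl2_dt (HCl2_Z g v t ν ρ) (Fin.cons 0 (Pi.single 0 1)) -
      ρ * HCl2_dt (HCl2_Z g v t ν ρ)
        (Fin.cons 0 fun j => (∑ i, β t i * v ⟨t, i.succ, ν i.succ⟩ j) - v ⟨t, 0, ν 0⟩ j) := by
  set Z := HCl2_Z g v t ν ρ with hZ
  set u : E d := fun j => (∑ i, β t i * v ⟨t, i.succ, ν i.succ⟩ j) - v ⟨t, 0, ν 0⟩ j with hu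
  have h1 : D (cl F g v ρ C τ) (Fin.cons (tx t ν) (tz t ν)) =
      HCl2_dt Z (hv (cl F g v ρ C τ (tx t ν))) := by
    rw [HCl2_dt_apply]
    unfold D
    congr 1
    ext r c
    simp only [Matrix.of_apply]
    refine Fin.cases ?_ (fun i => ?_) r
    · simp only [Fin.cons_zero]
    · simp only [Fin.cons_succ, hZ, HCl2_Z]
      have h2 : cl F g v ρ C τ (tz t ν i) = g (t, i.succ) + ρ • v ⟨t, i.succ, ν i.succ⟩ := by
        simp only [cl, tz, Sum.elim_inr, Fin.succ_ne_zero, if_false, Pi.single_zero, add_zero]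
      rw [h2]
  have h3 : hv (cl F g v ρ C τ (tx t ν)) = (∑ i, β t i • Z i) - ρ • (Fin.cons 0 u : Fin (d + 1) → ℝ)
      + (ρ * C * τ t) • (Fin.cons 0 (Pi.single 0 1) : Fin (d + 1) → ℝ) := by
    have h4 : cl F g v ρ C τ (tx t ν) =
        g (t, 0) + ρ • (v ⟨t, 0, ν 0⟩ + Pi.single 0 (C * τ t)) := by
      simp only [cl, tx, Sum.elim_inr, if_true]
    rw [h4]
    funext c
    have h5 := congrFun (hβ t) c
    revert h5
    refine Fin.cases ?_ (fun j => ?_) c
    · intro h5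
      simp only [hv, Fin.cons_zero, Finset.sum_apply, Pi.smul_apply, smul_eq_mul, mul_one] at h5
      simp only [hv, Fin.cons_zero, Finset.sum_apply, Pi.smul_apply, smul_eq_mul, Pi.add_apply,
        Pi.sub_apply, mul_zero, sub_zero, add_zero, hZ, HCl2_Z, mul_one]
      exact h5
    · intro h5
      simp only [hv, Fin.cons_succ, Finset.sum_apply, Pi.smul_apply, smul_eq_mul] at h5
      simp only [hv, Fin.cons_succ, Finset.sum_apply, Pi.smul_apply, smul_eq_mul, Pi.add_apply,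
        Pi.sub_apply, hZ, HCl2_Z, hu]
      have h6 : ∑ i, β t i * (g (t, i.succ) j + ρ * v ⟨t, i.succ, ν i.succ⟩ j) =
          g (t, 0) j + ρ * ∑ i, β t i * v ⟨t, i.succ, ν i.succ⟩ j := by
        rw [h5, Finset.mul_sum, ← Finset.sum_add_distrib]
        exact Finset.sum_congr rfl fun i _ => by ring
      have h7 : (Pi.single 0 (C * τ t) : E d) j = C * τ t * (Pi.single 0 1 : E d) j := by
        by_cases hj : j = 0
        · subst hj; simp
        · rw [Pi.single_eq_of_ne hj, Pi.single_eq_of_ne hj, mul_zero]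
      rw [h6, h7]
      ring
  rw [h1, h3, map_add, map_sub, map_smul, map_smul, map_sum]
  have h8 : ∑ i, HCl2_dt Z (β t i • Z i) = 0 := by
    refine Finset.sum_eq_zero fun i _ => ?_
    rw [map_smul, HCl2_dt_row, smul_zero]
  rw [h8, smul_eq_mul, smul_eq_mul]
  ring

/-- Proof. Let `Z` be the rows `hv (cl … (tz t ν i))` (they do not depend on `τ`: only the first cluster is shifted). The determinant is affine in the first
row: `hv (g (t,0) + ρ (v_x + C τ_t e₀)) = hv (g (t,0)) + ρ (0, v_x) + ρ C τ_t (0, e₀)`. So it equals `ρ C τ_t K + A`, where `K = K(ρ)` is the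
determinant with the first row `(0, e₀)` and `A = A(ρ)` the one with the first row `hv (g (t,0) + ρ v_x)`. For `ρ → 0` `K → KK g t ≠ 0` (`KK_eq`). In `A` subtract
`β i` times the row `i + 1` from the first row: because of `hv (g (t,0)) = ∑ β i hv (g (t,i+1))` it becomes `ρ (0, v_x - ∑ β i v_(z i))`. So
`A / ρ → (v_x 0 - ∑ β i v_(z i) 0) KK g t` (`KK_eq`, second part). Put `c t ν = ρ C K`, `θ t ν = - A / (ρ C K)`, which tends to
`((∑ β i v_(z i) 0) - v_x 0) / C`: for small `ρ` these are distinct for distinct `ν` (`hinj`) and in `(-1, 1)` (`hC`). -/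
theorem cl_det [NeZero d] [Fintype κ] [DecidableEq κ] {F : κ → E d} {h : Fin N → ℝ} {a : Fin N → ℕ}
    {g : Fin N × Fin (d + 1) → E d} (B : Blocks F h a g)
    (v : ((t : Fin N) × (Fin (d + 1) × Fin (n t))) → E d) (β : Fin N → Fin d → ℝ)
    (hβ : ∀ t, hv (g (t, 0)) = ∑ i, β t i • hv (g (t, i.succ)))
    (hinj : ∀ t, Function.Injective fun ν : Fin (d + 1) → Fin (n t) =>
        (∑ i, β t i * v ⟨t, i.succ, ν i.succ⟩ 0) - v ⟨t, 0, ν 0⟩ 0)
    {C : ℝ} (hC0 : 0 < C) (hC : ∀ t (ν : Fin (d + 1) → Fin (n t)),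
        |(∑ i, β t i * v ⟨t, i.succ, ν i.succ⟩ 0) - v ⟨t, 0, ν 0⟩ 0| < C) :
    ∃ ρ₀ > 0, ∀ ρ, 0 < ρ → ρ < ρ₀ → ∃ θ c : (t : Fin N) → (Fin (d + 1) → Fin (n t)) → ℝ,
      (∀ t, Function.Injective (θ t)) ∧ (∀ t ν, |θ t ν| < 1) ∧ (∀ t ν, 0 < c t ν * KK g t) ∧
      ∀ τ : Fin N → ℝ, (∀ t, |τ t| ≤ 1) → ∀ t ν,
        D (cl F g v ρ C τ) (Fin.cons (tx t ν) (tz t ν)) = c t ν * (τ t - θ t ν) := by
  -- the functions `K`, `W`, `θ` of `ρ`
  set K : (t : Fin N) → (Fin (d + 1) → Fin (n t)) → ℝ → ℝ := fun t ν ρ =>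
    HCl2_dt (HCl2_Z g v t ν ρ) (Fin.cons 0 (Pi.single 0 1)) with hK
  set W : (t : Fin N) → (Fin (d + 1) → Fin (n t)) → ℝ → ℝ := fun t ν ρ =>
    HCl2_dt (HCl2_Z g v t ν ρ)
      (Fin.cons 0 fun j => (∑ i, β t i * v ⟨t, i.succ, ν i.succ⟩ j) - v ⟨t, 0, ν 0⟩ j) with hW
  set Θ : (t : Fin N) → (Fin (d + 1) → Fin (n t)) → ℝ → ℝ := fun t ν ρ =>
    W t ν ρ / (C * K t ν ρ) with hΘ
  have hK0 : ∀ t ν, K t ν 0 = KK g t := by
    intro t ν
    simp only [hK, HCl2_Z_zero, HCl2_dt_apply]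
    rfl
  have hKne : ∀ t, KK g t ≠ 0 := fun t => (KK_eq B t).1
  have hW0 : ∀ t ν, W t ν 0 =
      ((∑ i, β t i * v ⟨t, i.succ, ν i.succ⟩ 0) - v ⟨t, 0, ν 0⟩ 0) * KK g t := by
    intro t ν
    simp only [hW, HCl2_Z_zero, HCl2_dt_apply]
    exact (KK_eq B t).2.1 _
  have hΘ0 : ∀ t ν, Θ t ν 0 =
      ((∑ i, β t i * v ⟨t, i.succ, ν i.succ⟩ 0) - v ⟨t, 0, ν 0⟩ 0) / C := by
    intro t ν
    simp only [hΘ]
    rw [hK0, hW0, mul_comm C, ← div_div, mul_div_assoc, div_self (hKne t), mul_one]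
  have hKc : ∀ t ν, Continuous (K t ν) := fun t ν => HCl2_cont g v t ν _
  have hWc : ∀ t ν, Continuous (W t ν) := fun t ν => HCl2_cont g v t ν _
  have hΘc : ∀ t ν, ContinuousAt (Θ t ν) 0 := by
    intro t ν
    refine ContinuousAt.div (hWc t ν).continuousAt (continuous_const.mul (hKc t ν)).continuousAt ?_
    rw [hK0]
    exact mul_ne_zero hC0.ne' (hKne t)
  have e1 : ∀ᶠ ρ in nhds (0 : ℝ), ∀ t ν, 0 < K t ν ρ * KK g t := by
    rw [Filter.eventually_all]
    intro t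
    rw [Filter.eventually_all]
    intro ν
    have hc : ContinuousAt (fun ρ => K t ν ρ * KK g t) 0 :=
      ((hKc t ν).mul continuous_const).continuousAt
    refine hc.eventually (eventually_gt_nhds ?_)
    show 0 < K t ν 0 * KK g t
    rw [hK0]
    exact mul_self_pos.2 (hKne t)
  have e2 : ∀ᶠ ρ in nhds (0 : ℝ), ∀ t ν, |Θ t ν ρ| < 1 := by
    rw [Filter.eventually_all]
    intro t
    rw [Filter.eventually_all]
    intro ν
    refine (hΘc t ν).abs.eventually (eventually_lt_nhds ?_)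
    show |Θ t ν 0| < 1
    rw [hΘ0, abs_div, abs_of_pos hC0, div_lt_one hC0]
    exact hC t ν
  have e3 : ∀ᶠ ρ in nhds (0 : ℝ), ∀ t ν ν', ν ≠ ν' → Θ t ν ρ ≠ Θ t ν' ρ := by
    rw [Filter.eventually_all]
    intro t
    rw [Filter.eventually_all]
    intro ν
    rw [Filter.eventually_all]
    intro ν'
    by_cases hne : ν = ν'
    · exact Filter.Eventually.of_forall fun ρ h => absurd hne h
    · have h1 : Θ t ν 0 ≠ Θ t ν' 0 := by
        rw [hΘ0, hΘ0]
        intro h2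
        rw [div_left_inj' hC0.ne'] at h2
        exact hne (hinj t h2)
      have h3 : ContinuousAt (fun ρ => Θ t ν ρ - Θ t ν' ρ) 0 := (hΘc t ν).sub (hΘc t ν')
      have h5 := h3.eventually_ne (y := 0) (sub_ne_zero.2 h1)
      filter_upwards [h5] with ρ h4 _ using sub_ne_zero.1 h4
  obtain ⟨ρ₀, hρ₀, hall⟩ := Metric.eventually_nhds_iff.1 (e1.and (e2.and e3))
  refine ⟨ρ₀, hρ₀, fun ρ hρ hρ1 => ?_⟩
  have hd : dist ρ 0 < ρ₀ := by
    rw [Real.dist_eq, sub_zero, abs_of_pos hρ]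
    exact hρ1
  obtain ⟨f1, f2, f3⟩ := hall hd
  have hKρ : ∀ t ν, K t ν ρ ≠ 0 := by
    intro t ν h0
    have := f1 t ν
    rw [h0, zero_mul] at this
    exact lt_irrefl _ this
  refine ⟨fun t ν => Θ t ν ρ, fun t ν => ρ * C * K t ν ρ, ?_, f2, ?_, ?_⟩
  · intro t ν ν' hνν
    by_contra hne
    exact f3 t ν ν' hne hνν
  · intro t ν
    have := f1 t ν
    have h1 : ρ * C * K t ν ρ * KK g t = (ρ * C) * (K t ν ρ * KK g t) := by ring
    simp only [h1]
    positivity
  · intro τ _ t ν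
    rw [HCl2_D v β hβ]
    have h1 := hKρ t ν
    have h2 := hC0.ne'
    simp only [hΘ]
    have h3 : ρ * C * K t ν ρ * (τ t - W t ν ρ / (C * K t ν ρ)) =
        ρ * C * τ t * K t ν ρ - ρ * W t ν ρ := by
      field_simp
    rw [h3]

end Pool.Agent.RVM
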