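import Pool.Agent.MP_c130bd_co.RVM.HCl0

set_option autoImplicit false

namespace Pool.Agent.RVM

variable {d : ℕ} {κ : Type*} {N : ℕ} {n : Fin N → ℕ}

/-! ## [RVM-HCL3] the sides; the barycentric coordinates -/

open Filter Topology in
/-- a continuous function which is positive at the base points is positive for small `ρ` -/
theorem HCl3_pos [NeZero d] [Fintype κ] (F : κ → E d) (g : Fin N × Fin (d + 1) → E d)
    (v : ((t : Fin N) × (Fin (d + 1) × Fin (n t))) → E d) (C : ℝ)
    (Φ : (Pt κ d n → E d) → ℝ) (hΦ : Continuous Φ) (h0 : 0 < Φ (bp F g)) :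
    ∀ᶠ ρ in 𝓝[>] (0 : ℝ), ∀ τ : Fin N → ℝ, (∀ t, |τ t| ≤ 1) → 0 < Φ (cl F g v ρ C τ) := by
  have h1 : Φ ⁻¹' (Set.Ioi 0) ∈ 𝓝 (bp F g : Pt κ d n → E d) := hΦ.continuousAt.preimage_mem_nhds (Ioi_mem_nhds h0)
  obtain ⟨ε, hε, hsub⟩ := Metric.mem_nhds_iff.1 h1
  obtain ⟨ρ₀, hρ₀, hcl⟩ := cl_close (n := n) F g v C (half_pos hε)
  filter_upwards [Ioo_mem_nhdsGT hρ₀] with ρ hρ τ hτ
  apply hsub
  rw [Metric.mem_ball, dist_eq_norm]
  have h2 : ‖cl F g v ρ C τ - bp F g‖ ≤ ε / 2 := by
    rw [pi_norm_le_iff_of_nonneg (half_pos hε).le]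
    intro x
    exact hcl ρ hρ.1 hρ.2 τ hτ x
  linarith

open Filter Topology in
theorem HCl3_exists {P : ℝ → Prop} (h : ∀ᶠ ρ in 𝓝[>] (0 : ℝ), P ρ) :
    ∃ ρ₀ > 0, ∀ ρ, 0 < ρ → ρ < ρ₀ → P ρ := by
  obtain ⟨u, hu, hsub⟩ := mem_nhdsGT_iff_exists_Ioo_subset.1 h
  exact ⟨u, hu, fun ρ h1 h2 => hsub ⟨h1, h2⟩⟩

theorem HCl3_D_cont (I : Fin (d + 1) → Pt κ d n) :
    Continuous fun p : Pt κ d n → E d => D p I := by
  unfold D
  refine Continuous.matrix_det (continuous_matrix fun r c => ?_)
  simp only [Matrix.of_apply]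
  refine Fin.cases ?_ (fun j => ?_) c
  · simp only [hv, Fin.cons_zero]
    exact continuous_const
  · simp only [hv, Fin.cons_succ]
    exact (continuous_apply j).comp (continuous_apply (I r))

/-- Proof. For `ρ → 0` the determinant tends (uniformly in `τ`, `cl_close`) to the one of the base points, which is
`((bp F g y) 0 - h t) KK g t` (`KK_eq`), and `(bp F g y) 0 = hP (fun k => F k 0) h y` (`Blocks.height`). This is not `0` because
`hP … y ≠ h t` for `y` outside of the block (`hinj`, `hne`). Finitely many `t`, `ν`, `y`. -/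
theorem cl_side [NeZero d] [Fintype κ] [DecidableEq κ] {F : κ → E d} {h : Fin N → ℝ} {a : Fin N → ℕ}
    {g : Fin N × Fin (d + 1) → E d} (B : Blocks F h a g) (hinj : Function.Injective h)
    (hne : ∀ k t, F k 0 ≠ h t)
    (v : ((t : Fin N) × (Fin (d + 1) × Fin (n t))) → E d) (C : ℝ) :
    ∃ ρ₀ > 0, ∀ ρ, 0 < ρ → ρ < ρ₀ → ∀ τ : Fin N → ℝ, (∀ t, |τ t| ≤ 1) → ∀ t
      (ν : Fin (d + 1) → Fin (n t)) (y : Pt κ d n), Outside t y →
      0 < D (cl F g v ρ C τ) (Fin.cons y (tz t ν)) * KK g t * (hP (fun k => F k 0) h y - h t) := by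
  have key : ∀ᶠ ρ in nhdsWithin (0 : ℝ) (Set.Ioi 0), ∀ t, ∀ ν : Fin (d + 1) → Fin (n t), ∀ y : Pt κ d n,
      ∀ τ : Fin N → ℝ, (∀ t, |τ t| ≤ 1) → Outside t y →
      0 < D (cl F g v ρ C τ) (Fin.cons y (tz t ν)) * KK g t * (hP (fun k => F k 0) h y - h t) := by
    rw [Filter.eventually_all]
    intro t
    rw [Filter.eventually_all]
    intro ν
    rw [Filter.eventually_all]
    intro y
    by_cases hy : Outside t y
    · have hbp : (bp F g y : E d) 0 = hP (fun k => F k 0) h y := by
        rcases y with k | x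
        · rfl
        · exact B.height _ _
      have hne' : hP (fun k => F k 0) h y - h t ≠ 0 := by
        rw [sub_ne_zero]
        rcases y with k | x
        · exact hne k t
        · intro hx
          exact hy x rfl (hinj hx)
      obtain ⟨k1, -, k3⟩ := KK_eq B t
      have hD : D (bp F g) (Fin.cons y (tz t ν)) = (hP (fun k => F k 0) h y - h t) * KK g t := by
        rw [← hbp, ← k3]
        unfold D
        congr 1
        ext r c
        simp only [Matrix.of_apply]
        refine Fin.cases ?_ (fun i => ?_) r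
        · simp only [Fin.cons_zero]
        · simp only [Fin.cons_succ]
          rfl
      have hpos : 0 < D (bp F g) (Fin.cons y (tz t ν)) * KK g t * (hP (fun k => F k 0) h y - h t) := by
        rw [hD]
        have : (hP (fun k => F k 0) h y - h t) * KK g t * KK g t * (hP (fun k => F k 0) h y - h t) =
            ((hP (fun k => F k 0) h y - h t) * KK g t) ^ 2 := by ring
        rw [this]
        have := mul_ne_zero hne' k1
        positivity
      have := HCl3_pos F g v C (fun p => D p (Fin.cons y (tz t ν)) * KK g t * (hP (fun k => F k 0) h y - h t))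
        (((HCl3_D_cont _).mul continuous_const).mul continuous_const) hpos
      filter_upwards [this] with ρ hρ τ hτ _
      exact hρ τ hτ
    · exact Filter.Eventually.of_forall fun ρ τ _ hy' => absurd hy' hy
  obtain ⟨ρ₀, h1, h2⟩ := HCl3_exists key
  exact ⟨ρ₀, h1, fun ρ ha hb τ hτ t ν y hy => h2 ρ ha hb t ν y τ hτ hy⟩

/-- the matrix with the rows `(0, e₀)` and `hv (p (z i))` -/
noncomputable def HCl3_M [NeZero d] (t : Fin N) (ν : Fin (d + 1) → Fin (n t)) (p : Pt κ d n → E d) :
    Matrix (Fin (d + 1)) (Fin (d + 1)) ℝ :=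
  Matrix.of fun r c : Fin (d + 1) =>
    (Fin.cons (Fin.cons 0 (Pi.single 0 1) : Fin (d + 1) → ℝ) (fun i : Fin d => hv (p (tz t ν i))) :
      Fin (d + 1) → Fin (d + 1) → ℝ) r c

theorem HCl3_hv_cont (x : Pt κ d n) (c : Fin (d + 1)) :
    Continuous fun p : Pt κ d n → E d => hv (p x) c := by
  refine Fin.cases ?_ (fun j => ?_) c
  · simp only [hv, Fin.cons_zero]
    exact continuous_const
  · simp only [hv, Fin.cons_succ]
    exact (continuous_apply j).comp (continuous_apply x)

theorem HCl3_M_cont [NeZero d] (t : Fin N) (ν : Fin (d + 1) → Fin (n t)) (r c : Fin (d + 1)) :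
    Continuous fun p : Pt κ d n → E d => HCl3_M t ν p r c := by
  simp only [HCl3_M, Matrix.of_apply]
  refine Fin.cases ?_ (fun i => ?_) r
  · simp only [Fin.cons_zero]
    exact continuous_const
  · simp only [Fin.cons_succ]
    exact HCl3_hv_cont _ _

/-- Proof. For small `ρ` the vectors `hv (z i)`, `z i = cl … (tz t ν i)`, are linearly independent (e.g. the determinant with the first row `(0, e₀)` is near `KK g t ≠ 0`);
since the determinant with the first row `hv x`, `x = cl … (tx t ν)`, is `0`, `hv x = ∑ β' i • hv (z i)`. By Cramer's rule `β' i` is the quotient of the determinants of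
`(0, e₀)`, `hv (z 1), …, hv x, …, hv (z d)` (`hv x` in the place of `hv (z i)`) and of `(0, e₀)`, `hv (z 1), …, hv (z d)`; for `ρ → 0` they tend to the same
determinants of the base points, whose quotient is the coefficient `β i` of `Blocks.bary`. So for small `ρ` `β' i` has the sign of `β i`. -/
theorem cl_bary [NeZero d] [Fintype κ] [DecidableEq κ] {F : κ → E d} {h : Fin N → ℝ} {a : Fin N → ℕ}
    {g : Fin N × Fin (d + 1) → E d} (B : Blocks F h a g)
    (v : ((t : Fin N) × (Fin (d + 1) × Fin (n t))) → E d) (C : ℝ) :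
    ∃ ρ₀ > 0, ∀ ρ, 0 < ρ → ρ < ρ₀ → ∀ τ : Fin N → ℝ, (∀ t, |τ t| ≤ 1) → ∀ t
      (ν : Fin (d + 1) → Fin (n t)), D (cl F g v ρ C τ) (Fin.cons (tx t ν) (tz t ν)) = 0 →
      ∃ β : Fin d → ℝ, hv (cl F g v ρ C τ (tx t ν)) = ∑ i, β i • hv (cl F g v ρ C τ (tz t ν i)) ∧
        (∀ i, β i ≠ 0) ∧ (Finset.univ.filter fun i => 0 < β i).card = a t := by
  choose b hb1 hb2 hb3 using B.bary
  have hM0 : ∀ t (ν : Fin (d + 1) → Fin (n t)), (HCl3_M t ν (bp F g)).det = KK g t := by
    intro t ν
    rfl
  have hA0 : ∀ t (ν : Fin (d + 1) → Fin (n t)) (i : Fin d),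
      ((HCl3_M t ν (bp F g)).updateRow i.succ (hv (bp F g (tx t ν)))).det = b t i * KK g t := by
    intro t ν i
    have h1 : hv (bp F g (tx t ν)) = ∑ k, (Fin.cons 0 (b t) : Fin (d + 1) → ℝ) k •
        HCl3_M t ν (bp F g) k := by
      rw [Fin.sum_univ_succ]
      simp only [Fin.cons_zero, zero_smul, zero_add, Fin.cons_succ]
      exact hb1 t
    rw [h1, Matrix.det_updateRow_sum, hM0, Fin.cons_succ, smul_eq_mul]
  have key : ∀ᶠ ρ in nhdsWithin (0 : ℝ) (Set.Ioi 0), ∀ t, ∀ ν : Fin (d + 1) → Fin (n t),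
      (∀ τ : Fin N → ℝ, (∀ t, |τ t| ≤ 1) → 0 < (HCl3_M t ν (cl F g v ρ C τ)).det * KK g t) ∧
      ∀ i, ∀ τ : Fin N → ℝ, (∀ t, |τ t| ≤ 1) →
        0 < ((HCl3_M t ν (cl F g v ρ C τ)).updateRow i.succ (hv (cl F g v ρ C τ (tx t ν)))).det *
          (b t i * KK g t) := by
    rw [Filter.eventually_all]
    intro t
    rw [Filter.eventually_all]
    intro ν
    obtain ⟨k1, -, -⟩ := KK_eq B t
    refine Filter.Eventually.and ?_ ?_
    · refine HCl3_pos F g v C (fun p => (HCl3_M t ν p).det * KK g t) ?_ ?_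
      · exact (Continuous.matrix_det (continuous_matrix fun r c => HCl3_M_cont t ν r c)).mul
          continuous_const
      · show 0 < (HCl3_M t ν (bp F g)).det * KK g t
        rw [hM0]
        exact mul_self_pos.2 k1
    · rw [Filter.eventually_all]
      intro i
      refine HCl3_pos F g v C (fun p => ((HCl3_M t ν p).updateRow i.succ (hv (p (tx t ν)))).det *
          (b t i * KK g t)) ?_ ?_
      · refine (Continuous.matrix_det (continuous_matrix fun r c => ?_)).mul continuous_const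
        by_cases hr : r = i.succ
        · subst hr
          simp only [Matrix.updateRow_self]
          exact HCl3_hv_cont _ _
        · simp only [Matrix.updateRow_ne hr]
          exact HCl3_M_cont t ν r c
      · show 0 < ((HCl3_M t ν (bp F g)).updateRow i.succ (hv (bp F g (tx t ν)))).det *
          (b t i * KK g t)
        rw [hA0]
        exact mul_self_pos.2 (mul_ne_zero (hb2 t i) k1)
  obtain ⟨ρ₀, h1, h2⟩ := HCl3_exists key
  refine ⟨ρ₀, h1, fun ρ ha hb τ hτ t ν hD => ?_⟩
  obtain ⟨hK, hA⟩ := h2 ρ ha hb t ν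
  have hK' := hK τ hτ
  obtain ⟨k1, -, -⟩ := KK_eq B t
  set p := cl F g v ρ C τ with hp
  set M := HCl3_M t ν p with hM
  have hKne : M.det ≠ 0 := by
    intro h0
    rw [h0, zero_mul] at hK'
    exact lt_irrefl _ hK'
  -- Cramer
  have hcr : M.det • hv (p (tx t ν)) = ∑ r, (M.updateRow r (hv (p (tx t ν)))).det • M r := by
    have e := Matrix.mulVec_cramer M.transpose (hv (p (tx t ν)))
    rw [Matrix.det_transpose] at e
    rw [← e]
    funext c
    rw [Finset.sum_apply, Matrix.mulVec, dotProduct]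
    refine Finset.sum_congr rfl fun r _ => ?_
    rw [Matrix.cramer_transpose_apply, Matrix.transpose_apply, Pi.smul_apply, smul_eq_mul, mul_comm]
  have h00 : (M.updateRow 0 (hv (p (tx t ν)))).det = 0 := by
    rw [← hD]
    unfold D
    congr 1
    ext r c
    refine Fin.cases ?_ (fun i => ?_) r
    · rw [Matrix.updateRow_self]
      simp only [Matrix.of_apply, Fin.cons_zero]
    · rw [Matrix.updateRow_ne (Fin.succ_ne_zero i)]
      simp only [hM, HCl3_M, Matrix.of_apply, Fin.cons_succ]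
  refine ⟨fun i => (M.updateRow i.succ (hv (p (tx t ν)))).det / M.det, ?_, ?_, ?_⟩
  · rw [Fin.sum_univ_succ, h00, zero_smul, zero_add] at hcr
    have e : hv (p (tx t ν)) = (M.det)⁻¹ • ∑ i : Fin d, (M.updateRow i.succ (hv (p (tx t ν)))).det • M i.succ := by
      rw [← hcr, smul_smul, inv_mul_cancel₀ hKne, one_smul]
    rw [Finset.smul_sum] at e
    refine e.trans (Finset.sum_congr rfl fun i _ => ?_)
    rw [smul_smul, ← div_eq_inv_mul]
    rfl
  · intro i h0
    have h3 := hA i τ hτ
    rcases div_eq_zero_iff.1 h0 with h4 | h4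
    · rw [h4, zero_mul] at h3
      exact lt_irrefl _ h3
    · exact hKne h4
  · rw [← hb3 t]
    congr 1
    ext i
    simp only [Finset.mem_filter, Finset.mem_univ, true_and]
    have h3 := hA i τ hτ
    set A := (M.updateRow i.succ (hv (p (tx t ν)))).det with hAd
    have h5 : 0 < (A / M.det) * b t i := by
      have e : (A / M.det) * b t i = (A * (b t i * KK g t)) / (M.det * KK g t) := by
        field_simp
      rw [e]
      exact div_pos h3 hK'
    constructor
    · intro h6
      exact (pos_iff_pos_of_mul_pos h5).1 h6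
    · intro h6
      exact (pos_iff_pos_of_mul_pos h5).2 h6

end Pool.Agent.RVM
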