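import Pool.Agent.MP_c130bd_co.RVM.HCl1
import Pool.Agent.MP_c130bd_co.RVM.HCl2
import Pool.Agent.MP_c130bd_co.RVM.HCl3

set_option autoImplicit false

namespace Pool.Agent.RVM

variable {d : ℕ} {κ : Type*} {N : ℕ}

/-! ## [RVM-HCLU] -/

/-- **The cluster configurations.**

Proof. `β t` from `Blocks.bary`, `v` from `exists_dirs`, `C > 0` larger than all the `|θ₀ t ν|`, `θ₀ t ν = (∑ β i v … 0) - v … 0`
(finitely many); `ρ` smaller than the `ρ₀` of `cl_same`, `cl_det`, `cl_side`, `cl_bary`; `Q τ = cl F g v ρ C τ`. `side`: `c t ν` has the sign of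
`KK g t`. `bary`: `cl_det` gives that the determinant is `0` for `τ t = θ t ν`. -/
theorem exists_clu [NeZero d] [Fintype κ] [DecidableEq κ] {F : κ → E d} {h : Fin N → ℝ} {a : Fin N → ℕ}
    {g : Fin N × Fin (d + 1) → E d} (B : Blocks F h a g) (hinj : Function.Injective h)
    (hne : ∀ k t, F k 0 ≠ h t) (n : Fin N → ℕ) :
    ∃ (Q : (Fin N → ℝ) → Pt κ d n → E d) (θ c : (t : Fin N) → (Fin (d + 1) → Fin (n t)) → ℝ),
      Clu (fun k => F k 0) h a Q θ c ∧ ∀ τ k, Q τ (Sum.inl k) = F k := by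
  choose b hb1 hb2 hb3 using B.bary
  obtain ⟨v, hgen, hθ⟩ := exists_dirs B n b hb2
  obtain ⟨C, hC⟩ : ∃ C : ℝ, C = (∑ t : Fin N, ∑ ν : Fin (d + 1) → Fin (n t),
      |(∑ i, b t i * v ⟨t, i.succ, ν i.succ⟩ 0) - v ⟨t, 0, ν 0⟩ 0|) + 1 := ⟨_, rfl⟩
  have hC1 : ∀ t (ν : Fin (d + 1) → Fin (n t)),
      |(∑ i, b t i * v ⟨t, i.succ, ν i.succ⟩ 0) - v ⟨t, 0, ν 0⟩ 0| < C := by
    intro t ν
    have h1 : |(∑ i, b t i * v ⟨t, i.succ, ν i.succ⟩ 0) - v ⟨t, 0, ν 0⟩ 0| ≤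
        ∑ ν : Fin (d + 1) → Fin (n t), |(∑ i, b t i * v ⟨t, i.succ, ν i.succ⟩ 0) - v ⟨t, 0, ν 0⟩ 0| :=
      Finset.single_le_sum (f := fun ν : Fin (d + 1) → Fin (n t) =>
        |(∑ i, b t i * v ⟨t, i.succ, ν i.succ⟩ 0) - v ⟨t, 0, ν 0⟩ 0|) (fun _ _ => abs_nonneg _)
        (Finset.mem_univ ν)
    have h2 : (∑ ν : Fin (d + 1) → Fin (n t), |(∑ i, b t i * v ⟨t, i.succ, ν i.succ⟩ 0) - v ⟨t, 0, ν 0⟩ 0|) ≤
        ∑ t : Fin N, ∑ ν : Fin (d + 1) → Fin (n t),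
          |(∑ i, b t i * v ⟨t, i.succ, ν i.succ⟩ 0) - v ⟨t, 0, ν 0⟩ 0| :=
      Finset.single_le_sum (f := fun t : Fin N => ∑ ν : Fin (d + 1) → Fin (n t),
        |(∑ i, b t i * v ⟨t, i.succ, ν i.succ⟩ 0) - v ⟨t, 0, ν 0⟩ 0|)
        (fun _ _ => Finset.sum_nonneg fun _ _ => abs_nonneg _) (Finset.mem_univ t)
    rw [hC]
    linarith
  have hC0 : 0 < C := by
    rw [hC]
    have : 0 ≤ ∑ t : Fin N, ∑ ν : Fin (d + 1) → Fin (n t),
      |(∑ i, b t i * v ⟨t, i.succ, ν i.succ⟩ 0) - v ⟨t, 0, ν 0⟩ 0| :=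
      Finset.sum_nonneg fun _ _ => Finset.sum_nonneg fun _ _ => abs_nonneg _
    linarith
  obtain ⟨r1, hr1, h1⟩ := cl_same F g v hgen C
  obtain ⟨r2, hr2, h2⟩ := cl_det B v b hb1 hθ hC0 hC1
  obtain ⟨r3, hr3, h3⟩ := cl_side B hinj hne v C
  obtain ⟨r4, hr4, h4⟩ := cl_bary B v C
  obtain ⟨ρ, hρ0, hρ1, hρ2, hρ3, hρ4⟩ : ∃ ρ : ℝ, 0 < ρ ∧ ρ < r1 ∧ ρ < r2 ∧ ρ < r3 ∧ ρ < r4 := by
    have hm : 0 < min (min r1 r2) (min r3 r4) := lt_min (lt_min hr1 hr2) (lt_min hr3 hr4)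
    refine ⟨min (min r1 r2) (min r3 r4) / 2, half_pos hm, ?_, ?_, ?_, ?_⟩
    · exact (half_lt_self hm).trans_le ((min_le_left _ _).trans (min_le_left _ _))
    · exact (half_lt_self hm).trans_le ((min_le_left _ _).trans (min_le_right _ _))
    · exact (half_lt_self hm).trans_le ((min_le_right _ _).trans (min_le_left _ _))
    · exact (half_lt_self hm).trans_le ((min_le_right _ _).trans (min_le_right _ _))
  obtain ⟨θ, c, e1, e2, e3, e4⟩ := h2 ρ hρ0 hρ2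
  refine ⟨fun τ => cl F g v ρ C τ, θ, c, ⟨e1, e2, ?_, ?_, e4, ?_, ?_⟩, fun τ k => rfl⟩
  · intro t ν hc
    have := e3 t ν
    rw [hc, zero_mul] at this
    exact lt_irrefl _ this
  · intro τ τ' hτ hτ' I hI hI'
    exact h1 ρ hρ0 hρ1 τ τ' hτ hτ' I hI hI'
  · intro τ hτ t ν y hy
    have f1 := h3 ρ hρ0 hρ3 τ hτ t ν y hy
    have f2 := e3 t ν
    have f3 := mul_pos f1 f2
    have f4 : D (cl F g v ρ C τ) (Fin.cons y (tz t ν)) * KK g t * (hP (fun k => F k 0) h y - h t) *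
        (c t ν * KK g t) = (D (cl F g v ρ C τ) (Fin.cons y (tz t ν)) * c t ν *
          (hP (fun k => F k 0) h y - h t)) * (KK g t) ^ 2 := by ring
    rw [f4] at f3
    exact pos_of_mul_pos_left f3 (sq_nonneg _)
  · intro τ hτ t ν hν
    apply h4 ρ hρ0 hρ4 τ hτ t ν
    rw [e4 τ hτ t ν, hν, sub_self, mul_zero]

end Pool.Agent.RVM
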