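import Pool.Agent.MP_c130bd_co.RVM.HBlk

set_option autoImplicit false

namespace Pool.Agent.RVM

/-! ## [RVM-H] blocks whose points are replaced by clusters: definitions -/

variable {d : ℕ}

/-- The points: the points `κ` and, for each block `t` and `i : Fin (d + 1)`, a cluster of `n t` points. -/
abbrev Pt (κ : Type*) (d : ℕ) {N : ℕ} (n : Fin N → ℕ) : Type _ :=
  κ ⊕ ((t : Fin N) × (Fin (d + 1) × Fin (n t)))

variable {κ : Type*} {N : ℕ} {n : Fin N → ℕ}

/-- the transversals of the block `t`: one point of each cluster; the first point -/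
def tx (t : Fin N) (ν : Fin (d + 1) → Fin (n t)) : Pt κ d n := Sum.inr ⟨t, 0, ν 0⟩

/-- the other points -/
def tz (t : Fin N) (ν : Fin (d + 1) → Fin (n t)) (i : Fin d) : Pt κ d n :=
  Sum.inr ⟨t, i.succ, ν i.succ⟩

/-- the set of the points of a transversal -/
def tset (t : Fin N) (ν : Fin (d + 1) → Fin (n t)) : Set (Pt κ d n) :=
  Set.range (Fin.cons (tx t ν) (tz t ν) : Fin (d + 1) → Pt κ d n)

/-- the heights of the points -/
def hP (hgt : κ → ℝ) (h : Fin N → ℝ) : Pt κ d n → ℝ :=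
  Sum.elim hgt fun x => h x.1

/-- `y` does not belong to the block `t`. -/
def Outside (t : Fin N) (y : Pt κ d n) : Prop := ∀ x, y = Sum.inr x → x.1 ≠ t

/-- The properties of the cluster configurations `Q τ`, `τ t ∈ [-1, 1]`: only the transversals of the block `t` change their
orientation when `τ t` changes, at the threshold `θ t ν`. -/
structure Clu (hgt : κ → ℝ) (h : Fin N → ℝ) (a : Fin N → ℕ) (Q : (Fin N → ℝ) → Pt κ d n → E d)
    (θ c : (t : Fin N) → (Fin (d + 1) → Fin (n t)) → ℝ) : Prop where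
  inj : ∀ t, Function.Injective (θ t)
  lt : ∀ t ν, |θ t ν| < 1
  ne : ∀ t ν, c t ν ≠ 0
  same : ∀ τ τ' : Fin N → ℝ, (∀ t, |τ t| ≤ 1) → (∀ t, |τ' t| ≤ 1) →
    ∀ I : Fin (d + 1) → Pt κ d n, Function.Injective I → (∀ t ν, Set.range I ≠ tset t ν) →
      0 < D (Q τ) I * D (Q τ') I
  det : ∀ τ : Fin N → ℝ, (∀ t, |τ t| ≤ 1) → ∀ t ν,
    D (Q τ) (Fin.cons (tx t ν) (tz t ν)) = c t ν * (τ t - θ t ν)
  side : ∀ τ : Fin N → ℝ, (∀ t, |τ t| ≤ 1) → ∀ t ν (y : Pt κ d n), Outside t y →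
    0 < D (Q τ) (Fin.cons y (tz t ν)) * c t ν * (hP hgt h y - h t)
  bary : ∀ τ : Fin N → ℝ, (∀ t, |τ t| ≤ 1) → ∀ t ν, τ t = θ t ν →
    ∃ β : Fin d → ℝ, hv (Q τ (tx t ν)) = ∑ i, β i • hv (Q τ (tz t ν i)) ∧ (∀ i, β i ≠ 0) ∧
      (Finset.univ.filter fun i => 0 < β i).card = a t

/-- regular values of the parameters -/
def Reg (θ : (t : Fin N) → (Fin (d + 1) → Fin (n t)) → ℝ) (τ : Fin N → ℝ) : Prop :=
  (∀ t, |τ t| ≤ 1) ∧ ∀ t ν, τ t ≠ θ t ν

/-- the sum of the first `b` primitive Radon numbers -/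
noncomputable def Ac {ι : Type*} [Fintype ι] [DecidableEq ι] (p : ι → E d) (b : ℕ) : ℤ :=
  ∑ i ∈ Finset.Icc 1 b, (Pc p i : ℤ)

open Classical in
/-- the number of the points above minus the number of the points below of the block `t` (outside of the block) -/
noncomputable def imb [Fintype κ] [DecidableEq κ] (hgt : κ → ℝ) (h : Fin N → ℝ) (n : Fin N → ℕ) (d : ℕ) (t : Fin N) : ℤ :=
  ((Finset.univ.filter fun y : Pt κ d n => Outside t y ∧ h t < hP hgt h y).card : ℤ) -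
    (Finset.univ.filter fun y : Pt κ d n => Outside t y ∧ hP hgt h y < h t).card

end Pool.Agent.RVM
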