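import Pool.Agent.MP_c130bd_co.RVM.HDefs
import Pool.Agent.MP_c130bd_co.RVM.Flip

set_option autoImplicit false
set_option linter.unusedSectionVars false

namespace Pool.Agent.RVM

variable {d : ℕ} {κ : Type*} [Fintype κ] [DecidableEq κ] {N : ℕ} {n : Fin N → ℕ}
  {hgt : κ → ℝ} {h : Fin N → ℝ} {a : Fin N → ℕ} {Q : (Fin N → ℝ) → Pt κ d n → E d}
  {θ c : (t : Fin N) → (Fin (d + 1) → Fin (n t)) → ℝ}

/-! ## [RVM-HFLIP] crossing one threshold -/

private theorem hflip_perm {ι : Type*} {I J : Fin (d + 1) → ι} (hI : Function.Injective I)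
    (hJ : Function.Injective J) (hIJ : Set.range I = Set.range J) :
    ∃ s : ℝ, s * s = 1 ∧ ∀ p : ι → E d, D p I = s * D p J := by
  let σ : Equiv.Perm (Fin (d + 1)) := (Equiv.ofInjective I hI).trans
    ((Equiv.setCongr hIJ).trans (Equiv.ofInjective J hJ).symm)
  have hσ : ∀ r, J (σ r) = I r := by
    intro r
    exact Equiv.apply_ofInjective_symm hJ _
  refine ⟨((Equiv.Perm.sign σ : ℤ) : ℝ), ?_, fun p => ?_⟩
  · rw [← Int.cast_mul, ← Units.val_mul, Int.units_mul_self]
    simp
  · unfold D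
    rw [← Matrix.det_permute]
    congr 1
    ext r c
    simp only [Matrix.submatrix_apply, Matrix.of_apply, id_eq, hσ]

omit [Fintype κ] [DecidableEq κ] in
private theorem hflip_cons (t : Fin N) (ν : Fin (d + 1) → Fin (n t)) (r : Fin (d + 1)) :
    (Fin.cons (tx t ν) (tz t ν) : Fin (d + 1) → Pt κ d n) r = Sum.inr ⟨t, r, ν r⟩ := by
  refine Fin.cases ?_ (fun i => ?_) r
  · rfl
  · rfl

omit [Fintype κ] [DecidableEq κ] in
private theorem hflip_inj (t : Fin N) (ν : Fin (d + 1) → Fin (n t)) :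
    Function.Injective (Fin.cons (tx t ν) (tz t ν) : Fin (d + 1) → Pt κ d n) := by
  intro r r' hr
  rw [hflip_cons, hflip_cons] at hr
  have h1 := Sum.inr_injective hr
  simp only [Sigma.mk.injEq, heq_eq_eq, true_and, Prod.mk.injEq] at h1
  exact h1.1

/-- Proof. `Clu.same` (with `τ' = τ`), `Clu.det`; for an `I` whose range is a transversal the determinant is that of
`Fin.cons (tx t ν) (tz t ν)` up to the sign (permutation of the rows). -/
theorem clu_gp (C : Clu hgt h a Q θ c) {τ : Fin N → ℝ} (hτ : Reg θ τ) : GPc (Q τ) := by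
  intro I hI hD
  by_cases hR : ∃ t ν, Set.range I = tset t ν
  · obtain ⟨t, ν, hR⟩ := hR
    obtain ⟨s, hs, hp⟩ := hflip_perm hI (hflip_inj t ν) hR
    rw [hp, C.det τ hτ.1 t ν] at hD
    have h1 : s ≠ 0 := by rintro rfl; simp at hs
    have h2 : τ t - θ t ν ≠ 0 := sub_ne_zero.2 (hτ.2 t ν)
    exact mul_ne_zero h1 (mul_ne_zero (C.ne t ν) h2) hD
  · push Not at hR
    have := C.same τ τ hτ.1 hτ.1 I hI hR
    rw [hD] at this
    simp at this

/-- **One threshold.** `τ` and `τ'` differ only at `t`, and exactly one threshold `θ t ν₀` is between `τ t < τ' t`.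

Proof. `Mut (Q τ') (Q τ) (Q τ₀) (tx t ν₀) (tz t ν₀)` where `τ₀ t = θ t ν₀`, `τ₀ = τ` elsewhere: for the other transversals of the block `t` the
determinants have the same sign for `τ`, `τ'`, `τ₀` (no other threshold in `[τ t, τ' t]`), for the transversals of the other blocks too (`Clu.det`: they depend on
`τ t'` only), for all the others `Clu.same`. `flip_P` with `β` of `Clu.bary` (`1 + #{β < 0} = d + 1 - a t`):
`Pc (Q τ') i = Pc (Q τ) i + (mu - mw) (tP d i (d + 1 - a t) - tP d i (d + 2 - a t))`. For `i ≤ b ≤ d / 2` and `1 ≤ a t ≤ d / 2` the type number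
`d + 1 - a t` is the one of `a t + 1` and `d + 2 - a t` the one of `a t`: summing over `1 ≤ i ≤ b` gives `0` if `b < a t` or `b > a t` and `-1` if `b = a t`.
`mu`, `mw`: the points `y` outside of the block are counted in `mu` iff they are above (`Clu.side`, `Clu.det`: `D (Q τ') (cons (tx) (tz)) = c (τ' t - θ)` has the sign
of `c`). The block has `(d + 1) (n t)` points, `d + 1` of which belong to the transversal. So `|(mu - mw) - imb| ≤ (d + 1) (n t) - (d + 1)`. -/
theorem clu_flip (C : Clu hgt h a Q θ c) {τ τ' : Fin N → ℝ} (hτ : Reg θ τ) (hτ' : Reg θ τ')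
    (t : Fin N) (ht : 1 ≤ a t) (ht' : a t ≤ d / 2) (hag : ∀ t', t' ≠ t → τ t' = τ' t')
    (ν₀ : Fin (d + 1) → Fin (n t)) (h1 : τ t < θ t ν₀) (h2 : θ t ν₀ < τ' t)
    (hu : ∀ ν, τ t < θ t ν → θ t ν < τ' t → ν = ν₀) :
    ∃ m : ℤ, |m - imb hgt h n d t| ≤ (d + 1) * ((n t : ℤ) - 1) ∧ |m| ≤ Fintype.card (Pt κ d n) ∧
      ∀ b, 1 ≤ b → b ≤ d / 2 → Ac (Q τ') b = Ac (Q τ) b - if b = a t then m else 0 := by
  classical
  -- the degenerate configuration
  set τ₀ : Fin N → ℝ := Function.update τ t (θ t ν₀) with hτ₀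
  have hτ₀t : τ₀ t = θ t ν₀ := by simp [hτ₀]
  have hτ₀n : ∀ t', t' ≠ t → τ₀ t' = τ t' := fun t' h' => by simp [hτ₀, h']
  have hτ₀1 : ∀ t', |τ₀ t'| ≤ 1 := by
    intro t'
    by_cases h' : t' = t
    · subst h'; rw [hτ₀t]; exact (C.lt t' ν₀).le
    · rw [hτ₀n t' h']; exact hτ.1 t'
  have hM : Mut (Q τ') (Q τ) (Q τ₀) (tx t ν₀) (tz t ν₀) := by
    refine ⟨clu_gp C hτ', clu_gp C hτ, hflip_inj t ν₀, ?_, ?_, ?_⟩
    · rw [C.det τ₀ hτ₀1 t ν₀, hτ₀t]; ring
    · rw [C.det τ' hτ'.1 t ν₀, C.det τ hτ.1 t ν₀]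
      have h3 : 0 < c t ν₀ ^ 2 := by have := C.ne t ν₀; positivity
      have h4 : (τ' t - θ t ν₀) * (τ t - θ t ν₀) < 0 :=
        mul_neg_of_pos_of_neg (sub_pos.2 h2) (sub_neg.2 h1)
      nlinarith
    · intro I hI hR
      by_cases hT : ∃ t₁ ν, Set.range I = tset t₁ ν
      · obtain ⟨t₁, ν, hT⟩ := hT
        obtain ⟨s, hs, hp⟩ := hflip_perm hI (hflip_inj t₁ ν) hT
        rw [hp, hp, hp, C.det τ' hτ'.1 t₁ ν, C.det τ hτ.1 t₁ ν, C.det τ₀ hτ₀1 t₁ ν]
        have h3 : 0 < c t₁ ν ^ 2 := by have := C.ne t₁ ν; positivity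
        by_cases h' : t₁ = t
        · subst h'
          have hν : ν ≠ ν₀ := by
            rintro rfl
            exact hR hT
          have h4 : θ t₁ ν < τ t₁ ∨ τ' t₁ < θ t₁ ν := by
            rcases lt_or_gt_of_ne (hτ.2 t₁ ν) with h5 | h5
            · right
              rcases lt_or_gt_of_ne (hτ'.2 t₁ ν) with h6 | h6
              · exact h6
              · exact absurd (hu ν h5 h6) hν
            · exact Or.inl h5
          have h5 : 0 < (τ' t₁ - θ t₁ ν) * (τ t₁ - θ t₁ ν) := by
            rcases h4 with h4 | h4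
            · exact mul_pos (by linarith) (by linarith)
            · exact mul_pos_of_neg_of_neg (by linarith) (by linarith)
          have h6 : 0 < (τ' t₁ - θ t₁ ν) * (τ₀ t₁ - θ t₁ ν) := by
            rw [hτ₀t]
            rcases h4 with h4 | h4
            · exact mul_pos (by linarith) (by linarith)
            · exact mul_pos_of_neg_of_neg (by linarith) (by linarith)
          constructor
          · have e : s * (c t₁ ν * (τ' t₁ - θ t₁ ν)) * (s * (c t₁ ν * (τ t₁ - θ t₁ ν))) =
                (s * s) * (c t₁ ν ^ 2 * ((τ' t₁ - θ t₁ ν) * (τ t₁ - θ t₁ ν))) := by ring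
            rw [e, hs, one_mul]
            exact mul_pos h3 h5
          · have e : s * (c t₁ ν * (τ' t₁ - θ t₁ ν)) * (s * (c t₁ ν * (τ₀ t₁ - θ t₁ ν))) =
                (s * s) * (c t₁ ν ^ 2 * ((τ' t₁ - θ t₁ ν) * (τ₀ t₁ - θ t₁ ν))) := by ring
            rw [e, hs, one_mul]
            exact mul_pos h3 h6
        · rw [hτ₀n t₁ h', ← hag t₁ h']
          have h4 : 0 < (τ t₁ - θ t₁ ν) ^ 2 := by
            have := sub_ne_zero.2 (hτ.2 t₁ ν)
            positivity
          have e : s * (c t₁ ν * (τ t₁ - θ t₁ ν)) * (s * (c t₁ ν * (τ t₁ - θ t₁ ν))) =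
              (s * s) * (c t₁ ν ^ 2 * (τ t₁ - θ t₁ ν) ^ 2) := by ring
          rw [e, hs, one_mul]
          exact ⟨mul_pos h3 h4, mul_pos h3 h4⟩
      · push Not at hT
        exact ⟨C.same τ' τ hτ'.1 hτ.1 I hI hT, C.same τ' τ₀ hτ'.1 hτ₀1 I hI hT⟩
  obtain ⟨β, hβ, hβ0, hβa⟩ := C.bary τ₀ hτ₀1 t ν₀ hτ₀t
  have hneg : (Finset.univ.filter fun i => β i < 0).card = d - a t := by
    have e1 : (Finset.univ.filter fun i => β i < 0) = (Finset.univ.filter fun i => ¬ 0 < β i) := by
      refine Finset.filter_congr fun i _ => ?_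
      constructor
      · intro h'; exact not_lt.2 h'.le
      · intro h'; exact lt_of_le_of_ne (not_lt.1 h') (hβ0 i)
    have e2 := Finset.card_filter_add_card_filter_not (s := (Finset.univ : Finset (Fin d)))
      (fun i => 0 < β i)
    rw [e1]
    rw [hβa, Finset.card_univ, Fintype.card_fin] at e2
    omega
  have hPP := fun i => flip_P hM hβ i
  rw [hneg] at hPP
  have hcard := mu_add_mw hM
  set mU := mu (Q τ') (tx t ν₀) (tz t ν₀) with hmU
  set mW := mw (Q τ') (tx t ν₀) (tz t ν₀) with hmW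
  have hd : a t ≤ d := ht'.trans (Nat.div_le_self d 2)
  refine ⟨(mU : ℤ) - mW, ?_, ?_, ?_⟩
  · -- the imbalance
    set R : Finset (Pt κ d n) :=
      Finset.univ.image (Fin.cons (tx t ν₀) (tz t ν₀) : Fin (d + 1) → Pt κ d n) with hRdef
    have hRc : R.card = d + 1 := by
      rw [hRdef, Finset.card_image_of_injective _ (hflip_inj t ν₀), Finset.card_univ,
        Fintype.card_fin]
    have hRmem : ∀ y, y ∈ R ↔ y ∈ Set.range (Fin.cons (tx t ν₀) (tz t ν₀) :
        Fin (d + 1) → Pt κ d n) := by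
      intro y
      rw [hRdef, Finset.mem_image, Set.mem_range]
      simp only [Finset.mem_univ, true_and]
    have hRin : ∀ y, y ∈ Set.range (Fin.cons (tx t ν₀) (tz t ν₀) : Fin (d + 1) → Pt κ d n) →
        ¬ Outside t y := by
      rintro y ⟨r, rfl⟩ ho
      rw [hflip_cons] at ho
      exact ho _ rfl rfl
    set B : Finset (Pt κ d n) := Finset.univ.image
      (fun p : Fin (d + 1) × Fin (n t) => (Sum.inr ⟨t, p⟩ : Pt κ d n)) with hB
    have hBc : B.card = (d + 1) * n t := by
      rw [hB, Finset.card_image_of_injective, Finset.card_univ, Fintype.card_prod,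
        Fintype.card_fin, Fintype.card_fin]
      intro p p' hp
      have := Sum.inr_injective hp
      simpa using this
    have hBmem : ∀ y, ¬ Outside t y → y ∈ B := by
      intro y hy
      unfold Outside at hy
      push Not at hy
      obtain ⟨x, rfl, hx⟩ := hy
      obtain ⟨t₁, p⟩ := x
      simp only at hx
      subst hx
      exact Finset.mem_image.2 ⟨p, Finset.mem_univ _, rfl⟩
    set IN : Finset (Pt κ d n) := Finset.univ.filter fun y => ¬ Outside t y ∧ y ∉ R with hIN
    have hINc : IN.card + (d + 1) ≤ (d + 1) * n t := by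
      have hdis : Disjoint IN R := by
        rw [Finset.disjoint_left]
        intro y hy
        exact (Finset.mem_filter.1 hy).2.2
      calc IN.card + (d + 1) = (IN ∪ R).card := by rw [Finset.card_union_of_disjoint hdis, hRc]
        _ ≤ B.card := by
          refine Finset.card_le_card fun y hy => ?_
          rcases Finset.mem_union.1 hy with h' | h'
          · exact hBmem y (Finset.mem_filter.1 h').2.1
          · exact hBmem y (hRin y ((hRmem y).1 h'))
        _ = (d + 1) * n t := hBc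
    set MU : Finset (Pt κ d n) := Finset.univ.filter fun y =>
      y ∉ Set.range (Fin.cons (tx t ν₀) (tz t ν₀) : Fin (d + 1) → Pt κ d n) ∧
      0 < D (Q τ') (Fin.cons y (tz t ν₀)) * D (Q τ') (Fin.cons (tx t ν₀) (tz t ν₀)) with hMU
    set MW : Finset (Pt κ d n) := Finset.univ.filter fun y =>
      y ∉ Set.range (Fin.cons (tx t ν₀) (tz t ν₀) : Fin (d + 1) → Pt κ d n) ∧
      D (Q τ') (Fin.cons y (tz t ν₀)) * D (Q τ') (Fin.cons (tx t ν₀) (tz t ν₀)) < 0 with hMW
    set UP : Finset (Pt κ d n) :=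
      Finset.univ.filter fun y => Outside t y ∧ h t < hP hgt h y with hUP
    set DN : Finset (Pt κ d n) :=
      Finset.univ.filter fun y => Outside t y ∧ hP hgt h y < h t with hDN
    have hmUc : mU = MU.card := by rw [hmU]; unfold mu; rw [hMU]
    have hmWc : mW = MW.card := by rw [hmW]; unfold mw; rw [hMW]
    have himb : imb hgt h n d t = (UP.card : ℤ) - DN.card := by unfold imb; rw [hUP, hDN]
    -- signs
    have hpos : 0 < τ' t - θ t ν₀ := sub_pos.2 h2
    have hsgn : ∀ y, Outside t y →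
        0 < (D (Q τ') (Fin.cons y (tz t ν₀)) * D (Q τ') (Fin.cons (tx t ν₀) (tz t ν₀))) *
          (hP hgt h y - h t) := by
      intro y hy
      rw [C.det τ' hτ'.1 t ν₀]
      have := C.side τ' hτ'.1 t ν₀ y hy
      have e : D (Q τ') (Fin.cons y (tz t ν₀)) * (c t ν₀ * (τ' t - θ t ν₀)) *
          (hP hgt h y - h t) = (D (Q τ') (Fin.cons y (tz t ν₀)) * c t ν₀ *
          (hP hgt h y - h t)) * (τ' t - θ t ν₀) := by ring
      rw [e]
      exact mul_pos this hpos
    have hout : ∀ y, Outside t y →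
        y ∉ Set.range (Fin.cons (tx t ν₀) (tz t ν₀) : Fin (d + 1) → Pt κ d n) :=
      fun y hy hR => hRin y hR hy
    have hUPMU : UP ⊆ MU := by
      intro y hy
      rw [hUP, Finset.mem_filter] at hy
      rw [hMU, Finset.mem_filter]
      refine ⟨Finset.mem_univ _, hout y hy.2.1, ?_⟩
      have h3 := hsgn y hy.2.1
      exact (mul_pos_iff_of_pos_right (sub_pos.2 hy.2.2)).1 h3
    have hDNMW : DN ⊆ MW := by
      intro y hy
      rw [hDN, Finset.mem_filter] at hy
      rw [hMW, Finset.mem_filter]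
      refine ⟨Finset.mem_univ _, hout y hy.2.1, ?_⟩
      have h3 := hsgn y hy.2.1
      by_contra h4
      have h5 := mul_nonpos_of_nonneg_of_nonpos (not_lt.1 h4) (sub_neg.2 hy.2.2).le
      exact absurd h3 (not_lt.2 h5)
    have hUin : MU \ UP ⊆ IN := by
      intro y hy
      rw [Finset.mem_sdiff, hMU, Finset.mem_filter, hUP, Finset.mem_filter] at hy
      obtain ⟨⟨_, hy1, hy2⟩, hy3⟩ := hy
      rw [hIN, Finset.mem_filter]
      refine ⟨Finset.mem_univ _, ?_, fun hR => hy1 ((hRmem y).1 hR)⟩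
      intro ho
      apply hy3
      refine ⟨Finset.mem_univ _, ho, ?_⟩
      have h3 := hsgn y ho
      by_contra h4
      have h5 := mul_nonpos_of_nonneg_of_nonpos hy2.le (sub_nonpos.2 (not_lt.1 h4))
      exact absurd h3 (not_lt.2 h5)
    have hWin : MW \ DN ⊆ IN := by
      intro y hy
      rw [Finset.mem_sdiff, hMW, Finset.mem_filter, hDN, Finset.mem_filter] at hy
      obtain ⟨⟨_, hy1, hy2⟩, hy3⟩ := hy
      rw [hIN, Finset.mem_filter]
      refine ⟨Finset.mem_univ _, ?_, fun hR => hy1 ((hRmem y).1 hR)⟩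
      intro ho
      apply hy3
      refine ⟨Finset.mem_univ _, ho, ?_⟩
      have h3 := hsgn y ho
      by_contra h4
      have h5 := mul_nonpos_of_nonpos_of_nonneg hy2.le (sub_nonneg.2 (not_lt.1 h4))
      exact absurd h3 (not_lt.2 h5)
    have hdisj : Disjoint (MU \ UP) (MW \ DN) := by
      rw [Finset.disjoint_left]
      intro y hy hy'
      rw [Finset.mem_sdiff, hMU, Finset.mem_filter] at hy
      rw [Finset.mem_sdiff, hMW, Finset.mem_filter] at hy'
      exact absurd hy.1.2.2 (not_lt.2 hy'.1.2.2.le)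
    have hsum : (MU \ UP).card + (MW \ DN).card ≤ IN.card := by
      rw [← Finset.card_union_of_disjoint hdisj]
      exact Finset.card_le_card (Finset.union_subset hUin hWin)
    have e1 : (MU \ UP).card + UP.card = MU.card := Finset.card_sdiff_add_card_eq_card hUPMU
    have e2 : (MW \ DN).card + DN.card = MW.card := Finset.card_sdiff_add_card_eq_card hDNMW
    rw [hmUc, hmWc, himb, abs_le]
    have hINc' : (IN.card : ℤ) + (d + 1) ≤ (d + 1) * n t := by exact_mod_cast hINc
    have e3 : ((d : ℤ) + 1) * ((n t : ℤ) - 1) = (d + 1) * n t - (d + 1) := by ring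
    rw [e3]
    constructor <;> push_cast [← e1, ← e2] <;> linarith [(by exact_mod_cast hsum :
      ((MU \ UP).card : ℤ) + (MW \ DN).card ≤ IN.card),
      (by positivity : (0 : ℤ) ≤ ((MU \ UP).card : ℤ)),
      (by positivity : (0 : ℤ) ≤ ((MW \ DN).card : ℤ))]
  · rw [abs_le]
    constructor <;> omega
  · intro b hb1 hb2
    unfold Ac
    have hPs : ∀ i ∈ Finset.Icc 1 b, (Pc (Q τ') i : ℤ) = Pc (Q τ) i +
        ((mU : ℤ) - mW) * ((if i = a t + 1 then 1 else 0) - (if i = a t then 1 else 0)) := by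
      intro i hi
      rw [Finset.mem_Icc] at hi
      rw [hPP i]
      congr 2
      have hdd : d / 2 * 2 ≤ d := Nat.div_mul_le_self d 2
      congr 1
      · unfold tP
        by_cases h' : i = a t + 1
        · rw [if_pos (by omega), if_pos h']
        · rw [if_neg (by omega), if_neg h']
      · unfold tP
        by_cases h' : i = a t
        · rw [if_pos (by omega), if_pos h']
        · rw [if_neg (by omega), if_neg h']
    rw [Finset.sum_congr rfl hPs, Finset.sum_add_distrib, ← Finset.mul_sum,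
      Finset.sum_sub_distrib, Finset.sum_ite_eq' , Finset.sum_ite_eq']
    simp only [Finset.mem_Icc]
    by_cases h' : b = a t
    · rw [if_neg (by omega), if_pos (by omega), if_pos h']
      ring
    · rw [if_neg h']
      by_cases h'' : a t + 1 ≤ b
      · rw [if_pos (by omega), if_pos (by omega)]
        ring
      · rw [if_neg (by omega), if_neg (by omega)]
        ring

end Pool.Agent.RVM
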