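import Pool.Agent.MP_c130bd_co.RVM.HDefs

set_option autoImplicit false

namespace Pool.Agent.RVM

variable {d : ℕ}

/-! ## [RVM-HIMB] the layout of the slab and the imbalances

`k * J` gadgets (blocks with one point per cluster) with the heights in `(-1, 0)`, then `r` points, then `k` blocks with `n` points per cluster and the
heights in `(0, 1)`; `h₁` points above and `h₂` points below of the slab. -/

/-- the sizes of the clusters -/
def nn (k J n : ℕ) : Fin (k * J + k) → ℕ := fun t => if (t : ℕ) < k * J then 1 else n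

/-- the types: the gadget `(a - 1) * J + j` (`j < J`) and the block `k * J + (a - 1)` have the type `a` -/
def aa (k J : ℕ) : Fin (k * J + k) → ℕ :=
  fun t => if (t : ℕ) < k * J then t / J + 1 else t - k * J + 1

/-- the heights -/
noncomputable def hh (k J : ℕ) : Fin (k * J + k) → ℝ := fun t =>
  if (t : ℕ) < k * J then (((t : ℕ) : ℝ) + 1) / (k * J + k + 1) - 1 else (((t : ℕ) : ℝ) + 1) / (k * J + k + 1)

/-- the heights of the other points -/
structure Lay {h₁ h₂ r : ℕ} (hgt : (Fin h₁ ⊕ Fin h₂) ⊕ Fin r → ℝ) (k J : ℕ) : Prop where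
  up : ∀ x, 1 < hgt (Sum.inl (Sum.inl x))
  dn : ∀ x, hgt (Sum.inl (Sum.inr x)) < -1
  lo : ∀ x (t : Fin (k * J + k)), (t : ℕ) < k * J → hh k J t < hgt (Sum.inr x)
  hi : ∀ x (t : Fin (k * J + k)), k * J ≤ (t : ℕ) → hgt (Sum.inr x) < hh k J t

theorem hh_strictMono (k J : ℕ) : StrictMono (hh k J) := by
  intro t t' htt
  have h1 : (t : ℕ) < (t' : ℕ) := htt
  have h2 := t'.2
  have hM : (0 : ℝ) < k * J + k + 1 := by positivity
  have h3 : ((t : ℕ) : ℝ) + 1 ≤ ((t' : ℕ) : ℝ) := by exact_mod_cast h1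
  have h4 : ((t' : ℕ) : ℝ) + 1 ≤ k * J + k := by exact_mod_cast h2
  have h5 : (((t : ℕ) : ℝ) + 1) / (k * J + k + 1) < (((t' : ℕ) : ℝ) + 1) / (k * J + k + 1) := by
    apply div_lt_div_of_pos_right _ hM
    linarith
  have h6 : (((t : ℕ) : ℝ) + 1) / (k * J + k + 1) < 1 := by
    rw [div_lt_one hM]
    linarith
  have h7 : 0 < (((t' : ℕ) : ℝ) + 1) / (k * J + k + 1) := by positivity
  unfold hh
  by_cases ha : (t : ℕ) < k * J
  · by_cases hb : (t' : ℕ) < k * J
    · rw [if_pos ha, if_pos hb]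
      linarith
    · rw [if_pos ha, if_neg hb]
      linarith
  · have hb : ¬ (t' : ℕ) < k * J := by omega
    rw [if_neg ha, if_neg hb]
    exact h5

theorem hh_bounds (k J : ℕ) (t : Fin (k * J + k)) : -1 < hh k J t ∧ hh k J t < 1 := by
  have h2 := t.2
  have hM : (0 : ℝ) < k * J + k + 1 := by positivity
  have h4 : ((t : ℕ) : ℝ) + 1 ≤ k * J + k := by exact_mod_cast h2
  have h6 : (((t : ℕ) : ℝ) + 1) / (k * J + k + 1) < 1 := by
    rw [div_lt_one hM]
    linarith
  have h7 : 0 < (((t : ℕ) : ℝ) + 1) / (k * J + k + 1) := by positivity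
  unfold hh
  split_ifs
  · constructor <;> linarith
  · constructor <;> linarith

theorem aa_bounds (k J : ℕ) (t : Fin (k * J + k)) : 1 ≤ aa k J t ∧ aa k J t ≤ k := by
  have h2 := t.2
  unfold aa
  split_ifs with ha
  · refine ⟨Nat.le_add_left _ _, ?_⟩
    have : (t : ℕ) / J < k := Nat.div_lt_of_lt_mul (lt_of_lt_of_eq ha (mul_comm k J))
    omega
  · refine ⟨Nat.le_add_left _ _, ?_⟩
    omega

/-- a sum of signs -/
private theorem HImb_sgn (c : ℕ) (m : ℕ) (h : c < m) :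
    (∑ i ∈ Finset.range m, (if c < i then (1 : ℤ) else if i < c then -1 else 0)) =
      (m : ℤ) - 1 - 2 * c := by
  induction m with
  | zero => omega
  | succ m ih =>
    rw [Finset.sum_range_succ]
    rcases Nat.lt_or_ge c m with h1 | h1
    · rw [ih h1, if_pos h1]
      push_cast
      ring
    · have h2 : c = m := by omega
      subst h2
      rw [if_neg (lt_irrefl _), if_neg (lt_irrefl _)]
      have h3 : (∑ i ∈ Finset.range c, (if c < i then (1 : ℤ) else if i < c then -1 else 0)) =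
          ∑ i ∈ Finset.range c, (-1 : ℤ) := by
        apply Finset.sum_congr rfl
        intro i hi
        have := Finset.mem_range.1 hi
        rw [if_neg (by omega), if_pos this]
      rw [h3, Finset.sum_const, Finset.card_range]
      push_cast
      ring

open Classical in
/-- the imbalance as a sum of signs -/
private theorem HImb_main {h₁ h₂ r : ℕ} {hgt : (Fin h₁ ⊕ Fin h₂) ⊕ Fin r → ℝ} {k J : ℕ}
    (L : Lay hgt k J) (n : ℕ) (t : Fin (k * J + k)) :
    imb hgt (hh k J) (nn k J n) d t = (h₁ : ℤ) - h₂ + (if (t : ℕ) < k * J then (r : ℤ) else -r) +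
      (d + 1) * ∑ t' : Fin (k * J + k), (nn k J n t' : ℤ) *
        (if (t : ℕ) < t' then (1 : ℤ) else if (t' : ℕ) < t then -1 else 0) := by
  have hb := hh_bounds k J t
  have hm := hh_strictMono k J
  unfold imb
  rw [Finset.card_filter, Finset.card_filter]
  push_cast
  rw [← Finset.sum_sub_distrib]
  rw [Fintype.sum_sum_type, Fintype.sum_sum_type, Fintype.sum_sum_type, Fintype.sum_sigma]
  have out_inl : ∀ x : (Fin h₁ ⊕ Fin h₂) ⊕ Fin r,
      Outside t (Sum.inl x : Pt ((Fin h₁ ⊕ Fin h₂) ⊕ Fin r) d (nn k J n)) := by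
    intro x y hy
    exact absurd hy (by simp)
  have e1 : ∀ x : Fin h₁, ((if Outside t (Sum.inl (Sum.inl (Sum.inl x)) :
      Pt ((Fin h₁ ⊕ Fin h₂) ⊕ Fin r) d (nn k J n)) ∧
      hh k J t < hP hgt (hh k J) (Sum.inl (Sum.inl (Sum.inl x)) :
      Pt ((Fin h₁ ⊕ Fin h₂) ⊕ Fin r) d (nn k J n)) then (1 : ℤ) else 0) -
      (if Outside t (Sum.inl (Sum.inl (Sum.inl x)) :
      Pt ((Fin h₁ ⊕ Fin h₂) ⊕ Fin r) d (nn k J n)) ∧
      hP hgt (hh k J) (Sum.inl (Sum.inl (Sum.inl x)) :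
      Pt ((Fin h₁ ⊕ Fin h₂) ⊕ Fin r) d (nn k J n)) < hh k J t then (1 : ℤ) else 0)) = 1 := by
    intro x
    have h1 : (1 : ℝ) < hP hgt (hh k J) (Sum.inl (Sum.inl (Sum.inl x)) :
      Pt ((Fin h₁ ⊕ Fin h₂) ⊕ Fin r) d (nn k J n)) := L.up x
    rw [if_pos ⟨out_inl _, by linarith [hb.2]⟩, if_neg (fun h => by linarith [h.2, hb.2])]
    norm_num
  have e2 : ∀ x : Fin h₂, ((if Outside t (Sum.inl (Sum.inl (Sum.inr x)) :
      Pt ((Fin h₁ ⊕ Fin h₂) ⊕ Fin r) d (nn k J n)) ∧
      hh k J t < hP hgt (hh k J) (Sum.inl (Sum.inl (Sum.inr x)) :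
      Pt ((Fin h₁ ⊕ Fin h₂) ⊕ Fin r) d (nn k J n)) then (1 : ℤ) else 0) -
      (if Outside t (Sum.inl (Sum.inl (Sum.inr x)) :
      Pt ((Fin h₁ ⊕ Fin h₂) ⊕ Fin r) d (nn k J n)) ∧
      hP hgt (hh k J) (Sum.inl (Sum.inl (Sum.inr x)) :
      Pt ((Fin h₁ ⊕ Fin h₂) ⊕ Fin r) d (nn k J n)) < hh k J t then (1 : ℤ) else 0)) = -1 := by
    intro x
    have h1 : hP hgt (hh k J) (Sum.inl (Sum.inl (Sum.inr x)) :
      Pt ((Fin h₁ ⊕ Fin h₂) ⊕ Fin r) d (nn k J n)) < -1 := L.dn x
    rw [if_neg (fun h => by linarith [h.2, hb.1]), if_pos ⟨out_inl _, by linarith [hb.1]⟩]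
    norm_num
  have e3 : ∀ x : Fin r, ((if Outside t (Sum.inl (Sum.inr x) :
      Pt ((Fin h₁ ⊕ Fin h₂) ⊕ Fin r) d (nn k J n)) ∧
      hh k J t < hP hgt (hh k J) (Sum.inl (Sum.inr x) :
      Pt ((Fin h₁ ⊕ Fin h₂) ⊕ Fin r) d (nn k J n)) then (1 : ℤ) else 0) -
      (if Outside t (Sum.inl (Sum.inr x) :
      Pt ((Fin h₁ ⊕ Fin h₂) ⊕ Fin r) d (nn k J n)) ∧
      hP hgt (hh k J) (Sum.inl (Sum.inr x) :
      Pt ((Fin h₁ ⊕ Fin h₂) ⊕ Fin r) d (nn k J n)) < hh k J t then (1 : ℤ) else 0)) =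
        (if (t : ℕ) < k * J then (1 : ℤ) else -1) := by
    intro x
    by_cases ht : (t : ℕ) < k * J
    · have h1 : hh k J t < hP hgt (hh k J) (Sum.inl (Sum.inr x) :
        Pt ((Fin h₁ ⊕ Fin h₂) ⊕ Fin r) d (nn k J n)) := L.lo x t ht
      rw [if_pos ⟨out_inl _, h1⟩, if_neg (fun h => by linarith [h.2]), if_pos ht]
      norm_num
    · have h1 : hP hgt (hh k J) (Sum.inl (Sum.inr x) :
        Pt ((Fin h₁ ⊕ Fin h₂) ⊕ Fin r) d (nn k J n)) < hh k J t := L.hi x t (not_lt.1 ht)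
      rw [if_neg (fun h => by linarith [h.2]), if_pos ⟨out_inl _, h1⟩, if_neg ht]
      norm_num
  have e4 : ∀ (t' : Fin (k * J + k)) (x : Fin (d + 1) × Fin (nn k J n t')),
      ((if Outside t (Sum.inr ⟨t', x⟩ :
      Pt ((Fin h₁ ⊕ Fin h₂) ⊕ Fin r) d (nn k J n)) ∧
      hh k J t < hP hgt (hh k J) (Sum.inr ⟨t', x⟩ :
      Pt ((Fin h₁ ⊕ Fin h₂) ⊕ Fin r) d (nn k J n)) then (1 : ℤ) else 0) -
      (if Outside t (Sum.inr ⟨t', x⟩ :
      Pt ((Fin h₁ ⊕ Fin h₂) ⊕ Fin r) d (nn k J n)) ∧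
      hP hgt (hh k J) (Sum.inr ⟨t', x⟩ :
      Pt ((Fin h₁ ⊕ Fin h₂) ⊕ Fin r) d (nn k J n)) < hh k J t then (1 : ℤ) else 0)) =
        (if (t : ℕ) < t' then (1 : ℤ) else if (t' : ℕ) < t then -1 else 0) := by
    intro t' x
    have h0 : hP hgt (hh k J) (Sum.inr ⟨t', x⟩ :
      Pt ((Fin h₁ ⊕ Fin h₂) ⊕ Fin r) d (nn k J n)) = hh k J t' := rfl
    have ho : t' ≠ t → Outside t (Sum.inr ⟨t', x⟩ :
      Pt ((Fin h₁ ⊕ Fin h₂) ⊕ Fin r) d (nn k J n)) := by
      intro hne y hy
      have := Sum.inr.inj hy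
      rw [← this]
      exact hne
    rw [h0]
    rcases lt_trichotomy (t : ℕ) (t' : ℕ) with h | h | h
    · have hlt : hh k J t < hh k J t' := hm (Fin.lt_def.2 h)
      have hne : t' ≠ t := fun e => by
        rw [e] at h
        exact lt_irrefl _ h
      rw [if_pos ⟨ho hne, hlt⟩, if_neg (fun h => by linarith [h.2]), if_pos h]
      norm_num
    · have hte : t' = t := Fin.ext h.symm
      subst hte
      simp
    · have hlt : hh k J t' < hh k J t := hm (Fin.lt_def.2 h)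
      have hne : t' ≠ t := fun e => by
        rw [e] at h
        exact lt_irrefl _ h
      rw [if_neg (fun h => by linarith [h.2]), if_pos ⟨ho hne, hlt⟩, if_neg (by omega), if_pos h]
      norm_num
  simp only [e1, e2, e3, e4, Finset.sum_const, Finset.card_univ, Fintype.card_fin,
    Fintype.card_prod, nsmul_eq_mul, Finset.mul_sum]
  have e5 : ∀ t' : Fin (k * J + k), (((d + 1) * nn k J n t' : ℕ) : ℤ) *
      (if (t : ℕ) < t' then (1 : ℤ) else if (t' : ℕ) < t then -1 else 0) = (d + 1) *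
      ((nn k J n t' : ℤ) * (if (t : ℕ) < t' then (1 : ℤ) else if (t' : ℕ) < t then -1 else 0)) := by
    intro t'
    push_cast
    ring
  rw [Finset.sum_congr rfl (fun t' _ => e5 t')]
  split_ifs <;> ring

/-- the two parts of the sum -/
private theorem HImb_sum (k J n : ℕ) (t : Fin (k * J + k)) :
    (∑ t' : Fin (k * J + k), (nn k J n t' : ℤ) *
        (if (t : ℕ) < t' then (1 : ℤ) else if (t' : ℕ) < t then -1 else 0)) =
      (∑ i ∈ Finset.range (k * J), (if (t : ℕ) < i then (1 : ℤ) else if i < (t : ℕ) then -1 else 0)) +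
      n * ∑ i ∈ Finset.range k,
        (if (t : ℕ) < k * J + i then (1 : ℤ) else if k * J + i < (t : ℕ) then -1 else 0) := by
  rw [Fin.sum_univ_add]
  congr 1
  · rw [Finset.sum_range]
    apply Finset.sum_congr rfl
    intro i _
    have : nn k J n (Fin.castAdd k i) = 1 := if_pos i.2
    rw [this]
    simp
  · rw [Finset.sum_range, Finset.mul_sum]
    apply Finset.sum_congr rfl
    intro i _
    have : nn k J n (Fin.natAdd (k * J) i) = n := if_neg (by simp)
    rw [this]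
    simp

/-- Proof. Split the points into the four kinds; `hh_strictMono`: above of the gadget `t` there are the `h₁` points, the `r` points, the gadgets
`t' > t` (`d + 1` points each) and the blocks (`(d + 1) n` points each); below the `h₂` points and the gadgets `t' < t`. -/
theorem imb_gad {h₁ h₂ r : ℕ} {hgt : (Fin h₁ ⊕ Fin h₂) ⊕ Fin r → ℝ} {k J : ℕ} (L : Lay hgt k J) (n : ℕ)
    (t : Fin (k * J + k)) (ht : (t : ℕ) < k * J) :
    imb hgt (hh k J) (nn k J n) d t = (h₁ : ℤ) - h₂ + r + (d + 1) * (k * n) +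
      (d + 1) * (k * J - 1 - 2 * ((t : ℕ) : ℤ)) := by
  rw [HImb_main L n t, if_pos ht, HImb_sum, HImb_sgn _ _ ht]
  have h1 : (∑ i ∈ Finset.range k,
        (if (t : ℕ) < k * J + i then (1 : ℤ) else if k * J + i < (t : ℕ) then -1 else 0)) = k := by
    have h2 : ∀ i ∈ Finset.range k,
        (if (t : ℕ) < k * J + i then (1 : ℤ) else if k * J + i < (t : ℕ) then -1 else 0) = 1 := by
      intro i _
      rw [if_pos (by omega)]
    rw [Finset.sum_congr rfl h2]
    simp
  rw [h1]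
  push_cast
  ring

theorem imb_blk {h₁ h₂ r : ℕ} {hgt : (Fin h₁ ⊕ Fin h₂) ⊕ Fin r → ℝ} {k J : ℕ} (L : Lay hgt k J) (n : ℕ)
    (t : Fin (k * J + k)) (b : ℕ) (ht : (t : ℕ) = k * J + b) :
    imb hgt (hh k J) (nn k J n) d t = (h₁ : ℤ) - h₂ - r - (d + 1) * (k * J) +
      (d + 1) * n * ((k : ℤ) - 1 - 2 * b) := by
  have htk := t.2
  have hbk : b < k := by omega
  rw [HImb_main L n t, if_neg (by omega), HImb_sum]
  have h1 : (∑ i ∈ Finset.range (k * J),
      (if (t : ℕ) < i then (1 : ℤ) else if i < (t : ℕ) then -1 else 0)) = -(k * J : ℕ) := by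
    have h2 : ∀ i ∈ Finset.range (k * J),
        (if (t : ℕ) < i then (1 : ℤ) else if i < (t : ℕ) then -1 else 0) = -1 := by
      intro i hi
      have := Finset.mem_range.1 hi
      rw [if_neg (by omega), if_pos (by omega)]
    rw [Finset.sum_congr rfl h2]
    simp
  have h3 : (∑ i ∈ Finset.range k,
        (if (t : ℕ) < k * J + i then (1 : ℤ) else if k * J + i < (t : ℕ) then -1 else 0)) =
      (k : ℤ) - 1 - 2 * b := by
    rw [← HImb_sgn b k hbk]
    apply Finset.sum_congr rfl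
    intro i _
    rw [ht]
    simp only [add_lt_add_iff_left]
  rw [h1, h3]
  push_cast
  ring

/-- the number of the points -/
theorem card_pt (h₁ h₂ r k J n : ℕ) :
    Fintype.card (Pt ((Fin h₁ ⊕ Fin h₂) ⊕ Fin r) d (nn k J n)) =
      h₁ + h₂ + r + ((d + 1) * (k * J) + (d + 1) * (k * n)) := by
  rw [Fintype.card_sum, Fintype.card_sum, Fintype.card_sum, Fintype.card_sigma]
  simp only [Fintype.card_fin, Fintype.card_prod]
  rw [Fin.sum_univ_add]
  have h1 : ∀ i : Fin (k * J), (d + 1) * nn k J n (Fin.castAdd k i) = d + 1 := by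
    intro i
    have : nn k J n (Fin.castAdd k i) = 1 := if_pos i.2
    rw [this, mul_one]
  have h2 : ∀ i : Fin k, (d + 1) * nn k J n (Fin.natAdd (k * J) i) = (d + 1) * n := by
    intro i
    have : nn k J n (Fin.natAdd (k * J) i) = n := if_neg (by simp)
    rw [this]
  rw [Finset.sum_congr rfl (fun i _ => h1 i), Finset.sum_congr rfl (fun i _ => h2 i)]
  simp only [Finset.sum_const, Finset.card_univ, Fintype.card_fin, smul_eq_mul]
  ring

end Pool.Agent.RVM
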