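import Pool.Agent.MP_c130bd_co.RVM.HMove

set_option autoImplicit false

namespace Pool.Agent.RVM

variable {d : ℕ} {κ : Type*} [Fintype κ] [DecidableEq κ] {N : ℕ} {n : Fin N → ℕ}
  {hgt : κ → ℝ} {h : Fin N → ℝ} {a : Fin N → ℕ} {Q : (Fin N → ℝ) → Pt κ d n → E d}
  {θ c : (t : Fin N) → (Fin (d + 1) → Fin (n t)) → ℝ}

/-! ## [RVM-HIND] the types are independent -/

/-- `Ac (Q τ) b` depends only on the `τ t` with `a t = b`.
Proof. Change the coordinates one at a time (induction on a set `s` of coordinates: `fun t => if t ∈ s then τ' t else τ t` is regular);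
`clu_move`, first part, for a coordinate `t` with `a t ≠ b` (`τ t ≤ τ' t` or `τ' t ≤ τ t`). -/
theorem ac_agree (C : Clu hgt h a Q θ c) {τ τ' : Fin N → ℝ} (hτ : Reg θ τ) (hτ' : Reg θ τ')
    (ha : ∀ t, 1 ≤ a t ∧ a t ≤ d / 2) (b : ℕ) (hb : 1 ≤ b) (hb' : b ≤ d / 2)
    (hag : ∀ t, a t = b → τ t = τ' t) : Ac (Q τ) b = Ac (Q τ') b := by
  have hreg : ∀ s : Finset (Fin N), Reg θ (fun t => if t ∈ s then τ' t else τ t) := by
    intro s
    refine ⟨fun t => ?_, fun t ν => ?_⟩
    · by_cases ht : t ∈ s
      · simp only [ht, if_true]; exact hτ'.1 t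
      · simp only [ht, if_false]; exact hτ.1 t
    · by_cases ht : t ∈ s
      · simp only [ht, if_true]; exact hτ'.2 t ν
      · simp only [ht, if_false]; exact hτ.2 t ν
  have key : ∀ s : Finset (Fin N), Ac (Q (fun t => if t ∈ s then τ' t else τ t)) b = Ac (Q τ) b := by
    intro s
    induction s using Finset.induction_on with
    | empty => simp
    | insert t s hts ih =>
      rw [← ih]
      have hoff : ∀ t', t' ≠ t → (fun t => if t ∈ s then τ' t else τ t) t' =
          (fun t' => if t' ∈ insert t s then τ' t' else τ t') t' := by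
        intro t' ht'
        simp only [Finset.mem_insert, ht', false_or]
      by_cases hab : a t = b
      · have hE : (fun t' => if t' ∈ insert t s then τ' t' else τ t') =
            (fun t => if t ∈ s then τ' t else τ t) := by
          funext t'
          by_cases ht' : t' = t
          · subst ht'
            simp only [Finset.mem_insert_self, if_true, hts, if_false]
            exact (hag _ hab).symm
          · exact (hoff t' ht').symm
        rw [hE]
      · have hab' : b ≠ a t := fun h => hab h.symm
        rcases le_total ((fun t => if t ∈ s then τ' t else τ t) t)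
          ((fun t' => if t' ∈ insert t s then τ' t' else τ t') t) with hle | hle
        · exact (clu_move C (hreg s) (hreg (insert t s)) t (ha t).1 (ha t).2 hoff hle).1 b hb hb' hab'
        · exact ((clu_move C (hreg (insert t s)) (hreg s) t (ha t).1 (ha t).2
            (fun t' ht' => (hoff t' ht').symm) hle).1 b hb hb' hab').symm
  have h1 := key Finset.univ
  simp only [Finset.mem_univ, if_true] at h1
  exact h1.symm

/-- **Gadgets.** Proof. Induction on `G` with `clu_total` for `τ = fun t => if t ∈ G then 1 else τ t` and the same with `insert t G`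
(`n t = 1`: the error term is `0`; `|θ| < 1`, so `±1` are regular values). -/
theorem clu_gad (C : Clu hgt h a Q θ c) {τ : Fin N → ℝ} (hτ : Reg θ τ)
    (b : ℕ) (hb : 1 ≤ b) (hb' : b ≤ d / 2) (G : Finset (Fin N))
    (hG : ∀ t ∈ G, a t = b ∧ n t = 1 ∧ τ t = -1) :
    Reg θ (fun t => if t ∈ G then 1 else τ t) ∧
      Ac (Q (fun t => if t ∈ G then 1 else τ t)) b = Ac (Q τ) b - ∑ t ∈ G, imb hgt h n d t := by
  have hreg : ∀ s : Finset (Fin N), Reg θ (fun t => if t ∈ s then 1 else τ t) := by
    intro s
    refine ⟨fun t => ?_, fun t ν => ?_⟩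
    · by_cases ht : t ∈ s
      · simp only [ht, if_true]; norm_num
      · simp only [ht, if_false]; exact hτ.1 t
    · by_cases ht : t ∈ s
      · simp only [ht, if_true]
        intro hE
        have := C.lt t ν
        rw [← hE] at this
        norm_num at this
      · simp only [ht, if_false]; exact hτ.2 t ν
  refine ⟨hreg G, ?_⟩
  induction G using Finset.induction_on with
  | empty => simp
  | insert t s hts ih =>
    have ih' := ih fun t' ht' => hG t' (Finset.mem_insert_of_mem ht')
    obtain ⟨hat, hnt, hτt⟩ := hG t (Finset.mem_insert_self t s)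
    have hoff : ∀ t', t' ≠ t → (fun t => if t ∈ s then 1 else τ t) t' =
        (fun t' => if t' ∈ insert t s then 1 else τ t') t' := by
      intro t' ht'
      simp only [Finset.mem_insert, ht', false_or]
    have h1 := clu_total C (hreg s) (hreg (insert t s)) t (by rw [hat]; exact hb) (by rw [hat]; exact hb')
      hoff (by simp only [hts, if_false]; exact hτt) (by simp only [Finset.mem_insert_self, if_true])
    rw [hnt, hat] at h1
    simp only [Nat.cast_one, one_pow, one_mul, sub_self, mul_zero] at h1
    have h2 := abs_nonpos_iff.mp h1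
    rw [Finset.sum_insert hts]
    linarith

end Pool.Agent.RVM
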