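import Pool.Agent.MP_c130bd_co.RVM.HFlip

set_option autoImplicit false

namespace Pool.Agent.RVM

variable {d : ℕ} {κ : Type*} [Fintype κ] [DecidableEq κ] {N : ℕ} {n : Fin N → ℕ}
  {hgt : κ → ℝ} {h : Fin N → ℝ} {a : Fin N → ℕ} {Q : (Fin N → ℝ) → Pt κ d n → E d}
  {θ c : (t : Fin N) → (Fin (d + 1) → Fin (n t)) → ℝ}

/-! ## [RVM-HMOVE] moving one block -/

private theorem hmove_perm {ι : Type*} {I J : Fin (d + 1) → ι} (hI : Function.Injective I)
    (hJ : Function.Injective J) (hIJ : Set.range I = Set.range J) :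
    ∃ s : ℝ, s * s = 1 ∧ ∀ p : ι → E d, D p I = s * D p J := by
  let σ : Equiv.Perm (Fin (d + 1)) := (Equiv.ofInjective I hI).trans
    ((Equiv.setCongr hIJ).trans (Equiv.ofInjective J hJ).symm)
  have hσ : ∀ r, J (σ r) = I r := by
    intro r
    exact Equiv.apply_ofInjective_symm hJ _
  refine ⟨((Equiv.Perm.sign σ : ℤ) : ℝ), ?_, fun p => ?_⟩
  · rw [← Int.cast_mul, ← Units.val_mul, Int.units_mul_self]
    simp
  · unfold D
    rw [← Matrix.det_permute]
    congr 1
    ext r c
    simp only [Matrix.submatrix_apply, Matrix.of_apply, id_eq, hσ]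

omit [Fintype κ] [DecidableEq κ] in
private theorem hmove_inj (t : Fin N) (ν : Fin (d + 1) → Fin (n t)) :
    Function.Injective (Fin.cons (tx t ν) (tz t ν) : Fin (d + 1) → Pt κ d n) := by
  have hc : ∀ r, (Fin.cons (tx t ν) (tz t ν) : Fin (d + 1) → Pt κ d n) r = Sum.inr ⟨t, r, ν r⟩ := by
    intro r
    refine Fin.cases ?_ (fun i => ?_) r
    · rfl
    · rfl
  intro r r' hr
  rw [hc, hc] at hr
  have h1 := Sum.inr_injective hr
  simp only [Sigma.mk.injEq, heq_eq_eq, true_and, Prod.mk.injEq] at h1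
  exact h1.1

/-- no threshold in between: the same numbers -/
private theorem hmove_zero (C : Clu hgt h a Q θ c) {τ τ' : Fin N → ℝ} (hτ : Reg θ τ) (hτ' : Reg θ τ')
    (t : Fin N) (hag : ∀ t', t' ≠ t → τ t' = τ' t') (hle : τ t ≤ τ' t)
    (h0 : ∀ ν, ¬ (τ t < θ t ν ∧ θ t ν < τ' t)) (b : ℕ) : Ac (Q τ) b = Ac (Q τ') b := by
  have key : ∀ I : Fin (d + 1) → Pt κ d n, Function.Injective I → 0 < D (Q τ) I * D (Q τ') I := by
    intro I hI
    by_cases hR : ∃ t' ν, Set.range I = tset t' ν
    · obtain ⟨t', ν, hR⟩ := hR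
      obtain ⟨s, hs, hp⟩ := hmove_perm hI (hmove_inj t' ν) hR
      rw [hp, hp, C.det τ hτ.1 t' ν, C.det τ' hτ'.1 t' ν]
      have e : s * (c t' ν * (τ t' - θ t' ν)) * (s * (c t' ν * (τ' t' - θ t' ν))) =
          (s * s) * (c t' ν) ^ 2 * ((τ t' - θ t' ν) * (τ' t' - θ t' ν)) := by ring
      rw [e, hs, one_mul]
      have hc : 0 < (c t' ν) ^ 2 := by
        have := C.ne t' ν
        positivity
      refine mul_pos hc ?_
      have n1 := hτ.2 t' ν
      have n2 := hτ'.2 t' ν
      by_cases ht : t' = t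
      · subst ht
        rcases lt_or_gt_of_ne n1 with h1 | h1
        · have h2 : τ' t' < θ t' ν := by
            rcases lt_or_gt_of_ne n2 with h3 | h3
            · exact h3
            · exact absurd ⟨h1, h3⟩ (h0 ν)
          exact mul_pos_of_neg_of_neg (by linarith) (by linarith)
        · exact mul_pos (by linarith) (by linarith)
      · rw [← hag t' ht]
        exact mul_self_pos.2 (sub_ne_zero.2 n1)
    · push Not at hR
      exact C.same τ τ' hτ.1 hτ'.1 I hI hR
  unfold Ac
  refine Finset.sum_congr rfl fun i _ => ?_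
  rw [pc_congr (clu_gp C hτ) (clu_gp C hτ') key i]

/-- crossing the next threshold -/
private theorem hmove_step (C : Clu hgt h a Q θ c) {τ τ' : Fin N → ℝ} (hτ : Reg θ τ) (hτ' : Reg θ τ')
    (t : Fin N) (ht : 1 ≤ a t) (ht' : a t ≤ d / 2) {k : ℕ}
    (hk : (Finset.univ.filter fun ν => τ t < θ t ν ∧ θ t ν < τ' t).card = k + 1) :
    ∃ y : ℝ, Reg θ (Function.update τ t y) ∧ y ≤ τ' t ∧
      (Finset.univ.filter fun ν => y < θ t ν ∧ θ t ν < τ' t).card = k ∧
      ∃ m : ℤ, |m - imb hgt h n d t| ≤ (d + 1) * ((n t : ℤ) - 1) ∧ |m| ≤ Fintype.card (Pt κ d n) ∧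
        ∀ b, 1 ≤ b → b ≤ d / 2 → Ac (Q (Function.update τ t y)) b = Ac (Q τ) b - if b = a t then m else 0 := by
  classical
  set S := Finset.univ.filter fun ν => τ t < θ t ν ∧ θ t ν < τ' t with hS
  have hSne : S.Nonempty := by
    rw [← Finset.card_pos, hk]
    omega
  obtain ⟨ν₀, hν₀, hmin⟩ := Finset.exists_min_image S (fun ν => θ t ν) hSne
  have hmem : ∀ ν, ν ∈ S ↔ τ t < θ t ν ∧ θ t ν < τ' t := by
    intro ν
    rw [hS]
    simp
  obtain ⟨a1, a2⟩ := (hmem ν₀).1 hν₀
  -- the next value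
  obtain ⟨m, hm1, hm2, hm3⟩ : ∃ m : ℝ, θ t ν₀ < m ∧ m ≤ τ' t ∧ ∀ ν ∈ S, ν ≠ ν₀ → m ≤ θ t ν := by
    by_cases hE : (S.erase ν₀).Nonempty
    · obtain ⟨ν₁, hν₁, hmin1⟩ := Finset.exists_min_image (S.erase ν₀) (fun ν => θ t ν) hE
      rw [Finset.mem_erase] at hν₁
      refine ⟨θ t ν₁, lt_of_le_of_ne (hmin ν₁ hν₁.2) ?_, ((hmem ν₁).1 hν₁.2).2.le, ?_⟩
      · intro h5
        exact hν₁.1 (C.inj t h5.symm)
      · intro ν h5 h6
        exact hmin1 ν (Finset.mem_erase.2 ⟨h6, h5⟩)
    · refine ⟨τ' t, a2, le_rfl, ?_⟩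
      intro ν h5 h6
      exact absurd ⟨ν, Finset.mem_erase.2 ⟨h6, h5⟩⟩ hE
  obtain ⟨y, hy⟩ : ∃ y : ℝ, y = (θ t ν₀ + m) / 2 := ⟨_, rfl⟩
  have hy1 : θ t ν₀ < y := by rw [hy]; linarith
  have hy2 : y < m := by rw [hy]; linarith
  have hyt : Function.update τ t y t = y := Function.update_self ..
  have hyo : ∀ t', t' ≠ t → Function.update τ t y t' = τ t' := fun t' ht' => Function.update_of_ne ht' ..
  have b1 := abs_le.1 (hτ.1 t)
  have b2 := abs_le.1 (hτ'.1 t)
  have hreg : Reg θ (Function.update τ t y) := by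
    constructor
    · intro t'
      by_cases h5 : t' = t
      · subst h5
        rw [hyt, abs_le]
        constructor <;> linarith [b1.1, b2.2]
      · rw [hyo t' h5]
        exact hτ.1 t'
    · intro t' ν
      by_cases h5 : t' = t
      · subst h5
        rw [hyt]
        intro h6
        have h7 : ν ∈ S := (hmem ν).2 ⟨by linarith, by linarith⟩
        have h8 : ν ≠ ν₀ := by
          rintro rfl
          linarith
        have := hm3 ν h7 h8
        linarith
      · rw [hyo t' h5]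
        exact hτ.2 t' ν
  refine ⟨y, hreg, by linarith, ?_, ?_⟩
  · have e : (Finset.univ.filter fun ν => y < θ t ν ∧ θ t ν < τ' t) = S.erase ν₀ := by
      ext ν
      rw [Finset.mem_erase, hmem]
      simp only [Finset.mem_filter, Finset.mem_univ, true_and]
      constructor
      · rintro ⟨h5, h6⟩
        refine ⟨?_, by linarith, h6⟩
        rintro rfl
        linarith
      · rintro ⟨h5, h6, h7⟩
        have := hm3 ν ((hmem ν).2 ⟨h6, h7⟩) h5
        exact ⟨by linarith, h7⟩
    rw [e, Finset.card_erase_of_mem hν₀, hk]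
    rfl
  · refine clu_flip C hτ hreg t ht ht' (fun t' h5 => (hyo t' h5).symm) ν₀ a1 (by rw [hyt]; exact hy1) ?_
    intro ν h5 h6
    rw [hyt] at h6
    by_contra h7
    have := hm3 ν ((hmem ν).2 ⟨h5, by linarith⟩) h7
    linarith

/-- **Moving one block.** Proof. Induction on the number of the thresholds `θ t ν` in `(τ t, τ' t)`: if there is none, the orientations are
the same (`pc_congr`); otherwise let `θ t ν₀` be the smallest one, choose `τ''` (equal to `τ` outside of `t`) with `τ'' t` between `θ t ν₀` and the next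
threshold (or `τ' t`), use `clu_flip` for `τ`, `τ''` and the induction hypothesis for `τ''`, `τ'`. -/
theorem clu_move (C : Clu hgt h a Q θ c) {τ τ' : Fin N → ℝ} (hτ : Reg θ τ) (hτ' : Reg θ τ')
    (t : Fin N) (ht : 1 ≤ a t) (ht' : a t ≤ d / 2) (hag : ∀ t', t' ≠ t → τ t' = τ' t') (hle : τ t ≤ τ' t) :
    (∀ b, 1 ≤ b → b ≤ d / 2 → b ≠ a t → Ac (Q τ') b = Ac (Q τ) b) ∧
      ∃ k : ℕ, k = (Finset.univ.filter fun ν => τ t < θ t ν ∧ θ t ν < τ' t).card ∧
        |Ac (Q τ) (a t) - Ac (Q τ') (a t) - k * imb hgt h n d t| ≤ k * ((d + 1) * ((n t : ℤ) - 1)) := by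
  obtain ⟨k, hk⟩ : ∃ k : ℕ, k = (Finset.univ.filter fun ν => τ t < θ t ν ∧ θ t ν < τ' t).card := ⟨_, rfl⟩
  rw [← hk]
  suffices H : (∀ b, 1 ≤ b → b ≤ d / 2 → b ≠ a t → Ac (Q τ') b = Ac (Q τ) b) ∧
      |Ac (Q τ) (a t) - Ac (Q τ') (a t) - k * imb hgt h n d t| ≤ k * ((d + 1) * ((n t : ℤ) - 1)) from
    ⟨H.1, k, rfl, H.2⟩
  induction k generalizing τ with
  | zero =>
    have h0 : ∀ ν, ¬ (τ t < θ t ν ∧ θ t ν < τ' t) := by
      have h1 := Finset.card_eq_zero.1 hk.symm
      intro ν h2
      have h3 : ν ∈ (Finset.univ.filter fun ν => τ t < θ t ν ∧ θ t ν < τ' t) := by simp [h2]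
      rw [h1] at h3
      exact absurd h3 (Finset.notMem_empty _)
    have h1 := hmove_zero C hτ hτ' t hag hle h0
    refine ⟨fun b _ _ _ => (h1 b).symm, ?_⟩
    rw [h1 (a t)]
    simp
  | succ k ih =>
    obtain ⟨y, hreg, hy, hcard, m, hm1, -, hm3⟩ := hmove_step C hτ hτ' t ht ht' hk.symm
    have hyt : Function.update τ t y t = y := Function.update_self ..
    have h1 := ih hreg (fun t' h5 => by rw [Function.update_of_ne h5]; exact hag t' h5)
      (by rw [hyt]; exact hy) (by rw [hyt]; exact hcard.symm)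
    constructor
    · intro b hb1 hb2 hb3
      rw [h1.1 b hb1 hb2 hb3, hm3 b hb1 hb2, if_neg hb3, sub_zero]
    · have h2 := hm3 (a t) ht ht'
      rw [if_pos rfl] at h2
      have h3 := h1.2
      rw [h2] at h3
      have e : Ac (Q τ) (a t) - Ac (Q τ') (a t) - ((k + 1 : ℕ) : ℤ) * imb hgt h n d t =
          (m - imb hgt h n d t) + (Ac (Q τ) (a t) - m - Ac (Q τ') (a t) - k * imb hgt h n d t) := by
        push_cast
        ring
      rw [e]
      refine (abs_add_le _ _).trans ?_
      push_cast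
      linarith

/-- Proof. `clu_move`: for `τ t = -1`, `τ' t = 1` all the `(n t)^(d+1)` thresholds are in between. -/
theorem clu_total (C : Clu hgt h a Q θ c) {τ τ' : Fin N → ℝ} (hτ : Reg θ τ) (hτ' : Reg θ τ')
    (t : Fin N) (ht : 1 ≤ a t) (ht' : a t ≤ d / 2) (hag : ∀ t', t' ≠ t → τ t' = τ' t')
    (h1 : τ t = -1) (h2 : τ' t = 1) :
    |Ac (Q τ) (a t) - Ac (Q τ') (a t) - (n t : ℤ) ^ (d + 1) * imb hgt h n d t| ≤
      (n t : ℤ) ^ (d + 1) * ((d + 1) * ((n t : ℤ) - 1)) := by
  obtain ⟨-, k, hk, h3⟩ := clu_move C hτ hτ' t ht ht' hag (by rw [h1, h2]; norm_num)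
  have h4 : k = (n t) ^ (d + 1) := by
    rw [hk, Finset.filter_true_of_mem]
    · simp
    · intro ν _
      have := abs_lt.1 (C.lt t ν)
      rw [h1, h2]
      exact this
  rw [h4] at h3
  push_cast at h3
  exact h3

/-- **Intermediate values.** Proof. Move `τ t` from `-1` to `1` over the thresholds one by one (`clu_flip`: each step changes `Ac (a t)` by
at most `card`); discrete intermediate value theorem. -/
theorem clu_ivt (C : Clu hgt h a Q θ c) {τ : Fin N → ℝ} (hτ : Reg θ τ)
    (t : Fin N) (ht : 1 ≤ a t) (ht' : a t ≤ d / 2) (z : ℤ)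
    (h1 : Ac (Q (Function.update τ t (-1))) (a t) ≤ z) (h2 : z ≤ Ac (Q (Function.update τ t 1)) (a t)) :
    ∃ x : ℝ, Reg θ (Function.update τ t x) ∧
      |Ac (Q (Function.update τ t x)) (a t) - z| ≤ Fintype.card (Pt κ d n) := by
  have hreg : ∀ x : ℝ, |x| = 1 → Reg θ (Function.update τ t x) := by
    intro x hx
    constructor
    · intro t'
      by_cases h5 : t' = t
      · subst h5
        rw [Function.update_self, hx]
      · rw [Function.update_of_ne h5]
        exact hτ.1 t'
    · intro t' ν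
      by_cases h5 : t' = t
      · subst h5
        rw [Function.update_self]
        intro h6
        have := C.lt t' ν
        rw [← h6, hx] at this
        exact lt_irrefl _ this
      · rw [Function.update_of_ne h5]
        exact hτ.2 t' ν
  have hr1 := hreg 1 (by simp)
  have hrm := hreg (-1) (by simp)
  have key : ∀ (k : ℕ) (x₀ : ℝ), Reg θ (Function.update τ t x₀) → x₀ ≤ 1 →
      (Finset.univ.filter fun ν => x₀ < θ t ν ∧ θ t ν < 1).card = k →
      Ac (Q (Function.update τ t x₀)) (a t) ≤ z →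
      ∃ x : ℝ, Reg θ (Function.update τ t x) ∧
        |Ac (Q (Function.update τ t x)) (a t) - z| ≤ Fintype.card (Pt κ d n) := by
    intro k
    induction k with
    | zero =>
      intro x₀ hx hx1 hk hz
      have h0 : ∀ ν, ¬ (Function.update τ t x₀ t < θ t ν ∧ θ t ν < Function.update τ t 1 t) := by
        rw [Function.update_self, Function.update_self]
        have h3 := Finset.card_eq_zero.1 hk
        intro ν h4
        have h5 : ν ∈ (Finset.univ.filter fun ν => x₀ < θ t ν ∧ θ t ν < 1) := by simp [h4]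
        rw [h3] at h5
        exact absurd h5 (Finset.notMem_empty _)
      have h3 := hmove_zero C hx hr1 t (fun t' h5 => by
        rw [Function.update_of_ne h5, Function.update_of_ne h5])
        (by rw [Function.update_self, Function.update_self]; exact hx1) h0 (a t)
      refine ⟨x₀, hx, ?_⟩
      have h4 : Ac (Q (Function.update τ t x₀)) (a t) = z := le_antisymm hz (by rw [h3]; exact h2)
      rw [h4, sub_self, abs_zero]
      exact Int.natCast_nonneg _
    | succ k ih =>
      intro x₀ hx hx1 hk hz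
      have hk' : (Finset.univ.filter fun ν => Function.update τ t x₀ t < θ t ν ∧
          θ t ν < Function.update τ t 1 t).card = k + 1 := by
        rw [Function.update_self, Function.update_self]
        exact hk
      obtain ⟨y, hy1, hy2, hy3, m, -, hm2, hm3⟩ := hmove_step C hx hr1 t ht ht' hk'
      rw [Function.update_self] at hy2 hy3
      rw [Function.update_idem] at hy1 hm3
      have h3 := hm3 (a t) ht ht'
      rw [if_pos rfl] at h3
      by_cases h4 : Ac (Q (Function.update τ t y)) (a t) ≤ z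
      · exact ih y hy1 hy2 hy3 h4
      · refine ⟨y, hy1, ?_⟩
        push Not at h4
        rw [abs_le] at hm2 ⊢
        constructor <;> linarith [hm2.1, hm2.2]
  exact key _ (-1) hrm (by norm_num) rfl h1

end Pool.Agent.RVM
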