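import Pool.Agent.MP_c130bd_co.RVM.HDefs
import Pool.Agent.MP_c130bd_co.RVM.Cnt

set_option autoImplicit false

namespace Pool.Agent.RVM

/-! ## [RVM-HNEAR] -/

/-- The estimate for the numbers of the configurations. Proof. `pc_sum_le` twice (`Q τ = Sum.elim (Sum.elim F₀ e) (…)`; `Pc F₀ = PP T`), `pp_subset`:
`PP T i ≤ Pc (Q τ) i ≤ PP T i + m * (s - 1).choose (d + 1)` and the same for `PP S i`. So `|Pc (Q τ) i - PP S i| ≤ m s^(d+1)`
(`Nat.choose_le_pow`); sum over `i ≤ a ≤ d`. -/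
theorem ac_near {d : ℕ} (hd : 1 ≤ d) {s m h₁ h₂ r : ℕ} {μ : Type*} [Fintype μ] [DecidableEq μ]
    {S T : Finset (E d)} (hS : GP S) (hTS : T ⊆ S) (hsc : S.card = s) (hT : d + 1 ≤ T.card) (hm : T.card + m = s)
    (hTc : T.card = h₁ + h₂) (hμ : Fintype.card μ + r = m)
    (P : ((Fin h₁ ⊕ Fin h₂) ⊕ Fin r) ⊕ μ → E d)
    (hP : ∀ i, Pc (fun x => P (Sum.inl (Sum.inl x))) i = PP T i) (a : ℕ) (ha : a ≤ d) :
    |Ac P a - ∑ i ∈ Finset.Icc 1 a, (PP S i : ℤ)| ≤ d * (m * (s : ℤ) ^ (d + 1)) := by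
  have key : ∀ i, |(Pc P i : ℤ) - PP S i| ≤ m * (s : ℤ) ^ (d + 1) := by
    intro i
    have e1 : (Sum.elim (fun x => P (Sum.inl (Sum.inl x))) (fun x => P (Sum.inl (Sum.inr x))) :
        (Fin h₁ ⊕ Fin h₂) ⊕ Fin r → E d) = fun x => P (Sum.inl x) := by
      funext x
      rcases x with x | x <;> rfl
    have e2 : (Sum.elim (fun x => P (Sum.inl x)) (fun x => P (Sum.inr x)) :
        ((Fin h₁ ⊕ Fin h₂) ⊕ Fin r) ⊕ μ → E d) = P := by
      funext x
      rcases x with x | x <;> rfl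
    obtain ⟨a1, a2⟩ := pc_sum_le (fun x => P (Sum.inl (Sum.inl x))) (fun x => P (Sum.inl (Sum.inr x))) i
    obtain ⟨b1, b2⟩ := pc_sum_le (fun x => P (Sum.inl x)) (fun x => P (Sum.inr x)) i
    rw [e1, hP i] at a1 a2
    rw [e2] at b1 b2
    simp only [Fintype.card_sum, Fintype.card_fin] at a2 b2
    obtain ⟨-, c1, c2⟩ := pp_subset hd hS hTS hT i
    have hs1 : h₁ + h₂ + r - 1 ≤ s - 1 := by omega
    have hs2 : h₁ + h₂ + r + Fintype.card μ - 1 = s - 1 := by omega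
    have hs3 : S.card - T.card = m := by omega
    rw [hs2] at b2
    rw [hs3, hsc] at c2
    have a3 : PP T i ≤ Pc P i := a1.trans b1
    have a4 : r * (h₁ + h₂ + r - 1).choose (d + 1) ≤ r * (s - 1).choose (d + 1) :=
      Nat.mul_le_mul_left _ (Nat.choose_le_choose _ hs1)
    have a5 : Pc P i ≤ PP T i + m * (s - 1).choose (d + 1) := by
      have : m * (s - 1).choose (d + 1) = Fintype.card μ * (s - 1).choose (d + 1) +
          r * (s - 1).choose (d + 1) := by rw [← hμ, add_mul]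
      omega
    have a6 : m * (s - 1).choose (d + 1) ≤ m * s ^ (d + 1) :=
      Nat.mul_le_mul_left _ ((Nat.choose_le_pow _ _).trans (Nat.pow_le_pow_left (Nat.sub_le _ _) _))
    have a7 : Pc P i ≤ PP S i + m * s ^ (d + 1) := by omega
    have a8 : PP S i ≤ Pc P i + m * s ^ (d + 1) := by omega
    have a9 : ((m * s ^ (d + 1) : ℕ) : ℤ) = m * (s : ℤ) ^ (d + 1) := by push_cast; ring
    rw [← a9, abs_le]
    constructor <;> omega
  have h0 : (0 : ℤ) ≤ m * (s : ℤ) ^ (d + 1) := by positivity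
  unfold Ac
  rw [← Finset.sum_sub_distrib]
  calc |∑ i ∈ Finset.Icc 1 a, ((Pc P i : ℤ) - PP S i)|
      ≤ ∑ i ∈ Finset.Icc 1 a, |(Pc P i : ℤ) - PP S i| := Finset.abs_sum_le_sum_abs _ _
    _ ≤ ∑ i ∈ Finset.Icc 1 a, (m * (s : ℤ) ^ (d + 1)) := Finset.sum_le_sum fun i _ => key i
    _ = a * (m * (s : ℤ) ^ (d + 1)) := by
        rw [Finset.sum_const, Nat.card_Icc, nsmul_eq_mul]
        congr 2
    _ ≤ d * (m * (s : ℤ) ^ (d + 1)) := by
        apply mul_le_mul_of_nonneg_right _ h0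
        exact_mod_cast ha

end Pool.Agent.RVM
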