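import Pool.Agent.MP_c130bd_co.RVM.Sub

set_option autoImplicit false

namespace Pool.Agent.RVM

private theorem HSub_core (D' Q : ℕ) (hD : 1 ≤ D') (e t : ℤ)
    (h : 2 * (|t| + Q + D') + 2 * (D' : ℤ) ^ 2 * |e| ≤ (D' : ℤ) * ((Q : ℤ) ^ 2 - (D' : ℤ) ^ 2)) :
    ∃ σ : Finset (Fin (2 * Q + 1)),
      (σ.card : ℤ) + D' * ∑ j ∈ σ, (e + Q - (j : ℕ)) = D' * Q * e + t := by
  have hD0 : (0 : ℤ) < D' := by exact_mod_cast hD
  have hQ0 : (0 : ℤ) ≤ Q := Int.natCast_nonneg Q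
  have ht0 := abs_nonneg t
  have he0 := abs_nonneg e
  obtain ⟨x, hx0, hxD, k, hk⟩ : ∃ x : ℤ, 0 ≤ x ∧ x < D' ∧ ∃ k : ℤ, t - Q - x = D' * k := by
    refine ⟨(t - Q) % D', Int.emod_nonneg _ hD0.ne', Int.emod_lt_of_pos _ hD0, (t - Q) / D', ?_⟩
    have := Int.emod_add_mul_ediv (t - Q) D'
    linarith
  -- `D' ≤ Q`
  have hpos : 0 < (D' : ℤ) * ((Q : ℤ) ^ 2 - (D' : ℤ) ^ 2) := by
    have h1 : 0 ≤ 2 * (D' : ℤ) ^ 2 * |e| := by positivity
    linarith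
  have hQD2 : (D' : ℤ) ^ 2 < (Q : ℤ) ^ 2 := by
    by_contra hcon
    push Not at hcon
    have : (D' : ℤ) * ((Q : ℤ) ^ 2 - (D' : ℤ) ^ 2) ≤ 0 :=
      mul_nonpos_of_nonneg_of_nonpos hD0.le (by linarith)
    linarith
  have hQD : (D' : ℤ) < Q := lt_of_pow_lt_pow_left₀ 2 hQ0 hQD2
  set r : ℤ := Q + x with hr
  set S : ℤ := k - x * e with hS
  -- the size of `S`
  have hS2 : 2 * |S| ≤ r * (2 * Q + 1 - r) := by
    have h1 : (D' : ℤ) * |S| ≤ |t| + Q + x + D' * x * |e| := by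
      have h2 : (D' : ℤ) * S = t - Q - x - D' * x * e := by rw [hS, mul_sub, ← hk]; ring
      have h3 : (D' : ℤ) * |S| = |(D' : ℤ) * S| := by rw [abs_mul, abs_of_pos hD0]
      rw [h3, h2]
      have h4 : |D' * x * e| = D' * x * |e| := by
        rw [abs_mul, abs_of_nonneg (by positivity)]
      have h5 := abs_sub (t - Q - x) (D' * x * e)
      have h6 : |t - Q - x| ≤ |t| + (Q + x) := by
        have := abs_sub t (Q + x)
        rw [abs_of_nonneg (by linarith : 0 ≤ (Q : ℤ) + x)] at this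
        rwa [show t - (Q + x) = t - Q - x by ring] at this
      linarith
    have h7 : (D' : ℤ) * x * |e| ≤ (D' : ℤ) ^ 2 * |e| := by
      apply mul_le_mul_of_nonneg_right _ he0
      nlinarith
    have h8 : (D' : ℤ) * (2 * |S|) ≤ D' * ((Q : ℤ) ^ 2 - (D' : ℤ) ^ 2) := by linarith
    have h9 : 2 * |S| ≤ (Q : ℤ) ^ 2 - (D' : ℤ) ^ 2 := le_of_mul_le_mul_left h8 hD0
    have h10 : (Q : ℤ) ^ 2 - (D' : ℤ) ^ 2 ≤ r * (2 * Q + 1 - r) := by
      rw [hr]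
      nlinarith
    linarith
  have hr0 : 0 ≤ r := by linarith
  have hrN : r ≤ 2 * Q + 1 := by linarith
  have hSa := abs_le.mp (le_refl |S|)
  set T : ℤ := r * Q - S with hT
  have hT1 : r * (r - 1) ≤ 2 * T := by
    rw [hT]; nlinarith [le_abs_self S]
  have hT2 : 2 * T ≤ r * (r - 1) + 2 * (r * (2 * Q + 1 - r)) := by
    rw [hT]; nlinarith [neg_abs_le S]
  have hT0 : 0 ≤ T := by
    have : 0 ≤ r * (r - 1) := by
      rcases eq_or_lt_of_le hr0 with h0 | h0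
      · rw [← h0]; simp
      · have : 1 ≤ r := h0
        exact mul_nonneg hr0 (by linarith)
    linarith
  obtain ⟨r', hr'⟩ := Int.eq_ofNat_of_zero_le hr0
  obtain ⟨T', hT'⟩ := Int.eq_ofNat_of_zero_le hT0
  have hrN' : r' ≤ 2 * Q + 1 := by
    rw [hr'] at hrN; exact_mod_cast hrN
  have hr1 : 1 ≤ r' := by
    have : (1 : ℤ) ≤ r := by linarith
    rw [hr'] at this; exact_mod_cast this
  obtain ⟨σ, hσ, hσc, hσs⟩ := exists_card_sum (2 * Q + 1) r' hrN' T' (by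
      rw [hr', hT'] at hT1
      have : ((r' * (r' - 1) : ℕ) : ℤ) ≤ ((2 * T' : ℕ) : ℤ) := by
        push_cast [Nat.cast_sub hr1]
        exact hT1
      exact_mod_cast this) (by
      rw [hr', hT'] at hT2
      have : ((2 * T' : ℕ) : ℤ) ≤ ((r' * (r' - 1) + 2 * (r' * (2 * Q + 1 - r')) : ℕ) : ℤ) := by
        push_cast [Nat.cast_sub hr1, Nat.cast_sub hrN']
        exact hT2
      exact_mod_cast this)
  have hlt : ∀ m ∈ σ, m < 2 * Q + 1 := fun m hm => Finset.mem_range.mp (hσ hm)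
  refine ⟨σ.attachFin hlt, ?_⟩
  have hc : ((σ.attachFin hlt).card : ℤ) = r := by
    rw [Finset.card_attachFin, hσc, hr']
  have hs : ∑ j ∈ σ.attachFin hlt, (e + Q - ((j : ℕ) : ℤ)) = ∑ x ∈ σ, (e + Q - (x : ℤ)) := by
    refine Finset.sum_bij (fun j _ => (j : ℕ)) ?_ ?_ ?_ ?_
    · intro j hj; exact Finset.mem_attachFin hlt |>.mp hj
    · intro j _ j' _ hjj; exact Fin.ext hjj
    · intro x hx
      exact ⟨⟨x, hlt x hx⟩, (Finset.mem_attachFin hlt).mpr hx, rfl⟩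
    · intro j _; rfl
  have hsum : ∑ x ∈ σ, (e + Q - (x : ℤ)) = r * (e + Q) - T := by
    rw [Finset.sum_sub_distrib, Finset.sum_const, hσc, nsmul_eq_mul, ← Nat.cast_sum, hσs, hr', hT']
  rw [hc, hs, hsum, hT, hS, hr]
  have : (D' : ℤ) * k = t - Q - x := hk.symm
  linear_combination this

/-- ## [RVM-HSUB]

Proof. `c = 1`: let `D' = 2 (d + 1)`, `c = 2`: `D' = d + 1` and divide everything by `2`. We need an `r`-subset `σ'` of `{-Q, …, Q}` with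
`r + D' (r e + ∑ q) = D' Q e + t / c`. Choose `r ∈ [Q, Q + D')` with `r ≡ t / c mod D'` and `τ = (t / c - r) / D' - (r - Q) e`;
`|τ| ≤ (|t| + Q + D') / D' + D' |e|`, and `2 |τ| ≤ Q² - D'² ≤ r (2 Q + 1 - r)` as in `sub_sum`; `exists_card_sum`. -/
theorem sub_fin2 (d Q c : ℕ) (hc : c = 1 ∨ c = 2) (e t : ℤ) (hct : (c : ℤ) ∣ t)
    (h : 2 * (|t| + Q + 2 * (d + 1)) + 8 * ((d : ℤ) + 1) ^ 2 * |e| ≤
      ((d : ℤ) + 1) * ((Q : ℤ) ^ 2 - 4 * ((d : ℤ) + 1) ^ 2)) :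
    ∃ σ : Finset (Fin (2 * Q + 1)),
      ∑ j ∈ σ, ((c : ℤ) + 2 * (d + 1) * (e + Q - (j : ℕ))) = 2 * (d + 1) * Q * e + t := by
  have hd : (0 : ℤ) < (d : ℤ) + 1 := by positivity
  have ht0 := abs_nonneg t
  have he0 := abs_nonneg e
  have hpos : 0 ≤ ((d : ℤ) + 1) * ((Q : ℤ) ^ 2 - 4 * ((d : ℤ) + 1) ^ 2) := by
    have h1 : 0 ≤ 8 * ((d : ℤ) + 1) ^ 2 * |e| := by positivity
    have h2 : (0 : ℤ) ≤ Q := Int.natCast_nonneg Q
    linarith
  rcases hc with rfl | rfl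
  · obtain ⟨σ, hσ⟩ := HSub_core (2 * (d + 1)) Q (by omega) e t (by
      push_cast
      nlinarith)
    refine ⟨σ, ?_⟩
    rw [Finset.sum_add_distrib, Finset.sum_const, ← Finset.mul_sum, nsmul_eq_mul]
    push_cast at hσ ⊢
    linarith
  · obtain ⟨t', rfl⟩ := hct
    obtain ⟨σ, hσ⟩ := HSub_core (d + 1) Q (by omega) e t' (by
      have h2 : |((2 : ℕ) : ℤ) * t'| = 2 * |t'| := by
        rw [abs_mul]; rfl
      rw [h2] at h
      have h3 := abs_nonneg t'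
      have h4 : 0 ≤ ((d : ℤ) + 1) ^ 2 * |e| := by positivity
      have h5 : 0 ≤ ((d : ℤ) + 1) * ((d : ℤ) + 1) ^ 2 := by positivity
      push_cast
      nlinarith)
    refine ⟨σ, ?_⟩
    rw [Finset.sum_add_distrib, Finset.sum_const, ← Finset.mul_sum, nsmul_eq_mul]
    push_cast at hσ ⊢
    linarith

end Pool.Agent.RVM
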