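import Pool.Agent.MP_c130bd_co.RVM.HInd
import Pool.Agent.MP_c130bd_co.RVM.HImb
import Pool.Agent.MP_c130bd_co.RVM.HSub
import Pool.Agent.MP_c130bd_co.RVM.Fin

set_option autoImplicit false

namespace Pool.Agent.RVM

/-! ## [RVM-HONE] one type

Notation: `k = d / 2 ≥ 1`, `D = d + 1`, `J = 2 Q + 1`, `c = 1` if `s + d` is even and `c = 2` if `s + d` is odd,
`cT = c` if `k` is odd and `cT = c + D` if `k` is even, `r = D n`; `e_a = J (k + 1 - 2 a) / 2` if `k` is odd and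
`e_a = (J (k + 1 - 2 a) + 1) / 2` if `k` is even (`1 ≤ a ≤ k`; integers, `|e_a| ≤ k (Q + 1) ≤ d (Q + 1)`). -/

/-- the image of a family in general position with `s` points -/
theorem HOne_even {ι : Type*} [Fintype ι] [DecidableEq ι] {d s : ℕ} (hd : 1 ≤ d) (hs : d + 2 ≤ s)
    (hp : Odd (s + d)) {p : ι → E d} (hpg : GPc p) (hc : Fintype.card ι = s) (b : ℕ)
    (hb : b ≤ d / 2) : (2 : ℤ) ∣ Ac p b := by
  have hι : d + 1 ≤ Fintype.card ι := by omega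
  have hinj := inj_of_gpc hpg hι hd
  have hGP : GP (Finset.univ.image p) := (gp_iff hinj hι).2 hpg
  have hcard : (Finset.univ.image p).card = s := by
    rw [Finset.card_image_of_injective _ hinj, Finset.card_univ, hc]
  unfold Ac
  refine Finset.dvd_sum fun i hi => ?_
  rw [Finset.mem_Icc] at hi
  have h1 := even_P hd hs hp hGP hcard (i := i) hi.1 (by omega)
  rw [pp_eq hpg hι hd] at h1
  exact_mod_cast h1.two_dvd

/-- the arithmetic of `e` -/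
theorem HOne_e {k Q b d : ℕ} (hkd : k ≤ d) (hb : 1 ≤ b) (hb' : b ≤ k) {e ev : ℤ}
    (hev : ev = 0 ∨ ev = 1) (he : 2 * e = (2 * Q + 1) * ((k : ℤ) + 1 - 2 * b) + ev) :
    |e| ≤ d * (Q + 1) := by
  have hb1 : (1 : ℤ) ≤ b := by exact_mod_cast hb
  have hb2 : (b : ℤ) ≤ k := by exact_mod_cast hb'
  have hk : (k : ℤ) ≤ d := by exact_mod_cast hkd
  have hQ : (0 : ℤ) ≤ Q := Int.natCast_nonneg Q
  have h1 : (2 * (Q : ℤ) + 1) * ((k : ℤ) + 1 - 2 * b) ≤ (2 * Q + 1) * ((k : ℤ) - 1) :=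
    mul_le_mul_of_nonneg_left (by linarith) (by linarith)
  have h2 : (2 * (Q : ℤ) + 1) * (-((k : ℤ) - 1)) ≤ (2 * Q + 1) * ((k : ℤ) + 1 - 2 * b) :=
    mul_le_mul_of_nonneg_left (by linarith) (by linarith)
  have h3 : (k : ℤ) * (Q + 1) ≤ d * (Q + 1) := mul_le_mul_of_nonneg_right hk (by linarith)
  have h4 : (0 : ℤ) ≤ k * Q := by positivity
  rw [abs_le]
  rcases hev with rfl | rfl
  · constructor <;> nlinarith
  · constructor <;> nlinarith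

/-- **One type.** The block and the gadgets of the type `b`: the value `z` can be realized.

`τ₀ = -1` everywhere. Proof. Let `t₁ = k J + (b - 1)` be the block. `A⁰ := Ac (Q τ₀) b`. By `clu_total` (with `imb_blk`,
`imb = h₁ - h₂ - r - D k J + D n (k - 1 - 2 (b - 1)) = cT - D k J - D n (2 b + 1) ≤ - 3 D n`, since `cT ≤ D + 2 ≤ 3 D ≤ D k J`)
`Ac (Q (update τ₀ t₁ 1)) b ≥ A⁰ + n^(d+1) (3 D n - D (n - 1)) ≥ A⁰ + 2 D n^(d+2)`. Put `z' = z + 2 D Q e_b`; by `hz` `A⁰ ≤ z' ≤ A⁰ + 2 D n^(d+2)`, so by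
`clu_ivt` there is `x` with `|Ac (Q (update τ₀ t₁ x)) b - z'| ≤ s` (`card_pt`). Let `t = Ac (Q (update τ₀ t₁ x)) b - z'`. `c ∣ t`: for `c = 2` `Ac (Q _) b` is even by `even_P`
(`clu_gp`, `pp_eq`, `gp_iff`: the image of `Q _` is a set of `s` points in general position) and `z`, `2 D Q e_b` are even. `sub_fin2` with
`e = e_b`: `σ ⊆ Fin (2 Q + 1)` with the sum `2 D Q e_b + t = Ac (Q (update τ₀ t₁ x)) b - z`. Let `G` be the set of the gadgets `(b - 1) J + j`, `j ∈ σ`; by `imb_gad`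
their imbalances are `h₁ - h₂ + r + D k n + D (k J - 1 - 2 ((b - 1) J + j)) = cT + D (J (k + 1 - 2 b) + 2 (Q - j)) = c + 2 D (e_b + Q - j)`. `clu_gad`. -/
theorem one_type (d : ℕ) (hd : 2 ≤ d) {s n Q h₁ h₂ : ℕ} {hgt : (Fin h₁ ⊕ Fin h₂) ⊕ Fin ((d + 1) * n) → ℝ}
    {P : (Fin (d / 2 * (2 * Q + 1) + d / 2) → ℝ) →
      Pt ((Fin h₁ ⊕ Fin h₂) ⊕ Fin ((d + 1) * n)) d (nn (d / 2) (2 * Q + 1) n) → E d}
    {θ c : (t : Fin (d / 2 * (2 * Q + 1) + d / 2)) → (Fin (d + 1) → Fin (nn (d / 2) (2 * Q + 1) n t)) → ℝ}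
    (C : Clu hgt (hh (d / 2) (2 * Q + 1)) (aa (d / 2) (2 * Q + 1)) P θ c) (L : Lay hgt (d / 2) (2 * Q + 1))
    (hn : 1 ≤ n) (hsd : d + 2 ≤ s)
    (hs : h₁ + h₂ + (d + 1) * (d / 2 + 1) * n + (d + 1) * (d / 2) * (2 * Q + 1) = s)
    (cc : ℤ) (hcc : cc = if Even (s + d) then 1 else 2)
    (hh12 : (h₁ : ℤ) - h₂ = cc + (if Even (d / 2) then (d + 1 : ℤ) else 0) - (d + 1) * ((d / 2 : ℕ) + 1) * n)
    (hQ : 2 * ((s : ℤ) + Q + 2 * (d + 1)) + 8 * ((d : ℤ) + 1) ^ 2 * (d * (Q + 1)) ≤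
      (d + 1) * ((Q : ℤ) ^ 2 - 4 * (d + 1) ^ 2))
    (b : ℕ) (hb : 1 ≤ b) (hb' : b ≤ d / 2) (e : ℤ)
    (he : 2 * e = (2 * Q + 1) * (((d / 2 : ℕ) : ℤ) + 1 - 2 * b) + if Even (d / 2) then 1 else 0) (z : ℤ)
    (hz : Ac (P fun _ => -1) b ≤ z + 2 * (d + 1) * Q * e)
    (hz' : z + 2 * (d + 1) * Q * e ≤ Ac (P fun _ => -1) b + 2 * ((d + 1) * (n : ℤ) ^ (d + 2)))
    (hpar : Odd (s + d) → 2 ∣ z) :
    ∃ τ : Fin (d / 2 * (2 * Q + 1) + d / 2) → ℝ, Reg θ τ ∧ Ac (P τ) b = z := by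
  obtain ⟨k, hk⟩ : ∃ k, k = d / 2 := ⟨_, rfl⟩
  have hkd : k ≤ d := by omega
  rw [← hk] at hb' hh12 he hs
  have hk1 : 1 ≤ k := by omega
  -- `Q ≥ 1`
  have hQ1 : 1 ≤ Q := by
    by_contra h
    have : Q = 0 := by omega
    subst this
    have h1 : (0 : ℤ) ≤ s := Int.natCast_nonneg s
    have h2 : (0 : ℤ) ≤ d := Int.natCast_nonneg d
    push_cast at hQ
    have h3 : ((d : ℤ) + 1) * (0 ^ 2 - 4 * ((d : ℤ) + 1) ^ 2) ≤ 0 := by
      have : (0 : ℤ) ≤ ((d : ℤ) + 1) * (4 * ((d : ℤ) + 1) ^ 2) := by positivity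
      linarith
    have h4 : (0 : ℤ) ≤ 8 * ((d : ℤ) + 1) ^ 2 * (d * (0 + 1)) := by positivity
    linarith
  have hcc' : cc = 1 ∨ cc = 2 := by rw [hcc]; split_ifs <;> simp
  -- the block
  have hlt : k * (2 * Q + 1) + (b - 1) < k * (2 * Q + 1) + k := by omega
  rw [hk] at hlt
  obtain ⟨t₁, ht₁⟩ : ∃ t₁ : Fin (d / 2 * (2 * Q + 1) + d / 2),
      (t₁ : ℕ) = d / 2 * (2 * Q + 1) + (b - 1) :=
    ⟨⟨d / 2 * (2 * Q + 1) + (b - 1), hlt⟩, rfl⟩
  have haa : aa (d / 2) (2 * Q + 1) t₁ = b := by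
    unfold aa
    rw [if_neg (by rw [ht₁]; omega), ht₁]
    omega
  have hnn : nn (d / 2) (2 * Q + 1) n t₁ = n := by
    unfold nn
    rw [if_neg (by rw [ht₁]; omega)]
  obtain ⟨τ₀, hτ₀⟩ : ∃ τ₀ : Fin (d / 2 * (2 * Q + 1) + d / 2) → ℝ, τ₀ = fun _ => -1 := ⟨_, rfl⟩
  rw [← hτ₀] at hz hz'
  have hne1 : ∀ t ν, (-1 : ℝ) ≠ θ t ν := by
    intro t ν h
    have := C.lt t ν
    rw [← h] at this
    norm_num at this
  have hne2 : ∀ t ν, (1 : ℝ) ≠ θ t ν := by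
    intro t ν h
    have := C.lt t ν
    rw [← h] at this
    norm_num at this
  have hR₀ : Reg θ τ₀ := by
    rw [hτ₀]
    exact ⟨fun t => by norm_num, fun t ν => hne1 t ν⟩
  have hR₁ : Reg θ (Function.update τ₀ t₁ 1) := by
    constructor
    · intro t
      by_cases h : t = t₁
      · subst h; simp
      · rw [Function.update_of_ne h]; exact hR₀.1 t
    · intro t ν
      by_cases h : t = t₁
      · subst h; rw [Function.update_self]; exact hne2 _ ν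
      · rw [Function.update_of_ne h]; exact hR₀.2 t ν
  have hcard : Fintype.card (Pt ((Fin h₁ ⊕ Fin h₂) ⊕ Fin ((d + 1) * n)) d
      (nn (d / 2) (2 * Q + 1) n)) = s := by
    rw [card_pt, ← hk, ← hs]
    ring
  have hd1 : 1 ≤ d := by omega
  have himb := imb_blk (d := d) L n t₁ (b - 1) ht₁
  have htot := clu_total C hR₀ hR₁ t₁ (by rw [haa]; exact hb) (by rw [haa, ← hk]; exact hb')
    (fun t' ht' => (Function.update_of_ne ht' _ _).symm) (by rw [hτ₀]) (by simp)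
  rw [haa] at htot
  have hivt := clu_ivt C hR₀ t₁ (by rw [haa]; exact hb) (by rw [haa, ← hk]; exact hb')
    (z + 2 * (d + 1) * Q * e)
  rw [haa] at hivt
  have hup0 : Function.update τ₀ t₁ (-1) = τ₀ := by
    have : (-1 : ℝ) = τ₀ t₁ := by rw [hτ₀]
    rw [this, Function.update_eq_self]
  rw [hup0] at hivt
  -- the imbalance of the block
  obtain ⟨ev, hev⟩ : ∃ ev : ℤ, ev = if Even k then 1 else 0 := ⟨_, rfl⟩
  have hev' : ev = 0 ∨ ev = 1 := by rw [hev]; split_ifs <;> simp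
  have hevD : (if Even k then ((d : ℤ) + 1) else 0) = ev * (d + 1) := by
    rw [hev]; split_ifs <;> simp
  rw [hevD] at hh12
  rw [← hev] at he
  have hb1 : ((b - 1 : ℕ) : ℤ) = b - 1 := by push_cast [Nat.cast_sub hb]; ring
  have hbz : (1 : ℤ) ≤ b := by exact_mod_cast hb
  have hkz : (1 : ℤ) ≤ k := by exact_mod_cast hk1
  have hnz : (1 : ℤ) ≤ n := by exact_mod_cast hn
  have hQz : (1 : ℤ) ≤ Q := by exact_mod_cast hQ1
  have hDz : (3 : ℤ) ≤ (d : ℤ) + 1 := by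
    have : (2 : ℤ) ≤ d := by exact_mod_cast hd
    linarith
  have himb' : imb hgt (hh (d / 2) (2 * Q + 1)) (nn (d / 2) (2 * Q + 1) n) d t₁ =
      cc + ev * (d + 1) - (d + 1) * (k * (2 * Q + 1)) - (d + 1) * n * (2 * b + 1) := by
    rw [himb, hb1, ← hk, hh12]
    push_cast
    ring
  have himb3 : imb hgt (hh (d / 2) (2 * Q + 1)) (nn (d / 2) (2 * Q + 1) n) d t₁ ≤
      -(3 * ((d + 1) * n)) := by
    rw [himb']
    have e1 : cc + ev * ((d : ℤ) + 1) ≤ ((d : ℤ) + 1) * (k * (2 * Q + 1)) := by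
      have e2 : cc ≤ 2 := by rcases hcc' with h | h <;> linarith
      have e3 : ev * ((d : ℤ) + 1) ≤ 1 * ((d : ℤ) + 1) := by
        rcases hev' with h | h <;> rw [h] <;> linarith
      have e4 : (1 : ℤ) * 3 ≤ (k : ℤ) * (2 * Q + 1) := mul_le_mul hkz (by linarith) (by norm_num) (by linarith)
      have e5 : ((d : ℤ) + 1) * 3 ≤ ((d : ℤ) + 1) * (k * (2 * Q + 1)) :=
        mul_le_mul_of_nonneg_left (by linarith) (by linarith)
      linarith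
    have e6 : ((d : ℤ) + 1) * n * 3 ≤ ((d : ℤ) + 1) * n * (2 * b + 1) :=
      mul_le_mul_of_nonneg_left (by linarith) (by positivity)
    linarith
  rw [hnn] at htot
  have hup : z + 2 * (d + 1) * Q * e ≤ Ac (P (Function.update τ₀ t₁ 1)) b := by
    have e1 := (abs_le.1 htot).2
    have e0 : (0 : ℤ) ≤ (n : ℤ) ^ (d + 1) := by positivity
    have e2 : (n : ℤ) ^ (d + 1) *
        imb hgt (hh (d / 2) (2 * Q + 1)) (nn (d / 2) (2 * Q + 1) n) d t₁ ≤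
        (n : ℤ) ^ (d + 1) * (-(3 * ((d + 1) * n))) := mul_le_mul_of_nonneg_left himb3 e0
    have e3 : (n : ℤ) ^ (d + 2) = (n : ℤ) ^ (d + 1) * n := pow_succ _ _
    have e4 : (0 : ℤ) ≤ ((d : ℤ) + 1) * (n : ℤ) ^ (d + 1) := by positivity
    rw [e3] at hz'
    have e5 := (abs_le.1 htot).1
    have e6 : (n : ℤ) ^ (d + 1) * (((d : ℤ) + 1) * ((n : ℤ) - 1)) =
        ((d : ℤ) + 1) * ((n : ℤ) ^ (d + 1) * n) - ((d : ℤ) + 1) * (n : ℤ) ^ (d + 1) := by ring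
    have e7 : (n : ℤ) ^ (d + 1) * (-(3 * (((d : ℤ) + 1) * n))) =
        -(3 * (((d : ℤ) + 1) * ((n : ℤ) ^ (d + 1) * n))) := by ring
    linarith
  obtain ⟨x, hRx, hx⟩ := hivt hz hup
  rw [hcard] at hx
  obtain ⟨τ₂, hτ₂⟩ : ∃ τ₂, τ₂ = Function.update τ₀ t₁ x := ⟨_, rfl⟩
  rw [← hτ₂] at hRx hx
  obtain ⟨T, hT⟩ : ∃ T : ℤ, T = Ac (P τ₂) b - (z + 2 * (d + 1) * Q * e) := ⟨_, rfl⟩
  rw [← hT] at hx
  -- divisibility
  obtain ⟨c', hc', hcc''⟩ : ∃ c' : ℕ, (c' = 1 ∨ c' = 2) ∧ (c' : ℤ) = cc := by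
    rcases hcc' with h | h
    · exact ⟨1, Or.inl rfl, by rw [h]; rfl⟩
    · exact ⟨2, Or.inr rfl, by rw [h]; rfl⟩
  have hdvd : (c' : ℤ) ∣ T := by
    rcases hc' with h | h
    · rw [h]; exact one_dvd _
    · have hodd : Odd (s + d) := by
        rw [← Nat.not_even_iff_odd]
        intro hev
        rw [hcc, if_pos hev, h] at hcc''
        norm_num at hcc''
      rw [h, hT]
      have e1 := HOne_even hd1 hsd hodd (clu_gp C hRx) hcard b (by rw [← hk]; exact hb')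
      have e2 := hpar hodd
      have e3 : (2 : ℤ) ∣ 2 * (d + 1) * Q * e := ⟨(d + 1) * Q * e, by ring⟩
      exact_mod_cast dvd_sub e1 (dvd_add e2 e3)
  have he' := HOne_e hkd hb hb' hev' he
  obtain ⟨σ, hσ⟩ := sub_fin2 d Q c' hc' e T hdvd (by
    refine le_trans ?_ hQ
    have e1 : 8 * ((d : ℤ) + 1) ^ 2 * |e| ≤ 8 * ((d : ℤ) + 1) ^ 2 * (d * (Q + 1)) :=
      mul_le_mul_of_nonneg_left he' (by positivity)
    linarith)
  -- the gadgets
  have hltg : ∀ j : Fin (2 * Q + 1), (b - 1) * (2 * Q + 1) + (j : ℕ) < k * (2 * Q + 1) := by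
    intro j
    have e1 : (b - 1 + 1) * (2 * Q + 1) ≤ k * (2 * Q + 1) := Nat.mul_le_mul_right _ (by omega)
    rw [Nat.succ_mul] at e1
    have := j.2
    omega
  obtain ⟨γ, hγ⟩ : ∃ γ : Fin (2 * Q + 1) → Fin (d / 2 * (2 * Q + 1) + d / 2),
      ∀ j, (γ j : ℕ) = (b - 1) * (2 * Q + 1) + (j : ℕ) :=
    ⟨fun j => ⟨(b - 1) * (2 * Q + 1) + (j : ℕ), by
      rw [← hk]; exact (hltg j).trans_le (Nat.le_add_right _ _)⟩, fun j => rfl⟩
  have hγinj : Function.Injective γ := by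
    intro i j hij
    apply Fin.ext
    have e1 := hγ i
    have e2 := hγ j
    rw [hij] at e1
    omega
  have hγlt : ∀ j, (γ j : ℕ) < d / 2 * (2 * Q + 1) := fun j => by
    rw [hγ, ← hk]; exact hltg j
  have hγa : ∀ j, aa (d / 2) (2 * Q + 1) (γ j) = b := by
    intro j
    unfold aa
    rw [if_pos (hγlt j), hγ]
    have e1 : ((b - 1) * (2 * Q + 1) + (j : ℕ)) / (2 * Q + 1) = b - 1 := by
      rw [Nat.add_comm, Nat.add_mul_div_right _ _ (by omega), Nat.div_eq_of_lt j.2, zero_add]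
    rw [e1]
    omega
  have hγn : ∀ j, nn (d / 2) (2 * Q + 1) n (γ j) = 1 := by
    intro j
    unfold nn
    rw [if_pos (hγlt j)]
  have hγτ : ∀ j, τ₂ (γ j) = -1 := by
    intro j
    have hne : γ j ≠ t₁ := by
      intro h
      have e1 := hγlt j
      rw [h, ht₁] at e1
      omega
    rw [hτ₂, Function.update_of_ne hne, hτ₀]
  have hgad := clu_gad C hRx b hb (by rw [← hk]; exact hb') (σ.image γ) (by
    intro t ht
    obtain ⟨j, -, rfl⟩ := Finset.mem_image.1 ht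
    exact ⟨hγa j, hγn j, hγτ j⟩)
  refine ⟨_, hgad.1, ?_⟩
  rw [hgad.2, Finset.sum_image hγinj.injOn]
  have hsum : ∑ j ∈ σ, imb hgt (hh (d / 2) (2 * Q + 1)) (nn (d / 2) (2 * Q + 1) n) d (γ j) =
      2 * (d + 1) * Q * e + T := by
    rw [← hσ]
    refine Finset.sum_congr rfl fun j _ => ?_
    rw [imb_gad (d := d) L n (γ j) (hγlt j), hγ, ← hk, hcc'']
    push_cast [hb1]
    linear_combination hh12 - (d + 1) * he
  rw [hsum, hT]
  ring

end Pool.Agent.RVM
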