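import Pool.Agent.MP_c130bd_co.RVM.HClu
import Pool.Agent.MP_c130bd_co.RVM.HImb
import Pool.Agent.MP_c130bd_co.RVM.Arr

set_option autoImplicit false

namespace Pool.Agent.RVM

variable {d : ℕ}

/-! ## [RVM-HSLAB] the configurations with a slab -/

/-- Proof. `arrange`: `F₀`; `ballast` with `α = -1 / (k J + k + 1)`, `β = 1 / (k J + k + 1)`: `e`; `F = Sum.elim F₀ e`
(the heights of the gadgets are at most `(k J) / (k J + k + 1) - 1 ≤ α` [if `k = 0` there are no blocks at all] and those of the blocks at least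
`(k J + 1) / (k J + k + 1) ≥ β`); `blocks` with `h = hh k J`, `a = aa k J`; `exists_clu`. -/
theorem slab [NeZero d] (T : Finset (E d)) (hT : GP T) (h₁ h₂ r k J n : ℕ)
    (hc : T.card = h₁ + h₂) (hd : d + 1 ≤ T.card) (hk : k ≤ d) :
    ∃ (F : (Fin h₁ ⊕ Fin h₂) ⊕ Fin r → E d)
      (Q : (Fin (k * J + k) → ℝ) → Pt ((Fin h₁ ⊕ Fin h₂) ⊕ Fin r) d (nn k J n) → E d)
      (θ c : (t : Fin (k * J + k)) → (Fin (d + 1) → Fin (nn k J n t)) → ℝ),
      Clu (fun x => F x 0) (hh k J) (aa k J) Q θ c ∧ (∀ τ x, Q τ (Sum.inl x) = F x) ∧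
        Lay (fun x => F x 0) k J ∧ ∀ i, Pc (fun x => F (Sum.inl x)) i = PP T i := by
  classical
  obtain ⟨F₀, hF₀, hup, hdn, hPc⟩ := arrange T hT h₁ h₂ hc hd
  have hM : (0 : ℝ) < (k : ℝ) * J + k + 1 := by positivity
  obtain ⟨e, he, heb⟩ := ballast hF₀ (α := -1 / ((k : ℝ) * J + k + 1))
    (β := 1 / ((k : ℝ) * J + k + 1)) (by
      rw [div_lt_div_iff_of_pos_right hM]; norm_num) r
  have hlo : ∀ x (t : Fin (k * J + k)), (t : ℕ) < k * J → hh k J t < e x 0 := by
    intro x t ht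
    refine lt_of_le_of_lt ?_ (heb x).1
    have h1 : (((t : ℕ) : ℝ) + 1) ≤ (k : ℝ) * J := by exact_mod_cast ht
    have hk0 : (0 : ℝ) ≤ k := Nat.cast_nonneg k
    simp only [hh, if_pos ht]
    rw [sub_le_iff_le_add, div_add_one hM.ne', div_le_div_iff_of_pos_right hM]
    linarith
  have hhi : ∀ x (t : Fin (k * J + k)), k * J ≤ (t : ℕ) → e x 0 < hh k J t := by
    intro x t ht
    refine lt_of_lt_of_le (heb x).2 ?_
    simp only [hh, if_neg (not_lt.mpr ht)]
    rw [div_le_div_iff_of_pos_right hM]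
    have : (0 : ℝ) ≤ ((t : ℕ) : ℝ) := Nat.cast_nonneg _
    linarith
  have hne : ∀ x t, (Sum.elim F₀ e) x 0 ≠ hh k J t := by
    intro x t
    have hb := hh_bounds k J t
    rcases x with (x | x) | x
    · have := hup x
      simp only [Sum.elim_inl]
      intro h; linarith [hb.2]
    · have := hdn x
      simp only [Sum.elim_inl]
      intro h; linarith [hb.1]
    · simp only [Sum.elim_inr]
      rcases lt_or_ge (t : ℕ) (k * J) with ht | ht
      · exact (hlo x t ht).ne'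
      · exact (hhi x t ht).ne
  have hinj := (hh_strictMono k J).injective
  obtain ⟨g, B⟩ := blocks he (hh k J) hinj hne (aa k J)
    (fun t => ⟨(aa_bounds k J t).1, (aa_bounds k J t).2.trans hk⟩)
  obtain ⟨Q, θ, c, hC, hQ⟩ := exists_clu B hinj hne (nn k J n)
  refine ⟨Sum.elim F₀ e, Q, θ, c, hC, hQ, ⟨?_, ?_, ?_, ?_⟩, ?_⟩
  · intro x; exact hup x
  · intro x; exact hdn x
  · intro x t ht; exact hlo x t ht
  · intro x t ht; exact hhi x t ht
  · intro i
    simpa only [Sum.elim_inl] using hPc i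

end Pool.Agent.RVM
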