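import Pool.Agent.MP_c130bd_co.RVM.HDefs

set_option autoImplicit false

namespace Pool.Agent.RVM

variable {d : ℕ} {κ : Type*} {N : ℕ} {n : Fin N → ℕ}

/-! ## [RVM-HVEC] generic directions -/

/-- the base point of a point -/
def bp (F : κ → E d) (g : Fin N × Fin (d + 1) → E d) : Pt κ d n → E d :=
  Sum.elim F fun x => g (x.1, x.2.1)

/-- the index of the base point -/
def bi : Pt κ d n → κ ⊕ (Fin N × Fin (d + 1)) :=
  Sum.elim Sum.inl fun x => Sum.inr (x.1, x.2.1)

/-- The leading determinant: the rows of the first points of the clusters are those of the base points, the rows of the other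
points are the differences of the directions. -/
noncomputable def LL (F : κ → E d) (g : Fin N × Fin (d + 1) → E d)
    (v : ((t : Fin N) × (Fin (d + 1) × Fin (n t))) → E d) (I : Fin (d + 1) → Pt κ d n)
    (rep : Fin (d + 1) → Fin (d + 1)) : ℝ :=
  Matrix.det (Matrix.of fun r c => if rep r = r then hv (bp F g (I r)) c else
    (Fin.cons 0 (Sum.elim (fun _ => 0) v (I r) - Sum.elim (fun _ => 0) v (I (rep r))) :
      Fin (d + 1) → ℝ) c)

/-- functions which are polynomial on the lines: a common point outside of the zero sets -/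
private theorem HVec_generic {V K : Type*} [AddCommGroup V] [Module ℝ V] [DecidableEq K]
    (f : K → V → ℝ)
    (hpoly : ∀ k v w, ∃ q : Polynomial ℝ, ∀ s : ℝ, f k (v + s • (w - v)) = q.eval s)
    (T : Finset K) (hex : ∀ k ∈ T, ∃ v, f k v ≠ 0) : ∃ v, ∀ k ∈ T, f k v ≠ 0 := by
  induction T using Finset.induction_on with
  | empty => exact ⟨0, by simp⟩
  | insert a T ha ih =>
    obtain ⟨v, hv⟩ := ih fun k hk => hex k (Finset.mem_insert_of_mem hk)
    obtain ⟨w, hw⟩ := hex a (Finset.mem_insert_self a T)
    choose q hq using fun k => hpoly k v w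
    have hq0 : ∀ k ∈ insert a T, q k ≠ 0 := by
      intro k hk h
      rcases Finset.mem_insert.1 hk with rfl | hk
      · have h1 := hq k 1
        rw [h, Polynomial.eval_zero, one_smul, add_sub_cancel] at h1
        exact hw h1
      · have h1 := hq k 0
        rw [h, Polynomial.eval_zero, zero_smul, add_zero] at h1
        exact hv k hk h1
    have hprod : ∏ k ∈ insert a T, q k ≠ 0 := Finset.prod_ne_zero_iff.2 hq0
    obtain ⟨s, hs⟩ : ∃ s, (∏ k ∈ insert a T, q k).eval s ≠ 0 := by
      by_contra hcon
      push Not at hcon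
      exact hprod (Polynomial.funext fun s => by rw [hcon s, Polynomial.eval_zero])
    refine ⟨v + s • (w - v), fun k hk h => hs ?_⟩
    rw [Polynomial.eval_prod]
    exact Finset.prod_eq_zero hk (by rw [← hq]; exact h)

/-- independent rows, one of them with first coordinate `1`, can be completed by rows with first coordinate `0` -/
private theorem HVec_complete {d : ℕ} : ∀ (k : ℕ) (R : Finset (Fin (d + 1)))
    (u : Fin (d + 1) → (Fin (d + 1) → ℝ)) (r0 : Fin (d + 1)),
    R.card + k = d + 1 → r0 ∈ R → u r0 0 = 1 → LinearIndepOn ℝ u (R : Set (Fin (d + 1))) →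
    ∃ x : Fin (d + 1) → (Fin (d + 1) → ℝ), (∀ r ∈ R, x r = u r) ∧ (∀ r, r ∉ R → x r 0 = 0) ∧
      LinearIndependent ℝ x := by
  classical
  intro k
  induction k with
  | zero =>
    intro R u r0 hc _ _ hu
    have hR : R = Finset.univ := Finset.eq_univ_of_card R (by rw [Fintype.card_fin]; omega)
    subst hR
    refine ⟨u, fun _ _ => rfl, fun r hr => absurd (Finset.mem_univ r) hr, ?_⟩
    rw [Finset.coe_univ] at hu
    exact linearIndepOn_univ_iff.1 hu
  | succ k ih =>
    intro R u r0 hc hr0 hu0 hu
    obtain ⟨r1, hr1⟩ : ∃ r1, r1 ∉ R := by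
      by_contra hcon
      push Not at hcon
      have : R = Finset.univ := Finset.eq_univ_of_forall hcon
      rw [this, Finset.card_univ, Fintype.card_fin] at hc
      omega
    obtain ⟨h, hh0, hh⟩ : ∃ h : Fin (d + 1) → ℝ, h 0 = 0 ∧
        h ∉ Submodule.span ℝ (u '' (R : Set (Fin (d + 1)))) := by
      by_contra hcon
      push Not at hcon
      have htop : Submodule.span ℝ (u '' (R : Set (Fin (d + 1)))) = ⊤ := by
        rw [eq_top_iff]
        intro y _
        have h1 := hcon (y - y 0 • u r0) (by
          rw [Pi.sub_apply, Pi.smul_apply, hu0, smul_eq_mul, mul_one, sub_self])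
        have h2 : u r0 ∈ Submodule.span ℝ (u '' (R : Set (Fin (d + 1)))) :=
          Submodule.subset_span ⟨r0, hr0, rfl⟩
        have h3 := Submodule.add_mem _ h1 (Submodule.smul_mem _ (y 0) h2)
        rwa [sub_add_cancel] at h3
      have h3 := finrank_span_finset_le_card (R := ℝ) (R.image u)
      rw [Finset.coe_image, Set.finrank, htop, finrank_top, Module.finrank_fin_fun] at h3
      have h4 : (R.image u).card ≤ R.card := Finset.card_image_le
      omega
    have heq : Set.EqOn u (Function.update u r1 h) (R : Set (Fin (d + 1))) := by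
      intro r hr
      rw [Function.update_of_ne]
      rintro rfl
      exact hr1 hr
    have hu' : LinearIndepOn ℝ (Function.update u r1 h) ((insert r1 R : Finset _) : Set (Fin (d + 1))) := by
      rw [Finset.coe_insert, linearIndepOn_insert (by exact_mod_cast hr1)]
      refine ⟨hu.congr heq, ?_⟩
      rw [Function.update_self, ← Set.EqOn.image_eq heq]
      exact hh
    obtain ⟨x, hx1, hx2, hx3⟩ := ih (insert r1 R) (Function.update u r1 h) r0
      (by rw [Finset.card_insert_of_notMem hr1]; omega) (Finset.mem_insert_of_mem hr0)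
      (by rw [← heq hr0]; exact hu0) hu'
    refine ⟨x, ?_, ?_, hx3⟩
    · intro r hr
      rw [hx1 r (Finset.mem_insert_of_mem hr), ← heq hr]
    · intro r hr
      by_cases h1 : r = r1
      · subst h1
        rw [hx1 r (Finset.mem_insert_self r R), Function.update_self]
        exact hh0
      · exact hx2 r (by
          rw [Finset.mem_insert]
          push Not
          exact ⟨h1, hr⟩)

/-- direction of a point -/
private def HVec_dir (v : ((t : Fin N) × (Fin (d + 1) × Fin (n t))) → E d) : Pt κ d n → E d :=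
  Sum.elim (fun _ => 0) v

private theorem HVec_bp (F : κ → E d) (g : Fin N × Fin (d + 1) → E d) (y : Pt κ d n) :
    bp F g y = Sum.elim F g (bi y) := by
  rcases y with k | x <;> rfl

/-- the determinant is polynomial on the lines -/
private theorem HVec_poly (F : κ → E d) (g : Fin N × Fin (d + 1) → E d)
    (I : Fin (d + 1) → Pt κ d n) (rep : Fin (d + 1) → Fin (d + 1))
    (v w : ((t : Fin N) × (Fin (d + 1) × Fin (n t))) → E d) :
    ∃ q : Polynomial ℝ, ∀ s : ℝ, LL F g (v + s • (w - v)) I rep = q.eval s := by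
  let A : Matrix (Fin (d + 1)) (Fin (d + 1)) ℝ := Matrix.of fun r c =>
    if rep r = r then hv (bp F g (I r)) c else
      (Fin.cons 0 (HVec_dir v (I r) - HVec_dir v (I (rep r))) : Fin (d + 1) → ℝ) c
  let B : Matrix (Fin (d + 1)) (Fin (d + 1)) ℝ := Matrix.of fun r c =>
    if rep r = r then 0 else
      (Fin.cons 0 (HVec_dir (w - v) (I r) - HVec_dir (w - v) (I (rep r))) : Fin (d + 1) → ℝ) c
  have hdir : ∀ (s : ℝ) (y : Pt κ d n) (c : Fin d),
      HVec_dir (v + s • (w - v)) y c = HVec_dir v y c + s * HVec_dir (w - v) y c := by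
    intro s y c
    rcases y with k | x
    · simp [HVec_dir]
    · simp [HVec_dir]
  refine ⟨(Matrix.of fun r c => Polynomial.C (A r c) + Polynomial.X * Polynomial.C (B r c)).det,
    fun s => ?_⟩
  rw [← Polynomial.coe_evalRingHom, RingHom.map_det]
  unfold LL
  congr 1
  ext r c
  simp only [Matrix.of_apply, RingHom.mapMatrix_apply, Matrix.map_apply,
    Polynomial.coe_evalRingHom, Polynomial.eval_add, Polynomial.eval_mul, Polynomial.eval_C,
    Polynomial.eval_X, A, B]
  by_cases hr : rep r = r
  · rw [if_pos hr, if_pos hr, if_pos hr]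
    ring
  · rw [if_neg hr, if_neg hr, if_neg hr]
    refine Fin.cases ?_ (fun c => ?_) c
    · simp only [Fin.cons_zero]
      ring
    · simp only [Fin.cons_succ, Pi.sub_apply]
      have h1 := hdir s (I r) c
      have h2 := hdir s (I (rep r)) c
      unfold HVec_dir at h1 h2 ⊢
      rw [h1, h2]
      ring

private theorem HVec_ex [NeZero d] {F : κ → E d} {h : Fin N → ℝ} {a : Fin N → ℕ}
    {g : Fin N × Fin (d + 1) → E d} (B : Blocks F h a g)
    (I : Fin (d + 1) → Pt κ d n) (hI : Function.Injective I) (hT : ∀ t ν, Set.range I ≠ tset t ν)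
    (rep : Fin (d + 1) → Fin (d + 1)) (hrep : ∀ r, rep (rep r) = rep r)
    (hbi : ∀ r r', bi (I r) = bi (I r') ↔ rep r = rep r') : ∃ v, LL F g v I rep ≠ 0 := by
  classical
  set R : Finset (Fin (d + 1)) := Finset.univ.filter fun r => rep r = r with hR
  have hmem : ∀ r, r ∈ R ↔ rep r = r := by
    intro r
    rw [hR, Finset.mem_filter]
    exact ⟨fun h => h.2, fun h => ⟨Finset.mem_univ _, h⟩⟩
  have hinj : ∀ r ∈ R, ∀ r' ∈ R, bi (I r) = bi (I r') → r = r' := by
    intro r hr r' hr' h1
    rw [hmem] at hr hr'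
    have h2 := (hbi r r').1 h1
    rw [hr, hr'] at h2
    exact h2
  by_cases hc : R.card ≤ d
  · have hind : LinearIndepOn ℝ (fun r => hv (bp F g (I r))) (R : Set (Fin (d + 1))) := by
      have h1 := B.ag.ind (R.image fun r => bi (I r)) ((Finset.card_image_le).trans hc)
      have h2 := h1.comp (fun r : (R : Set (Fin (d + 1))) =>
        (⟨bi (I r), Finset.mem_image_of_mem _ r.2⟩ : {x // x ∈ R.image fun r => bi (I r)})) (by
          rintro ⟨r, hr⟩ ⟨r', hr'⟩ h3
          exact Subtype.ext (hinj r hr r' hr' (Subtype.ext_iff.1 h3)))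
      have h3 : (fun r : (R : Set (Fin (d + 1))) => hv (bp F g (I r))) =
          (fun z : {x // x ∈ R.image fun r => bi (I r)} => hv (Sum.elim F g z)) ∘
          (fun r : (R : Set (Fin (d + 1))) =>
            (⟨bi (I r), Finset.mem_image_of_mem _ r.2⟩ : {x // x ∈ R.image fun r => bi (I r)})) := by
        funext r
        simp only [Function.comp_apply, HVec_bp]
      show LinearIndependent ℝ (fun r : (R : Set (Fin (d + 1))) => hv (bp F g (I r)))
      rw [h3]
      exact h2
    obtain ⟨x, hx1, hx2, hx3⟩ := HVec_complete (d + 1 - R.card) R (fun r => hv (bp F g (I r)))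
      (rep 0) (by omega) ((hmem _).2 (hrep 0)) (by simp [hv]) hind
    let v : ((t : Fin N) × (Fin (d + 1) × Fin (n t))) → E d := fun y =>
      if hy : ∃ r, rep r ≠ r ∧ I r = Sum.inr y then Fin.tail (x hy.choose) else 0
    have hv1 : ∀ r, rep r ≠ r → HVec_dir v (I r) = Fin.tail (x r) := by
      intro r hr
      obtain ⟨y, hy⟩ : ∃ y, I r = Sum.inr y := by
        rcases hIr : I r with k | y
        · exfalso
          have h1 : bi (I r) = bi (I (rep r)) := (hbi r (rep r)).2 (hrep r).symm
          rcases hIr' : I (rep r) with k' | y'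
          · rw [hIr, hIr'] at h1
            have h2 : k = k' := by simpa [bi] using h1
            apply hr
            apply hI
            rw [hIr, hIr', h2]
          · rw [hIr, hIr'] at h1
            simp [bi] at h1
        · exact ⟨y, rfl⟩
      rw [hy]
      show v y = _
      have hex : ∃ r, rep r ≠ r ∧ I r = Sum.inr y := ⟨r, hr, hy⟩
      have h1 : hex.choose = r := hI (hex.choose_spec.2.trans hy.symm)
      simp only [v]
      rw [dif_pos hex, h1]
    have hv2 : ∀ r, rep r = r → HVec_dir v (I r) = 0 := by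
      intro r hr
      rcases hIr : I r with k | y
      · rfl
      · show v y = 0
        simp only [v]
        rw [dif_neg]
        rintro ⟨r', hr', h1⟩
        have h2 := hI (h1.trans hIr.symm)
        subst h2
        exact hr' hr
    refine ⟨v, ?_⟩
    have hM : LL F g v I rep = Matrix.det (Matrix.of x) := by
      unfold LL
      congr 1
      ext r c
      simp only [Matrix.of_apply]
      by_cases hr : rep r = r
      · rw [if_pos hr, hx1 r ((hmem r).2 hr)]
      · rw [if_neg hr]
        have e1 := hv1 r hr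
        have e2 := hv2 (rep r) (hrep r)
        unfold HVec_dir at e1 e2
        rw [e1, e2, sub_zero]
        refine Fin.cases ?_ (fun c => ?_) c
        · rw [Fin.cons_zero, hx2 r (fun h => hr ((hmem r).1 h))]
        · rw [Fin.cons_succ]
          rfl
    rw [hM]
    have h5 : IsUnit (Matrix.of x) := Matrix.linearIndependent_rows_iff_isUnit.1 hx3
    exact ((Matrix.isUnit_iff_isUnit_det _).1 h5).ne_zero
  · have hall : ∀ r, rep r = r := by
      have h1 : R = Finset.univ := by
        apply Finset.eq_univ_of_card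
        have h2 := Finset.card_le_univ R
        rw [Fintype.card_fin] at h2 ⊢
        omega
      intro r
      rw [← hmem, h1]
      exact Finset.mem_univ r
    refine ⟨0, ?_⟩
    have hM : LL F g (0 : ((t : Fin N) × (Fin (d + 1) × Fin (n t))) → E d) I rep =
        D (Sum.elim F g) (fun r => bi (I r)) := by
      unfold LL D
      congr 1
      ext r c
      simp only [Matrix.of_apply]
      rw [if_pos (hall r), HVec_bp]
    have hbinj : Function.Injective fun r => bi (I r) := by
      intro r r' h1
      have h2 := (hbi r r').1 h1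
      rwa [hall, hall] at h2
    rw [hM, Ne, B.ag.det _ hbinj]
    rintro ⟨t, ht⟩
    have hex : ∀ i : Fin (d + 1), ∃ m : Fin (n t), ∃ r, I r = Sum.inr ⟨t, i, m⟩ := by
      intro i
      have h1 : (Sum.inr (t, i) : κ ⊕ (Fin N × Fin (d + 1))) ∈ Set.range fun r => bi (I r) := by
        rw [ht]
        exact ⟨(t, i), rfl, rfl⟩
      obtain ⟨r, hr⟩ := h1
      rcases hIr : I r with k | ⟨t', i', m⟩
      · simp only [hIr, bi] at hr
        simp at hr
      · simp only [hIr, bi] at hr
        simp only [Sum.elim_inr, Sum.inr.injEq, Prod.mk.injEq] at hr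
        obtain ⟨rfl, rfl⟩ := hr
        exact ⟨m, r, hIr⟩
    choose ν ρ hρ using hex
    have htset : (tset t ν : Set (Pt κ d n)) = Set.range fun i => Sum.inr ⟨t, i, ν i⟩ := by
      unfold tset
      congr 1
      funext i
      refine Fin.cases ?_ (fun i => ?_) i
      · rw [Fin.cons_zero]
        rfl
      · rw [Fin.cons_succ]
        rfl
    apply hT t ν
    rw [htset]
    ext y
    constructor
    · rintro ⟨r, rfl⟩
      have h1 : bi (I r) ∈ Set.range fun r => bi (I r) := ⟨r, rfl⟩
      rw [ht] at h1
      obtain ⟨⟨t', i⟩, ht', h2⟩ := h1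
      have ht'' : t' = t := ht'
      subst ht''
      refine ⟨i, ?_⟩
      have h3 : bi (I (ρ i)) = bi (I r) := by
        rw [← h2, hρ i]
        rfl
      have h4 := hbinj h3
      show Sum.inr _ = _
      rw [← h4, hρ i]
    · rintro ⟨i, rfl⟩
      exact ⟨ρ i, hρ i⟩

private theorem HVec_thr (β : Fin d → ℝ) (hβ : ∀ i, β i ≠ 0) (t : Fin N)
    (ν ν' : Fin (d + 1) → Fin (n t)) (hne : ν ≠ ν') [NeZero d] :
    ∃ v : ((t : Fin N) × (Fin (d + 1) × Fin (n t))) → E d,
      ((∑ i, β i * v ⟨t, i.succ, ν i.succ⟩ 0) - v ⟨t, 0, ν 0⟩ 0) -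
      ((∑ i, β i * v ⟨t, i.succ, ν' i.succ⟩ 0) - v ⟨t, 0, ν' 0⟩ 0) ≠ 0 := by
  classical
  obtain ⟨j, hj⟩ : ∃ j, ν j ≠ ν' j := by
    by_contra hcon
    push Not at hcon
    exact hne (funext hcon)
  refine ⟨fun y => if y = ⟨t, j, ν j⟩ then Pi.single 0 1 else 0, ?_⟩
  have e1 : ∀ i : Fin (d + 1), (if (⟨t, i, ν i⟩ : (t : Fin N) × (Fin (d + 1) × Fin (n t))) =
      ⟨t, j, ν j⟩ then (Pi.single 0 1 : E d) else 0) 0 = if i = j then 1 else 0 := by
    intro i
    by_cases hi : i = j
    · subst hi
      rw [if_pos rfl, if_pos rfl, Pi.single_eq_same]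
    · rw [if_neg (fun h => hi ?_), if_neg hi, Pi.zero_apply]
      simp only [Sigma.mk.injEq, heq_eq_eq, Prod.mk.injEq, true_and] at h
      exact h.1
  have e2 : ∀ i : Fin (d + 1), (if (⟨t, i, ν' i⟩ : (t : Fin N) × (Fin (d + 1) × Fin (n t))) =
      ⟨t, j, ν j⟩ then (Pi.single 0 1 : E d) else 0) 0 = 0 := by
    intro i
    rw [if_neg, Pi.zero_apply]
    intro h
    simp only [Sigma.mk.injEq, heq_eq_eq, Prod.mk.injEq, true_and] at h
    obtain ⟨rfl, h2⟩ := h
    exact hj h2.symm
  simp only [e1, e2, mul_zero, Finset.sum_const_zero, sub_zero]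
  refine Fin.cases ?_ (fun j => ?_) j
  · simp [Fin.succ_ne_zero]
  · simp [Fin.succ_inj, (Fin.succ_ne_zero j).symm, hβ j]

/-- **Generic directions.** For every injective `I` and every choice `rep` of representatives of the clusters
(`rep (rep r) = rep r`, `bi (I (rep r)) = bi (I r)`, `rep r = rep r'` if `bi (I r) = bi (I r')`) the leading determinant is
not `0`, unless `I` is a transversal; and the limits of the thresholds are distinct.

Proof. Enumerate the cluster points and choose their directions `v x ∈ ℝ^d` one after the other. Claim, to be preserved: for every set `B'` of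
indices of base points (`⊆ κ ⊕ Fin N × Fin (d+1)`) and every finite set of pairs `(x, x')` of distinct cluster points which have already been treated,
the clusters of `x` and `x'` are equal and contained in `B'`, in each cluster the pairs are `(x_1, x_0), (x_2, x_0), …` with a common `x_0`
and distinct `x_1, x_2, …`, the following holds: if there is at least one pair and the number of the elements of `B'` plus the number of the pairs is at most `d + 1`,
then the vectors `hv (base point)` (`B'`) and `(0, v x - v x')` (pairs) are linearly independent. (The span of the differences does not depend on the choice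
of `x_0`, so one may take for `x_0` the point of the cluster which was treated first.) Start: no pairs; then `|B'| ≤ d`, `AG.ind`. Step: a new
cluster point `x`; it occurs in one pair `(x, x_0)` only (it is the last one). The other at most `d` vectors are
independent (by the claim; if there is no other pair, by `AG.ind`, because `|B'| ≤ d`), and at least one of them has the first coordinate `1`, so their span contains a proper
subspace of the vectors with first coordinate `0`; the condition that `(0, v x - v x_0)` is not in the span excludes a proper affine subspace of `ℝ^d` for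
`v x` (`avoid`: finitely many conditions, each given by an affine functional). The transversals do not occur here: they have `d + 1` base
points and no pairs; the other sets of `d + 1` base points and no pairs have `D ≠ 0` by `AG.det`.
Limits of the thresholds: `θ₀ t ν = ∑ β i v(t, i+1, ν (i+1)) 0 - v(t, 0, ν 0) 0`. For `ν ≠ ν'` the difference `θ₀ t ν - θ₀ t ν'` involves exactly the points in which the
two transversals differ, with coefficients `± β i`, `± 1` `≠ 0`; when the last of these points is treated, the condition `θ₀ t ν ≠ θ₀ t ν'`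
excludes one hyperplane for its direction. -/
theorem exists_dirs [NeZero d] [Fintype κ] [DecidableEq κ] {F : κ → E d} {h : Fin N → ℝ} {a : Fin N → ℕ}
    {g : Fin N × Fin (d + 1) → E d} (B : Blocks F h a g) (n : Fin N → ℕ)
    (β : Fin N → Fin d → ℝ) (hβ : ∀ t i, β t i ≠ 0) :
    ∃ v : ((t : Fin N) × (Fin (d + 1) × Fin (n t))) → E d,
      (∀ I : Fin (d + 1) → Pt κ d n, Function.Injective I → (∀ t ν, Set.range I ≠ tset t ν) →
        ∀ rep : Fin (d + 1) → Fin (d + 1), (∀ r, rep (rep r) = rep r) →
          (∀ r r', bi (I r) = bi (I r') ↔ rep r = rep r') → LL F g v I rep ≠ 0) ∧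
      ∀ t, Function.Injective fun ν : Fin (d + 1) → Fin (n t) =>
        (∑ i, β t i * v ⟨t, i.succ, ν i.succ⟩ 0) - v ⟨t, 0, ν 0⟩ 0 := by
  classical
  let K1 : Type _ := {p : (Fin (d + 1) → Pt κ d n) × (Fin (d + 1) → Fin (d + 1)) //
    Function.Injective p.1 ∧ (∀ t ν, Set.range p.1 ≠ tset t ν) ∧ (∀ r, p.2 (p.2 r) = p.2 r) ∧
      ∀ r r', bi (p.1 r) = bi (p.1 r') ↔ p.2 r = p.2 r'}
  let K2 : Type _ := {x : (t : Fin N) × ((Fin (d + 1) → Fin (n t)) × (Fin (d + 1) → Fin (n t))) //
    x.2.1 ≠ x.2.2}
  have : Fintype K1 := Fintype.ofFinite K1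
  have : Fintype K2 := Fintype.ofFinite K2
  let f : K1 ⊕ K2 → (((t : Fin N) × (Fin (d + 1) × Fin (n t))) → E d) → ℝ :=
    Sum.elim (fun p v => LL F g v p.1.1 p.1.2) (fun x v =>
      ((∑ i, β x.1.1 i * v ⟨x.1.1, i.succ, x.1.2.1 i.succ⟩ 0) - v ⟨x.1.1, 0, x.1.2.1 0⟩ 0) -
      ((∑ i, β x.1.1 i * v ⟨x.1.1, i.succ, x.1.2.2 i.succ⟩ 0) - v ⟨x.1.1, 0, x.1.2.2 0⟩ 0))
  obtain ⟨v, hv⟩ := HVec_generic f (by
    rintro (p | x) v w
    · exact HVec_poly F g p.1.1 p.1.2 v w
    · refine ⟨Polynomial.C (f (Sum.inr x) v) + Polynomial.X * Polynomial.C (f (Sum.inr x) (w - v)),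
        fun s => ?_⟩
      simp only [f, Sum.elim_inr, Polynomial.eval_add, Polynomial.eval_C, Polynomial.eval_mul,
        Polynomial.eval_X, Pi.add_apply, Pi.smul_apply, smul_eq_mul, mul_add,
        Finset.sum_add_distrib, Pi.sub_apply]
      have h1 : ∀ (b y : Fin d → ℝ), ∑ i, b i * (s * y i) = s * ∑ i, b i * y i := by
        intro b y
        rw [Finset.mul_sum]
        exact Finset.sum_congr rfl fun i _ => by ring
      rw [h1 (β x.1.1) (fun i => w ⟨x.1.1, i.succ, x.1.2.1 i.succ⟩ 0 -
          v ⟨x.1.1, i.succ, x.1.2.1 i.succ⟩ 0),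
        h1 (β x.1.1) (fun i => w ⟨x.1.1, i.succ, x.1.2.2 i.succ⟩ 0 -
          v ⟨x.1.1, i.succ, x.1.2.2 i.succ⟩ 0)]
      ring) Finset.univ (by
    rintro (p | x) -
    · exact HVec_ex B p.1.1 p.2.1 p.2.2.1 p.1.2 p.2.2.2.1 p.2.2.2.2
    · exact HVec_thr (β x.1.1) (hβ x.1.1) x.1.1 x.1.2.1 x.1.2.2 x.2)
  refine ⟨v, ?_, ?_⟩
  · intro I hI hT rep hrep hbi
    exact hv (Sum.inl ⟨(I, rep), hI, hT, hrep, hbi⟩) (Finset.mem_univ _)
  · intro t ν ν' h1
    by_contra hne
    exact hv (Sum.inr ⟨⟨t, ν, ν'⟩, hne⟩) (Finset.mem_univ _) (sub_eq_zero.2 h1)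

end Pool.Agent.RVM
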