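import Pool.Agent.MP_c130bd_co.RVM.HOne
import Pool.Agent.MP_c130bd_co.RVM.HNear
import Pool.Agent.MP_c130bd_co.RVM.HSlab

set_option autoImplicit false

namespace Pool.Agent.RVM

/-! ## [RVM-HWIN] a window of primitive Radon vectors

Notation: `k = d / 2 ≥ 1`, `D = d + 1`, `J = 2 Q + 1`, `c = 1` if `s + d` is even and `c = 2` if `s + d` is odd,
`cT = c` if `k` is odd and `cT = c + D` if `k` is even, `r = D n`; `e_a = J (k + 1 - 2 a) / 2` if `k` is odd and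
`e_a = (J (k + 1 - 2 a) + 1) / 2` if `k` is even (`1 ≤ a ≤ k`; integers, `|e_a| ≤ k (Q + 1) ≤ d (Q + 1)`). -/

/-- the numbers `h₁`, `h₂` -/
theorem HWin_h {d k s n Q m : ℕ} (hm : m = (d + 1) * (k + 1) * n + (d + 1) * k * (2 * Q + 1))
    (hms : 2 * m + 4 * (d + 1) ≤ s) (cc cT : ℕ) (hcc : cc = if Even (s + d) then 1 else 2)
    (hcT : cT = cc + if Even k then d + 1 else 0) :
    ∃ h₁ h₂ : ℕ, h₁ + h₂ + m = s ∧ (h₁ : ℤ) - h₂ = cT - (d + 1) * ((k : ℤ) + 1) * n := by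
  have hcc2 : cc ≤ 2 := by rw [hcc]; split_ifs <;> omega
  have hcT2 : cT ≤ d + 3 := by rw [hcT]; split_ifs <;> omega
  have hle : (d + 1) * k * (2 * Q + 1) ≤ m := by rw [hm]; exact Nat.le_add_left _ _
  have hpar : Even ((d + 1) * k * (2 * Q + 1) + cT + s) := by
    rw [hcT, hcc]
    rcases Nat.even_or_odd k with hk | hk
    · rw [if_pos hk]
      have h1 : Even ((d + 1) * k * (2 * Q + 1)) := (hk.mul_left _).mul_right _
      rcases Nat.even_or_odd (s + d) with h | h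
      · rw [if_pos h]
        obtain ⟨a, ha⟩ := h1
        obtain ⟨b, hb⟩ := h
        exact ⟨a + b + 1, by omega⟩
      · rw [if_neg (Nat.not_even_iff_odd.2 h)]
        obtain ⟨a, ha⟩ := h1
        obtain ⟨b, hb⟩ := h
        exact ⟨a + b + 2, by omega⟩
    · rw [if_neg (Nat.not_even_iff_odd.2 hk)]
      obtain ⟨j, hj⟩ : Odd (k * (2 * Q + 1)) := hk.mul ⟨Q, rfl⟩
      have h2 : (d + 1) * k * (2 * Q + 1) = 2 * ((d + 1) * j) + (d + 1) := by
        rw [Nat.mul_assoc, hj]; ring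
      rw [h2]
      rcases Nat.even_or_odd (s + d) with h | h
      · rw [if_pos h]
        obtain ⟨b, hb⟩ := h
        exact ⟨(d + 1) * j + b + 1, by omega⟩
      · rw [if_neg (Nat.not_even_iff_odd.2 h)]
        obtain ⟨b, hb⟩ := h
        exact ⟨(d + 1) * j + b + 2, by omega⟩
  obtain ⟨a, ha⟩ := hpar
  -- `2 h₂ + D k J + cT = s`
  obtain ⟨h₂, hh₂⟩ : ∃ h₂ : ℕ, 2 * h₂ + (d + 1) * k * (2 * Q + 1) + cT = s :=
    ⟨a - (d + 1) * k * (2 * Q + 1) - cT, by omega⟩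
  refine ⟨s - m - h₂, h₂, by omega, ?_⟩
  have e1 : ((s - m - h₂ : ℕ) : ℤ) = s - m - h₂ := by
    rw [Nat.cast_sub (by omega), Nat.cast_sub (by omega)]
  have e2 : (s : ℤ) = 2 * h₂ + (d + 1) * k * (2 * Q + 1) + cT := by
    rw [← hh₂]; push_cast; ring
  rw [e1, e2, hm]
  push_cast
  ring

/-- **The window.** Proof. `c = 1` if `s + d` is even, otherwise `c = 2`; `cT` as above;
`2 h₁ = s - 2 (k + 1) D n - k J D + cT`, `2 h₂ = s - k J D - cT` (both even: `k` odd: `s - D - c` is even; `k` even: `s - D - c` too; and `≥ 0` by `hms`),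
`T ⊆ S` with `T.card = s - m = h₁ + h₂ ≥ d + 1`; `slab` with `r = D n`, `J = 2 Q + 1`. `A a = Ac (Q τ₀) a + D n^(d+2) - 2 D Q e_a`
(`τ₀ = -1`). The first part: `ac_near`, `|e_a| ≤ d (Q + 1)`. The second part: for every `a` `one_type` gives a `τ_a` with `Ac (P τ_a) a = z a`; let `τ t = τ_(aa t) t`
(regular); by `ac_agree` `Ac (P τ) a = Ac (P τ_a) a = z a`. `S'` = the image of `P τ` (`clu_gp`, `gp_iff`, `inj_of_gpc`, `pp_eq`). -/
theorem window (d : ℕ) (hd : 2 ≤ d) (s n Q m : ℕ) (S : Finset (E d)) (hS : GP S) (hc : S.card = s) (hn : 1 ≤ n)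
    (hm : m = (d + 1) * (d / 2 + 1) * n + (d + 1) * (d / 2) * (2 * Q + 1))
    (hms : 2 * m + 4 * (d + 1) ≤ s)
    (hQ : 2 * ((s : ℤ) + Q + 2 * (d + 1)) + 8 * ((d : ℤ) + 1) ^ 2 * (d * (Q + 1)) ≤
      (d + 1) * ((Q : ℤ) ^ 2 - 4 * (d + 1) ^ 2)) :
    ∃ A : ℕ → ℤ, (∀ a, 1 ≤ a → a ≤ d / 2 → |A a - ∑ i ∈ Finset.Icc 1 a, (PP S i : ℤ)| ≤
        (d + 1) * (n : ℤ) ^ (d + 2) + 2 * (d + 1) * Q * (d * (Q + 1)) + d * (m * (s : ℤ) ^ (d + 1))) ∧
      ∀ z : ℕ → ℤ, (∀ a, 1 ≤ a → a ≤ d / 2 → |z a - A a| ≤ (d + 1) * (n : ℤ) ^ (d + 2)) →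
        (Odd (s + d) → ∀ a, 1 ≤ a → a ≤ d / 2 → 2 ∣ z a) →
        ∃ S' : Finset (E d), GP S' ∧ S'.card = s ∧
          ∀ a, 1 ≤ a → a ≤ d / 2 → ∑ i ∈ Finset.Icc 1 a, (PP S' i : ℤ) = z a := by
  have : NeZero d := ⟨by omega⟩
  have hd1 : 1 ≤ d := by omega
  obtain ⟨cc, hcc⟩ : ∃ cc : ℕ, cc = if Even (s + d) then 1 else 2 := ⟨_, rfl⟩
  obtain ⟨cT, hcT⟩ : ∃ cT : ℕ, cT = cc + if Even (d / 2) then d + 1 else 0 := ⟨_, rfl⟩
  obtain ⟨h₁, h₂, hh, hh12⟩ := HWin_h (k := d / 2) hm hms cc cT hcc hcT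
  have hsd : d + 2 ≤ s := by omega
  obtain ⟨T, hTS, hTc⟩ := Finset.exists_subset_card_eq (s := S) (n := h₁ + h₂) (by omega)
  have hTGP : GP T := fun U hU hUc => hS U (hU.trans hTS) hUc
  have hTd : d + 1 ≤ T.card := by omega
  obtain ⟨F, P, θ, c, C, hPF, L, hPc⟩ := slab T hTGP h₁ h₂ ((d + 1) * n) (d / 2) (2 * Q + 1) n hTc hTd
    (by omega)
  obtain ⟨τ₀, hτ₀⟩ : ∃ τ₀ : Fin (d / 2 * (2 * Q + 1) + d / 2) → ℝ, τ₀ = fun _ => -1 := ⟨_, rfl⟩
  obtain ⟨ev, hev⟩ : ∃ ev : ℤ, ev = if Even (d / 2) then 1 else 0 := ⟨_, rfl⟩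
  have hev' : ev = 0 ∨ ev = 1 := by rw [hev]; split_ifs <;> simp
  have hex : ∀ a : ℕ, ∃ e : ℤ, 2 * e = (2 * Q + 1) * (((d / 2 : ℕ) : ℤ) + 1 - 2 * a) + ev := by
    intro a
    have h1 : Even ((2 * (Q : ℤ) + 1) * (((d / 2 : ℕ) : ℤ) + 1 - 2 * a) + ev) := by
      rcases Nat.even_or_odd (d / 2) with hk | hk
      · rw [hev, if_pos hk]
        obtain ⟨j, hj⟩ := hk
        refine ⟨(2 * Q + 1) * (j - a) + Q + 1, ?_⟩
        rw [hj]; push_cast; ring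
      · rw [hev, if_neg (Nat.not_even_iff_odd.2 hk)]
        obtain ⟨j, hj⟩ := hk
        refine ⟨(2 * Q + 1) * (j + 1 - a), ?_⟩
        rw [hj]; push_cast; ring
    obtain ⟨e, he⟩ := h1
    exact ⟨e, by rw [he]; ring⟩
  choose e he using hex
  have hcard : Fintype.card (Pt ((Fin h₁ ⊕ Fin h₂) ⊕ Fin ((d + 1) * n)) d
      (nn (d / 2) (2 * Q + 1) n)) = s := by
    rw [card_pt]
    have : h₁ + h₂ + m = s := hh
    rw [hm] at this
    rw [← this]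
    ring
  refine ⟨fun a => Ac (P τ₀) a + (d + 1) * (n : ℤ) ^ (d + 2) - 2 * (d + 1) * Q * e a, ?_, ?_⟩
  · intro a ha ha'
    have hμ : Fintype.card ((t : Fin (d / 2 * (2 * Q + 1) + d / 2)) ×
        (Fin (d + 1) × Fin (nn (d / 2) (2 * Q + 1) n t))) + (d + 1) * n = m := by
      have h1 := hcard
      unfold Pt at h1
      rw [Fintype.card_sum, Fintype.card_sum, Fintype.card_sum, Fintype.card_fin, Fintype.card_fin,
        Fintype.card_fin] at h1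
      omega
    have h1 := ac_near hd1 hS hTS hc hTd (m := m) (by omega) hTc hμ (P τ₀) (by
      intro i
      rw [← hPc i]
      congr 1
      funext x
      exact hPF τ₀ _) a (by omega)
    have h2 := HOne_e (by omega : d / 2 ≤ d) ha ha' hev' (he a)
    have h3 : |2 * ((d : ℤ) + 1) * Q * e a| ≤ 2 * (d + 1) * Q * (d * (Q + 1)) := by
      rw [abs_mul, abs_of_nonneg (by positivity : (0 : ℤ) ≤ 2 * ((d : ℤ) + 1) * Q)]
      exact mul_le_mul_of_nonneg_left h2 (by positivity)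
    have h4 : (0 : ℤ) ≤ (d + 1) * (n : ℤ) ^ (d + 2) := by positivity
    rw [abs_le] at h1 h3 ⊢
    constructor <;> linarith [h1.1, h1.2, h3.1, h3.2]
  · intro z hz hpar
    have hone : ∀ a, ∃ τ : Fin (d / 2 * (2 * Q + 1) + d / 2) → ℝ, 1 ≤ a → a ≤ d / 2 →
        (Reg θ τ ∧ Ac (P τ) a = z a) := by
      intro a
      by_cases ha : 1 ≤ a ∧ a ≤ d / 2
      · have h1 := hz a ha.1 ha.2
        rw [abs_le] at h1
        obtain ⟨τ, hτ⟩ := one_type d hd C L hn hsd (by rw [← hh, hm]; ring) (cc : ℤ)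
          (by rw [hcc]; split_ifs <;> rfl) (by
            rw [hh12, hcT]; push_cast; rfl) hQ a ha.1 ha.2 (e a) (by rw [he a, hev]) (z a) (by
            rw [← hτ₀]; linarith [h1.1]) (by rw [← hτ₀]; linarith [h1.2])
          (fun h => hpar h a ha.1 ha.2)
        exact ⟨τ, fun _ _ => hτ⟩
      · exact ⟨τ₀, fun h h' => absurd ⟨h, h'⟩ ha⟩
    choose τf hτf using hone
    have hab := aa_bounds (d / 2) (2 * Q + 1)
    obtain ⟨τ, hτ⟩ : ∃ τ : Fin (d / 2 * (2 * Q + 1) + d / 2) → ℝ,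
        τ = fun t => τf (aa (d / 2) (2 * Q + 1) t) t := ⟨_, rfl⟩
    have hR : Reg θ τ := by
      rw [hτ]
      exact ⟨fun t => (hτf _ (hab t).1 (hab t).2).1.1 t,
        fun t ν => (hτf _ (hab t).1 (hab t).2).1.2 t ν⟩
    have hAc : ∀ a, 1 ≤ a → a ≤ d / 2 → Ac (P τ) a = z a := by
      intro a ha ha'
      rw [← (hτf a ha ha').2]
      refine ac_agree C hR (hτf a ha ha').1 hab a ha ha' ?_
      intro t ht
      rw [hτ]
      simp only [ht]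
    have hG := clu_gp C hR
    have hι : d + 1 ≤ Fintype.card (Pt ((Fin h₁ ⊕ Fin h₂) ⊕ Fin ((d + 1) * n)) d
      (nn (d / 2) (2 * Q + 1) n)) := by rw [hcard]; omega
    have hinj := inj_of_gpc hG hι hd1
    refine ⟨Finset.univ.image (P τ), (gp_iff hinj hι).2 hG, ?_, ?_⟩
    · rw [Finset.card_image_of_injective _ hinj, Finset.card_univ, hcard]
    · intro a ha ha'
      rw [← hAc a ha ha']
      unfold Ac
      refine Finset.sum_congr rfl fun i _ => ?_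
      rw [pp_eq hG hι hd1]

end Pool.Agent.RVM
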