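import Pool.Agent.MP_c130bd_co.RVM.Fin

set_option autoImplicit false

namespace Pool.Agent.RVM

/-! ## [RVM-LATP] the integer relations between the primitive Radon numbers -/

theorem latp_span {n : ℕ} (H : AddSubgroup (Fin n → ℤ)) (b : Fin n → Fin n) (c : ℤ)
    (h : ∀ j, c • (Pi.single j (1 : ℤ) - Pi.single (b j) (1 : ℤ)) ∈ H) (x y : Fin n → ℤ)
    (hx : ∀ j, x j = c * y j) (hb : ∀ k, ∑ j, (if b j = k then x j else 0) = 0) : x ∈ H := by
  have e : x = ∑ j, y j • (c • (Pi.single j (1 : ℤ) - Pi.single (b j) (1 : ℤ)) : Fin n → ℤ) := by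
    funext k
    rw [Finset.sum_apply]
    have h1 : ∀ j, (y j • (c • (Pi.single j (1 : ℤ) - Pi.single (b j) (1 : ℤ)) : Fin n → ℤ)) k =
        (if k = j then x j else 0) - (if b j = k then x j else 0) := by
      intro j
      simp only [Pi.smul_apply, Pi.sub_apply, smul_eq_mul, Pi.single_apply]
      have e2 : (if b j = k then x j else 0) = if k = b j then x j else 0 := if_congr eq_comm rfl rfl
      rw [e2, hx j]
      split_ifs <;> ring
    rw [Finset.sum_congr rfl fun j _ => h1 j, Finset.sum_sub_distrib, hb k, sub_zero]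
    simp
  rw [e]
  exact sum_mem fun j _ => H.zsmul_mem (h j) (y j)

theorem latp_sum (d s : ℕ) (hd : 1 ≤ d) (hs : d + 2 ≤ s) (S : Finset (E d)) (hS : GP S) (hc : S.card = s) :
    ∑ j : Fin (d / 2 + 1), (PP S ((j : ℕ) + 1) : ℤ) = s.choose (d + 2) := by
  have h := pp_sum hd hS (by omega)
  rw [hc] at h
  rw [← h, Nat.cast_sum, Fin.sum_univ_eq_sum_range (fun i => ((PP S (i + 1) : ℕ) : ℤ)) (d / 2 + 1)]
  apply Finset.sum_nbij (fun i => i + 1)
  · intro i hi
    simp only [Finset.mem_range, Finset.mem_Icc] at hi ⊢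
    omega
  · intro a _ b _ h1
    simpa using h1
  · intro i hi
    simp only [Finset.coe_Icc, Set.mem_Icc] at hi
    refine ⟨i - 1, ?_, ?_⟩
    · simp only [Finset.coe_range, Set.mem_Iio]
      omega
    · show i - 1 + 1 = i
      omega
  · intro i _
    rfl

/-- **All the integer relations between the primitive Radon numbers.** The group generated by the differences of the primitive Radon vectors.

Proof. `→`: `AddSubgroup.closure_induction`; the generators have the sum `0` by `pp_sum`, and if `s + d` is odd, then `PP S i` is even for `i ≤ d / 2`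
(`even_P`) and the last entry too, because the sum of the differences is `0`. `←`: for `1 ≤ q ≤ d / 2` `occ` with `(q, u, w)`, `u + w = s - d - 1`,
gives `(u - w) (e_q - e_(q+1)) ∈` closure (`e_i` the unit vectors, `tP d i q` is `1` for `i = q` and `0` for the other `i ≤ d / 2 + 1`, the same for `q + 1 ≤ d / 2 + 1`);
if `s + d` is even, take `u = (s - d) / 2`, `w = u - 1`: `e_q - e_(q+1)`; if `s + d` is odd, then `s ≥ d + 3`, and `u = (s - d + 1) / 2`, `w = u - 2` gives
`2 (e_q - e_(q+1))`. A vector `x` with the sum `0` is `∑_q (x_1 + … + x_q) (e_q - e_(q+1))`. -/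
theorem lat_P {d s : ℕ} (hd : 1 ≤ d) (hs : d + 2 ≤ s) (x : Fin (d / 2 + 1) → ℤ) :
    x ∈ AddSubgroup.closure {y : Fin (d / 2 + 1) → ℤ | ∃ S S' : Finset (E d), GP S ∧ GP S' ∧ S.card = s ∧
      S'.card = s ∧ y = fun j : Fin (d / 2 + 1) => (PP S' ((j : ℕ) + 1) : ℤ) - PP S ((j : ℕ) + 1)} ↔
    ∑ j, x j = 0 ∧ (Odd (s + d) → ∀ j, Even (x j)) := by
  constructor
  · intro hx
    induction hx using AddSubgroup.closure_induction with
    | mem y hy =>
      obtain ⟨S, S', hS, hS', hc, hc', rfl⟩ := hy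
      have hsum : ∑ j : Fin (d / 2 + 1), ((PP S' ((j : ℕ) + 1) : ℤ) - PP S ((j : ℕ) + 1)) = 0 := by
        rw [Finset.sum_sub_distrib, latp_sum d s hd hs S hS hc, latp_sum d s hd hs S' hS' hc', sub_self]
      refine ⟨hsum, fun hodd => ?_⟩
      have hev : ∀ j : Fin (d / 2), Even ((PP S' ((j : ℕ) + 1) : ℤ) - PP S ((j : ℕ) + 1)) := by
        intro j
        have a1 := even_P hd hs hodd hS' hc' (i := (j : ℕ) + 1) (by omega) (by have := j.2; omega)
        have a2 := even_P hd hs hodd hS hc (i := (j : ℕ) + 1) (by omega) (by have := j.2; omega)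
        exact ((Int.even_coe_nat _).2 a1).sub ((Int.even_coe_nat _).2 a2)
      rw [Fin.sum_univ_castSucc] at hsum
      intro j
      refine Fin.lastCases ?_ (fun i => ?_) j
      · have h2 : Even (∑ i : Fin (d / 2), ((PP S' (((Fin.castSucc i : Fin (d / 2 + 1)) : ℕ) + 1) : ℤ) -
            PP S (((Fin.castSucc i : Fin (d / 2 + 1)) : ℕ) + 1))) := by
          apply Finset.even_sum
          intro i _
          exact hev i
        have h3 : ((PP S' (((Fin.last (d / 2) : Fin (d / 2 + 1)) : ℕ) + 1) : ℤ) -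
            PP S (((Fin.last (d / 2) : Fin (d / 2 + 1)) : ℕ) + 1)) =
            -(∑ i : Fin (d / 2), ((PP S' (((Fin.castSucc i : Fin (d / 2 + 1)) : ℕ) + 1) : ℤ) -
            PP S (((Fin.castSucc i : Fin (d / 2 + 1)) : ℕ) + 1))) := by linarith
        show Even ((PP S' (((Fin.last (d / 2) : Fin (d / 2 + 1)) : ℕ) + 1) : ℤ) -
            PP S (((Fin.last (d / 2) : Fin (d / 2 + 1)) : ℕ) + 1))
        rw [h3]
        exact h2.neg
      · exact hev i
    | zero => exact ⟨by simp, fun _ _ => by simp⟩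
    | add a b _ _ ha hb =>
      refine ⟨?_, fun ho j => (ha.2 ho j).add (hb.2 ho j)⟩
      simp only [Pi.add_apply]
      rw [Finset.sum_add_distrib, ha.1, hb.1, add_zero]
    | neg a _ ha =>
      refine ⟨?_, fun ho j => (ha.2 ho j).neg⟩
      simp only [Pi.neg_apply]
      rw [Finset.sum_neg_distrib, ha.1, neg_zero]
  · rintro ⟨hx0, hxe⟩
    set H := AddSubgroup.closure {y : Fin (d / 2 + 1) → ℤ | ∃ S S' : Finset (E d), GP S ∧ GP S' ∧ S.card = s ∧
      S'.card = s ∧ y = fun j : Fin (d / 2 + 1) => (PP S' ((j : ℕ) + 1) : ℤ) - PP S ((j : ℕ) + 1)} with hH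
    have key : ∀ (j j' : Fin (d / 2 + 1)), (j : ℕ) + 1 = j' → ∀ u w : ℕ, u + w + d + 1 = s → 1 ≤ u + w →
        ((u : ℤ) - w) • (Pi.single j (1 : ℤ) - Pi.single j' (1 : ℤ) : Fin (d / 2 + 1) → ℤ) ∈ H := by
      intro j j' hj u w huw huw1
      have hj2 := j'.2
      obtain ⟨S, S', hS, hS', hc, hc', hm, _⟩ := occ hd s ((j : ℕ) + 1) u w (by omega) (by omega) huw huw1
      rw [hH]
      apply AddSubgroup.subset_closure
      refine ⟨S, S', hS, hS', hc, hc', ?_⟩
      funext k
      have hk := k.2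
      have h1 := hm ((k : ℕ) + 1)
      rw [h1]
      simp only [Pi.smul_apply, Pi.sub_apply, smul_eq_mul, Pi.single_apply]
      have t1 : tP d ((k : ℕ) + 1) ((j : ℕ) + 1) = if k = j then 1 else 0 := by
        unfold tP
        apply if_congr _ rfl rfl
        rw [Fin.ext_iff]
        omega
      have t2 : tP d ((k : ℕ) + 1) ((j : ℕ) + 1 + 1) = if k = j' then 1 else 0 := by
        unfold tP
        apply if_congr _ rfl rfl
        rw [Fin.ext_iff]
        omega
      rw [t1, t2]
      ring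
    have key2 : ∃ c : ℤ, (∀ j, c ∣ x j) ∧ ∀ (j j' : Fin (d / 2 + 1)), (j : ℕ) + 1 = j' →
        c • (Pi.single j (1 : ℤ) - Pi.single j' (1 : ℤ) : Fin (d / 2 + 1) → ℤ) ∈ H := by
      rcases Nat.even_or_odd (s + d) with he | ho
      · refine ⟨1, fun j => one_dvd _, fun j j' hj => ?_⟩
        obtain ⟨m, hm⟩ := he
        have h1 := key j j' hj ((s - d) / 2) ((s - d) / 2 - 1) (by omega) (by omega)
        have h2 : (((s - d) / 2 : ℕ) : ℤ) - (((s - d) / 2 - 1 : ℕ) : ℤ) = 1 := by omega
        rwa [h2] at h1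
      · refine ⟨2, fun j => (hxe ho j).two_dvd, fun j j' hj => ?_⟩
        obtain ⟨m, hm⟩ := ho
        have h1 := key j j' hj ((s - d + 1) / 2) ((s - d + 1) / 2 - 2) (by omega) (by omega)
        have h2 : (((s - d + 1) / 2 : ℕ) : ℤ) - (((s - d + 1) / 2 - 2 : ℕ) : ℤ) = 2 := by omega
        rwa [h2] at h1
    obtain ⟨c, hc, hk⟩ := key2
    have hl : ∀ (k : ℕ) (j : Fin (d / 2 + 1)), (j : ℕ) + k = d / 2 →
        c • (Pi.single j (1 : ℤ) - Pi.single (Fin.last (d / 2)) (1 : ℤ) : Fin (d / 2 + 1) → ℤ) ∈ H := by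
      intro k
      induction k with
      | zero =>
        intro j hj
        have h1 : j = Fin.last (d / 2) := by
          ext
          rw [Fin.val_last]
          omega
        rw [h1, sub_self, smul_zero]
        exact H.zero_mem
      | succ k ih =>
        intro j hj
        have h1 := ih ⟨(j : ℕ) + 1, by omega⟩ (by simp only; omega)
        have h2 := hk j ⟨(j : ℕ) + 1, by omega⟩ rfl
        have h3 := H.add_mem h2 h1
        rwa [← smul_add, sub_add_sub_cancel] at h3
    choose y hy using hc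
    refine latp_span H (fun _ => Fin.last (d / 2)) c (fun j => hl (d / 2 - j) j (by have := j.2; omega)) x y hy ?_
    intro k
    by_cases h1 : Fin.last (d / 2) = k
    · simp only [h1, if_true]
      exact hx0
    · simp only [h1, if_false]
      simp

end Pool.Agent.RVM
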