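import Mathlib

set_option autoImplicit false

namespace Pool.Agent.RVM

/-! ## [RVM-SUB] subset sums -/

/-- The sums of the `r`-subsets of `{0, …, N - 1}` are all the numbers between the smallest and the largest one.
Proof. Induction on `N`: if the target is at most `r (r - 1) / 2 + r (N - 1 - r)` (and `r ≤ N - 1`) use a subset of `{0, …, N - 2}`,
otherwise take `N - 1` and an `(r - 1)`-subset of `{0, …, N - 2}`. -/
theorem exists_card_sum (N r : ℕ) (hr : r ≤ N) (t : ℕ) (h1 : r * (r - 1) ≤ 2 * t)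
    (h2 : 2 * t ≤ r * (r - 1) + 2 * (r * (N - r))) :
    ∃ σ ⊆ Finset.range N, σ.card = r ∧ ∑ x ∈ σ, x = t := by
  induction N generalizing r t with
  | zero =>
    have hr0 : r = 0 := by omega
    subst hr0
    refine ⟨∅, by simp, by simp, ?_⟩
    simp at h2
    simp [h2]
  | succ N ih =>
    rcases Nat.eq_zero_or_pos r with rfl | hrpos
    · refine ⟨∅, by simp, by simp, ?_⟩
      simp at h2
      simp [h2]
    obtain ⟨s, rfl⟩ : ∃ s, r = s + 1 := ⟨r - 1, by omega⟩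
    simp only [Nat.add_sub_cancel] at h1 h2
    by_cases hc : s + 1 ≤ N ∧ 2 * t ≤ (s + 1) * s + 2 * ((s + 1) * (N - (s + 1)))
    · obtain ⟨σ, hσ, hσc, hσs⟩ := ih (s + 1) hc.1 t (by simpa using h1) (by simpa using hc.2)
      exact ⟨σ, hσ.trans (Finset.range_mono (Nat.le_succ N)), hσc, hσs⟩
    · have hs : s ≤ N := by omega
      -- write N = s + k
      obtain ⟨k, rfl⟩ : ∃ k, N = s + k := ⟨N - s, by omega⟩
      have e1 : s + k + 1 - (s + 1) = k := by omega
      rw [e1] at h2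
      have hkey : s * (s - 1) + 2 * (s + k) ≤ 2 * t := by
        rcases Nat.eq_zero_or_pos k with hk | hk
        · subst hk
          rcases Nat.eq_zero_or_pos s with hs0 | hs0
          · subst hs0; simp
          · obtain ⟨s', rfl⟩ : ∃ s', s = s' + 1 := ⟨s - 1, by omega⟩
            simp only [Nat.add_sub_cancel] at *
            nlinarith
        · obtain ⟨k', rfl⟩ : ∃ k', k = k' + 1 := ⟨k - 1, by omega⟩
          have hc' : ¬ (2 * t ≤ (s + 1) * s + 2 * ((s + 1) * (s + (k' + 1) - (s + 1)))) := by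
            intro h
            exact hc ⟨by omega, h⟩
          have e2 : s + (k' + 1) - (s + 1) = k' := by omega
          rw [e2] at hc'
          push Not at hc'
          obtain ⟨m, hm⟩ : ∃ m, (s + 1) * s = 2 * m := by
            have := Nat.even_mul_succ_self s
            obtain ⟨m, hm⟩ := this
            exact ⟨m, by rw [mul_comm]; omega⟩
          have hc2 : (s + 1) * s + 2 * ((s + 1) * k') + 2 ≤ 2 * t := by
            rw [hm] at hc' ⊢
            omega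
          rcases Nat.eq_zero_or_pos s with hs0 | hs0
          · subst hs0
            simp at hc2 ⊢
            omega
          · obtain ⟨s', rfl⟩ : ∃ s', s = s' + 1 := ⟨s - 1, by omega⟩
            simp only [Nat.add_sub_cancel] at *
            nlinarith
      have hle : s + k ≤ t := by omega
      obtain ⟨t', rfl⟩ : ∃ t', t = t' + (s + k) := ⟨t - (s + k), by omega⟩
      have hA : s * (s - 1) ≤ 2 * t' := by omega
      have hB : 2 * t' ≤ s * (s - 1) + 2 * (s * (s + k - s)) := by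
        have e3 : s + k - s = k := by omega
        rw [e3]
        rcases Nat.eq_zero_or_pos s with hs0 | hs0
        · subst hs0; simp at h2 ⊢; omega
        · obtain ⟨s', rfl⟩ : ∃ s', s = s' + 1 := ⟨s - 1, by omega⟩
          simp only [Nat.add_sub_cancel] at *
          nlinarith
      obtain ⟨σ, hσ, hσc, hσs⟩ := ih s (by omega) t' hA hB
      have hni : s + k ∉ σ := fun h => by
        have := hσ h
        simp at this
      refine ⟨insert (s + k) σ, ?_, ?_, ?_⟩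
      · intro x hx
        rcases Finset.mem_insert.mp hx with rfl | hx
        · simp
        · have := Finset.mem_range.mp (hσ hx)
          exact Finset.mem_range.mpr (by omega)
      · rw [Finset.card_insert_of_notMem hni, hσc]
      · rw [Finset.sum_insert hni, hσs]; omega

/-- Proof. Choose `r ∈ [Q, Q + D')` with `r ≡ t mod D'` and `τ = (t - r) / D'`. Then
`2 |τ| ≤ 2 (|t| + Q + D') / D' ≤ Q² - D'² ≤ r (2 Q + 1 - r)` (for `r = Q + x`, `0 ≤ x < D'`:
`r (2Q + 1 - r) = Q² + Q + x - x²`), and `r ≤ 2 Q + 1` because `Q > D'`. By `exists_card_sum` (shift by `Q`: `N = 2 Q + 1`) there is an `r`-subset of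
`[-Q, Q]` with the sum `τ`; the sum of the `1 + D' q` is `r + D' τ = t`. -/
theorem sub_sum (D' Q : ℕ) (hD : 1 ≤ D') (t : ℤ)
    (h : 2 * (|t| + Q + D') ≤ (D' : ℤ) * ((Q : ℤ) ^ 2 - (D' : ℤ) ^ 2)) :
    ∃ σ : Finset ℤ, σ ⊆ Finset.Icc (-(Q : ℤ)) Q ∧ ∑ q ∈ σ, (1 + (D' : ℤ) * q) = t := by
  have hDz : (1 : ℤ) ≤ D' := by exact_mod_cast hD
  have ht0 : 0 ≤ |t| := abs_nonneg t
  have hQ0 : (0 : ℤ) ≤ Q := Int.natCast_nonneg Q
  have hQD : (D' : ℤ) < Q := by
    by_contra hcon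
    push Not at hcon
    have : (Q : ℤ) ^ 2 - (D' : ℤ) ^ 2 ≤ 0 := by nlinarith
    have : (D' : ℤ) * ((Q : ℤ) ^ 2 - (D' : ℤ) ^ 2) ≤ 0 := by nlinarith
    nlinarith
  -- the residue
  obtain ⟨x, τ, hx0, hxD, hxt⟩ : ∃ x τ : ℤ, 0 ≤ x ∧ x < D' ∧ t = Q + x + D' * τ := by
    refine ⟨(t - Q) % D', (t - Q) / D', Int.emod_nonneg _ (by omega), Int.emod_lt_of_pos _ (by omega), ?_⟩
    have := Int.emod_add_mul_ediv (t - Q) D'
    linarith
  obtain ⟨X, rfl⟩ := Int.eq_ofNat_of_zero_le hx0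
  have hτ : 2 * |τ| ≤ (Q : ℤ) ^ 2 - (D' : ℤ) ^ 2 := by
    have e : (D' : ℤ) * |τ| = |t - (Q + X)| := by
      rw [hxt, show (Q : ℤ) + X + D' * τ - (Q + X) = D' * τ by ring, abs_mul, abs_of_nonneg (by omega : (0:ℤ) ≤ D')]
    have e2 : |t - (Q + X)| ≤ |t| + (Q + X) := by
      have := abs_sub t ((Q : ℤ) + X)
      rwa [abs_of_nonneg (by omega : (0 : ℤ) ≤ (Q : ℤ) + X)] at this
    have e3 : (D' : ℤ) * (2 * |τ|) ≤ D' * ((Q : ℤ) ^ 2 - (D' : ℤ) ^ 2) := by
      calc (D' : ℤ) * (2 * |τ|) = 2 * (D' * |τ|) := by ring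
        _ ≤ 2 * (|t| + Q + D') := by rw [e]; linarith
        _ ≤ _ := h
    exact le_of_mul_le_mul_left e3 (by omega)
  have hτ1 := abs_le.mp (show |τ| ≤ |τ| from le_rfl)
  have hX2 : (X : ℤ) ^ 2 ≤ (D' : ℤ) ^ 2 := by nlinarith
  have hup : 2 * τ ≤ (Q + X) * (Q + 1 - X) := by nlinarith [hτ1.2]
  have hlo : -((Q + X) * (Q + 1 - X)) ≤ 2 * τ := by nlinarith [hτ1.1]
  -- T
  have hT0 : 0 ≤ τ + (Q + X) * Q := by
    have : (Q + X : ℤ) * (Q + 1 - X) ≤ 2 * ((Q + X) * Q) := by nlinarith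
    linarith
  obtain ⟨T, hT⟩ := Int.eq_ofNat_of_zero_le hT0
  have hXQ : X ≤ Q := by
    have : (X : ℤ) < Q := lt_trans hxD hQD
    omega
  obtain ⟨σ, hσ, hσc, hσs⟩ := exists_card_sum (2 * Q + 1) (Q + X) (by omega) T (by
      zify [show 1 ≤ Q + X by
        have : (1 : ℤ) ≤ Q := by linarith
        omega]
      rw [← hT]
      nlinarith) (by
      zify [show 1 ≤ Q + X by
        have : (1 : ℤ) ≤ Q := by linarith
        omega, show Q + X ≤ 2 * Q + 1 by omega]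
      rw [← hT]
      nlinarith)
  refine ⟨σ.image (fun n : ℕ => (n : ℤ) - Q), ?_, ?_⟩
  · intro q hq
    obtain ⟨n, hn, rfl⟩ := Finset.mem_image.mp hq
    have := Finset.mem_range.mp (hσ hn)
    rw [Finset.mem_Icc]
    constructor <;> omega
  · rw [Finset.sum_image (fun a _ b _ hab => by
      have : (a : ℤ) = b := by linarith
      exact_mod_cast this)]
    have : ∑ x ∈ σ, (1 + (D' : ℤ) * ((x : ℤ) - Q)) =
        (σ.card : ℤ) + D' * (((∑ x ∈ σ, x : ℕ) : ℤ) - σ.card * Q) := by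
      push_cast
      rw [Finset.sum_add_distrib, ← Finset.mul_sum, Finset.sum_sub_distrib]
      simp
    rw [this, hσs, hσc]
    have hT' : (T : ℤ) = τ + (Q + X) * Q := hT.symm
    rw [hT', hxt]
    push_cast
    ring

/-- Proof. `c = 1`: `sub_sum` with `D' = 2 (d + 1)`; `c = 2`: with `D' = d + 1` and `t / 2`; the index `j ∈ Fin (2 Q + 1)` corresponds to
`q = Q - j`. -/
theorem sub_fin (d Q c : ℕ) (hc : c = 1 ∨ c = 2) (t : ℤ) (hct : (c : ℤ) ∣ t)
    (h : 2 * (|t| + Q + 2 * (d + 1)) ≤ ((d : ℤ) + 1) * ((Q : ℤ) ^ 2 - 4 * ((d : ℤ) + 1) ^ 2)) :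
    ∃ σ : Finset (Fin (2 * Q + 1)), ∑ j ∈ σ, ((c : ℤ) + (d + 1) * (((2 * Q + 1 : ℕ) : ℤ) - 1 - 2 * (j : ℕ))) = t := by
  have key : ∃ D' : ℕ, ∃ t' : ℤ, 1 ≤ D' ∧ (c : ℤ) * t' = t ∧ (c : ℤ) * D' = 2 * (d + 1) ∧
      2 * (|t'| + Q + D') ≤ (D' : ℤ) * ((Q : ℤ) ^ 2 - (D' : ℤ) ^ 2) := by
    have hd0 : (0 : ℤ) ≤ d := Int.natCast_nonneg d
    have hnn : 0 ≤ 2 * (|t| + Q + 2 * ((d : ℤ) + 1)) := by positivity
    rcases hc with rfl | rfl
    · refine ⟨2 * (d + 1), t, by omega, by simp, by push_cast; ring, ?_⟩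
      push_cast
      nlinarith
    · obtain ⟨t', rfl⟩ := hct
      refine ⟨d + 1, t', by omega, by simp, by push_cast; ring, ?_⟩
      push_cast
      have : |(2 : ℕ) * t'| = 2 * |t'| := by rw [abs_mul]; simp
      push_cast at this h
      rw [this] at h
      have ht' : 0 ≤ |t'| := abs_nonneg _
      have hsq : (0 : ℤ) ≤ ((d : ℤ) + 1) * ((d : ℤ) + 1) ^ 2 := by positivity
      nlinarith
  obtain ⟨D', t', hD1, hct', hcD, hh⟩ := key
  obtain ⟨σ, hσ, hσs⟩ := sub_sum D' Q hD1 t' hh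
  refine ⟨Finset.univ.filter (fun j : Fin (2 * Q + 1) => (Q : ℤ) - (j : ℕ) ∈ σ), ?_⟩
  rw [← hct', ← hσs, Finset.mul_sum]
  refine Finset.sum_nbij' (fun j => (Q : ℤ) - ((j : Fin (2 * Q + 1)) : ℕ))
    (fun q => Fin.ofNat (2 * Q + 1) ((Q : ℤ) - q).toNat) ?_ ?_ ?_ ?_ ?_
  · intro j hj
    exact (Finset.mem_filter.mp hj).2
  · intro q hq
    have hq' := Finset.mem_Icc.mp (hσ hq)
    rw [Finset.mem_filter]
    refine ⟨Finset.mem_univ _, ?_⟩
    have e : ((Fin.ofNat (2 * Q + 1) ((Q : ℤ) - q).toNat : Fin (2 * Q + 1)) : ℕ) = ((Q : ℤ) - q).toNat := by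
      simp only [Fin.ofNat]
      exact Nat.mod_eq_of_lt (by omega)
    rw [e, Int.toNat_of_nonneg (by linarith [hq'.2])]
    simpa using hq
  · intro j hj
    apply Fin.ext
    simp only [Fin.ofNat]
    rw [Nat.mod_eq_of_lt]
    · omega
    · have := j.2; omega
  · intro q hq
    have hq' := Finset.mem_Icc.mp (hσ hq)
    have e : ((Fin.ofNat (2 * Q + 1) ((Q : ℤ) - q).toNat : Fin (2 * Q + 1)) : ℕ) = ((Q : ℤ) - q).toNat := by
      simp only [Fin.ofNat]
      exact Nat.mod_eq_of_lt (by omega)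
    simp only [e]
    rw [Int.toNat_of_nonneg (by linarith [hq'.2])]
    ring
  · intro j hj
    have : (c : ℤ) * (1 + D' * ((Q : ℤ) - (j : ℕ))) = c + (c * D') * ((Q : ℤ) - (j : ℕ)) := by ring
    rw [this, hcD]
    push_cast
    ring

end Pool.Agent.RVM
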