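import Pool.Agent.MP_c130bd_co.RVM.SpecA
import Pool.Agent.MP_c130bd_co.RVM.Arr
import Pool.Agent.MP_c130bd_co.RVM.Sub
import Pool.Agent.MP_c130bd_co.RVM.Conn

set_option autoImplicit false

namespace Pool.Agent.RVM

/-! ## [RVM-SPEC] the spectrum of the primitive Radon numbers -/

/-- Parity. Proof. `conn` and `Step`: `u + w = s - d - 1` is even, so `u - w` is even. -/
theorem parity {d s : ℕ} (hd : 1 ≤ d) (hs : d + 2 ≤ s) (hp : Odd (s + d)) {S S' : Finset (E d)}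
    (hS : GP S) (hS' : GP S') (hc : S.card = s) (hc' : S'.card = s) (i : ℕ) :
    (PP S i) % 2 = (PP S' i) % 2 := by
  have h := conn hd hs hS hS' hc hc'
  clear hS' hc'
  induction h with
  | refl => rfl
  | tail _ hst ih =>
    rw [ih]
    obtain ⟨_, _, _, _, h1 | ⟨q, u, w, _, _, hu, hm⟩⟩ := hst
    · rw [h1.1 i]
    · have h2 := hm.1 i
      obtain ⟨k, hk⟩ := hp
      have hev : ∃ e : ℤ, (u : ℤ) - w = 2 * e := ⟨(k : ℤ) - d - w, by omega⟩
      obtain ⟨e, he⟩ := hev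
      rw [he, mul_assoc] at h2
      omega

private theorem spec_filter1 {d u w : ℕ} [NeZero d] (F : Fin u ⊕ Fin w → E d)
    (h1 : ∀ k, 1 < F (Sum.inl k) 0) (h2 : ∀ k, F (Sum.inr k) 0 < -1) :
    (Finset.univ.filter fun k => 1 < F k 0).card = u := by
  have : (Finset.univ.filter fun k => 1 < F k 0) =
      (Finset.univ : Finset (Fin u)).map ⟨Sum.inl, Sum.inl_injective⟩ := by
    ext k
    rcases k with k | k
    · simp [h1 k]
    · have := h2 k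
      simp only [Finset.mem_filter, Finset.mem_univ, true_and, Finset.mem_map,
        Function.Embedding.coeFn_mk, reduceCtorEq, exists_false, iff_false, not_lt]
      linarith
  rw [this, Finset.card_map, Finset.card_univ, Fintype.card_fin]

private theorem spec_filter2 {d u w : ℕ} [NeZero d] (F : Fin u ⊕ Fin w → E d)
    (h1 : ∀ k, 1 < F (Sum.inl k) 0) (h2 : ∀ k, F (Sum.inr k) 0 < -1) :
    (Finset.univ.filter fun k => F k 0 < -1).card = w := by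
  have : (Finset.univ.filter fun k => F k 0 < -1) =
      (Finset.univ : Finset (Fin w)).map ⟨Sum.inr, Sum.inr_injective⟩ := by
    ext k
    rcases k with k | k
    · have := h1 k
      simp only [Finset.mem_filter, Finset.mem_univ, true_and, Finset.mem_map,
        Function.Embedding.coeFn_mk, reduceCtorEq, exists_false, iff_false, not_lt]
      linarith
    · simp [h2 k]
  rw [this, Finset.card_map, Finset.card_univ, Fintype.card_fin]

/-- The trivial upper bound. -/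
private theorem spec_bound {d s : ℕ} (hd : 1 ≤ d) (hs : d + 2 ≤ s) {S : Finset (E d)} (hS : GP S)
    (hc : S.card = s) (i : ℕ) : PP S i ≤ s ^ (d + 2) := by
  obtain ⟨p, hinj, himg⟩ := exists_param S
  have hι : d + 1 ≤ Fintype.card (Fin S.card) := by rw [Fintype.card_fin]; omega
  have hgp : GPc p := (gp_iff hinj hι).1 (by rw [himg]; exact hS)
  have e := pp_eq hgp hι hd i
  rw [himg] at e
  rw [e]
  unfold Pc
  classical
  refine (Finset.card_filter_le _ _).trans ?_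
  rw [Finset.card_powersetCard, Finset.card_univ, Fintype.card_fin, hc]
  exact Nat.choose_le_pow s (d + 2)

private theorem spec_tP1 {d i : ℕ} (h : i ≤ d / 2) : tP d i (i + 1) - tP d i i = -1 := by
  unfold tP
  rw [if_neg (by omega), if_pos (by omega)]
  norm_num

private theorem spec_tP2 {d a : ℕ} (h : a = d / 2) : tP d (a + 1) (a + 1) - tP d (a + 1) a = 1 := by
  unfold tP
  rw [if_pos (by omega), if_neg (by omega)]
  norm_num

/-- numerical facts about `Q` -/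
private theorem spec_num {D s : ℕ} (hD : 3 ≤ D) (hs : 200 * D ^ 2 ≤ Nat.sqrt s) :
    2 * (D * (2 * (Nat.sqrt s + 10 * D) + 1)) ≤ s ∧ D + 2 ≤ s - D * (2 * (Nat.sqrt s + 10 * D) + 1) ∧
    2 * (s + (Nat.sqrt s + 10 * D) + 2 * D) + 4 * D ^ 3 ≤ D * (Nat.sqrt s + 10 * D) ^ 2 := by
  have h1 := Nat.sqrt_le' s
  have h2 := Nat.lt_succ_sqrt' s
  set r := Nat.sqrt s with hr
  have h2' : s ≤ r ^ 2 + 2 * r := by
    have : (r + 1) ^ 2 = r ^ 2 + 2 * r + 1 := by ring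
    have h2'' : s < (r + 1) ^ 2 := h2
    omega
  have k1 : 2 * (D * (2 * (r + 10 * D) + 1)) + 2 * (D + 2) ≤ r ^ 2 := by
    have e1 : 200 * D ^ 2 * r ≤ r ^ 2 := by
      rw [pow_two r]; exact Nat.mul_le_mul_right r hs
    have e2 : D * r ≤ D ^ 2 * r := by
      apply Nat.mul_le_mul_right; nlinarith
    have e3 : 200 * D ^ 2 * 1 ≤ D ^ 2 * r := by nlinarith
    nlinarith
  refine ⟨by omega, by omega, ?_⟩
  have e4 : 2 * r ^ 2 ≤ D * r ^ 2 := Nat.mul_le_mul_right _ (by omega)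
  have e5 : 6 * r ≤ 20 * D ^ 2 * r := Nat.mul_le_mul_right _ (by nlinarith)
  have e6 : 24 * D ≤ 92 * D ^ 3 := by
    have : D ≤ D ^ 3 := by
      calc D = D * 1 := by ring
        _ ≤ D * D ^ 2 := Nat.mul_le_mul_left _ (by nlinarith)
        _ = D ^ 3 := by ring
    omega
  nlinarith

/-- **The spectrum of `P_i`.**

Proof. Let `D = d + 1`, `C = 100 D²`. Put `Q = √s + 10 D` (integer square root), `J = 2 Q + 1`, `g = D J`, `c = 1` or `2` with
`c ≡ s - D mod 2`. If `s ≤ 4 C²`, the hypotheses contradict `PP S₁ i ≤ choose s (d + 2) ≤ s^(d+2)` (`pc_sum`-like bound; `2 C s^(d+1) √s ≥ s^(d+2)`).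
Otherwise `g ≤ 23 D² √s ≤ s / 8`, `s - g = 2 h + c` (parities: `g ≡ D`), with `h ≥ d + 1`. Choose subsets `T₀ ⊆ S₀`, `T₁ ⊆ S₁` with `2 h + c` points;
`arrange` with `h₁ = h + c`, `h₂ = h`: `F₀`, `F₁`. `PP T₀ i ≤ PP S₀ i`, `PP S₁ i ≤ PP T₁ i + g choose (s-1) (d+1)` (`pp_subset`), and
`g choose (s - 1) (d + 1) ≤ 23 D² √s s^(d+1)`. So the hypotheses of `exists_near` hold with `a = i` if `i ≤ d / 2` and `a = i - 1` if `i = d / 2 + 1`.
We get `f`, `g` and small `ε` with `|v - n| ≤ s`, `v = Pc (pert f g ε ∅) i`. If `s + d` is odd, then `v ≡ PP S₀ i ≡ n mod 2` (`parity` for the set of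
the points of `pert f g ε ∅`, `pp_eq`) and `c = 2`; so `c ∣ v - n`. By `gad_all` `Pc (pert f g ε σ) i = v ± ∑_{j ∈ σ} (c + D (J - 1 - 2 j))` with the
sign `+` for `i = a + 1` and `-` for `i = a` (`tP d i (a + 1) - tP d i a = ± 1` since `2 a ≤ d`), and `sub_fin` gives `σ` with the sum
`± (n - v)`: `2 (s + Q + 2 D) ≤ D (Q² - 4 D²)` holds. `S` = the image of `pert f g ε σ` (`pert_gp`, `pp_eq`, `gp_iff`). -/
theorem spectrum (d : ℕ) (hd : 2 ≤ d) : ∀ s, d + 2 ≤ s → ∀ i, 1 ≤ i → i ≤ d / 2 + 1 →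
    ∀ S₀ S₁ : Finset (E d), GP S₀ → GP S₁ → S₀.card = s → S₁.card = s → ∀ n : ℕ,
    (Odd (s + d) → n % 2 = PP S₀ i % 2) →
    (PP S₀ i : ℝ) + 100 * (d + 1) ^ 2 * (s : ℝ) ^ (d + 1) * √s ≤ n →
    (n : ℝ) + 100 * (d + 1) ^ 2 * (s : ℝ) ^ (d + 1) * √s ≤ PP S₁ i →
    ∃ S : Finset (E d), GP S ∧ S.card = s ∧ PP S i = n := by
  intro s hs i hi1 hi2 S₀ S₁ hS₀ hS₁ hc₀ hc₁ n hpar hA hB
  haveI : NeZero d := ⟨by omega⟩
  have hd1 : 1 ≤ d := by omega
  have hspos : (0 : ℝ) < s := by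
    have : 0 < s := by omega
    exact_mod_cast this
  have hsq0 : 0 < √(s : ℝ) := Real.sqrt_pos.mpr hspos
  have hsqsq : √(s : ℝ) * √(s : ℝ) = s := Real.mul_self_sqrt hspos.le
  -- s is large
  have hbig : 200 * ((d : ℝ) + 1) ^ 2 ≤ √(s : ℝ) := by
    have h1 : (PP S₁ i : ℝ) ≤ (s : ℝ) ^ (d + 2) := by
      exact_mod_cast spec_bound hd1 hs hS₁ hc₁ i
    have h2 : 200 * ((d : ℝ) + 1) ^ 2 * (s : ℝ) ^ (d + 1) * √s ≤ (s : ℝ) ^ (d + 2) := by
      have h3 : (0 : ℝ) ≤ PP S₀ i := Nat.cast_nonneg _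
      linarith
    have hpow : (0 : ℝ) < (s : ℝ) ^ (d + 1) := by positivity
    have h4 : (s : ℝ) ^ (d + 2) = √(s : ℝ) * ((s : ℝ) ^ (d + 1) * √(s : ℝ)) := by
      calc (s : ℝ) ^ (d + 2) = (s : ℝ) ^ (d + 1) * s := pow_succ _ _
        _ = (s : ℝ) ^ (d + 1) * (√(s : ℝ) * √(s : ℝ)) := by rw [hsqsq]
        _ = _ := by ring
    rw [h4] at h2
    have h5 : 200 * ((d : ℝ) + 1) ^ 2 * ((s : ℝ) ^ (d + 1) * √(s : ℝ)) ≤
        √(s : ℝ) * ((s : ℝ) ^ (d + 1) * √(s : ℝ)) := by linarith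
    exact le_of_mul_le_mul_right h5 (by positivity)
  have hbigN : 200 * (d + 1) ^ 2 ≤ Nat.sqrt s := by
    rw [Nat.le_sqrt']
    have h1 : (200 * ((d : ℝ) + 1) ^ 2) ^ 2 ≤ (√(s : ℝ)) ^ 2 :=
      pow_le_pow_left₀ (by positivity) hbig 2
    rw [Real.sq_sqrt hspos.le] at h1
    exact_mod_cast h1
  obtain ⟨N1, N2, N3⟩ := spec_num (D := d + 1) (by omega) hbigN
  have hrle : (Nat.sqrt s : ℝ) ≤ √(s : ℝ) := Real.nat_sqrt_le_real_sqrt
  obtain ⟨Q, hQ⟩ : ∃ Q, Q = Nat.sqrt s + 10 * (d + 1) := ⟨_, rfl⟩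
  rw [← hQ] at N1 N2 N3
  obtain ⟨g₀, hg₀⟩ : ∃ g₀, g₀ = (d + 1) * (2 * Q + 1) := ⟨_, rfl⟩
  rw [← hg₀] at N1 N2
  -- c and h
  obtain ⟨c, h, hcc, hch, hcodd⟩ : ∃ c h : ℕ, (c = 1 ∨ c = 2) ∧ s - g₀ = 2 * h + c ∧
      (c = 2 → Odd (s + d)) := by
    rcases Nat.even_or_odd (s - g₀) with he | ho
    · obtain ⟨m, hm⟩ := he
      refine ⟨2, m - 1, Or.inr rfl, by omega, fun _ => ?_⟩
      have hgD : Odd (g₀ + d) := by
        rw [hg₀]
        have : (d + 1) * (2 * Q + 1) + d = 2 * ((d + 1) * Q + d) + 1 := by ring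
        rw [this]
        exact odd_two_mul_add_one _
      obtain ⟨k, hk⟩ := hgD
      refine ⟨k + m, by omega⟩
    · obtain ⟨m, hm⟩ := ho
      exact ⟨1, m, Or.inl rfl, by omega, fun h => by omega⟩
  have hsum : h + c + h + g₀ = s := by omega
  -- the estimate of the gadget contribution
  have hgad : ((g₀ * (s - 1).choose (d + 1) : ℕ) : ℝ) ≤
      100 * ((d : ℝ) + 1) ^ 2 * (s : ℝ) ^ (d + 1) * √s := by
    have h1 : (((s - 1).choose (d + 1) : ℕ) : ℝ) ≤ (s : ℝ) ^ (d + 1) := by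
      have : (s - 1).choose (d + 1) ≤ s ^ (d + 1) :=
        (Nat.choose_le_pow (s - 1) (d + 1)).trans (Nat.pow_le_pow_left (by omega) _)
      exact_mod_cast this
    have h2 : (g₀ : ℝ) ≤ 100 * ((d : ℝ) + 1) ^ 2 * √s := by
      have h3 : (g₀ : ℝ) = ((d : ℝ) + 1) * (2 * ((Nat.sqrt s : ℝ) + 10 * ((d : ℝ) + 1)) + 1) := by
        rw [hg₀, hQ]; push_cast; ring
      rw [h3]
      have hd0 : (0 : ℝ) ≤ d := Nat.cast_nonneg d
      have h1s : 1 ≤ √(s : ℝ) := by nlinarith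
      have hk : (Nat.sqrt s : ℝ) + 10 * ((d : ℝ) + 1) ≤ √s + 10 * ((d : ℝ) + 1) * √s := by nlinarith
      have hk2 : 2 * ((Nat.sqrt s : ℝ) + 10 * ((d : ℝ) + 1)) + 1 ≤ 23 * ((d : ℝ) + 1) * √s := by
        nlinarith
      calc ((d : ℝ) + 1) * (2 * ((Nat.sqrt s : ℝ) + 10 * ((d : ℝ) + 1)) + 1)
          ≤ ((d : ℝ) + 1) * (23 * ((d : ℝ) + 1) * √s) :=
            mul_le_mul_of_nonneg_left hk2 (by linarith)
        _ = 23 * (((d : ℝ) + 1) ^ 2 * √s) := by ring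
        _ ≤ 100 * (((d : ℝ) + 1) ^ 2 * √s) := by
            apply mul_le_mul_of_nonneg_right (by norm_num) (by positivity)
        _ = _ := by ring
    push_cast
    calc (g₀ : ℝ) * ((s - 1).choose (d + 1) : ℕ) ≤
        (100 * ((d : ℝ) + 1) ^ 2 * √s) * (s : ℝ) ^ (d + 1) :=
          mul_le_mul h2 h1 (Nat.cast_nonneg _) (by positivity)
      _ = _ := by ring
  -- the subsets
  obtain ⟨T₀, hT₀, hT₀c⟩ := Finset.exists_subset_card_eq (s := S₀) (n := s - g₀) (by omega)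
  obtain ⟨T₁, hT₁, hT₁c⟩ := Finset.exists_subset_card_eq (s := S₁) (n := s - g₀) (by omega)
  obtain ⟨gT₀, pT₀, _⟩ := pp_subset hd1 hS₀ hT₀ (by omega) i
  obtain ⟨gT₁, _, pT₁⟩ := pp_subset hd1 hS₁ hT₁ (by omega) i
  obtain ⟨F₀, aF₀, uF₀, dF₀, eF₀⟩ := arrange T₀ gT₀ (h + c) h (by omega) (by omega)
  obtain ⟨F₁, aF₁, uF₁, dF₁, eF₁⟩ := arrange T₁ gT₁ (h + c) h (by omega) (by omega)
  -- a
  obtain ⟨a, ha1, had, hsgn⟩ : ∃ a, 1 ≤ a ∧ a ≤ d ∧
      (tP d i (a + 1) - tP d i a = 1 ∨ tP d i (a + 1) - tP d i a = -1) := by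
    rcases Nat.lt_or_ge (d / 2) i with hlt | hge
    · refine ⟨d / 2, by omega, by omega, Or.inl ?_⟩
      have : i = d / 2 + 1 := by omega
      rw [this]
      exact spec_tP2 rfl
    · exact ⟨i, hi1, by omega, Or.inr (spec_tP1 hge)⟩
  have hJD : (2 * Q + 1) * (d + 1) = g₀ := by rw [hg₀]; ring
  have e1 : h + c + h + (2 * Q + 1) * (d + 1) - 1 = s - 1 := by rw [hJD]; omega
  have hn0 : Pc F₀ i + (2 * Q + 1) * (d + 1) * (h + c + h + (2 * Q + 1) * (d + 1) - 1).choose (d + 1) ≤ n := by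
    rw [e1, hJD, eF₀ i]
    have : ((PP T₀ i + g₀ * (s - 1).choose (d + 1) : ℕ) : ℝ) ≤ (n : ℝ) := by
      have k : (PP T₀ i : ℝ) ≤ PP S₀ i := by exact_mod_cast pT₀
      push_cast
      push_cast at hgad
      linarith
    exact_mod_cast this
  have hn1 : n ≤ Pc F₁ i := by
    rw [eF₁ i]
    have : (n : ℝ) ≤ (PP T₁ i : ℝ) := by
      rw [hc₁, hT₁c, show s - (s - g₀) = g₀ by omega] at pT₁
      have k : (PP S₁ i : ℝ) ≤ PP T₁ i + ((g₀ * (s - 1).choose (d + 1) : ℕ) : ℝ) := by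
        exact_mod_cast pT₁
      linarith
    exact_mod_cast this
  obtain ⟨f, g, G, uf, df, ε₀, hε₀, Hε₀⟩ := exists_near (J := 2 * Q + 1) ha1 had (by omega) F₀ F₁ aF₀ aF₁
    uF₀ dF₀ uF₁ dF₁ i n hn0 hn1
  have hz : ∀ k, 1 < |f k 0| := by
    rintro (k | k)
    · exact lt_of_lt_of_le (uf k) (le_abs_self _)
    · have := df k
      have h2 : -(f (Sum.inr k) 0) ≤ |f (Sum.inr k) 0| := neg_le_abs _
      linarith
  have hcard : Fintype.card ((Fin (h + c) ⊕ Fin h) ⊕ (Fin (2 * Q + 1) × Fin (d + 1))) = s := by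
    simp only [Fintype.card_sum, Fintype.card_prod, Fintype.card_fin]
    rw [hJD]; omega
  have hι : d + 2 ≤ Fintype.card ((Fin (h + c) ⊕ Fin h) ⊕ (Fin (2 * Q + 1) × Fin (d + 1))) := by
    rw [hcard]; omega
  have hι' : d + 1 ≤ Fintype.card ((Fin (h + c) ⊕ Fin h) ⊕ (Fin (2 * Q + 1) × Fin (d + 1))) := by
    omega
  obtain ⟨ε₁, he1, H1⟩ := pert_gp G
  obtain ⟨ε₂, he2, H2⟩ := gad_all G hz ha1 had hι
  obtain ⟨ε, hεpos, hεlt⟩ := exists_between (lt_min hε₀ (lt_min he1 he2))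
  have l0 : ε < ε₀ := lt_of_lt_of_le hεlt (min_le_left _ _)
  have l1 : ε < ε₁ := lt_of_lt_of_le hεlt ((min_le_right _ _).trans (min_le_left _ _))
  have l2 : ε < ε₂ := lt_of_lt_of_le hεlt ((min_le_right _ _).trans (min_le_right _ _))
  have near0 := Hε₀ ε hεpos l0
  have gpσ : ∀ σ, GPc (pert f g ε σ) := fun σ => (H1 ε hεpos l1 σ).1
  have injσ : ∀ σ, Function.Injective (pert f g ε σ) := fun σ => inj_of_gpc (gpσ σ) hι' hd1
  have GPσ : ∀ σ, GP (Finset.univ.image (pert f g ε σ)) := fun σ => (gp_iff (injσ σ) hι').2 (gpσ σ)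
  have cardσ : ∀ σ, (Finset.univ.image (pert f g ε σ)).card = s := fun σ => by
    rw [Finset.card_image_of_injective _ (injσ σ), Finset.card_univ, hcard]
  have PPσ : ∀ σ, PP (Finset.univ.image (pert f g ε σ)) i = Pc (pert f g ε σ) i := fun σ =>
    pp_eq (gpσ σ) hι' hd1 i
  obtain ⟨v, hv⟩ : ∃ v : ℤ, v = (Pc (pert f g ε ∅) i : ℤ) := ⟨_, rfl⟩
  rw [← hv] at near0
  have hdvd : (c : ℤ) ∣ (n : ℤ) - v := by
    rcases hcc with rfl | rfl
    · simp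
    · have ho := hcodd rfl
      have k1 := parity hd1 hs ho (GPσ ∅) hS₀ (cardσ ∅) hc₀ i
      rw [PPσ ∅] at k1
      have k2 := hpar ho
      omega
  -- the target of the subset sum
  obtain ⟨t, ht1, ht2, ht3⟩ : ∃ t : ℤ, (c : ℤ) ∣ t ∧ |t| ≤ s ∧
      v + t * (tP d i (a + 1) - tP d i a) = n := by
    have hab : |(n : ℤ) - v| ≤ s := by
      rw [abs_sub_comm]
      refine near0.trans (le_of_eq ?_)
      rw [← hsum, ← hJD]
      push_cast
      ring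
    rcases hsgn with h1 | h1
    · exact ⟨n - v, hdvd, hab, by rw [h1]; ring⟩
    · refine ⟨-(n - v), (dvd_neg).mpr hdvd, by rwa [abs_neg], by rw [h1]; ring⟩
  obtain ⟨σ, hσ⟩ := sub_fin d Q c hcc t ht1 (by
    have N3' : (2 * ((s : ℤ) + Q + 2 * (d + 1)) + 4 * ((d : ℤ) + 1) ^ 3) ≤ (d + 1) * (Q : ℤ) ^ 2 := by
      exact_mod_cast N3
    nlinarith)
  refine ⟨Finset.univ.image (pert f g ε σ), GPσ σ, cardσ σ, ?_⟩
  rw [PPσ σ]
  have hfin := H2 ε hεpos l2 σ i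
  rw [spec_filter1 f uf df, spec_filter2 f uf df, ← hv] at hfin
  have hsumeq : (∑ j ∈ σ, (((h + c : ℕ) : ℤ) - (h : ℕ) +
      (d + 1) * (((2 * Q + 1 : ℕ) : ℤ) - 1 - 2 * (j : ℕ)))) = t := by
    rw [← hσ]
    refine Finset.sum_congr rfl fun j _ => ?_
    push_cast
    ring
  rw [hsumeq, ht3] at hfin
  exact_mod_cast hfin

end Pool.Agent.RVM
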