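import Pool.Agent.MP_c130bd_co.RVM.Cnt
import Pool.Agent.MP_c130bd_co.RVM.DepC
import Pool.Agent.MP_c130bd_co.RVM.Gad
import Pool.Agent.MP_c130bd_co.RVM.Chain
import Pool.Agent.MP_c130bd_co.RVM.Mid

set_option autoImplicit false

namespace Pool.Agent.RVM

/-! ## [RVM-SPECA] the chain with gadgets -/

theorem SpecA_det {d : ℕ} [NeZero d] (z : Fin d → E d) (hz : LinearIndependent ℝ fun i => hv (z i))
    (h : ℝ) (hh : ∀ i, z i 0 = h) (v : E d) (hv0 : v 0 ≠ h) :
    D (fun k : Fin (d + 1) => (Fin.cons v z : Fin (d + 1) → E d) k) id ≠ 0 := by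
  intro h0
  unfold D at h0
  rw [← Matrix.exists_vecMul_eq_zero_iff] at h0
  obtain ⟨c, hc, hc0⟩ := h0
  have hcol : ∀ j, ∑ r, c r * hv ((Fin.cons v z : Fin (d + 1) → E d) r) j = 0 := by
    intro j
    have := congrFun hc0 j
    simpa [Matrix.vecMul, dotProduct] using this
  have hvec : c 0 • hv v + ∑ i : Fin d, c i.succ • hv (z i) = 0 := by
    funext j
    have := hcol j
    rw [Fin.sum_univ_succ] at this
    simpa using this
  have hc00 : c 0 ≠ 0 := by
    intro h00
    apply hc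
    rw [h00, zero_smul, zero_add] at hvec
    have := Fintype.linearIndependent_iff.1 hz (fun i => c i.succ) hvec
    funext r
    exact Fin.cases h00 (fun i => this i) r
  have e0 : c 0 + ∑ i : Fin d, c i.succ = 0 := by
    have := congrFun hvec 0
    simpa [hv] using this
  have e1 : c 0 * v 0 + (∑ i : Fin d, c i.succ) * h = 0 := by
    have := congrFun hvec (Fin.succ 0)
    simp only [hv, Pi.add_apply, Pi.smul_apply, Finset.sum_apply, Fin.cons_succ, smul_eq_mul, hh,
      Pi.zero_apply] at this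
    rw [Finset.sum_mul]
    exact this
  have e2 : c 0 * (v 0 - h) = 0 := by linear_combination e1 - h * e0
  rcases mul_eq_zero.1 e2 with h1 | h1
  · exact hc00 h1
  · exact hv0 (by linarith)

theorem SpecA_indep {d : ℕ} {ι : Type*} [DecidableEq ι] {M : Set (Set ι)} {p : ι → E d}
    (hp : AG M p) (ζ : Fin d → ι) (hζ : Function.Injective ζ) :
    LinearIndependent ℝ fun i => hv (p (ζ i)) := by
  have h1 := hp.ind (Finset.univ.image ζ) (by
    rw [Finset.card_image_of_injective _ hζ, Finset.card_univ, Fintype.card_fin])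
  have h2 := h1.comp (fun i : Fin d => (⟨ζ i, Finset.mem_image_of_mem _ (Finset.mem_univ _)⟩ :
    (Finset.univ.image ζ : Finset ι))) (by
      intro i j hij
      exact hζ (congrArg Subtype.val hij))
  exact h2

/-- the determinants of the perturbed families are continuous in `ε` -/
theorem SpecA_cont {d : ℕ} [NeZero d] {κ : Type*} {J : ℕ} (F : κ → E d)
    (g : Fin J × Fin (d + 1) → E d) (I : Fin (d + 1) → κ ⊕ (Fin J × Fin (d + 1))) :
    Continuous fun ε : ℝ => D (pert F g ε ∅) I := by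
  unfold D
  apply Continuous.matrix_det
  apply continuous_matrix
  intro r c
  simp only [Matrix.of_apply]
  refine Fin.cases ?_ (fun c' => ?_) c
  · simp only [hv, Fin.cons_zero]
    exact continuous_const
  · simp only [hv, Fin.cons_succ]
    rcases hI : I r with k | x
    · simp only [pert, Sum.elim_inl]
      exact continuous_const
    · simp only [pert, Sum.elim_inr, Finset.notMem_empty, if_false]
      by_cases hx : x.2 = 0
      · simp only [hx, if_true, Pi.add_apply]
        by_cases hc : c' = 0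
        · subst hc
          simp only [Pi.single_eq_same]
          fun_prop
        · simp only [Pi.single_eq_of_ne hc]
          exact continuous_const
      · simp only [hx, if_false]
        exact continuous_const

theorem SpecA_eps {d : ℕ} [NeZero d] {κ : Type*} {J : ℕ} (F : κ → E d)
    (g : Fin J × Fin (d + 1) → E d) (ε₀ : ℝ)
    (h : ∀ ε, 0 < ε → ε < ε₀ → GPc (pert F g ε ∅)) (ε ε' : ℝ) (h0 : 0 < ε) (h1 : ε < ε₀)
    (h0' : 0 < ε') (h1' : ε' < ε₀) (I : Fin (d + 1) → κ ⊕ (Fin J × Fin (d + 1)))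
    (hI : Function.Injective I) : 0 < D (pert F g ε ∅) I * D (pert F g ε' ∅) I := by
  by_contra hcon
  have hn : D (pert F g ε ∅) I ≠ 0 := h ε h0 h1 I hI
  have hn' : D (pert F g ε' ∅) I ≠ 0 := h ε' h0' h1' I hI
  have hlt : D (pert F g ε ∅) I * D (pert F g ε' ∅) I < 0 :=
    lt_of_le_of_ne (not_lt.1 hcon) (mul_ne_zero hn hn')
  have hpc : IsPreconnected (Set.Ioo 0 ε₀) := isPreconnected_Ioo
  have hc := (SpecA_cont F g I).continuousOn (s := Set.Ioo 0 ε₀)
  rcases mul_neg_iff.1 hlt with ⟨a1, a2⟩ | ⟨a1, a2⟩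
  · obtain ⟨t, ht, ht0⟩ := hpc.intermediate_value (a := ε') (b := ε) ⟨h0', h1'⟩ ⟨h0, h1⟩ hc
      (show (0 : ℝ) ∈ Set.Icc _ _ from ⟨a2.le, a1.le⟩)
    exact h t ht.1 ht.2 I hI ht0
  · obtain ⟨t, ht, ht0⟩ := hpc.intermediate_value (a := ε) (b := ε') ⟨h0, h1⟩ ⟨h0', h1'⟩ hc
      (show (0 : ℝ) ∈ Set.Icc _ _ from ⟨a1.le, a2.le⟩)
    exact h t ht.1 ht.2 I hI ht0

theorem SpecA_sign {a b c e : ℝ} (h1 : 0 < a * b) (h2 : 0 < a * c) (h3 : 0 < b * e) :
    0 < c * e := by
  rcases mul_pos_iff.1 h1 with ⟨x1, x2⟩ | ⟨x1, x2⟩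
  · have y1 : 0 < c := (mul_pos_iff_of_pos_left x1).1 h2
    have y2 : 0 < e := (mul_pos_iff_of_pos_left x2).1 h3
    exact mul_pos y1 y2
  · have y1 : c < 0 := by nlinarith
    have y2 : e < 0 := by nlinarith
    exact mul_pos_of_neg_of_neg y1 y2

/-- the set of the gadgets -/
def SpecAM (d J : ℕ) (κ : Type*) : Set (Set (κ ⊕ (Fin J × Fin (d + 1)))) :=
  {m | ∃ j, m = Sum.inr '' {x : Fin J × Fin (d + 1) | x.1 = j}}

/-- eventual value of `Pc` -/
def SpecAVal {d : ℕ} [NeZero d] {κ : Type*} [Fintype κ] [DecidableEq κ] {J : ℕ} (F : κ → E d)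
    (g : Fin J × Fin (d + 1) → E d) (i v : ℕ) : Prop :=
  ∃ ε₀ > 0, ∀ ε, 0 < ε → ε < ε₀ → Pc (pert F g ε ∅) i = v

theorem SpecA_val {d : ℕ} [NeZero d] {κ : Type*} [Fintype κ] [DecidableEq κ] {J a : ℕ}
    {F : κ → E d} {g : Fin J × Fin (d + 1) → E d} (G : Gadgets F J a g) (i : ℕ) :
    ∃ v, SpecAVal F g i v := by
  obtain ⟨ε₀, h0, h⟩ := pert_gp G
  refine ⟨Pc (pert F g (ε₀ / 2) ∅) i, ε₀, h0, fun ε he he' => ?_⟩
  have hgp : ∀ ε, 0 < ε → ε < ε₀ → GPc (pert F g ε ∅) := fun ε he he' => (h ε he he' ∅).1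
  exact pc_congr (hgp ε he he') (hgp (ε₀ / 2) (by linarith) (by linarith))
    (fun I hI => SpecA_eps F g ε₀ hgp ε (ε₀ / 2) he he' (by linarith) (by linarith) I hI) i

theorem SpecA_val_unique {d : ℕ} [NeZero d] {κ : Type*} [Fintype κ] [DecidableEq κ] {J : ℕ}
    {F : κ → E d} {g : Fin J × Fin (d + 1) → E d} {i v w : ℕ} (h : SpecAVal F g i v)
    (h' : SpecAVal F g i w) : v = w := by
  obtain ⟨ε₀, h0, h1⟩ := h
  obtain ⟨ε₁, h2, h3⟩ := h'
  have hm : 0 < min ε₀ ε₁ := lt_min h0 h2
  have e1 := h1 (min ε₀ ε₁ / 2) (by linarith) (by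
    have := min_le_left ε₀ ε₁
    linarith)
  have e2 := h3 (min ε₀ ε₁ / 2) (by linarith) (by
    have := min_le_right ε₀ ε₁
    linarith)
  rw [← e1, ← e2]

/-- the determinant of a gadget does not depend on the rest of the family -/
theorem SpecA_same {d : ℕ} [NeZero d] {κ : Type*} {J : ℕ} (f f' : κ → E d)
    (g : Fin J × Fin (d + 1) → E d) (ε : ℝ) (I : Fin (d + 1) → κ ⊕ (Fin J × Fin (d + 1)))
    (hI : Set.range I ∈ SpecAM d J κ) : D (pert f g ε ∅) I = D (pert f' g ε ∅) I := by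
  obtain ⟨j, hj⟩ := hI
  unfold D
  congr 2
  funext r c
  have h1 : I r ∈ Set.range I := ⟨r, rfl⟩
  rw [hj] at h1
  obtain ⟨x, _, hx⟩ := h1
  rw [← hx]
  rfl

/-- one step of the chain -/
theorem SpecA_step {d : ℕ} [NeZero d] {κ : Type*} [Fintype κ] [DecidableEq κ] {J a : ℕ}
    {f f' : κ → E d} {g : Fin J × Fin (d + 1) → E d} (G : Gadgets f J a g) (G' : Gadgets f' J a g)
    (U : κ ⊕ (Fin J × Fin (d + 1)) → Set (E d))
    (hA : Adj (SpecAM d J κ) U (Sum.elim f g) (Sum.elim f' g)) (i v v' : ℕ)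
    (hv : SpecAVal f g i v) (hv' : SpecAVal f' g i v') :
    |(v : ℤ) - v'| ≤ (Fintype.card κ : ℤ) + J * (d + 1) := by
  obtain ⟨e0, he0, h0⟩ := pert_gp G
  obtain ⟨e0', he0', h0'⟩ := pert_gp G'
  obtain ⟨e1, he1, h1⟩ := hv
  obtain ⟨e1', he1', h1'⟩ := hv'
  obtain ⟨ε, hε, a1, a2, a3, a4⟩ : ∃ ε > 0, ε < e0 ∧ ε < e0' ∧ ε < e1 ∧ ε < e1' := by
    have hm : 0 < min (min e0 e0') (min e1 e1') := lt_min (lt_min he0 he0') (lt_min he1 he1')
    have b1 := min_le_left (min e0 e0') (min e1 e1')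
    have b2 := min_le_right (min e0 e0') (min e1 e1')
    have b3 := min_le_left e0 e0'
    have b4 := min_le_right e0 e0'
    have b5 := min_le_left e1 e1'
    have b6 := min_le_right e1 e1'
    exact ⟨min (min e0 e0') (min e1 e1') / 2, by linarith, by linarith, by linarith, by linarith,
      by linarith⟩
  obtain ⟨gp, sg⟩ := h0 ε hε a1 ∅
  obtain ⟨gp', sg'⟩ := h0' ε hε a2 ∅
  rw [← h1 ε hε a3, ← h1' ε hε a4]
  have hcard : (Fintype.card (κ ⊕ (Fin J × Fin (d + 1))) : ℤ) =
      (Fintype.card κ : ℤ) + J * (d + 1) := by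
    rw [Fintype.card_sum, Fintype.card_prod, Fintype.card_fin, Fintype.card_fin]
    push_cast
    ring
  have hnn : (0 : ℤ) ≤ (Fintype.card κ : ℤ) + J * (d + 1) := by positivity
  obtain ⟨hag, hag', _, _, hcase⟩ := hA
  have hdet : ∀ I : Fin (d + 1) → κ ⊕ (Fin J × Fin (d + 1)), Function.Injective I →
      (Set.range I ∉ SpecAM d J κ → 0 < D (Sum.elim f g) I * D (Sum.elim f' g) I) →
      0 < D (pert f g ε ∅) I * D (pert f' g ε ∅) I := by
    intro I hI hpos
    by_cases hM : Set.range I ∈ SpecAM d J κ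
    · rw [← SpecA_same f f' g ε I hM]
      exact mul_self_pos.2 (gp I hI)
    · have h2 := hpos hM
      have h3 : D (Sum.elim f g) I ≠ 0 := fun h => hM ((hag.det I hI).1 h)
      have h4 : D (Sum.elim f' g) I ≠ 0 := fun h => hM ((hag'.det I hI).1 h)
      exact SpecA_sign h2 (sg I hI h3) (sg' I hI h4)
  rcases hcase with hc | ⟨q₀, x, ζ, hinj, hN, _, _, hsame⟩
  · have := pc_congr gp gp' (fun I hI => hdet I hI (hc I hI)) i
    rw [this, sub_self, abs_zero]
    exact hnn
  · have h5 := pc_near gp gp' (Finset.univ.image (Fin.cons x ζ : Fin (d + 1) → _))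
      (by rw [Finset.card_image_of_injective _ hinj, Finset.card_univ, Fintype.card_fin])
      (by
        intro I hI hne
        apply hdet I hI
        intro hM
        refine (hsame I hI ?_ hM).1
        intro heq
        apply hne
        rw [heq]
        simp) i
    rw [hcard] at h5
    have h6 : (0 : ℤ) ≤ d := Int.natCast_nonneg d
    linarith

/-- **The chain with gadgets.** `F₀` and `F₁` are families of `m = h₁ + h₂` points above and below of the slab; the numbers
`v` of the families with the `J` gadgets in their lower position change by at most `m + J (d + 1)` in each step of a chain from `F₀` to `F₁`.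

Proof. `mid` for `p = F₀`, `p' = F₁` (`U k` = the open half space `{v | 1 < v 0}` for `k = inl _` and `{v | v 0 < -1}` for `k = inr _`): `F₂` with the
orientations of `F₁`, so `Pc F₂ = Pc F₁` (`pc_congr`). `gen` for the family `Sum.elim F₀ F₂`: gadgets `g`. Let `p = Sum.elim F₀ g`,
`p' = Sum.elim F₂ g` with the index type `κ ⊕ (Fin J × Fin (d + 1))`; the mixtures are subfamilies of
`Sum.elim (Sum.elim F₀ F₂) g`, so they are almost general (`ag_comp`) with `M` = the sets of the gadgets. `chain` with `U` as above for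
the indices `inl _` and `univ` for `inr _` (`hM`: the determinant of `v` and `d` points of one gadget vanishes only for `v 0` = its
height, which is in `(0, 1)`, see `pert_gp`). Let `q → q'` be a step of the chain (`Adj`). Both have the form `Sum.elim f g`, `Sum.elim f' g` with `Gadgets f J a g`,
`Gadgets f' J a g`. For small `ε` the families `pert f g ε ∅` and `pert f' g ε ∅` have the same orientations except for at most one
`(d+1)`-set `N`, the range of `cons x ζ` (`pert_gp`; for the sets of `M` both families have the same points), so by `pc_near`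
their numbers `Pc` differ by at most `card - (d + 1)`. By `pc_sum_le` `Pc (pert f g ε ∅) i` is between `Pc f i` and
`Pc f i + J (d + 1) choose (m + J (d+1) - 1) (d + 1)`; use this for `f = F₀` and `f = F₂`. The number
`Pc (pert f g ε ∅) i` does not depend on the small `ε` (`pc_congr`). Now for the target `n` between the values of the
ends there is a member `f` of the chain whose value differs from `n` by at most `m + J (d + 1)` (discrete intermediate value theorem along the
`ReflTransGen`; induction). -/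
theorem exists_near {d : ℕ} [NeZero d] {h₁ h₂ J a : ℕ} (ha : 1 ≤ a) (had : a ≤ d)
    (hm : d + 1 ≤ h₁ + h₂) (F₀ F₁ : Fin h₁ ⊕ Fin h₂ → E d) (hF₀ : AG ∅ F₀) (hF₁ : AG ∅ F₁)
    (h0u : ∀ k, 1 < F₀ (Sum.inl k) 0) (h0d : ∀ k, F₀ (Sum.inr k) 0 < -1)
    (h1u : ∀ k, 1 < F₁ (Sum.inl k) 0) (h1d : ∀ k, F₁ (Sum.inr k) 0 < -1) (i n : ℕ)
    (hn0 : Pc F₀ i + J * (d + 1) * (h₁ + h₂ + J * (d + 1) - 1).choose (d + 1) ≤ n)
    (hn1 : n ≤ Pc F₁ i) :
    ∃ (f : Fin h₁ ⊕ Fin h₂ → E d) (g : Fin J × Fin (d + 1) → E d), Gadgets f J a g ∧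
      (∀ k, 1 < f (Sum.inl k) 0) ∧ (∀ k, f (Sum.inr k) 0 < -1) ∧
      ∃ ε₀ > 0, ∀ ε, 0 < ε → ε < ε₀ →
        |(Pc (pert f g ε ∅) i : ℤ) - n| ≤ (h₁ : ℤ) + h₂ + J * (d + 1) := by
  classical
  have hd : 1 ≤ d := Nat.one_le_iff_ne_zero.2 (NeZero.ne d)
  have hcardκ : Fintype.card (Fin h₁ ⊕ Fin h₂) = h₁ + h₂ := by
    rw [Fintype.card_sum, Fintype.card_fin, Fintype.card_fin]
  set U : Fin h₁ ⊕ Fin h₂ → Set (E d) :=
    Sum.elim (fun _ => {v | 1 < v 0}) (fun _ => {v | v 0 < -1}) with hU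
  have hUo : ∀ k, IsOpen (U k) := by
    rintro (k | k)
    · exact isOpen_lt continuous_const (continuous_apply 0)
    · exact isOpen_lt (continuous_apply 0) continuous_const
  have hUc : ∀ k, Convex ℝ (U k) := by
    rintro (k | k)
    · exact convex_halfSpace_gt (f := fun v : E d => v 0)
        ⟨fun _ _ => rfl, fun _ _ => rfl⟩ 1
    · exact convex_halfSpace_lt (f := fun v : E d => v 0)
        ⟨fun _ _ => rfl, fun _ _ => rfl⟩ (-1)
  have hU0 : ∀ k, F₀ k ∈ U k := by
    rintro (k | k)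
    · exact h0u k
    · exact h0d k
  have hU1 : ∀ k, F₁ k ∈ U k := by
    rintro (k | k)
    · exact h1u k
    · exact h1d k
  have hUabs : ∀ k, ∀ v ∈ U k, 1 < |v 0| := by
    rintro (k | k) v hv
    · exact lt_of_lt_of_le hv (le_abs_self _)
    · have h1 : v 0 < -1 := hv
      have h2 := neg_le_abs (v 0)
      linarith
  obtain ⟨F₂, hF2U, hF02, hF12, hF2s⟩ := mid (by rw [hcardκ]; exact hm) hd F₀ F₁ hF₀ hF₁ U hUo hU1
  have hF₂ : AG ∅ F₂ := by
    have := ag_comp hF12 Sum.inr Sum.inr_injective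
    simpa using this
  have hPc2 : Pc F₁ i = Pc F₂ i := pc_congr (gpc_of_ag hF₁) (gpc_of_ag hF₂) hF2s i
  obtain ⟨g, G⟩ := gen hF02 (by
    rintro (k | k)
    · exact hUabs k _ (hU0 k)
    · exact hUabs k _ (hF2U k)) J a ha had
  -- the mixtures
  set M : Set (Set ((Fin h₁ ⊕ Fin h₂) ⊕ (Fin J × Fin (d + 1)))) := SpecAM d J (Fin h₁ ⊕ Fin h₂)
    with hMdef
  have hmix : ∀ h : (Fin h₁ ⊕ Fin h₂) ⊕ (Fin J × Fin (d + 1)) → E d,
      (∀ k, h k = (Sum.elim F₀ g : _ → E d) k ∨ h k = (Sum.elim F₂ g : _ → E d) k) → AG M h := by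
    intro h hh
    let f : (Fin h₁ ⊕ Fin h₂) ⊕ (Fin J × Fin (d + 1)) →
        ((Fin h₁ ⊕ Fin h₂) ⊕ (Fin h₁ ⊕ Fin h₂)) ⊕ (Fin J × Fin (d + 1)) :=
      Sum.elim (fun k => if h (Sum.inl k) = F₀ k then Sum.inl (Sum.inl k) else Sum.inl (Sum.inr k))
        Sum.inr
    have hfinj : Function.Injective f := by
      rintro (k | x) (k' | x') hxx
      · simp only [f, Sum.elim_inl] at hxx
        split_ifs at hxx <;> simp_all
      · simp only [f, Sum.elim_inl, Sum.elim_inr] at hxx
        split_ifs at hxx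
      · simp only [f, Sum.elim_inl, Sum.elim_inr] at hxx
        split_ifs at hxx
      · simp only [f, Sum.elim_inr] at hxx
        rw [Sum.inr.inj hxx]
    have hcomp : (Sum.elim (Sum.elim F₀ F₂) g) ∘ f = h := by
      funext k
      rcases k with k | x
      · simp only [f, Function.comp_apply, Sum.elim_inl]
        split_ifs with h1
        · simp only [Sum.elim_inl]
          exact h1.symm
        · simp only [Sum.elim_inl, Sum.elim_inr]
          rcases hh (Sum.inl k) with h2 | h2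
          · exact absurd h2 h1
          · exact h2.symm
      · simp only [f, Function.comp_apply, Sum.elim_inr]
        rcases hh (Sum.inr x) with h2 | h2
        · exact h2.symm
        · exact h2.symm
    have h3 := ag_comp G.ag f hfinj
    rw [hcomp] at h3
    have h4 : {m | f '' m ∈ {m : Set (((Fin h₁ ⊕ Fin h₂) ⊕ (Fin h₁ ⊕ Fin h₂)) ⊕
        (Fin J × Fin (d + 1))) | ∃ j, m = Sum.inr '' {x | x.1 = j}}} = M := by
      ext m
      simp only [Set.mem_setOf_eq, hMdef, SpecAM]
      refine exists_congr fun j => ?_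
      have h5 : (Sum.inr '' {x : Fin J × Fin (d + 1) | x.1 = j} :
          Set (((Fin h₁ ⊕ Fin h₂) ⊕ (Fin h₁ ⊕ Fin h₂)) ⊕ (Fin J × Fin (d + 1)))) =
          f '' (Sum.inr '' {x : Fin J × Fin (d + 1) | x.1 = j}) := by
        rw [Set.image_image]
        rfl
      rw [h5]
      exact hfinj.image_injective.eq_iff
    rwa [h4] at h3
  set U' : (Fin h₁ ⊕ Fin h₂) ⊕ (Fin J × Fin (d + 1)) → Set (E d) :=
    Sum.elim U (fun _ => Set.univ) with hU'
  have hchain : Relation.ReflTransGen (Adj M U') (Sum.elim F₀ g) (Sum.elim F₂ g) := by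
    apply chain
    · rw [Fintype.card_sum, hcardκ]
      omega
    · rintro (k | x)
      · exact hUo k
      · exact isOpen_univ
    · rintro (k | x)
      · exact hUc k
      · exact convex_univ
    · rintro (k | x)
      · exact hU0 k
      · exact Set.mem_univ _
    · rintro (k | x)
      · exact hF2U k
      · exact Set.mem_univ _
    · exact hmix
    · rintro m ⟨j, rfl⟩ k ⟨x, _, rfl⟩
      rfl
    · rintro m ⟨j, rfl⟩ ζ hζ hζm y hy v hv
      rcases y with y | y
      · have hind := SpecA_indep (hmix (Sum.elim F₀ g) (fun k => Or.inl rfl)) ζ hζ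
        have hheight : ∀ i, ((Sum.elim F₀ g : _ → E d) ∘ ζ) i 0 = ((j : ℕ) + 1 : ℝ) / (J + 1) := by
          intro i
          obtain ⟨x, hx, hxi⟩ := hζm i
          simp only [Function.comp_apply, ← hxi, Sum.elim_inr]
          obtain ⟨j', i'⟩ := x
          simp only [Set.mem_setOf_eq] at hx
          subst hx
          exact G.height _ _
        refine SpecA_det _ hind _ hheight v ?_
        have h1 := hUabs y v hv
        have h2 : ((j : ℕ) + 1 : ℝ) / (J + 1) ≤ 1 := by
          rw [div_le_one (by positivity)]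
          have h3 : (j : ℕ) < J := j.2
          have h4 : ((j : ℕ) : ℝ) < J := by exact_mod_cast h3
          linarith
        have h5 : (0 : ℝ) ≤ ((j : ℕ) + 1 : ℝ) / (J + 1) := by positivity
        intro h6
        rw [h6, abs_of_nonneg h5] at h1
        linarith
      · exact absurd rfl hy
  -- the members of the chain
  set B : ℤ := (h₁ : ℤ) + h₂ + J * (d + 1) with hB
  have hB0 : 0 ≤ B := by positivity
  have hgood : ∀ q : (Fin h₁ ⊕ Fin h₂) ⊕ (Fin J × Fin (d + 1)) → E d, AG M q →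
      (∀ x, q (Sum.inr x) = g x) → ∃ f : Fin h₁ ⊕ Fin h₂ → E d, q = Sum.elim f g ∧
        Gadgets f J a g := by
    intro q hq hqg
    have e : q = Sum.elim (fun k => q (Sum.inl k)) g := by
      funext k
      rcases k with k | x
      · rfl
      · exact hqg x
    refine ⟨fun k => q (Sum.inl k), e, G.height, ?_, G.bary⟩
    rw [← e]
    exact hq
  have key : ∀ q, Relation.ReflTransGen (Adj M U') (Sum.elim F₀ g) q →
      ∃ f : Fin h₁ ⊕ Fin h₂ → E d, q = Sum.elim f g ∧ Gadgets f J a g ∧ (∀ k, f k ∈ U k) ∧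
        ∃ v, SpecAVal f g i v ∧ (v ≤ n ∨
          ∃ f' : Fin h₁ ⊕ Fin h₂ → E d, Gadgets f' J a g ∧ (∀ k, f' k ∈ U k) ∧
            ∃ v', SpecAVal f' g i v' ∧ |(v' : ℤ) - n| ≤ B) := by
    intro q hq
    induction hq with
    | refl =>
      obtain ⟨f, hf, Gf⟩ := hgood (Sum.elim F₀ g) (hmix _ (fun k => Or.inl rfl)) (fun x => rfl)
      have hfF : F₀ = f := by
        funext k
        exact congrFun hf (Sum.inl k)
      subst hfF
      obtain ⟨v, hv⟩ := SpecA_val Gf i
      refine ⟨F₀, rfl, Gf, hU0, v, hv, Or.inl ?_⟩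
      obtain ⟨ε₀, he0, he⟩ := hv
      have h1 := he (ε₀ / 2) (by linarith) (by linarith)
      have h2 := (pc_sum_le F₀ (fun x : Fin J × Fin (d + 1) => if x.2 = 0 then
        g x + Pi.single 0 (if x.1 ∈ (∅ : Finset (Fin J)) then ε₀ / 2 else -(ε₀ / 2)) else g x) i).2
      rw [← h1]
      refine le_trans (le_trans h2 (le_of_eq ?_)) hn0
      rw [hcardκ, Fintype.card_prod, Fintype.card_fin, Fintype.card_fin]
    | tail hqb hbc ih =>
      rename_i b c
      obtain ⟨f, rfl, Gf, hfU, v, hv, hcase⟩ := ih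
      have hcg : ∀ x, c (Sum.inr x) = g x := by
        intro x
        have := hbc.2.2.2.1 (Sum.inr '' {y : Fin J × Fin (d + 1) | y.1 = x.1}) ⟨x.1, rfl⟩
          (Sum.inr x) ⟨x, rfl, rfl⟩
        exact this.symm
      obtain ⟨f', hf', Gf'⟩ := hgood c hbc.2.1 hcg
      subst hf'
      have hf'U : ∀ k, f' k ∈ U k := fun k => (hbc.2.2.1 (Sum.inl k)).2
      obtain ⟨v', hv'⟩ := SpecA_val Gf' i
      refine ⟨f', rfl, Gf', hf'U, v', hv', ?_⟩
      rcases hcase with hle | hex
      · by_cases hle' : v' ≤ n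
        · exact Or.inl hle'
        · right
          refine ⟨f', Gf', hf'U, v', hv', ?_⟩
          have hst := SpecA_step Gf Gf' U' hbc i v v' hv hv'
          rw [hcardκ] at hst
          push_cast at hst
          rw [← hB] at hst
          push Not at hle'
          rw [abs_le] at hst ⊢
          constructor
          · have : (n : ℤ) < v' := by exact_mod_cast hle'
            linarith
          · have : (v : ℤ) ≤ n := by exact_mod_cast hle
            linarith [hst.1]
      · exact Or.inr hex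
  obtain ⟨f, hf, Gf, hfU, v, hv, hcase⟩ := key _ hchain
  have hfin : ∃ f' : Fin h₁ ⊕ Fin h₂ → E d, Gadgets f' J a g ∧ (∀ k, f' k ∈ U k) ∧
      ∃ v', SpecAVal f' g i v' ∧ |(v' : ℤ) - n| ≤ B := by
    rcases hcase with hle | hex
    · refine ⟨f, Gf, hfU, v, hv, ?_⟩
      have hfF : F₂ = f := by
        funext k
        exact congrFun hf (Sum.inl k)
      subst hfF
      obtain ⟨ε₀, he0, he⟩ := hv
      have h1 := he (ε₀ / 2) (by linarith) (by linarith)
      have h2 := (pc_sum_le F₂ (fun x : Fin J × Fin (d + 1) => if x.2 = 0 then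
        g x + Pi.single 0 (if x.1 ∈ (∅ : Finset (Fin J)) then ε₀ / 2 else -(ε₀ / 2)) else g x) i).1
      have h3 : Pc F₂ i ≤ v := by
        rw [← h1]
        exact h2
      have h4 : v = n := by omega
      rw [h4, sub_self, abs_zero]
      exact hB0
    · exact hex
  obtain ⟨f', Gf', hf'U, v', ⟨ε₀, he0, he⟩, hvn⟩ := hfin
  refine ⟨f', g, Gf', fun k => hf'U (Sum.inl k), fun k => hf'U (Sum.inr k), ε₀, he0,
    fun ε h1 h2 => ?_⟩
  rw [he ε h1 h2]
  exact hvn

end Pool.Agent.RVM
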